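import Pool.Agent.CDCut.Veblen

/-!
# Module `Bridge`: bridges and cuts of size one

**Proof.**  (→) If `cut Z = {e}` and `C` is a circuit through `e`, then `C ∩ cut Z = {e}` has odd
size, contradicting `even_inter_cut` (all degrees of `C` are 0 or 2).

(←) Let `e` be an edge that lies on no circuit.  Let `Z` be the set of all vertices `z` such that
there is a finite edge set `P` with `e ∉ P` whose degree at `v` is odd exactly when
(`v = fst e`) xor (`v = z`) (so `P` joins `fst e` to `z`).  Then `fst e ∈ Z` (take `P = ∅`).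
If `snd e ∈ Z` with `P`, then `insert e P` has all degrees even, hence `e` lies on a circuit
(`exists_circuit_mem`), a contradiction; so `snd e ∉ Z`.  If `f ≠ e` and one end of `f` is in `Z`
via `P`, then the other end is in `Z` via `symmDiff P {f}`.  Hence `cut Z = {e}`.
-/

open scoped Classical

namespace CDCut
namespace MGraph

variable {V E : Type} (G : MGraph V E)

/-- the parity of the degree in a single edge -/
theorem Bridge_even_singleton (f : E) (v : V) :
    Even (G.deg {f} v) ↔ (G.fst f = v ↔ G.snd f = v) := by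
  unfold deg
  rw [Finset.filter_singleton, Finset.filter_singleton]
  by_cases h1 : G.fst f = v <;> by_cases h2 : G.snd f = v <;> simp [h1, h2]

/-- `P` joins `x` to `z` -/
def Bridge_joins (P : Finset E) (x z : V) : Prop :=
  ∀ v, Even (G.deg P v) ↔ (x = v ↔ z = v)

theorem Bridge_step {P : Finset E} {x : V} (f : E) (h : G.Bridge_joins P x (G.fst f)) :
    G.Bridge_joins (symmDiff P {f}) x (G.snd f) := by
  intro v
  rw [even_deg_symmDiff, h v, Bridge_even_singleton]
  by_cases h1 : x = v <;> by_cases h2 : G.fst f = v <;> by_cases h3 : G.snd f = v <;>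
    simp [h1, h2, h3]

theorem Bridge_step' {P : Finset E} {x : V} (f : E) (h : G.Bridge_joins P x (G.snd f)) :
    G.Bridge_joins (symmDiff P {f}) x (G.fst f) := by
  intro v
  rw [even_deg_symmDiff, h v, Bridge_even_singleton]
  by_cases h1 : x = v <;> by_cases h2 : G.fst f = v <;> by_cases h3 : G.snd f = v <;>
    simp [h1, h2, h3]

theorem Bridge_notMem {P : Finset E} {e f : E} (h : e ∉ P) (hf : f ≠ e) :
    e ∉ symmDiff P {f} := by
  rw [Finset.mem_symmDiff]
  rintro (⟨h1, -⟩ | ⟨h1, -⟩)
  · exact h h1
  · exact hf (Finset.mem_singleton.1 h1).symm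

theorem bridgeless_iff [Fintype V] [Fintype E] :
    G.Bridgeless ↔ ∀ Z : Finset V, (G.cut Z).card ≠ 1 := by
  constructor
  · intro hG Z hZ
    obtain ⟨e, he⟩ := Finset.card_eq_one.1 hZ
    obtain ⟨C, hC, heC⟩ := hG e
    have h1 := G.even_inter_cut Z C (fun v _ => by
      rcases hC.2.1 v with h | h <;> rw [h]
      · exact ⟨0, rfl⟩
      · exact ⟨1, rfl⟩)
    have h2 : C ∩ G.cut Z = {e} := by
      rw [he]
      ext x
      simp only [Finset.mem_inter, Finset.mem_singleton]
      constructor
      · exact fun h => h.2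
      · rintro rfl; exact ⟨heC, rfl⟩
    rw [h2, Finset.card_singleton] at h1
    exact absurd h1 (by decide)
  · intro hcut e
    by_contra hno
    set Z : Finset V := Finset.univ.filter
      (fun z => ∃ P : Finset E, e ∉ P ∧ G.Bridge_joins P (G.fst e) z) with hZ
    have hmem : ∀ z, z ∈ Z ↔ ∃ P : Finset E, e ∉ P ∧ G.Bridge_joins P (G.fst e) z := by
      intro z; rw [hZ]; simp
    have h1 : G.fst e ∈ Z := by
      rw [hmem]
      refine ⟨∅, by simp, ?_⟩
      intro v
      rw [deg_empty]
      simp
    have h2 : G.snd e ∉ Z := by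
      intro h
      obtain ⟨P, heP, hP⟩ := (hmem _).1 h
      have h3 := G.Bridge_step' e hP
      have heQ : e ∈ symmDiff P {e} := by
        rw [Finset.mem_symmDiff]
        exact Or.inr ⟨Finset.mem_singleton_self e, heP⟩
      obtain ⟨D, -, hD, heD⟩ := G.exists_circuit_mem (symmDiff P {e})
        (fun v => (h3 v).2 (Iff.rfl)) heQ
      exact hno ⟨D, hD, heD⟩
    have h3 : G.cut Z = {e} := by
      ext f
      unfold cut
      rw [Finset.mem_filter, Finset.mem_singleton]
      constructor
      · rintro ⟨-, hf⟩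
        by_contra hne
        rcases hf with ⟨ha, hb⟩ | ⟨ha, hb⟩
        · obtain ⟨P, heP, hP⟩ := (hmem _).1 ha
          exact hb ((hmem _).2 ⟨symmDiff P {f}, Bridge_notMem heP hne, G.Bridge_step f hP⟩)
        · obtain ⟨P, heP, hP⟩ := (hmem _).1 hb
          exact ha ((hmem _).2 ⟨symmDiff P {f}, Bridge_notMem heP hne, G.Bridge_step' f hP⟩)
      · rintro rfl
        exact ⟨Finset.mem_univ _, Or.inl ⟨h1, h2⟩⟩
    exact hcut Z (by rw [h3, Finset.card_singleton])

end MGraph
end CDCut
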