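import Pool.Agent.CDCut.Inner

/-!
# Module `Close`: closing a side by two vertices of degree two

Let `X` be a side of a cyclic 4-edge-cut of a smallest counterexample and let the cut `δ(X)` be the
disjoint union of two pairs `p`, `q`.  Let `G'` be the graph `G.repl X H att` where `H` has two
vertices (`W = Fin 2`) and no edges (`K = Empty`) and `att e = 0` for `e ∈ p`, `att e = 1`
otherwise.

**`G'` is bridgeless.**  Use `card_cut_repl`.  Let `Z1 = tX X Z`, `L = cut Z1 ∩ cut X`,
`i = (cut Z1 \ cut X).card`, and let `M ∈ {∅, p, q, cut X}` be the set of `e ∈ cut X` with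
`att e ∈ tW X Z`.  The cut of `Z` has size `i + (L ∆ M).card`.  If `Z1 = ∅` then `i = 0`, `L = ∅`;
if `Z1 = X` then `i = 0`, `L = cut X`; in both cases the size is 0, 2 or 4.  Otherwise `Z1` and
`X \ Z1` are nonempty and by `three_le_card_cut`:
`i + L.card = (cut Z1).card ≥ 3` and `i + (4 - L.card) = (cut (X \ Z1)).card ≥ 3` (as
`cut (X \ Z1) = (cut Z1 \ cut X) ∪ (cut X \ cut Z1)`).  Suppose that the size is 1.  Then `i = 1`,
`(cut Z1).card = (cut (X \ Z1)).card = 3`, so `Z1.card = 1` and
`(X \ Z1).card = 1` by `card_cut_eq_three` (the complements contain `Xᶜ`, which has at least two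
elements by `inner_bounds`).  So `X` has two vertices and the only edges inside `X` are those of
`cut Z1 \ cut X` (there are no loops), so `(inside X).card = 1`, contradicting `inner_bounds`.

**Size.**  `G'` has `X.card + 2` vertices and `(number of edges meeting X)` edges, while
`Fintype.card V = X.card + Xᶜ.card` and `Fintype.card E = (number of edges meeting X) +
(inside Xᶜ).card` with `Xᶜ.card ≥ 2`, `(inside Xᶜ).card ≥ 2` (`inner_bounds` for `Xᶜ`).

So `G'` has a CDC, hence an even cover `F'`, and `F = F'.map (res X)` is a cover of the side `X`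
(`sideCover_res`).  By `even_res` at the two vertices of `H`, for every member `C` of `F` the
numbers `(C ∩ p).card` and `(C ∩ q).card` are even, so its trace is one of `∅, p, q, p ∪ q`.
Counting at an element of `p` and an element of `q`: if `n, m, k` are the multiplicities of
`p ∪ q`, `p`, `q` among the traces then `n + m = 2`, `n + k = 2`.  So the type is one of the three
listed ones.
-/

open scoped Classical

namespace CDCut
namespace MGraph

variable {V E : Type} (G : MGraph V E)

namespace Close

/-- Two vertices, no edges. -/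
def two : MGraph (Fin 2) Empty := ⟨Empty.elim, Empty.elim⟩

/-- The attachment. -/
noncomputable def att (p : Finset E) (e : E) : Fin 2 := if e ∈ p then 0 else 1

theorem att_eq_zero {p : Finset E} {e : E} : att p e = 0 ↔ e ∈ p := by
  unfold att
  split_ifs with h <;> simp [h]

theorem att_eq_one {p : Finset E} {e : E} : att p e = 1 ↔ e ∉ p := by
  unfold att
  split_ifs with h <;> simp [h]

theorem fin_cases' (a : Fin 2) : a = 0 ∨ a = 1 := by
  revert a
  decide

theorem cut_sdiff [Fintype E] {X Z : Finset V} (h : Z ⊆ X) :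
    G.cut (X \ Z) = (G.cut Z \ G.cut X) ∪ (G.cut X \ G.cut Z) := by
  ext e
  have h1 : G.fst e ∈ Z → G.fst e ∈ X := fun hh => h hh
  have h2 : G.snd e ∈ Z → G.snd e ∈ X := fun hh => h hh
  simp only [cut, Finset.mem_filter, Finset.mem_univ, true_and, Finset.mem_union,
    Finset.mem_sdiff]
  tauto

/-- The parity of the part of the cut attached to `A`. -/
theorem even_M {T p q : Finset E} (hp : p.card = 2) (hq : q.card = 2) (hpq : Disjoint p q)
    (hu : p ∪ q = T) (A : Finset (Fin 2)) : Even (T.filter fun e => att p e ∈ A).card := by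
  have h1 : (T.filter fun e => att p e ∈ A).card =
      (p.filter fun e => att p e ∈ A).card + (q.filter fun e => att p e ∈ A).card := by
    rw [← hu, Finset.filter_union,
      Finset.card_union_of_disjoint (Finset.disjoint_filter_filter hpq)]
  have h2 : (p.filter fun e => att p e ∈ A).card = if (0 : Fin 2) ∈ A then 2 else 0 := by
    split_ifs with h
    · rw [Finset.filter_true_of_mem, hp]
      intro e he
      rw [att_eq_zero.2 he]
      exact h
    · rw [Finset.filter_false_of_mem, Finset.card_empty]
      intro e he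
      rw [att_eq_zero.2 he]
      exact h
  have h3 : (q.filter fun e => att p e ∈ A).card = if (1 : Fin 2) ∈ A then 2 else 0 := by
    have hqp : ∀ e ∈ q, att p e = 1 := fun e he =>
      att_eq_one.2 fun hep => Finset.disjoint_left.1 hpq hep he
    split_ifs with h
    · rw [Finset.filter_true_of_mem, hq]
      intro e he
      rw [hqp e he]
      exact h
    · rw [Finset.filter_false_of_mem, Finset.card_empty]
      intro e he
      rw [hqp e he]
      exact h
  rw [h1, h2, h3]
  split_ifs <;> decide

theorem bridgeless [Fintype V] [Fintype E] (hG : G.IsSmallestCounterexample)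
    (X : Finset V) (hX : G.IsCyclicFourCut X) (p q : Finset E) (hp : p.card = 2)
    (hq : q.card = 2) (hpq : Disjoint p q) (hu : p ∪ q = G.cut X) :
    (G.repl X two (att p)).Bridgeless := by
  obtain ⟨hi1, hi2⟩ := G.exists_inner_circuit hG X hX
  obtain ⟨b1, b2⟩ := G.inner_bounds hG X hi1
  obtain ⟨b3, b4⟩ := G.inner_bounds hG Xᶜ hi2
  rw [bridgeless_iff]
  intro Z hZ
  rw [card_cut_repl] at hZ
  have h0 : (two.cut (tW X Z)).card = 0 := by
    rw [Finset.card_eq_zero]
    exact Finset.eq_empty_of_isEmpty _
  rw [h0, add_zero] at hZ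
  set Z1 := tX X Z with hZ1
  have hsub : Z1 ⊆ X := tX_subset X Z
  set T := G.cut X with hT
  have hT4 : T.card = 4 := hX.2.2.1
  set M := T.filter fun e => att p e ∈ tW X Z with hM
  have hMe : Even M.card := even_M hp hq hpq hu _
  set L := G.cut Z1 ∩ T with hL
  replace hZ : (G.cut Z1 \ T).card + (symmDiff L M).card = 1 := by
    refine (congrArg (fun s : Finset E => (G.cut Z1 \ T).card + s.card)
      (Finset.ext fun e => ?_)).trans hZ
    simp only [Finset.mem_filter, Finset.mem_symmDiff, hL, hM, Finset.mem_inter]
    tauto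
  have hsd := card_symmDiff_add L M
  have hiL : (G.cut Z1 \ T).card + L.card = (G.cut Z1).card :=
    Finset.card_sdiff_add_card_inter _ _
  by_cases hZe : Z1 = ∅
  · have e1 : G.cut Z1 = ∅ := by rw [hZe, cut_empty]
    have e2 : L = ∅ := by rw [hL, e1, Finset.empty_inter]
    rw [e1, Finset.empty_sdiff, Finset.card_empty] at hZ
    rw [e2, Finset.empty_inter, Finset.card_empty, ← e2] at hsd
    obtain ⟨m, hm⟩ := hMe
    omega
  by_cases hZX : Z1 = X
  · have e2 : L = T := by rw [hL, hZX, ← hT, Finset.inter_self]
    have e3 : (G.cut Z1 \ T).card = 0 := by rw [hZX, ← hT, sdiff_self]; rfl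
    rw [e2, hT4] at hsd
    rw [e3, e2] at hZ
    obtain ⟨m, hm⟩ := hMe
    omega
  have hne1 : Z1.Nonempty := Finset.nonempty_iff_ne_empty.2 hZe
  have hne2 : (X \ Z1).Nonempty := by
    rw [Finset.sdiff_nonempty]
    intro h
    exact hZX (Finset.Subset.antisymm hsub h)
  have hXu : ∃ v, v ∉ X := by
    obtain ⟨v, hv⟩ := Finset.card_pos.1 (by omega : 0 < Xᶜ.card)
    exact ⟨v, Finset.mem_compl.1 hv⟩
  obtain ⟨v0, hv0⟩ := hXu
  have t1 := G.three_le_card_cut hG Z1 hne1 (fun h => hv0 (hsub (h ▸ Finset.mem_univ v0)))
  have t2 := G.three_le_card_cut hG (X \ Z1) hne2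
    (fun h => hv0 (Finset.sdiff_subset (h ▸ Finset.mem_univ v0)))
  have hc2 : (G.cut (X \ Z1)).card = (G.cut Z1 \ T).card + (T \ G.cut Z1).card := by
    rw [cut_sdiff G hsub, Finset.card_union_of_disjoint disjoint_sdiff_sdiff]
  have hTL : (T \ G.cut Z1).card + L.card = 4 := by
    have := Finset.card_sdiff_add_card_inter T (G.cut Z1)
    rw [Finset.inter_comm, ← hL, hT4] at this
    exact this
  have hi : (G.cut Z1 \ T).card = 1 := by omega
  have c1 : (G.cut Z1).card = 3 := by omega
  have c2 : (G.cut (X \ Z1)).card = 3 := by omega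
  have d1 : Z1.card = 1 := by
    rcases G.card_cut_eq_three hG _ c1 with h | h
    · exact h
    · exfalso
      have := Finset.card_le_card (Finset.compl_subset_compl.2 hsub)
      omega
  have d2 : (X \ Z1).card = 1 := by
    rcases G.card_cut_eq_three hG _ c2 with h | h
    · exact h
    · exfalso
      have := Finset.card_le_card (Finset.compl_subset_compl.2 (Finset.sdiff_subset : X \ Z1 ⊆ X))
      omega
  obtain ⟨a, ha⟩ := Finset.card_eq_one.1 d1
  obtain ⟨b, hb⟩ := Finset.card_eq_one.1 d2
  have hin : G.inside X ⊆ G.cut Z1 \ T := by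
    intro e he
    rw [inside, Finset.mem_filter] at he
    obtain ⟨-, he1, he2⟩ := he
    have hl := G.no_loop hG e
    have key : ∀ v ∈ X, v ∉ Z1 → v = b := by
      intro v hv hv'
      have : v ∈ X \ Z1 := Finset.mem_sdiff.2 ⟨hv, hv'⟩
      rw [hb] at this
      exact Finset.mem_singleton.1 this
    have key' : ∀ v ∈ Z1, v = a := by
      intro v hv
      rw [ha] at hv
      exact Finset.mem_singleton.1 hv
    rw [Finset.mem_sdiff, hT, cut, cut, Finset.mem_filter, Finset.mem_filter]
    refine ⟨⟨Finset.mem_univ _, ?_⟩, ?_⟩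
    · by_cases f1 : G.fst e ∈ Z1 <;> by_cases f2 : G.snd e ∈ Z1
      · exact absurd ((key' _ f1).trans (key' _ f2).symm) hl
      · exact Or.inl ⟨f1, f2⟩
      · exact Or.inr ⟨f1, f2⟩
      · exact absurd ((key _ he1 f1).trans (key _ he2 f2).symm) hl
    · rintro ⟨-, h | h⟩
      · exact h.2 he2
      · exact h.1 he1
  have := Finset.card_le_card hin
  omega

theorem multiset_cases {α : Type*} [DecidableEq α] (t : Multiset α) {P Q T : α} (h1 : P ≠ Q)
    (h2 : P ≠ T) (h3 : Q ≠ T) (hmem : ∀ D ∈ t, D = P ∨ D = Q ∨ D = T)
    (c1 : t.count P + t.count T = 2) (c2 : t.count Q + t.count T = 2) :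
    t = {T, T} ∨ t = {T, P, Q} ∨ t = {P, Q, P, Q} := by
  have key : ∀ s : Multiset α, (∀ D ∈ s, D = P ∨ D = Q ∨ D = T) → t.count P = s.count P →
      t.count Q = s.count Q → t.count T = s.count T → t = s := by
    intro s hs e1 e2 e3
    rw [Multiset.ext]
    intro D
    by_cases hP : D = P
    · rw [hP, e1]
    by_cases hQ : D = Q
    · rw [hQ, e2]
    by_cases hT : D = T
    · rw [hT, e3]
    rw [Multiset.count_eq_zero.2, Multiset.count_eq_zero.2]
    · intro h
      rcases hs D h with h | h | h
      · exact hP h
      · exact hQ h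
      · exact hT h
    · intro h
      rcases hmem D h with h | h | h
      · exact hP h
      · exact hQ h
      · exact hT h
  have hn : t.count T ≤ 2 := by omega
  obtain ⟨n, hn'⟩ : ∃ n, t.count T = n := ⟨_, rfl⟩
  rw [hn'] at c1 c2 hn
  interval_cases n
  · right; right
    apply key
    · intro D hD
      simp only [Multiset.insert_eq_cons, Multiset.mem_cons, Multiset.mem_singleton] at hD
      tauto
    · simp only [Multiset.insert_eq_cons, Multiset.count_cons, Multiset.count_singleton, if_true,
        h1, h1.symm, if_false]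
      omega
    · simp only [Multiset.insert_eq_cons, Multiset.count_cons, Multiset.count_singleton, if_true,
        h1, h1.symm, if_false]
      omega
    · simp only [Multiset.insert_eq_cons, Multiset.count_cons, Multiset.count_singleton, if_true,
        h2.symm, h3.symm, if_false]
      omega
  · right; left
    apply key
    · intro D hD
      simp only [Multiset.insert_eq_cons, Multiset.mem_cons, Multiset.mem_singleton] at hD
      tauto
    · simp only [Multiset.insert_eq_cons, Multiset.count_cons, Multiset.count_singleton, if_true,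
        h1, h2, if_false]
      omega
    · simp only [Multiset.insert_eq_cons, Multiset.count_cons, Multiset.count_singleton, if_true,
        h1.symm, h3, if_false]
      omega
    · simp only [Multiset.insert_eq_cons, Multiset.count_cons, Multiset.count_singleton, if_true,
        h2.symm, h3.symm, if_false]
      omega
  · left
    apply key
    · intro D hD
      simp only [Multiset.insert_eq_cons, Multiset.mem_cons, Multiset.mem_singleton] at hD
      tauto
    · simp only [Multiset.insert_eq_cons, Multiset.count_cons, Multiset.count_singleton,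
        h2, if_false]
      omega
    · simp only [Multiset.insert_eq_cons, Multiset.count_cons, Multiset.count_singleton,
        h3, if_false]
      omega
    · simp only [Multiset.insert_eq_cons, Multiset.count_cons, Multiset.count_singleton, if_true]
      omega

theorem count_two {t : Multiset (Finset E)} {P Q T : Finset E} {e : E} (h2 : P ≠ T)
    (hmem : ∀ D ∈ t, D = P ∨ D = Q ∨ D = T) (hP : e ∈ P) (hT : e ∈ T) (hQ : e ∉ Q) :
    t.countP (fun D => e ∈ D) = t.count P + t.count T := by
  induction t using Multiset.induction_on with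
  | empty => simp
  | cons a t ih =>
    rw [Multiset.countP_cons, Multiset.count_cons, Multiset.count_cons,
      ih fun D hD => hmem D (Multiset.mem_cons_of_mem hD)]
    have hQP : Q ≠ P := fun h => hQ (h ▸ hP)
    have hQT : Q ≠ T := fun h => hQ (h ▸ hT)
    rcases hmem a (Multiset.mem_cons_self a t) with rfl | rfl | rfl
    · rw [if_pos hP, if_pos rfl, if_neg (Ne.symm h2)]
      omega
    · rw [if_neg hQ, if_neg hQP.symm, if_neg hQT.symm]
      omega
    · rw [if_pos hT, if_neg h2, if_pos rfl]
      omega

theorem sub_pair {p C : Finset E} (hp : p.card = 2) (h : Even (C ∩ p).card) :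
    C ∩ p = ∅ ∨ C ∩ p = p := by
  have h1 : (C ∩ p).card ≤ 2 := hp ▸ Finset.card_le_card Finset.inter_subset_right
  obtain ⟨m, hm⟩ := h
  rcases Nat.lt_or_ge m 1 with h2 | h2
  · left
    rw [← Finset.card_eq_zero]
    omega
  · right
    apply Finset.eq_of_subset_of_card_le Finset.inter_subset_right
    omega

end Close

open Close

theorem close_types [Fintype V] [Fintype E] (hG : G.IsSmallestCounterexample)
    (X : Finset V) (hX : G.IsCyclicFourCut X) (p q : Finset E) (hp : p.card = 2)
    (hq : q.card = 2) (hpq : Disjoint p q) (hu : p ∪ q = G.cut X) :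
    ({G.cut X, G.cut X} : Multiset (Finset E)) ∈ G.coverTypes X ∨
    ({G.cut X, p, q} : Multiset (Finset E)) ∈ G.coverTypes X ∨
    ({p, q, p, q} : Multiset (Finset E)) ∈ G.coverTypes X := by
  have hbr := Close.bridgeless G hG X hX p q hp hq hpq hu
  set G' := G.repl X two (att p) with hG'
  obtain ⟨hi1, hi2⟩ := G.exists_inner_circuit hG X hX
  obtain ⟨b1, b2⟩ := G.inner_bounds hG X hi1
  obtain ⟨b3, b4⟩ := G.inner_bounds hG Xᶜ hi2
  have hV := card_repl_vertices (W := Fin 2) X
  have hE := G.card_repl_edges (K := Empty) X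
  rw [Fintype.card_fin] at hV
  rw [Fintype.card_empty] at hE
  have hle : (Finset.univ.filter fun e => G.Meets X e).card + (G.inside Xᶜ).card =
      Fintype.card E := by
    have h1 : G.inside Xᶜ = Finset.univ.filter fun e => ¬ G.Meets X e := by
      ext e
      simp only [inside, Meets, Finset.mem_filter, Finset.mem_univ, true_and, Finset.mem_compl]
      tauto
    rw [h1]
    exact Finset.card_filter_add_card_filter_not _
  have hc := Finset.card_add_card_compl X
  have hncex : ¬ G'.IsCounterexample := by
    intro h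
    have h1 := hG.2 _ _ G' h
    omega
  have hcdc : G'.HasCDC := by
    by_contra h
    exact hncex ⟨hbr, h⟩
  obtain ⟨F', hF'⟩ := G'.exists_evenCover_of_hasCDC hcdc
  have hF := G.sideCover_res X two (att p) F' hF'
  set F := F'.map (G.res X) with hFdef
  -- the traces
  have hpT : p ⊆ G.cut X := by rw [← hu]; exact Finset.subset_union_left
  have hqT : q ⊆ G.cut X := by rw [← hu]; exact Finset.subset_union_right
  have hdeg : ∀ (D : Finset Empty) (w : Fin 2), two.deg D w = 0 := by
    intro D w
    have : D = ∅ := Finset.eq_empty_of_isEmpty _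
    rw [this, deg_empty]
  have htr : ∀ C ∈ F, (C ∩ p = ∅ ∨ C ∩ p = p) ∧ (C ∩ q = ∅ ∨ C ∩ q = q) := by
    intro C hC
    obtain ⟨C', hC', rfl⟩ := Multiset.mem_map.1 hC
    have e0 := G.even_res X two (att p) C' (hF'.1 C' hC') 0
    have e1 := G.even_res X two (att p) C' (hF'.1 C' hC') 1
    rw [hdeg, add_zero] at e0 e1
    constructor
    · apply sub_pair hp
      convert e0 using 2
      ext e
      simp only [Finset.mem_filter, Finset.mem_inter, att_eq_zero]
      constructor
      · rintro ⟨h1, h2⟩
        exact ⟨⟨h1, hpT h2⟩, h2⟩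
      · rintro ⟨⟨h1, -⟩, h2⟩
        exact ⟨h1, h2⟩
    · apply sub_pair hq
      convert e1 using 2
      ext e
      simp only [Finset.mem_filter, Finset.mem_inter, att_eq_one]
      constructor
      · rintro ⟨h1, h2⟩
        exact ⟨⟨h1, hqT h2⟩, fun h3 => Finset.disjoint_left.1 hpq h3 h2⟩
      · rintro ⟨⟨h1, h2⟩, h3⟩
        rw [← hu, Finset.mem_union] at h2
        exact ⟨h1, h2.resolve_left h3⟩
  set t : Multiset (Finset E) := (F.map fun C => C ∩ G.cut X).filter fun D => D ≠ ∅ with ht
  have htmem : t ∈ G.coverTypes X := ⟨F, hF, rfl⟩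
  have hmem : ∀ D ∈ t, D = p ∨ D = q ∨ D = G.cut X := by
    intro D hD
    rw [ht, Multiset.mem_filter, Multiset.mem_map] at hD
    obtain ⟨⟨C, hC, rfl⟩, hne⟩ := hD
    obtain ⟨h1, h2⟩ := htr C hC
    rw [← hu, Finset.inter_union_distrib_left] at hne ⊢
    rcases h1 with h1 | h1 <;> rcases h2 with h2 | h2 <;> rw [h1, h2] at hne ⊢
    · exact absurd (Finset.empty_union _) hne
    · right; left; exact Finset.empty_union _
    · left; exact Finset.union_empty _
    · right; right; rfl
  obtain ⟨x, hx⟩ := Finset.card_pos.1 (by omega : 0 < p.card)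
  obtain ⟨y, hy⟩ := Finset.card_pos.1 (by omega : 0 < q.card)
  have hxq : x ∉ q := fun h => Finset.disjoint_left.1 hpq hx h
  have hyp : y ∉ p := fun h => Finset.disjoint_left.1 hpq h hy
  have n1 : p ≠ q := fun h => hxq (h ▸ hx)
  have n2 : p ≠ G.cut X := fun h => hyp (h ▸ hqT hy)
  have n3 : q ≠ G.cut X := fun h => hxq (h ▸ hpT hx)
  have hcount : ∀ e ∈ G.cut X, t.countP (fun D => e ∈ D) = 2 := by
    intro e he
    have hm : G.Meets X e := by
      rw [cut, Finset.mem_filter] at he
      unfold Meets
      tauto
    rw [← hF.2 e hm, ht, Multiset.countP_filter, Multiset.countP_map,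
      ← Multiset.countP_eq_card_filter]
    apply Multiset.countP_congr rfl
    intro C _
    simp only [Finset.mem_inter, eq_iff_iff]
    constructor
    · rintro ⟨⟨h1, -⟩, -⟩
      exact h1
    · intro h1
      exact ⟨⟨h1, he⟩, Finset.ne_empty_of_mem (Finset.mem_inter.2 ⟨h1, he⟩)⟩
  have c1 : t.count p + t.count (G.cut X) = 2 := by
    rw [← count_two (Q := q) n2 hmem hx (hpT hx) hxq]
    exact hcount x (hpT hx)
  have c2 : t.count q + t.count (G.cut X) = 2 := by
    rw [← count_two (Q := p) n3 (fun D hD => by rcases hmem D hD with h | h | h <;> tauto)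
      hy (hqT hy) hyp]
    exact hcount y (hqT hy)
  rcases multiset_cases t n1 n2 n3 hmem c1 c2 with h | h | h
  · left; rw [← h]; exact htmem
  · right; left; rw [← h]; exact htmem
  · right; right; rw [← h]; exact htmem

end MGraph
end CDCut
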