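import Pool.Agent.CDCut.Core

/-!
# Module `Codes`: the sets `typeS`, `typeT` in terms of codes
-/

namespace CDCut

variable {E : Type}

/-- the patterns of `tr` -/
def ptr : Fin 4 → Multiset (Bool × Bool × Bool × Bool) :=
  ![{(true, true, true, true)},
    {(true, false, true, false), (false, true, false, true)},
    {(true, false, false, true), (false, true, true, false)},
    {(true, true, false, false), (false, false, true, true)}]

instance instDecMulti : DecidableEq (Multiset (Bool × Bool × Bool × Bool)) := inferInstance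

theorem ptr_S : ∀ i j : Fin 4, (ptr i + ptr j = ptr 0 + ptr 0 ∨ ptr i + ptr j = ptr 0 + ptr 1 ∨
    ptr i + ptr j = ptr 0 + ptr 2 ∨ ptr i + ptr j = ptr 1 + ptr 2) →
    (i ≠ 3 ∧ j ≠ 3 ∧ (i = j → i = 0)) := by decide

theorem ptr_T : ∀ i j : Fin 4, (ptr i + ptr j = ptr 1 + ptr 1 ∨ ptr i + ptr j = ptr 2 + ptr 2 ∨
    ptr i + ptr j = ptr 3 + ptr 3 ∨ ptr i + ptr j = ptr 1 + ptr 3 ∨
    ptr i + ptr j = ptr 2 + ptr 3) →
    (i ≠ 0 ∧ j ≠ 0 ∧ (i = j ∨ i = 3 ∨ j = 3)) := by decide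

theorem codes_S : ∀ i j : Fin 4, (i ≠ 3 ∧ j ≠ 3 ∧ (i = j → i = 0)) →
    ((i = 0 ∧ j = 0) ∨ (i = 0 ∧ j = 1) ∨ (i = 1 ∧ j = 0) ∨ (i = 0 ∧ j = 2) ∨ (i = 2 ∧ j = 0) ∨
      (i = 1 ∧ j = 2) ∨ (i = 2 ∧ j = 1)) := by decide

theorem codes_T : ∀ i j : Fin 4, (i ≠ 0 ∧ j ≠ 0 ∧ (i = j ∨ i = 3 ∨ j = 3)) →
    ((i = 1 ∧ j = 1) ∨ (i = 2 ∧ j = 2) ∨ (i = 3 ∧ j = 3) ∨ (i = 1 ∧ j = 3) ∨ (i = 3 ∧ j = 1) ∨
      (i = 2 ∧ j = 3) ∨ (i = 3 ∧ j = 2)) := by decide

theorem sc_swap_bc : ∀ x y : Fin 4, SC 1 ((![0, 3, 2, 1] : Fin 4 → Fin 4) x)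
    ((![0, 3, 2, 1] : Fin 4 → Fin 4) y) ↔ SC 3 x y := by unfold SC; decide

theorem tc_swap_bc : ∀ x y : Fin 4, TC 1 ((![0, 3, 2, 1] : Fin 4 → Fin 4) x)
    ((![0, 3, 2, 1] : Fin 4 → Fin 4) y) ↔ TC 3 x y := by unfold TC; decide

theorem sc_swap_bd : ∀ x y : Fin 4, SC 2 ((![0, 1, 3, 2] : Fin 4 → Fin 4) x)
    ((![0, 1, 3, 2] : Fin 4 → Fin 4) y) ↔ SC 3 x y := by unfold SC; decide

theorem tc_swap_bd : ∀ x y : Fin 4, TC 2 ((![0, 1, 3, 2] : Fin 4 → Fin 4) x)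
    ((![0, 1, 3, 2] : Fin 4 → Fin 4) y) ↔ TC 3 x y := by unfold TC; decide

theorem ptr_nodup : (ptr 1 + ptr 2).Nodup := by decide

theorem fin4_cases : ∀ i : Fin 4, i ≠ 0 → i = 1 ∨ i = 2 ∨ i = 3 := by decide

open scoped Classical

/-- pattern of a subset of `{a,b,c,d}` -/
noncomputable def pat (a b c d : E) (D : Finset E) : Bool × Bool × Bool × Bool :=
  (decide (a ∈ D), decide (b ∈ D), decide (c ∈ D), decide (d ∈ D))

theorem map_tr (a b c d : E) (hnd : [a, b, c, d].Nodup) (i : Fin 4) :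
    (tr a b c d i).map (pat a b c d) = ptr i := by
  simp only [List.nodup_cons, List.mem_cons, List.not_mem_nil, or_false, not_or,
    List.nodup_nil, and_true, not_false_eq_true] at hnd
  obtain ⟨⟨hab, hac, had⟩, ⟨hbc, hbd⟩, hcd⟩ := hnd
  have hba := Ne.symm hab
  have hca := Ne.symm hac
  have hda := Ne.symm had
  have hcb := Ne.symm hbc
  have hdb := Ne.symm hbd
  have hdc := Ne.symm hcd
  fin_cases i <;> simp [tr, ptr, pat, *]

theorem typeS_eq (a b c d : E) (t : Multiset (Finset E)) : t ∈ typeS a b c d ↔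
    (t = tr a b c d 0 + tr a b c d 0 ∨ t = tr a b c d 0 + tr a b c d 1 ∨
      t = tr a b c d 0 + tr a b c d 2 ∨ t = tr a b c d 1 + tr a b c d 2) := Iff.rfl

theorem typeT_eq (a b c d : E) (t : Multiset (Finset E)) : t ∈ typeT a b c d ↔
    (t = tr a b c d 1 + tr a b c d 1 ∨ t = tr a b c d 2 + tr a b c d 2 ∨
      t = tr a b c d 3 + tr a b c d 3 ∨ t = tr a b c d 1 + tr a b c d 3 ∨
      t = tr a b c d 2 + tr a b c d 3) := Iff.rfl

theorem map_add_tr (a b c d : E) (hnd : [a, b, c, d].Nodup) (i j : Fin 4) :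
    (tr a b c d i + tr a b c d j).map (pat a b c d) = ptr i + ptr j := by
  rw [Multiset.map_add, map_tr a b c d hnd, map_tr a b c d hnd]

theorem ptr_of_eq (a b c d : E) (hnd : [a, b, c, d].Nodup) {i j k l : Fin 4}
    (h : tr a b c d i + tr a b c d j = tr a b c d k + tr a b c d l) :
    ptr i + ptr j = ptr k + ptr l := by
  rw [← map_add_tr a b c d hnd, ← map_add_tr a b c d hnd, h]

theorem mem_typeS_iff (a b c d : E) (hnd : [a, b, c, d].Nodup) (i j : Fin 4) :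
    tr a b c d i + tr a b c d j ∈ typeS a b c d ↔ SC 3 i j := by
  rw [typeS_eq]
  constructor
  · intro h
    refine ptr_S i j ?_
    rcases h with h | h | h | h
    · exact Or.inl (ptr_of_eq a b c d hnd h)
    · exact Or.inr (Or.inl (ptr_of_eq a b c d hnd h))
    · exact Or.inr (Or.inr (Or.inl (ptr_of_eq a b c d hnd h)))
    · exact Or.inr (Or.inr (Or.inr (ptr_of_eq a b c d hnd h)))
  · intro h
    rcases codes_S i j h with ⟨rfl, rfl⟩ | ⟨rfl, rfl⟩ | ⟨rfl, rfl⟩ | ⟨rfl, rfl⟩ | ⟨rfl, rfl⟩ |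
      ⟨rfl, rfl⟩ | ⟨rfl, rfl⟩
    · exact Or.inl rfl
    · exact Or.inr (Or.inl rfl)
    · exact Or.inr (Or.inl (add_comm _ _))
    · exact Or.inr (Or.inr (Or.inl rfl))
    · exact Or.inr (Or.inr (Or.inl (add_comm _ _)))
    · exact Or.inr (Or.inr (Or.inr rfl))
    · exact Or.inr (Or.inr (Or.inr (add_comm _ _)))

theorem mem_typeT_iff (a b c d : E) (hnd : [a, b, c, d].Nodup) (i j : Fin 4) :
    tr a b c d i + tr a b c d j ∈ typeT a b c d ↔ TC 3 i j := by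
  rw [typeT_eq]
  constructor
  · intro h
    refine ptr_T i j ?_
    rcases h with h | h | h | h | h
    · exact Or.inl (ptr_of_eq a b c d hnd h)
    · exact Or.inr (Or.inl (ptr_of_eq a b c d hnd h))
    · exact Or.inr (Or.inr (Or.inl (ptr_of_eq a b c d hnd h)))
    · exact Or.inr (Or.inr (Or.inr (Or.inl (ptr_of_eq a b c d hnd h))))
    · exact Or.inr (Or.inr (Or.inr (Or.inr (ptr_of_eq a b c d hnd h))))
  · intro h
    rcases codes_T i j h with ⟨rfl, rfl⟩ | ⟨rfl, rfl⟩ | ⟨rfl, rfl⟩ | ⟨rfl, rfl⟩ | ⟨rfl, rfl⟩ |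
      ⟨rfl, rfl⟩ | ⟨rfl, rfl⟩
    · exact Or.inl rfl
    · exact Or.inr (Or.inl rfl)
    · exact Or.inr (Or.inr (Or.inl rfl))
    · exact Or.inr (Or.inr (Or.inr (Or.inl rfl)))
    · exact Or.inr (Or.inr (Or.inr (Or.inl (add_comm _ _))))
    · exact Or.inr (Or.inr (Or.inr (Or.inr rfl)))
    · exact Or.inr (Or.inr (Or.inr (Or.inr (add_comm _ _))))

/-- every element of `typeS` or `typeT` is a sum of two halves -/
theorem exists_codes_S (a b c d : E) (t : Multiset (Finset E)) (h : t ∈ typeS a b c d) :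
    ∃ i j : Fin 4, t = tr a b c d i + tr a b c d j := by
  rw [typeS_eq] at h
  rcases h with h | h | h | h <;> exact ⟨_, _, h⟩

theorem exists_codes_T (a b c d : E) (t : Multiset (Finset E)) (h : t ∈ typeT a b c d) :
    ∃ i j : Fin 4, t = tr a b c d i + tr a b c d j := by
  rw [typeT_eq] at h
  rcases h with h | h | h | h | h <;> exact ⟨_, _, h⟩

/-- exchanging `b` and `c` exchanges the halves `1` and `3` -/
theorem tr_swap_bc (a b c d : E) (i : Fin 4) :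
    tr a c b d i = tr a b c d ((![0, 3, 2, 1] : Fin 4 → Fin 4) i) := by
  fin_cases i
  · simp [tr]
    ext x; simp; tauto
  · simp [tr]
  · simp [tr]
    rw [Finset.pair_comm]
  · simp [tr]

/-- exchanging `b` and `d` exchanges the halves `2` and `3` -/
theorem tr_swap_bd (a b c d : E) (i : Fin 4) :
    tr a d c b i = tr a b c d ((![0, 1, 3, 2] : Fin 4 → Fin 4) i) := by
  fin_cases i
  · simp [tr]
    ext x; simp; tauto
  · simp [tr]
    rw [Finset.pair_comm]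
  · simp [tr]
    rw [Finset.pair_comm]
  · simp [tr]
    rw [Finset.pair_comm]

end CDCut
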