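import Pool.Agent.CDCut.Parity

/-!
# Module `Trace`: the possible cover types for cuts of size at most four

`IsTrace T t`: `t` is a multiset of nonempty subsets of `T` of even size, such that every element
of `T` lies in exactly two members.  Every cover type is of this form (`isTrace_of_coverTypes`;
the trace has even size by `even_inter_cut`).

**`small_type_unique`** (`T.card ≤ 3`).  If `T = ∅` then `t = 0`.  If `T = {a}`: no nonempty subset
has even size, but `a` must be in two members, impossible.  If `T = {a, b}`: the only nonempty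
subset of even size is `{a, b}`, so `t = {{a,b},{a,b}}`.  If `T = {a,b,c}`: the members are among
`{a,b}, {a,c}, {b,c}`, with multiplicities `x, y, z`, and `x + y = x + z = y + z = 2`, so
`x = y = z = 1`.

**`isTrace_four`** (`T = {a,b,c,d}`).  Let `n` be the multiplicity of `T`, and `P1,Q1,P2,Q2,P3,Q3`
the multiplicities of `ac, bd, ad, bc, ab, cd`.  The conditions at `a,b,c,d` are
`n+P1+P2+P3 = 2`, `n+P3+Q1+Q2 = 2`, `n+P1+Q2+Q3 = 2`, `n+P2+Q1+Q3 = 2`; they imply `P1=Q1`,
`P2=Q2`, `P3=Q3` (omega) and `n+P1+P2+P3=2`.  So `t` is a sum of two of the multisets `tr i`.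
-/

open scoped Classical

namespace CDCut

/-- the traces of one half of a type: `0` = one member containing all four edges,
`1 = ac|bd`, `2 = ad|bc`, `3 = ab|cd` -/
noncomputable def tr {E : Type} (a b c d : E) : Fin 4 → Multiset (Finset E) :=
  ![{{a, b, c, d}}, {{a, c}, {b, d}}, {{a, d}, {b, c}}, {{a, b}, {c, d}}]

/-- abstract form of a cover type -/
def IsTrace {E : Type} (T : Finset E) (t : Multiset (Finset E)) : Prop :=
  (∀ D ∈ t, D ⊆ T ∧ D ≠ ∅ ∧ Even D.card) ∧ ∀ e ∈ T, t.countP (fun D => e ∈ D) = 2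

theorem MGraph.isTrace_of_coverTypes {V E : Type} (G : MGraph V E) [Fintype E] (X : Finset V)
    (t : Multiset (Finset E)) (h : t ∈ G.coverTypes X) : IsTrace (G.cut X) t := by
  obtain ⟨F, ⟨h1, h2⟩, rfl⟩ := h
  constructor
  · intro D hD
    rw [Multiset.mem_filter, Multiset.mem_map] at hD
    obtain ⟨⟨C, hC, rfl⟩, hne⟩ := hD
    exact ⟨Finset.inter_subset_right, hne, G.even_inter_cut X C (h1 C hC).2⟩
  · intro e he
    have hm : G.Meets X e := by
      simp only [cut, Finset.mem_filter, Finset.mem_univ, true_and] at he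
      unfold Meets
      tauto
    rw [Multiset.countP_filter, Multiset.countP_map, ← h2 e hm, Multiset.countP_eq_card_filter]
    congr 1
    apply Multiset.filter_congr
    intro C hC
    constructor
    · rintro ⟨h3, _⟩
      exact (Finset.mem_inter.1 h3).1
    · intro h3
      have h4 : e ∈ C ∩ G.cut X := Finset.mem_inter.2 ⟨h3, he⟩
      exact ⟨h4, Finset.ne_empty_of_mem h4⟩

/-- transfer of a trace to `Fin n` -/
theorem trace_transfer {E : Type} {n : ℕ} (f : Fin n → E) (hf : Function.Injective f)
    (T : Finset E) (hT : T = Finset.univ.image f) (t : Multiset (Finset E)) (h : IsTrace T t) :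
    ∃ s : Multiset (Finset (Fin n)), t = s.map (Finset.image f) ∧
      (∀ x ∈ s, x ≠ ∅ ∧ Even x.card) ∧ ∀ i, s.countP (fun x => i ∈ x) = 2 := by
  obtain ⟨h1, h2⟩ := h
  have key : ∀ D ∈ t, (Finset.univ.filter fun i => f i ∈ D).image f = D := by
    intro D hD
    ext e
    simp only [Finset.mem_image, Finset.mem_filter, Finset.mem_univ, true_and]
    constructor
    · rintro ⟨i, hi, rfl⟩
      exact hi
    · intro he
      have h3 := (h1 D hD).1 he
      rw [hT, Finset.mem_image] at h3
      obtain ⟨i, _, rfl⟩ := h3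
      exact ⟨i, he, rfl⟩
  refine ⟨t.map (fun D => Finset.univ.filter fun i => f i ∈ D), ?_, ?_, ?_⟩
  · rw [Multiset.map_map]
    conv_lhs => rw [← Multiset.map_id t]
    apply Multiset.map_congr rfl
    intro D hD
    exact (key D hD).symm
  · intro x hx
    rw [Multiset.mem_map] at hx
    obtain ⟨D, hD, rfl⟩ := hx
    have h3 := key D hD
    have h4 := h1 D hD
    constructor
    · intro h5
      rw [h5, Finset.image_empty] at h3
      exact h4.2.1 h3.symm
    · have h5 := Finset.card_image_of_injective (Finset.univ.filter fun i => f i ∈ D) hf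
      rw [h3] at h5
      rw [← h5]
      exact h4.2.2
  · intro i
    rw [Multiset.countP_map, ← Multiset.countP_eq_card_filter]
    have h3 := h2 (f i) (by rw [hT]; exact Finset.mem_image_of_mem _ (Finset.mem_univ _))
    rw [← h3]
    apply Multiset.countP_congr rfl
    intro D _
    simp

theorem countP_eq_sum {α : Type*} [DecidableEq α] (S : Finset α) (t : Multiset α)
    (h : ∀ D ∈ t, D ∈ S) (p : α → Prop) [DecidablePred p] :
    t.countP p = ∑ D ∈ S, if p D then t.count D else 0 := by
  rw [Multiset.countP_eq_card_filter,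
    ← Multiset.sum_count_eq_card (s := S) (m := t.filter p)
      (fun D hD => h D (Multiset.mem_filter.1 hD).1)]
  apply Finset.sum_congr rfl
  intro D _
  rw [Multiset.count_filter]

theorem small_type_unique {E : Type} (T : Finset E) (hT : T.card ≤ 3)
    (t t' : Multiset (Finset E)) (h : IsTrace T t) (h' : IsTrace T t') : t = t' := by
  obtain ⟨n, hn⟩ : ∃ n, T.card = n := ⟨_, rfl⟩
  have hn3 : n ≤ 3 := hn ▸ hT
  obtain ⟨f, hf, hTf⟩ : ∃ f : Fin n → E, Function.Injective f ∧ T = Finset.univ.image f := by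
    have e := (T.equivFinOfCardEq hn).symm
    refine ⟨fun i => (e i : E), fun i j hij => e.injective (Subtype.ext hij), ?_⟩
    ext x
    simp only [Finset.mem_image, Finset.mem_univ, true_and]
    constructor
    · intro hx
      obtain ⟨i, hi⟩ := e.surjective ⟨x, hx⟩
      exact ⟨i, by rw [hi]⟩
    · rintro ⟨i, rfl⟩
      exact (e i).2
  obtain ⟨s, rfl, hs1, hs2⟩ := trace_transfer f hf T hTf t h
  obtain ⟨s', rfl, hs1', hs2'⟩ := trace_transfer f hf T hTf t' h'
  suffices h : s = s' by rw [h]
  have main : ∀ r : Multiset (Finset (Fin n)), (∀ x ∈ r, x ≠ ∅ ∧ Even x.card) →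
      (∀ i, r.countP (fun x => i ∈ x) = 2) →
      (∀ i j, i < j → r.count {i, j} = if n = 2 then 2 else 1) ∧
      (∀ x, (∀ i j, i < j → x ≠ {i, j}) → r.count x = 0) := by
    intro r hr1 hr2
    interval_cases n
    · refine ⟨fun i => i.elim0, fun x _ => Multiset.count_eq_zero.2 fun hx => ?_⟩
      exact (hr1 x hx).1 (Subsingleton.elim _ _)
    · refine ⟨fun i j hij => absurd hij (by omega), fun x _ => Multiset.count_eq_zero.2 fun hx => ?_⟩
      have h3 : ∀ x : Finset (Fin 1), x ≠ ∅ ∧ Even x.card → False := by decide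
      exact h3 x (hr1 x hx)
    · have h3 : ∀ x ∈ r, x ∈ ({{0, 1}} : Finset (Finset (Fin 2))) := by
        intro x hx
        have := hr1 x hx
        clear hx
        revert this
        revert x
        decide
      have h4 := hr2 0
      rw [countP_eq_sum _ r h3, Finset.sum_singleton, if_pos (by decide)] at h4
      constructor
      · intro i j hij
        have : i = 0 ∧ j = 1 := by omega
        rw [this.1, this.2, h4]
        rfl
      · intro x hx
        refine Multiset.count_eq_zero.2 fun hx' => ?_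
        have := h3 x hx'
        rw [Finset.mem_singleton] at this
        exact hx 0 1 (by decide) this
    · have h3 : ∀ x ∈ r, x ∈ ({{0, 1}, {0, 2}, {1, 2}} : Finset (Finset (Fin 3))) := by
        intro x hx
        have := hr1 x hx
        clear hx
        revert this
        revert x
        decide
      have h4 : ∀ i, (if i ∈ ({0, 1} : Finset (Fin 3)) then r.count {0, 1} else 0) +
          ((if i ∈ ({0, 2} : Finset (Fin 3)) then r.count {0, 2} else 0) +
          (if i ∈ ({1, 2} : Finset (Fin 3)) then r.count {1, 2} else 0)) = 2 := by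
        intro i
        have h5 := hr2 i
        rw [countP_eq_sum _ r h3, Finset.sum_insert (by decide),
          Finset.sum_insert (by decide), Finset.sum_singleton] at h5
        exact h5
      have h5 := h4 0
      have h6 := h4 1
      have h7 := h4 2
      rw [if_pos (by decide), if_pos (by decide), if_neg (by decide)] at h5
      rw [if_pos (by decide), if_neg (by decide), if_pos (by decide)] at h6
      rw [if_neg (by decide), if_pos (by decide), if_pos (by decide)] at h7
      constructor
      · intro i j hij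
        have : (i = 0 ∧ j = 1) ∨ (i = 0 ∧ j = 2) ∨ (i = 1 ∧ j = 2) := by omega
        rw [if_neg (by decide)]
        rcases this with ⟨rfl, rfl⟩ | ⟨rfl, rfl⟩ | ⟨rfl, rfl⟩ <;> omega
      · intro x hx
        refine Multiset.count_eq_zero.2 fun hx' => ?_
        have := h3 x hx'
        simp only [Finset.mem_insert, Finset.mem_singleton] at this
        rcases this with h8 | h8 | h8
        · exact hx 0 1 (by decide) h8
        · exact hx 0 2 (by decide) h8
        · exact hx 1 2 (by decide) h8
  ext x
  obtain ⟨m1, m2⟩ := main s hs1 hs2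
  obtain ⟨m1', m2'⟩ := main s' hs1' hs2'
  by_cases hx : ∀ i j, i < j → x ≠ {i, j}
  · rw [m2 x hx, m2' x hx]
  · push Not at hx
    obtain ⟨i, j, hij, rfl⟩ := hx
    rw [m1 i j hij, m1' i j hij]

theorem fin4_trace (s : Multiset (Finset (Fin 4))) (h1 : ∀ x ∈ s, x ≠ ∅ ∧ Even x.card)
    (h2 : ∀ i, s.countP (fun x => i ∈ x) = 2) :
    ∃ i j : Fin 4, s =
      (![{{0, 1, 2, 3}}, {{0, 2}, {1, 3}}, {{0, 3}, {1, 2}}, {{0, 1}, {2, 3}}] :
        Fin 4 → Multiset (Finset (Fin 4))) i +
      (![{{0, 1, 2, 3}}, {{0, 2}, {1, 3}}, {{0, 3}, {1, 2}}, {{0, 1}, {2, 3}}] :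
        Fin 4 → Multiset (Finset (Fin 4))) j := by
  have h3 : ∀ x ∈ s, x ∈ ({{0, 1, 2, 3}, {0, 2}, {1, 3}, {0, 3}, {1, 2}, {0, 1}, {2, 3}} :
      Finset (Finset (Fin 4))) := by
    intro x hx
    have := h1 x hx
    clear hx
    revert this
    revert x
    decide
  have h4 : ∀ (p : Finset (Fin 4) → Prop) [DecidablePred p], s.countP p =
      (if p {0, 1, 2, 3} then s.count {0, 1, 2, 3} else 0) +
      ((if p {0, 2} then s.count {0, 2} else 0) +
      ((if p {1, 3} then s.count {1, 3} else 0) +
      ((if p {0, 3} then s.count {0, 3} else 0) +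
      ((if p {1, 2} then s.count {1, 2} else 0) +
      ((if p {0, 1} then s.count {0, 1} else 0) +
      (if p {2, 3} then s.count {2, 3} else 0)))))) := by
    intro p _
    rw [countP_eq_sum _ s h3, Finset.sum_insert (by decide), Finset.sum_insert (by decide),
      Finset.sum_insert (by decide), Finset.sum_insert (by decide), Finset.sum_insert (by decide),
      Finset.sum_insert (by decide), Finset.sum_singleton]
  have e0 := h2 0
  have e1 := h2 1
  have e2 := h2 2
  have e3 := h2 3
  rw [h4] at e0 e1 e2 e3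
  rw [if_pos (by decide), if_pos (by decide), if_neg (by decide), if_pos (by decide),
    if_neg (by decide), if_pos (by decide), if_neg (by decide)] at e0
  rw [if_pos (by decide), if_neg (by decide), if_pos (by decide), if_neg (by decide),
    if_pos (by decide), if_pos (by decide), if_neg (by decide)] at e1
  rw [if_pos (by decide), if_pos (by decide), if_neg (by decide), if_neg (by decide),
    if_pos (by decide), if_neg (by decide), if_pos (by decide)] at e2
  rw [if_pos (by decide), if_neg (by decide), if_pos (by decide), if_pos (by decide),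
    if_neg (by decide), if_neg (by decide), if_pos (by decide)] at e3
  -- the multiset is determined by the counts
  have hs : ∀ r : Multiset (Finset (Fin 4)), (∀ x ∈ r, x ∈ ({{0, 1, 2, 3}, {0, 2}, {1, 3}, {0, 3},
      {1, 2}, {0, 1}, {2, 3}} : Finset (Finset (Fin 4)))) →
      s.count {0, 1, 2, 3} = r.count {0, 1, 2, 3} → s.count {0, 2} = r.count {0, 2} →
      s.count {1, 3} = r.count {1, 3} → s.count {0, 3} = r.count {0, 3} →
      s.count {1, 2} = r.count {1, 2} → s.count {0, 1} = r.count {0, 1} →
      s.count {2, 3} = r.count {2, 3} → s = r := by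
    intro r hr a1 a2 a3 a4 a5 a6 a7
    ext x
    by_cases hx : x ∈ ({{0, 1, 2, 3}, {0, 2}, {1, 3}, {0, 3}, {1, 2}, {0, 1}, {2, 3}} :
      Finset (Finset (Fin 4)))
    · simp only [Finset.mem_insert, Finset.mem_singleton] at hx
      rcases hx with rfl | rfl | rfl | rfl | rfl | rfl | rfl <;> assumption
    · rw [Multiset.count_eq_zero.2 fun h => hx (h3 x h),
        Multiset.count_eq_zero.2 fun h => hx (hr x h)]
  have b1 : s.count {0, 2} = s.count {1, 3} := by omega
  have b2 : s.count {0, 3} = s.count {1, 2} := by omega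
  have b3 : s.count {0, 1} = s.count {2, 3} := by omega
  have b4 : s.count {0, 1, 2, 3} + s.count {1, 3} + s.count {1, 2} + s.count {2, 3} = 2 := by omega
  generalize s.count {0, 1, 2, 3} = n at *
  generalize s.count {0, 2} = p1 at *
  generalize s.count {1, 3} = q1 at *
  generalize s.count {0, 3} = p2 at *
  generalize s.count {1, 2} = q2 at *
  generalize s.count {0, 1} = p3 at *
  generalize s.count {2, 3} = q3 at *
  subst b1 b2 b3
  have cases : (n = 2 ∧ p1 = 0 ∧ p2 = 0 ∧ p3 = 0) ∨ (n = 0 ∧ p1 = 2 ∧ p2 = 0 ∧ p3 = 0) ∨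
      (n = 0 ∧ p1 = 0 ∧ p2 = 2 ∧ p3 = 0) ∨ (n = 0 ∧ p1 = 0 ∧ p2 = 0 ∧ p3 = 2) ∨
      (n = 1 ∧ p1 = 1 ∧ p2 = 0 ∧ p3 = 0) ∨ (n = 1 ∧ p1 = 0 ∧ p2 = 1 ∧ p3 = 0) ∨
      (n = 1 ∧ p1 = 0 ∧ p2 = 0 ∧ p3 = 1) ∨ (n = 0 ∧ p1 = 1 ∧ p2 = 1 ∧ p3 = 0) ∨
      (n = 0 ∧ p1 = 1 ∧ p2 = 0 ∧ p3 = 1) ∨ (n = 0 ∧ p1 = 0 ∧ p2 = 1 ∧ p3 = 1) := by
    clear e0 e1 e2 e3 hs h4
    have hsum : n + p1 + p2 ≤ 2 := by omega
    have hp3 : p3 = 2 - n - p1 - p2 := by omega
    have hn2 : n ≤ 2 := by omega
    have hp1 : p1 ≤ 2 := by omega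
    have hp2 : p2 ≤ 2 := by omega
    clear b4
    subst hp3
    interval_cases n <;> interval_cases p1 <;> interval_cases p2 <;> first | decide | omega
  rcases cases with ⟨rfl, rfl, rfl, rfl⟩ | ⟨rfl, rfl, rfl, rfl⟩ | ⟨rfl, rfl, rfl, rfl⟩ |
    ⟨rfl, rfl, rfl, rfl⟩ | ⟨rfl, rfl, rfl, rfl⟩ | ⟨rfl, rfl, rfl, rfl⟩ | ⟨rfl, rfl, rfl, rfl⟩ |
    ⟨rfl, rfl, rfl, rfl⟩ | ⟨rfl, rfl, rfl, rfl⟩ | ⟨rfl, rfl, rfl, rfl⟩
  · exact ⟨0, 0, hs _ (by decide) (by decide) (by decide) (by decide) (by decide) (by decide)
      (by decide) (by decide)⟩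
  · exact ⟨1, 1, hs _ (by decide) (by decide) (by decide) (by decide) (by decide) (by decide)
      (by decide) (by decide)⟩
  · exact ⟨2, 2, hs _ (by decide) (by decide) (by decide) (by decide) (by decide) (by decide)
      (by decide) (by decide)⟩
  · exact ⟨3, 3, hs _ (by decide) (by decide) (by decide) (by decide) (by decide) (by decide)
      (by decide) (by decide)⟩
  · exact ⟨0, 1, hs _ (by decide) (by decide) (by decide) (by decide) (by decide) (by decide)
      (by decide) (by decide)⟩
  · exact ⟨0, 2, hs _ (by decide) (by decide) (by decide) (by decide) (by decide) (by decide)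
      (by decide) (by decide)⟩
  · exact ⟨0, 3, hs _ (by decide) (by decide) (by decide) (by decide) (by decide) (by decide)
      (by decide) (by decide)⟩
  · exact ⟨1, 2, hs _ (by decide) (by decide) (by decide) (by decide) (by decide) (by decide)
      (by decide) (by decide)⟩
  · exact ⟨1, 3, hs _ (by decide) (by decide) (by decide) (by decide) (by decide) (by decide)
      (by decide) (by decide)⟩
  · exact ⟨2, 3, hs _ (by decide) (by decide) (by decide) (by decide) (by decide) (by decide)
      (by decide) (by decide)⟩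

theorem isTrace_four {E : Type} (a b c d : E) (hnd : [a, b, c, d].Nodup)
    (t : Multiset (Finset E)) (h : IsTrace {a, b, c, d} t) :
    ∃ i j : Fin 4, t = tr a b c d i + tr a b c d j := by
  have hf : Function.Injective (![a, b, c, d] : Fin 4 → E) := by
    have h1 : (![a, b, c, d] : Fin 4 → E) = fun i : Fin 4 => [a, b, c, d].get i := by
      funext i
      fin_cases i <;> rfl
    rw [h1]
    exact List.nodup_iff_injective_get.1 hnd
  have hT : ({a, b, c, d} : Finset E) = Finset.univ.image (![a, b, c, d] : Fin 4 → E) := by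
    ext x
    simp only [Finset.mem_insert, Finset.mem_singleton, Finset.mem_image, Finset.mem_univ, true_and]
    constructor
    · rintro (rfl | rfl | rfl | rfl)
      exacts [⟨0, rfl⟩, ⟨1, rfl⟩, ⟨2, rfl⟩, ⟨3, rfl⟩]
    · rintro ⟨i, rfl⟩
      fin_cases i <;> simp
  obtain ⟨s, rfl, hs1, hs2⟩ := trace_transfer _ hf _ hT t h
  obtain ⟨i, j, hij⟩ := fin4_trace s hs1 hs2
  have key : ∀ i : Fin 4, Multiset.map (Finset.image (![a, b, c, d] : Fin 4 → E))
      ((![{{0, 1, 2, 3}}, {{0, 2}, {1, 3}}, {{0, 3}, {1, 2}}, {{0, 1}, {2, 3}}] :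
        Fin 4 → Multiset (Finset (Fin 4))) i) = tr a b c d i := by
    intro i
    fin_cases i <;> simp [tr, Finset.image_insert, Finset.image_singleton]
  refine ⟨i, j, ?_⟩
  rw [hij, Multiset.map_add, key, key]

end CDCut
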