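import Pool.Agent.CDCut.Inner
import Pool.Agent.CDCut.Trace

/-!
# Module `Colour`: a 3-edge-colourable side has a type with a full trace

**Proof.**  Let `col` be a colouring as in `SideColourable X`.  There are no loops (`no_loop`).
Every vertex `v ∈ X` has `(cut {v}).card ≥ 3` (`three_le_card_cut`; `X ≠ univ`), and the edges at
`v` have pairwise different colours, so `v` is incident with exactly three edges, one of each
colour.  For `j : Fin 3` let `C j` be the set of edges meeting `X` whose colour is not `j`.  Its
degree at each `v ∈ X` is 2, and every edge meeting `X` lies in exactly two of `C 0, C 1, C 2`.  So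
`{C 0, C 1, C 2}` is a cover of the side `X`.  Let `n j` be the number of edges of `cut X` of
colour `j`; the traces have sizes `4 - n j`, which are even (`even_inter_cut`), and
`n 0 + n 1 + n 2 = 4`, so all `n j` are even and some `n j` is `0` (three positive even numbers
have sum at least 6).  Then the trace of `C j` is the whole cut (`cut X`, nonempty as it has four
elements).
-/

open scoped Classical

namespace CDCut
namespace MGraph

variable {V E : Type} (G : MGraph V E)

theorem deg_eq_card_inc (hl : ∀ e, G.fst e ≠ G.snd e) (C : Finset E) (v : V) :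
    G.deg C v = (C.filter fun e => G.Inc e v).card := by
  unfold deg Inc
  rw [← Finset.card_union_of_disjoint]
  · congr 1
    ext e
    simp only [Finset.mem_union, Finset.mem_filter]
    tauto
  · rw [Finset.disjoint_filter]
    intro e _ h1 h2
    exact hl e (h1.trans h2.symm)

theorem card_star_filter {S : Finset E} (col : E → Fin 3) (hS : 3 ≤ S.card)
    (hinj : ∀ e ∈ S, ∀ f ∈ S, e ≠ f → col e ≠ col f) (j : Fin 3) :
    (S.filter fun e => col e ≠ j).card = 2 := by
  have h1 : Set.InjOn col (S : Set E) := by
    intro e he f hf hef
    by_contra h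
    exact hinj e he f hf h hef
  have h2 : (S.image col).card = S.card := Finset.card_image_of_injOn h1
  have h3 : S.image col = Finset.univ := by
    apply Finset.eq_univ_of_card
    have h4 : (S.image col).card ≤ Fintype.card (Fin 3) := Finset.card_le_univ _
    rw [Fintype.card_fin] at h4 ⊢
    omega
  have h5 : ((S.filter fun e => col e ≠ j).image col).card =
      (S.filter fun e => col e ≠ j).card :=
    Finset.card_image_of_injOn (h1.mono (by
      intro e he
      exact (Finset.mem_filter.1 he).1))
  have h6 : (S.filter fun e => col e ≠ j).image col = Finset.univ.filter fun i => i ≠ j := by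
    rw [← h3, Finset.filter_image]
  have h7 : ∀ i : Fin 3, (Finset.univ.filter fun i' : Fin 3 => i' ≠ i).card = 2 := by decide
  rw [← h5, h6]
  exact h7 j

theorem colour_type [Fintype V] [Fintype E] (hG : G.IsSmallestCounterexample)
    (X : Finset V) (hne : X ≠ Finset.univ) (hcut : (G.cut X).card = 4)
    (hcol : G.SideColourable X) : ∃ t ∈ G.coverTypes X, G.cut X ∈ t := by
  obtain ⟨col, hcol⟩ := hcol
  have hl := G.no_loop hG
  have hmeet : ∀ e ∈ G.cut X, G.Meets X e := by
    intro e he
    unfold Meets
    simp only [cut, Finset.mem_filter, Finset.mem_univ, true_and] at he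
    tauto
  set C : Fin 3 → Finset E := fun j => Finset.univ.filter fun e => G.Meets X e ∧ col e ≠ j with hC
  have hmem : ∀ j e, e ∈ C j ↔ G.Meets X e ∧ col e ≠ j := by
    intro j e
    rw [hC, Finset.mem_filter]
    simp
  clear_value C
  have hdeg : ∀ j, ∀ v ∈ X, Even (G.deg (C j) v) := by
    intro j v hv
    rw [G.deg_eq_card_inc hl]
    have h1 : ((C j).filter fun e => G.Inc e v) =
        (Finset.univ.filter fun e => G.Inc e v).filter fun e => col e ≠ j := by
      ext e
      rw [Finset.mem_filter, Finset.mem_filter, Finset.mem_filter, hmem]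
      constructor
      · rintro ⟨⟨_, h2⟩, h3⟩
        exact ⟨⟨Finset.mem_univ _, h3⟩, h2⟩
      · rintro ⟨⟨_, h3⟩, h2⟩
        refine ⟨⟨?_, h2⟩, h3⟩
        rcases h3 with h3 | h3
        · exact Or.inl (h3 ▸ hv)
        · exact Or.inr (h3 ▸ hv)
    have h2 : 3 ≤ (Finset.univ.filter fun e => G.Inc e v).card := by
      refine (G.three_le_card_cut hG {v} (Finset.singleton_nonempty v) ?_).trans
        (Finset.card_le_card ?_)
      · intro h3
        apply hne
        rw [Finset.eq_univ_iff_forall]
        intro w
        have h4 : w ∈ ({v} : Finset V) := by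
          rw [h3]
          exact Finset.mem_univ w
        rw [Finset.mem_singleton] at h4
        rw [h4]
        exact hv
      · intro e he
        simp only [cut, Finset.mem_filter, Finset.mem_univ, true_and, Finset.mem_singleton] at he
        rw [Finset.mem_filter]
        refine ⟨Finset.mem_univ _, ?_⟩
        unfold Inc
        tauto
    rw [h1, card_star_filter col h2 (fun e he f hf hef =>
      hcol v hv e f hef (Finset.mem_filter.1 he).2 (Finset.mem_filter.1 hf).2) j]
    exact even_two
  have hside : G.SideCover X (C 0 ::ₘ C 1 ::ₘ C 2 ::ₘ 0) := by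
    constructor
    · intro D hD
      have h1 : ∃ j, D = C j := by
        simp only [Multiset.mem_cons, Multiset.notMem_zero, or_false] at hD
        rcases hD with h | h | h
        · exact ⟨0, h⟩
        · exact ⟨1, h⟩
        · exact ⟨2, h⟩
      obtain ⟨j, rfl⟩ := h1
      exact ⟨fun e he => ((hmem j e).1 he).1, hdeg j⟩
    · intro e he
      rw [Multiset.countP_cons, Multiset.countP_cons, Multiset.countP_cons, Multiset.countP_zero]
      simp only [hmem, he, true_and]
      have h1 : col e = 0 ∨ col e = 1 ∨ col e = 2 := by
        have : ∀ i : Fin 3, i = 0 ∨ i = 1 ∨ i = 2 := by decide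
        exact this _
      rcases h1 with h1 | h1 | h1 <;> rw [h1] <;> decide
  have hpart : ∀ j, (C j ∩ G.cut X).card + ((G.cut X).filter fun e => col e = j).card = 4 := by
    intro j
    rw [← hcut, ← Finset.card_filter_add_card_filter_not (s := G.cut X) (fun e => col e = j),
      add_comm]
    congr 2
    ext e
    rw [Finset.mem_inter, Finset.mem_filter, hmem]
    constructor
    · rintro ⟨⟨_, h2⟩, h3⟩
      exact ⟨h3, h2⟩
    · rintro ⟨h3, h2⟩
      exact ⟨⟨hmeet e h3, h2⟩, h3⟩
  have heven : ∀ j, Even (C j ∩ G.cut X).card := fun j => G.even_inter_cut X (C j) (hdeg j)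
  have hsum : ((G.cut X).filter fun e => col e = 0).card +
      ((G.cut X).filter fun e => col e = 1).card +
      ((G.cut X).filter fun e => col e = 2).card = 4 := by
    rw [← hcut, Finset.card_eq_sum_card_fiberwise (f := col) (s := G.cut X)
      (t := Finset.univ) (fun e _ => Finset.mem_coe.2 (Finset.mem_univ _)), Fin.sum_univ_three]
  have hex : ∃ j, ((G.cut X).filter fun e => col e = j).card = 0 := by
    have p0 := hpart 0
    have p1 := hpart 1
    have p2 := hpart 2
    have e0 := Nat.even_iff.1 (heven 0)
    have e1 := Nat.even_iff.1 (heven 1)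
    have e2 := Nat.even_iff.1 (heven 2)
    by_contra hno
    rw [not_exists] at hno
    have n0 := hno 0
    have n1 := hno 1
    have n2 := hno 2
    omega
  obtain ⟨j, hj⟩ := hex
  have htr : C j ∩ G.cut X = G.cut X := by
    apply Finset.eq_of_subset_of_card_le Finset.inter_subset_right
    have := hpart j
    omega
  refine ⟨_, ⟨_, hside, rfl⟩, ?_⟩
  rw [Multiset.mem_filter]
  refine ⟨?_, ?_⟩
  · rw [Multiset.mem_map]
    refine ⟨C j, ?_, htr⟩
    have h1 : j = 0 ∨ j = 1 ∨ j = 2 := by
      have : ∀ i : Fin 3, i = 0 ∨ i = 1 ∨ i = 2 := by decide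
      exact this _
    rcases h1 with h1 | h1 | h1 <;> rw [h1] <;> simp
  · intro h0
    rw [h0, Finset.card_empty] at hcut
    omega

end MGraph
end CDCut
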