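import Pool.Agent.CDCut.Repl

/-!
# Module `Contract`: contracting the complement of `X`

**Proof.**  Let `G' = G.repl X H att` with `W = Unit`, `K = Empty` (so `H` has one vertex and no
edges) and `att = fun _ => ()`.  By `card_cut_repl`, for a vertex set `Z` of `G'` with
`Z1 = tX X Z`:  if `() ∉ tW Z` then the size of the cut is
`(cut Z1 \ cut X).card + (cut X ∩ cut Z1).card = (cut Z1).card`; if `() ∈ tW Z` it is
`(cut Z1 \ cut X).card + (cut X \ cut Z1).card = (cut (Z1 ∪ Xᶜ)).card`
(or: it is the size of the cut of the complementary vertex set in `G'`, to which the first case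
applies).  So no cut of `G'` has size one and `G'` is bridgeless (`bridgeless_iff`).
`G'` has `X.card + 1 < Fintype.card V` vertices and at most `Fintype.card E` edges.  By minimality
`G'` is not a counterexample, so it has a CDC, hence an even cover, and `sideCover_res` gives a
cover of the side `X`, whose type is an element of `coverTypes X`.
-/

open scoped Classical

namespace CDCut
namespace MGraph

variable {V E : Type} (G : MGraph V E)

theorem Contract.cut_symmDiff [Fintype E] (A B : Finset V) :
    G.cut (symmDiff A B) = (G.cut A \ G.cut B) ∪ (G.cut B \ G.cut A) := by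
  ext e
  simp only [cut, Finset.mem_filter, Finset.mem_univ, true_and, Finset.mem_union,
    Finset.mem_sdiff, Finset.mem_symmDiff]
  tauto

/-- The graph with one vertex and no edges. -/
def Contract.pt : MGraph Unit Empty := ⟨Empty.elim, Empty.elim⟩

theorem Contract.card_cut [Fintype V] [Fintype E] (X : Finset V)
    (Z : Finset ({v // v ∈ X} ⊕ Unit)) :
    ∃ Y : Finset V, ((G.repl X Contract.pt fun _ => ()).cut Z).card = (G.cut Y).card := by
  rw [card_cut_repl]
  have h0 : (Contract.pt.cut (tW X Z)).card = 0 := by
    rw [Finset.card_eq_zero]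
    exact Finset.eq_empty_of_isEmpty _
  rw [h0, add_zero]
  by_cases h : () ∈ tW X Z
  · refine ⟨symmDiff (tX X Z) X, ?_⟩
    rw [Contract.cut_symmDiff, Finset.card_union_of_disjoint disjoint_sdiff_sdiff]
    congr 2
    ext e
    simp only [Finset.mem_filter, Finset.mem_sdiff, h, iff_true]
  · refine ⟨tX X Z, ?_⟩
    rw [← Finset.card_sdiff_add_card_inter (G.cut (tX X Z)) (G.cut X)]
    congr 2
    ext e
    simp only [Finset.mem_filter, Finset.mem_inter, h, iff_false, not_not]
    tauto

theorem coverTypes_nonempty [Fintype V] [Fintype E] (hG : G.IsSmallestCounterexample)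
    (X : Finset V) (hX : 2 ≤ Xᶜ.card) : (G.coverTypes X).Nonempty := by
  set G' := G.repl X Contract.pt fun _ => () with hG'
  have hbr : G'.Bridgeless := by
    rw [bridgeless_iff]
    intro Z
    obtain ⟨Y, hY⟩ := Contract.card_cut G X Z
    rw [hG', hY]
    exact (bridgeless_iff G).1 hG.1.1 Y
  have hV := card_repl_vertices (W := Unit) X
  have hE := G.card_repl_edges (K := Empty) X
  have hle : (Finset.univ.filter fun e => G.Meets X e).card ≤ Fintype.card E :=
    Finset.card_le_univ _
  have hc := Finset.card_compl X
  have hXV := Finset.card_le_univ X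
  rw [Fintype.card_unit] at hV
  rw [Fintype.card_empty] at hE
  have hncex : ¬ G'.IsCounterexample := by
    intro h
    have h1 := hG.2 _ _ G' h
    omega
  have hcdc : G'.HasCDC := by
    by_contra h
    exact hncex ⟨hbr, h⟩
  obtain ⟨F, hF⟩ := G'.exists_evenCover_of_hasCDC hcdc
  exact ⟨_, _, G.sideCover_res X Contract.pt (fun _ => ()) F hF, rfl⟩

end MGraph
end CDCut
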