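import Pool.Agent.CDCut.Kempe

/-!
# Module `Core`: the finite computation

Let `A`, `B` be disjoint symmetric relations on `Fin 4` (sets of cover types) which are closed under
the switching rule and contain one of the types `00, 0i, ii` for each `i = 1, 2, 3`.  Then, for some
`i ∈ {1,2,3}`, one of them is `{00, 0j, 0k, jk}` and the other one is `{11, 22, 33, ij, ik}`, where
`{i,j,k} = {1,2,3}`.  (There are exactly 6 such pairs `(A, B)`.)

Symmetric relations are encoded by numbers `< 1024` (10 unordered pairs); `goods` is the list of the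
codes which are closed and satisfy the meeting conditions, and the statement is checked for all
pairs of elements of `goods` by `decide +kernel`.
-/

namespace CDCut

/-- the relation `{00, 0j, 0k, jk}`, `{j,k} = {1,2,3} \ {i}` -/
def SC (i x y : Fin 4) : Prop := x ≠ i ∧ y ≠ i ∧ (x = y → x = 0)

/-- the relation `{11, 22, 33, ij, ik}` -/
def TC (i x y : Fin 4) : Prop := x ≠ 0 ∧ y ≠ 0 ∧ (x = y ∨ x = i ∨ y = i)

/-- index of an unordered pair -/
def ix (i j : Fin 4) : Fin 10 :=
  (![![0, 1, 2, 3], ![1, 4, 5, 6], ![2, 5, 7, 8], ![3, 6, 8, 9]] : Fin 4 → Fin 4 → Fin 10) i j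

/-- does the code `s` contain the pair `ij`? -/
def bt (s : ℕ) (i j : Fin 4) : Bool := s.testBit (ix i j).val

/-- closed under switching -/
def clos (s : ℕ) : Bool :=
  (List.finRange 4).all fun i => (List.finRange 4).all fun j => !(bt s i j) ||
    ([1, 2, 3] : List (Fin 4)).any fun w => ([1, 2, 3] : List (Fin 4)).any fun z =>
      bt s (kx i w) j && bt s i (kx j z) && bt s (kx i w) (kx j z)

/-- the meeting conditions -/
def meet (s : ℕ) : Bool :=
  ([1, 2, 3] : List (Fin 4)).all fun i => bt s 0 0 || bt s 0 i || bt s i i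

/-- the closed codes satisfying the meeting conditions -/
def goods : List ℕ := (List.range 1024).filter fun s => meet s && clos s

/-- the code is that of `SC i` -/
def isSC (i : Fin 4) (s : ℕ) : Bool :=
  (List.finRange 4).all fun x => (List.finRange 4).all fun y =>
    bt s x y == decide (x ≠ i ∧ y ≠ i ∧ (x = y → x = 0))

/-- the code is that of `TC i` -/
def isTC (i : Fin 4) (s : ℕ) : Bool :=
  (List.finRange 4).all fun x => (List.finRange 4).all fun y =>
    bt s x y == decide (x ≠ 0 ∧ y ≠ 0 ∧ (x = y ∨ x = i ∨ y = i))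

theorem goods_check : (goods.all fun a => goods.all fun b => (a &&& b != 0) ||
    ([1, 2, 3] : List (Fin 4)).any fun i => (isSC i a && isTC i b) || (isTC i a && isSC i b)) = true := by
  decide +kernel

theorem ix_symm : ∀ i j : Fin 4, ix i j = ix j i := by decide

/-- representatives of the ten pairs -/
def rep : Fin 10 → Fin 4 × Fin 4 :=
  ![(0, 0), (0, 1), (0, 2), (0, 3), (1, 1), (1, 2), (1, 3), (2, 2), (2, 3), (3, 3)]

theorem rep_ix : ∀ i j : Fin 4, rep (ix i j) = (i, j) ∨ rep (ix i j) = (j, i) := by decide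

theorem isSC_iff (i : Fin 4) (s : ℕ) : isSC i s = true ↔ ∀ x y, bt s x y = true ↔ SC i x y := by
  unfold isSC SC
  simp only [List.all_eq_true, List.mem_finRange, forall_const, beq_iff_eq]
  constructor
  · intro h x y
    rw [h x y, decide_eq_true_iff]
  · intro h x y
    rw [Bool.eq_iff_iff, h x y, decide_eq_true_iff]

theorem isTC_iff (i : Fin 4) (s : ℕ) : isTC i s = true ↔ ∀ x y, bt s x y = true ↔ TC i x y := by
  unfold isTC TC
  simp only [List.all_eq_true, List.mem_finRange, forall_const, beq_iff_eq]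
  constructor
  · intro h x y
    rw [h x y, decide_eq_true_iff]
  · intro h x y
    rw [Bool.eq_iff_iff, h x y, decide_eq_true_iff]

open scoped Classical in
theorem exists_code (A : Fin 4 → Fin 4 → Prop) (symmA : ∀ i j, A i j → A j i) :
    ∃ s < 1024, ∀ i j, bt s i j = true ↔ A i j := by
  refine ⟨Nat.ofBits (fun k : Fin 10 => decide (A (rep k).1 (rep k).2)), ?_, ?_⟩
  · exact Nat.ofBits_lt_two_pow _
  · intro i j
    unfold bt
    rw [Nat.testBit_ofBits_lt _ _ (ix i j).isLt, decide_eq_true_iff]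
    simp only [Fin.eta]
    rcases rep_ix i j with h | h <;> rw [h]
    exact ⟨symmA _ _, symmA _ _⟩

theorem mem_123 (i : Fin 4) : i ∈ ([1, 2, 3] : List (Fin 4)) ↔ i ≠ 0 := by
  revert i; decide

theorem code_mem (A : Fin 4 → Fin 4 → Prop)
    (closedA : ∀ i j, A i j → ∃ w z : Fin 4, w ≠ 0 ∧ z ≠ 0 ∧ A (kx i w) j ∧ A i (kx j z) ∧
      A (kx i w) (kx j z))
    (meetA : ∀ i, i ≠ 0 → A 0 0 ∨ A 0 i ∨ A i i) (s : ℕ) (hs : s < 1024)
    (h : ∀ i j, bt s i j = true ↔ A i j) : s ∈ goods := by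
  unfold goods
  rw [List.mem_filter]
  refine ⟨List.mem_range.mpr hs, ?_⟩
  rw [Bool.and_eq_true]
  constructor
  · unfold meet
    rw [List.all_eq_true]
    intro i hi
    rw [mem_123] at hi
    rw [Bool.or_eq_true, Bool.or_eq_true, h, h, h]
    rcases meetA i hi with h1 | h1 | h1
    · exact Or.inl (Or.inl h1)
    · exact Or.inl (Or.inr h1)
    · exact Or.inr h1
  · unfold clos
    rw [List.all_eq_true]
    intro i _
    rw [List.all_eq_true]
    intro j _
    by_cases hb : bt s i j = true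
    · rw [Bool.or_eq_true]
      right
      obtain ⟨w, z, hw, hz, h1, h2, h3⟩ := closedA i j ((h i j).1 hb)
      rw [List.any_eq_true]
      refine ⟨w, (mem_123 w).2 hw, ?_⟩
      rw [List.any_eq_true]
      refine ⟨z, (mem_123 z).2 hz, ?_⟩
      rw [Bool.and_eq_true, Bool.and_eq_true]
      exact ⟨⟨(h _ _).2 h1, (h _ _).2 h2⟩, (h _ _).2 h3⟩
    · simp [hb]

theorem core (A B : Fin 4 → Fin 4 → Prop) (symmA : ∀ i j, A i j → A j i)
    (symmB : ∀ i j, B i j → B j i)
    (closedA : ∀ i j, A i j → ∃ w z : Fin 4, w ≠ 0 ∧ z ≠ 0 ∧ A (kx i w) j ∧ A i (kx j z) ∧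
      A (kx i w) (kx j z))
    (closedB : ∀ i j, B i j → ∃ w z : Fin 4, w ≠ 0 ∧ z ≠ 0 ∧ B (kx i w) j ∧ B i (kx j z) ∧
      B (kx i w) (kx j z))
    (meetA : ∀ i, i ≠ 0 → A 0 0 ∨ A 0 i ∨ A i i) (meetB : ∀ i, i ≠ 0 → B 0 0 ∨ B 0 i ∨ B i i)
    (disj : ∀ i j, ¬ (A i j ∧ B i j)) :
    ∃ i : Fin 4, i ≠ 0 ∧
      (((∀ x y, A x y ↔ SC i x y) ∧ (∀ x y, B x y ↔ TC i x y)) ∨
       ((∀ x y, A x y ↔ TC i x y) ∧ (∀ x y, B x y ↔ SC i x y))) := by
  obtain ⟨a, ha, hA⟩ := exists_code A symmA
  obtain ⟨b, hb, hB⟩ := exists_code B symmB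
  have ha' := code_mem A closedA meetA a ha hA
  have hb' := code_mem B closedB meetB b hb hB
  have h := goods_check
  rw [List.all_eq_true] at h
  have h1 := h a ha'
  rw [List.all_eq_true] at h1
  have h2 := h1 b hb'
  have h0 : a &&& b = 0 := by
    apply Nat.eq_of_testBit_eq
    intro k
    rw [Nat.zero_testBit, Nat.testBit_and]
    by_cases hk : k < 10
    · by_contra hc
      rw [Bool.not_eq_false, Bool.and_eq_true] at hc
      have hrep : ∀ k : Fin 10, ix (rep k).1 (rep k).2 = k := by decide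
      have e := hrep ⟨k, hk⟩
      refine disj (rep ⟨k, hk⟩).1 (rep ⟨k, hk⟩).2 ⟨(hA _ _).1 ?_, (hB _ _).1 ?_⟩
      · unfold bt; rw [e]; exact hc.1
      · unfold bt; rw [e]; exact hc.2
    · have : a.testBit k = false := by
        apply Nat.testBit_lt_two_pow
        calc a < 2 ^ 10 := ha
          _ ≤ 2 ^ k := Nat.pow_le_pow_right (by norm_num) (by omega)
      rw [this]; rfl
  rw [h0, Bool.or_eq_true] at h2
  rcases h2 with h2 | h2
  · exact absurd h2 (by decide)
  · rw [List.any_eq_true] at h2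
    obtain ⟨i, hi, h3⟩ := h2
    rw [mem_123] at hi
    refine ⟨i, hi, ?_⟩
    rw [Bool.or_eq_true, Bool.and_eq_true, Bool.and_eq_true, isSC_iff, isTC_iff, isTC_iff,
      isSC_iff] at h3
    rcases h3 with ⟨h4, h5⟩ | ⟨h4, h5⟩
    · left
      exact ⟨fun x y => (hA x y).symm.trans (h4 x y), fun x y => (hB x y).symm.trans (h5 x y)⟩
    · right
      exact ⟨fun x y => (hA x y).symm.trans (h4 x y), fun x y => (hB x y).symm.trans (h5 x y)⟩

end CDCut
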