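import Pool.Agent.CDCut.Veblen

/-!
# Module `Cov`: even double covers and circuit double covers

`hasCDC_of_evenCover`: replace each member of the even cover by a decomposition into circuits
(`exists_decomposition`), for instance by induction on the multiset, proving for every multiset `F`
of even sets that there is a multiset `F'` of circuits with
`F'.countP (e ∈ ·) = F.countP (e ∈ ·)` for every `e`.

`exists_evenCover_of_hasCDC`: a circuit has all degrees 0 or 2.
-/

open scoped Classical

namespace CDCut
namespace MGraph

variable {V E : Type} (G : MGraph V E)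

/-- A multiset of even sets can be replaced by a multiset of circuits. -/
theorem Cov.exists_circuits [Fintype V] (F : Multiset (Finset E)) :
    (∀ C ∈ F, ∀ v, Even (G.deg C v)) → ∃ F' : Multiset (Finset E), (∀ C ∈ F', G.IsCircuit C) ∧
      ∀ e, F'.countP (fun C => e ∈ C) = F.countP (fun C => e ∈ C) := by
  induction F using Multiset.induction_on with
  | empty => exact fun _ => ⟨0, by simp, fun e => rfl⟩
  | cons C F ih =>
    intro h
    obtain ⟨F₁, h1, h2⟩ := ih fun D hD => h D (Multiset.mem_cons_of_mem hD)
    obtain ⟨F₂, h3, h4⟩ := G.exists_decomposition C (h C (Multiset.mem_cons_self C F))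
    refine ⟨F₂ + F₁, ?_, ?_⟩
    · intro D hD
      rcases Multiset.mem_add.1 hD with hD | hD
      · exact h3 D hD
      · exact h1 D hD
    · intro e
      rw [Multiset.countP_add, h2, h4, Multiset.countP_cons, add_comm]

theorem hasCDC_of_evenCover [Fintype V] (F : Multiset (Finset E)) (hF : G.EvenCover F) :
    G.HasCDC := by
  obtain ⟨F', h1, h2⟩ := Cov.exists_circuits G F hF.1
  exact ⟨F', h1, fun e => (h2 e).trans (hF.2 e)⟩

theorem exists_evenCover_of_hasCDC (h : G.HasCDC) : ∃ F, G.EvenCover F := by
  obtain ⟨F, h1, h2⟩ := h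
  refine ⟨F, fun C hC v => ?_, h2⟩
  rcases (h1 C hC).2.1 v with h3 | h3
  · rw [h3]
    exact ⟨0, rfl⟩
  · rw [h3]
    exact ⟨1, rfl⟩

end MGraph
end CDCut
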