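import Pool.Agent.CDCut.Inner

/-!
# Module `Cubic`: a smallest counterexample is cubic

**`card_cut_vertex`.**  `(cut {v}).card ≥ 3` by `three_le_card_cut` (`{v} ≠ univ`: otherwise there
are no edges at all, as there are no loops, contradicting `no_isolated`).  Suppose that
`(cut {v}).card ≥ 4`.  Let `a` be an edge at `v` with other end `u`.

Case 1: some edge `b` at `v` has its other end different from `u`.  By `exists_cut_of_pair` there is
`Z` with `(cut Z).card = 3` and `a, b ∈ cut Z`; replacing `Z` by `Zᶜ` we may assume `v ∉ Z`, so both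
other ends are in `Z`, and `Z.card ≥ 2`.  By `card_cut_eq_three`, `Zᶜ.card = 1`, so `Zᶜ = {v}` and
`cut Z = cut {v}` has at least 4 elements: contradiction.

Case 2: all edges at `v` have the other end `u`.  Take a second edge `b` at `v` and `Z` as before
with `v ∉ Z`, `u ∈ Z`.  All edges at `v` are in `cut Z`, so `(cut Z).card ≥ 4`: contradiction.

**`three_mul_card`.**  Count the pairs (vertex of `X`, edge at it): each vertex has degree 3
(`deg_univ_eq_card_cut`), edges inside `X` are counted twice, edges of `cut X` once.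

**`parity_cut`.**  From `three_mul_card`.
-/

open scoped Classical

namespace CDCut
namespace MGraph

variable {V E : Type} (G : MGraph V E)

theorem Cubic_mem_cut_singleton [Fintype E] {e : E} {v : V} : e ∈ G.cut {v} ↔
    (G.fst e = v ∧ G.snd e ≠ v) ∨ (G.fst e ≠ v ∧ G.snd e = v) := by
  unfold cut
  simp only [Finset.mem_filter, Finset.mem_univ, true_and, Finset.mem_singleton]

theorem Cubic_unique [Fintype E] {e : E} {v u w : V} (h0 : e ∈ G.cut {v}) (h1 : e ∈ G.cut {u})
    (h2 : e ∈ G.cut {w}) (hu : u ≠ v) (hw : w ≠ v) : u = w := by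
  rw [Cubic_mem_cut_singleton] at h0 h1 h2
  rcases h0 with ⟨a1, a2⟩ | ⟨a1, a2⟩
  · have hu' : G.snd e = u := by
      rcases h1 with ⟨b1, -⟩ | ⟨-, b1⟩
      · exact absurd (b1.symm.trans a1) hu
      · exact b1
    have hw' : G.snd e = w := by
      rcases h2 with ⟨b1, -⟩ | ⟨-, b1⟩
      · exact absurd (b1.symm.trans a1) hw
      · exact b1
    exact hu'.symm.trans hw'
  · have hu' : G.fst e = u := by
      rcases h1 with ⟨b1, -⟩ | ⟨-, b1⟩
      · exact b1
      · exact absurd (b1.symm.trans a2) hu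
    have hw' : G.fst e = w := by
      rcases h2 with ⟨b1, -⟩ | ⟨-, b1⟩
      · exact b1
      · exact absurd (b1.symm.trans a2) hw
    exact hu'.symm.trans hw'

theorem Cubic_pair [Fintype V] [Fintype E] (hG : G.IsSmallestCounterexample) {v : V}
    (hv : (G.cut {v}).card ≠ 3) {a b : E} (hab : a ≠ b) (ha : a ∈ G.cut {v})
    (hb : b ∈ G.cut {v}) :
    ∃ u, u ≠ v ∧ (G.cut {u}).card = 3 ∧ a ∈ G.cut {u} ∧ b ∈ G.cut {u} := by
  have hinc : ∀ e ∈ G.cut {v}, G.Inc e v := by
    intro e he
    rw [Cubic_mem_cut_singleton] at he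
    exact he.imp (fun h => h.1) (fun h => h.2)
  obtain ⟨Z, hZ, haZ, hbZ⟩ := G.exists_cut_of_pair hG a b v hab (hinc a ha) (hinc b hb)
    (G.no_loop hG a) (G.no_loop hG b)
  -- we may assume that `v ∉ Z`
  obtain ⟨Y, hY, haY, hbY, hvY⟩ : ∃ Y : Finset V, (G.cut Y).card = 3 ∧ a ∈ G.cut Y ∧
      b ∈ G.cut Y ∧ v ∉ Y := by
    by_cases hvZ : v ∈ Z
    · refine ⟨Zᶜ, ?_, ?_, ?_, ?_⟩
      · rw [cut_compl]; exact hZ
      · rw [cut_compl]; exact haZ
      · rw [cut_compl]; exact hbZ
      · rw [Finset.mem_compl]; exact fun h => h hvZ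
    · exact ⟨Z, hZ, haZ, hbZ, hvZ⟩
  rcases G.card_cut_eq_three hG Y hY with h | h
  · obtain ⟨u, rfl⟩ := Finset.card_eq_one.1 h
    refine ⟨u, ?_, hY, haY, hbY⟩
    rintro rfl
    exact hvY (Finset.mem_singleton_self _)
  · exfalso
    apply hv
    obtain ⟨u, hu⟩ := Finset.card_eq_one.1 h
    have hvu : v ∈ Yᶜ := Finset.mem_compl.2 hvY
    rw [hu, Finset.mem_singleton] at hvu
    rw [hvu, ← hu, cut_compl]
    exact hY

theorem card_cut_vertex [Fintype V] [Fintype E] (hG : G.IsSmallestCounterexample) (v : V) :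
    (G.cut {v}).card = 3 := by
  by_contra hv
  have h3 := G.three_le_card_star hG v
  have h4 : 4 ≤ (G.cut {v}).card := by omega
  obtain ⟨a, ha, b, hb, hab⟩ := Finset.one_lt_card.1 (by omega : 1 < (G.cut {v}).card)
  obtain ⟨u, huv, hu3, hau, hbu⟩ := G.Cubic_pair hG hv hab ha hb
  have hsub : G.cut {v} ⊆ G.cut {u} := by
    intro c hc
    by_cases hca : c = a
    · rw [hca]; exact hau
    · obtain ⟨w, hwv, -, haw, hcw⟩ := G.Cubic_pair hG hv (Ne.symm hca) ha hc
      have huw : u = w := G.Cubic_unique ha hau haw huv hwv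
      rw [huw]; exact hcw
  have := Finset.card_le_card hsub
  omega

theorem three_mul_card [Fintype V] [Fintype E] (hG : G.IsSmallestCounterexample)
    (X : Finset V) : 3 * X.card = 2 * (G.inside X).card + (G.cut X).card := by
  have h1 : ∑ v ∈ X, G.deg Finset.univ v = 3 * X.card := by
    rw [Finset.sum_congr rfl (fun v _ => by
      rw [G.deg_univ_eq_card_cut v (G.no_loop hG), G.card_cut_vertex hG v] :
        ∀ v ∈ X, G.deg Finset.univ v = 3), Finset.sum_const, smul_eq_mul, mul_comm]
  rw [sum_deg_on] at h1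
  have h2 := card_symmDiff_add (Finset.univ.filter fun e => G.fst e ∈ X)
    (Finset.univ.filter fun e => G.snd e ∈ X)
  have h3 : symmDiff (Finset.univ.filter fun e => G.fst e ∈ X)
      (Finset.univ.filter fun e => G.snd e ∈ X) = G.cut X := by
    ext e
    simp only [cut, Finset.mem_filter, Finset.mem_univ, true_and, Finset.mem_symmDiff]
    tauto
  have h4 : (Finset.univ.filter fun e => G.fst e ∈ X) ∩
      (Finset.univ.filter fun e => G.snd e ∈ X) = G.inside X := by
    ext e
    simp only [inside, Finset.mem_filter, Finset.mem_univ, true_and, Finset.mem_inter]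
  rw [h3, h4] at h2
  omega

theorem parity_cut [Fintype V] [Fintype E] (hG : G.IsSmallestCounterexample)
    (X : Finset V) : (Even (G.cut X).card ↔ Even X.card) := by
  have h := G.three_mul_card hG X
  rw [Nat.even_iff, Nat.even_iff]
  omega

end MGraph
end CDCut
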