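import Mathlib

/-!
# Circuit double covers and cyclic 4-edge-cuts: definitions

`MGraph V E` is a finite multigraph (loops and parallel edges allowed) with vertex type `V` and
edge type `E`.  Circuits are given by their edge sets.
-/

open scoped Classical

namespace CDCut

/-- A multigraph with vertex type `V` and edge type `E`; loops and parallel edges are allowed.
Every edge `e` has two ends `fst e` and `snd e` (the order has no meaning, and a loop is an edge
with `fst e = snd e`). -/
structure MGraph (V E : Type) where
  /-- one end of an edge -/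
  fst : E → V
  /-- the other end of an edge -/
  snd : E → V

namespace MGraph

variable {V E : Type} (G : MGraph V E)

/-- The edge `e` is incident with the vertex `v`. -/
def Inc (e : E) (v : V) : Prop := G.fst e = v ∨ G.snd e = v

/-- The degree of the vertex `v` in the edge set `C` (a loop at `v` counts twice). -/
noncomputable def deg (C : Finset E) (v : V) : ℕ :=
  (C.filter fun e => G.fst e = v).card + (C.filter fun e => G.snd e = v).card

/-- `C` is the edge set of a circuit, that is, of a connected 2-regular subgraph. -/
def IsCircuit (C : Finset E) : Prop :=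
  C.Nonempty ∧ (∀ v, G.deg C v = 0 ∨ G.deg C v = 2) ∧
    ∀ e ∈ C, ∀ f ∈ C,
      Relation.ReflTransGen (fun x y => x ∈ C ∧ y ∈ C ∧ ∃ v, G.Inc x v ∧ G.Inc y v) e f

/-- Every edge lies on a circuit. -/
def Bridgeless : Prop := ∀ e, ∃ C, G.IsCircuit C ∧ e ∈ C

/-- `G` has a circuit double cover: a finite family of circuits (repetitions allowed) such that
every edge lies in exactly two members. -/
def HasCDC : Prop :=
  ∃ F : Multiset (Finset E), (∀ C ∈ F, G.IsCircuit C) ∧ ∀ e, F.countP (fun C => e ∈ C) = 2

/-- A bridgeless graph without circuit double cover. -/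
def IsCounterexample : Prop := G.Bridgeless ∧ ¬ G.HasCDC

/-- A counterexample to the circuit double cover conjecture with the least possible value of
(number of vertices) + (number of edges), among all finite multigraphs. -/
def IsSmallestCounterexample [Fintype V] [Fintype E] : Prop :=
  G.IsCounterexample ∧
    ∀ (V' E' : Type) [Fintype V'] [Fintype E'] (G' : MGraph V' E'), G'.IsCounterexample →
      Fintype.card V + Fintype.card E ≤ Fintype.card V' + Fintype.card E'

/-- The edge-cut `δ(X)`: the edges with exactly one end in `X`. -/
noncomputable def cut [Fintype E] (X : Finset V) : Finset E :=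
  Finset.univ.filter fun e =>
    (G.fst e ∈ X ∧ G.snd e ∉ X) ∨ (G.fst e ∉ X ∧ G.snd e ∈ X)

/-- The vertices `v` and `w` lie in the same component of the graph `G - T`. -/
def SameComponent (T : Finset E) (v w : V) : Prop :=
  Relation.ReflTransGen
    (fun x y => ∃ e, e ∉ T ∧ ((G.fst e = x ∧ G.snd e = y) ∨ (G.fst e = y ∧ G.snd e = x))) v w

/-- At least two components of `G - T` contain a circuit. -/
def IsCyclicCut (T : Finset E) : Prop :=
  ∃ C D : Finset E, G.IsCircuit C ∧ G.IsCircuit D ∧ Disjoint C T ∧ Disjoint D T ∧
    ∀ v w, (∃ e ∈ C, G.Inc e v) → (∃ f ∈ D, G.Inc f w) → ¬ G.SameComponent T v w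

/-- `X` is a nonempty proper set of vertices and `δ(X)` is a cyclic 4-edge-cut. -/
def IsCyclicFourCut [Fintype V] [Fintype E] (X : Finset V) : Prop :=
  X.Nonempty ∧ X ≠ Finset.univ ∧ (G.cut X).card = 4 ∧ G.IsCyclicCut (G.cut X)

/-- The edge `e` has at least one end in `X`. -/
def Meets (X : Finset V) (e : E) : Prop := G.fst e ∈ X ∨ G.snd e ∈ X

/-- A cover of the side `X`: a finite family of sets of edges having at least one end in `X`, such
that every vertex of `X` has even degree in each of the sets, and every edge with at least one end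
in `X` lies in exactly two of the sets. -/
def SideCover (X : Finset V) (F : Multiset (Finset E)) : Prop :=
  (∀ C ∈ F, (∀ e ∈ C, G.Meets X e) ∧ ∀ v ∈ X, Even (G.deg C v)) ∧
    ∀ e, G.Meets X e → F.countP (fun C => e ∈ C) = 2

/-- The cover types of the side `X`: the multisets of nonempty traces `C ∩ δ(X)` left on the cut
by the members `C` of the covers of the side `X`. -/
def coverTypes [Fintype E] (X : Finset V) : Set (Multiset (Finset E)) :=
  {t | ∃ F, G.SideCover X F ∧ t = (F.map fun C => C ∩ G.cut X).filter fun D => D ≠ ∅}

/-- The edges meeting `X` can be coloured with three colours such that edges meeting at a vertex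
of `X` receive different colours. -/
def SideColourable (X : Finset V) : Prop :=
  ∃ col : E → Fin 3, ∀ v ∈ X, ∀ e f, e ≠ f → G.Inc e v → G.Inc f v → col e ≠ col f

end MGraph

/-- The four types `00, 01, 02, 12` (with `1 = ac|bd`, `2 = ad|bc`, `3 = ab|cd`, and `0` standing
for one member containing all four edges). -/
def typeS {E : Type} (a b c d : E) : Set (Multiset (Finset E)) :=
  {{{a, b, c, d}, {a, b, c, d}},
   {{a, b, c, d}, {a, c}, {b, d}},
   {{a, b, c, d}, {a, d}, {b, c}},
   {{a, c}, {b, d}, {a, d}, {b, c}}}

/-- The five types `11, 22, 33, 13, 23` (with `1 = ac|bd`, `2 = ad|bc`, `3 = ab|cd`). -/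
def typeT {E : Type} (a b c d : E) : Set (Multiset (Finset E)) :=
  {{{a, c}, {b, d}, {a, c}, {b, d}},
   {{a, d}, {b, c}, {a, d}, {b, c}},
   {{a, b}, {c, d}, {a, b}, {c, d}},
   {{a, c}, {b, d}, {a, b}, {c, d}},
   {{a, d}, {b, c}, {a, b}, {c, d}}}

end CDCut
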