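import Pool.Agent.CDCut.Inner

/-!
# Module `Exchange`: gluing a side of one 4-edge-cut to a side of another one

Let `X`, `Y` be nonempty proper vertex sets with 4-edge-cuts `{a,b,c,d}` and `{a',b',c',d'}` in a
smallest counterexample `G`, and suppose that no type of the side `X` is a type of the side `Yᶜ`
after renaming `a,b,c,d` to `a',b',c',d'`.  Then `|Y| + |inside Y| ≤ |X| + |inside X|`.

**Proof.**  Let `σ : E → E` map `a,b,c,d` to `a',b',c',d'`.  Let `W = {v // v ∈ Yᶜ}`,
`K = {e // fst e ∈ Yᶜ ∧ snd e ∈ Yᶜ}`, `H` the graph on `W` with edges `K`, and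
`G' = G.repl X H att` where for `e ∈ cut X` the vertex `att e` is the end of `σ e` in `Yᶜ`
(and any vertex for the other `e`).

*`G'` has no CDC.*  Otherwise it has an even cover `F'`.  `F = F'.map (res X)` is a cover of the
side `X` (`sideCover_res`), with a type `t` of the form `tr a b c d i + tr a b c d j`
(`isTrace_of_coverTypes`, `isTrace_four`).  For a member `C` of `F'` let
`C2 = {e | e inside Yᶜ and inr e ∈ C} ∪ σ '' (res X C ∩ cut X)`; by `even_res` its degree at every
`w ∈ Yᶜ` is even, and the sets `C2` form a cover of the side `Yᶜ`.  The trace of `C2` on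
`cut Yᶜ = cut Y` is the image under `σ` of the trace of `res X C`, so the type of this cover is the
image of `t`, that is `tr a' b' c' d' i + tr a' b' c' d' j`.  This contradicts the hypothesis.

*`G'` is bridgeless* (`bridgeless_iff`).  Let `Z` be a set of vertices of `G'`, `Z1 = tX X Z ⊆ X`,
`Z2 ⊆ Yᶜ` its part in `W`.  Let `c1 = (cut Z1 \ cut X).card`, `L1 = cut Z1 ∩ cut X`,
`c2` = number of edges inside `Yᶜ` with exactly one end in `Z2`, `L2` = set of those `e ∈ cut X`
with `att e ∈ Z2`.  By `card_cut_repl` the cut of `Z` has size `c1 + (L1 ∆ L2).card + c2`.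
If `Z1` is neither `∅` nor `X` then `c1 + |L1| ≥ 3` and `c1 + 4 - |L1| ≥ 3` (`three_le_card_cut` for
`Z1` and `X \ Z1`), in particular `c1 ≥ 1`; if `Z1 = ∅` then `c1 = 0, L1 = ∅`; if `Z1 = X` then
`c1 = 0`, `|L1| = 4`.  The same for `Z2, c2, L2` in the side `Yᶜ`.  In all cases the sum is
different from 1 (both proper: at least 2; one proper: at least 3; none: 0 or 4).

*Size.*  `G'` has `|X| + |Yᶜ|` vertices and `|inside X| + 4 + |inside Yᶜ|` edges, and `G` has
`|Y| + |Yᶜ|` vertices and `|inside Y| + 4 + |inside Yᶜ|` edges.  By minimality the inequality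
follows.
-/

open scoped Classical

namespace CDCut
namespace MGraph

variable {V E : Type} (G : MGraph V E)

namespace Exchange

/-- the renaming of the edges of the cut -/
noncomputable def ren (a b c a' b' c' d' : E) (e : E) : E :=
  if e = a then a' else if e = b then b' else if e = c then c' else d'

/-- the end of an edge of the cut outside `Y` -/
noncomputable def oe (Y : Finset V) (e : E) : V := if G.fst e ∈ Y then G.snd e else G.fst e

theorem oe_mem [Fintype V] [Fintype E] {Y : Finset V} {e : E} (he : e ∈ G.cut Y) :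
    oe G Y e ∈ Yᶜ := by
  rw [Finset.mem_compl]
  unfold oe
  rw [Inner.mem_cut] at he
  split_ifs with h
  · tauto
  · exact h

/-- the graph induced on the complement of `Y` -/
def ind [Fintype V] (Y : Finset V) :
    MGraph {v // v ∈ Yᶜ} {e // G.fst e ∈ Yᶜ ∧ G.snd e ∈ Yᶜ} where
  fst k := ⟨G.fst k.1, k.2.1⟩
  snd k := ⟨G.snd k.1, k.2.2⟩

/-- the attachments -/
noncomputable def att [Fintype V] (Y : Finset V) (σ : E → E) (w0 : {v // v ∈ Yᶜ}) (e : E) :
    {v // v ∈ Yᶜ} :=
  if h : oe G Y (σ e) ∈ Yᶜ then ⟨oe G Y (σ e), h⟩ else w0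

theorem att_val [Fintype V] [Fintype E] {Y : Finset V} {σ : E → E} {w0 : {v // v ∈ Yᶜ}} {e : E}
    (he : σ e ∈ G.cut Y) : (att G Y σ w0 e : V) = oe G Y (σ e) := by
  unfold att
  rw [dif_pos (oe_mem G he)]

theorem deg_oe [Fintype V] [Fintype E] {Y : Finset V} {S : Finset E} (hS : S ⊆ G.cut Y) {v : V}
    (hv : v ∉ Y) : G.deg S v = (S.filter fun e => oe G Y e = v).card := by
  unfold deg
  rw [← Finset.card_union_of_disjoint]
  · congr 1
    ext e
    simp only [Finset.mem_union, Finset.mem_filter]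
    constructor
    · rintro (⟨h1, h2⟩ | ⟨h1, h2⟩)
      · refine ⟨h1, ?_⟩
        unfold oe
        rw [if_neg (by rw [h2]; exact hv), h2]
      · refine ⟨h1, ?_⟩
        have h3 := (Inner.mem_cut G).1 (hS h1)
        unfold oe
        rw [if_pos, h2]
        by_contra h4
        rw [h2] at h3
        tauto
    · rintro ⟨h1, h2⟩
      unfold oe at h2
      split_ifs at h2 with h3
      · exact Or.inr ⟨h1, h2⟩
      · exact Or.inl ⟨h1, h2⟩
  · rw [Finset.disjoint_left]
    intro e h1 h2
    rw [Finset.mem_filter] at h1 h2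
    have h3 := (Inner.mem_cut G).1 (hS h1.1)
    rw [h1.2, h2.2] at h3
    tauto

theorem oe_mem_iff [Fintype V] [Fintype E] {Y Z : Finset V} {e : E} (he : e ∈ G.cut Y)
    (hZ : Z ⊆ Yᶜ) : e ∈ G.cut Z ↔ oe G Y e ∈ Z := by
  have h1 := (Inner.mem_cut G).1 he
  have h2 : G.fst e ∈ Z → G.fst e ∉ Y := fun h => Finset.mem_compl.1 (hZ h)
  have h3 : G.snd e ∈ Z → G.snd e ∉ Y := fun h => Finset.mem_compl.1 (hZ h)
  rw [Inner.mem_cut]
  unfold oe
  split_ifs with h
  · tauto
  · tauto

theorem ind_deg [Fintype V] {Y : Finset V} (D : Finset {e // G.fst e ∈ Yᶜ ∧ G.snd e ∈ Yᶜ})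
    (w : {v // v ∈ Yᶜ}) :
    (ind G Y).deg D w = G.deg (D.map (Function.Embedding.subtype _)) w.1 := by
  unfold deg
  rw [Finset.filter_map, Finset.filter_map, Finset.card_map, Finset.card_map]
  congr 2
  · ext e
    simp only [Finset.mem_filter, Function.comp_apply]
    exact and_congr_right fun _ => ⟨fun h => congrArg Subtype.val h, fun h => Subtype.ext h⟩
  · ext e
    simp only [Finset.mem_filter, Function.comp_apply]
    exact and_congr_right fun _ => ⟨fun h => congrArg Subtype.val h, fun h => Subtype.ext h⟩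

theorem mem_map_sub {α : Type*} {p : α → Prop} {A : Finset (Subtype p)} {x : α} (hx : p x) :
    x ∈ A.map (Function.Embedding.subtype p) ↔ (⟨x, hx⟩ : Subtype p) ∈ A := by
  constructor
  · intro h
    obtain ⟨g, hg, hgf⟩ := Finset.mem_map.1 h
    have : g = ⟨x, hx⟩ := Subtype.ext hgf
    rwa [this] at hg
  · intro h
    exact Finset.mem_map.2 ⟨_, h, rfl⟩

theorem of_mem_map_sub {α : Type*} {p : α → Prop} {A : Finset (Subtype p)} {x : α}
    (h : x ∈ A.map (Function.Embedding.subtype p)) : p x := by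
  obtain ⟨g, -, rfl⟩ := Finset.mem_map.1 h
  exact g.2

theorem mem_mapK [Fintype V] {Y : Finset V} {D : Finset {e // G.fst e ∈ Yᶜ ∧ G.snd e ∈ Yᶜ}} {e : E}
    (h : e ∈ D.map (Function.Embedding.subtype _)) : G.fst e ∈ Yᶜ ∧ G.snd e ∈ Yᶜ := by
  obtain ⟨g, -, rfl⟩ := Finset.mem_map.1 h
  exact g.2

theorem mem_inside [Fintype E] {X : Finset V} {e : E} :
    e ∈ G.inside X ↔ G.fst e ∈ X ∧ G.snd e ∈ X := by
  unfold inside
  rw [Finset.mem_filter]
  exact ⟨fun h => h.2, fun h => ⟨Finset.mem_univ _, h⟩⟩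

theorem ind_cut [Fintype V] [Fintype E] {Y : Finset V} (A : Finset {v // v ∈ Yᶜ}) :
    ((ind G Y).cut A).card =
      (G.cut (A.map (Function.Embedding.subtype _)) \ G.cut Y).card := by
  rw [← Finset.card_map (Function.Embedding.subtype _)]
  congr 1
  ext e
  constructor
  · intro h
    have hp := of_mem_map_sub h
    have h1 := (mem_map_sub (p := fun e => G.fst e ∈ Yᶜ ∧ G.snd e ∈ Yᶜ) (x := e) hp).1 h
    rw [Inner.mem_cut] at h1
    rw [Finset.mem_sdiff, Inner.mem_cut, Inner.mem_cut, mem_map_sub hp.1, mem_map_sub hp.2]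
    refine ⟨h1, ?_⟩
    have h2 := Finset.mem_compl.1 hp.1
    have h3 := Finset.mem_compl.1 hp.2
    tauto
  · intro h
    rw [Finset.mem_sdiff] at h
    have h1 := Inner.notMem_cut G h.2
    have hp : G.fst e ∈ Yᶜ ∧ G.snd e ∈ Yᶜ := by
      rcases (Inner.mem_cut G).1 h.1 with h2 | h2
      · have h3 := Finset.mem_compl.1 (of_mem_map_sub h2.1)
        rw [Finset.mem_compl, Finset.mem_compl]
        tauto
      · have h3 := Finset.mem_compl.1 (of_mem_map_sub h2.2)
        rw [Finset.mem_compl, Finset.mem_compl]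
        tauto
    rw [mem_map_sub (p := fun e => G.fst e ∈ Yᶜ ∧ G.snd e ∈ Yᶜ) (x := e) hp, Inner.mem_cut]
    have h4 := (Inner.mem_cut G).1 h.1
    rw [mem_map_sub hp.1, mem_map_sub hp.2] at h4
    exact h4

theorem side_facts [Fintype V] [Fintype E] (hG : G.IsSmallestCounterexample) {X Z : Finset V}
    (hX2 : X ≠ Finset.univ) (h4 : (G.cut X).card = 4) (hZ : Z ⊆ X) :
    ((G.cut Z \ G.cut X).card = 0 ∧ (G.cut Z ∩ G.cut X).card = 0) ∨
    ((G.cut Z \ G.cut X).card = 0 ∧ (G.cut Z ∩ G.cut X).card = 4) ∨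
    (3 ≤ (G.cut Z \ G.cut X).card + (G.cut Z ∩ G.cut X).card ∧
      (G.cut Z ∩ G.cut X).card + 3 ≤ (G.cut Z \ G.cut X).card + 4) := by
  by_cases h1 : Z = ∅
  · left
    rw [h1, cut_empty]
    simp
  by_cases h2 : Z = X
  · right
    left
    rw [h2]
    simp [h4]
  right
  right
  have hu : ∀ Y : Finset V, Y ⊆ X → Y ≠ Finset.univ := by
    rintro Y hY rfl
    exact hX2 (Finset.univ_subset_iff.1 hY)
  have h3 := three_le_card_cut G hG Z (Finset.nonempty_iff_ne_empty.2 h1) (hu Z hZ)
  have hn : (X \ Z).Nonempty := by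
    rw [Finset.nonempty_iff_ne_empty]
    intro h5
    exact h2 (Finset.Subset.antisymm hZ (Finset.sdiff_eq_empty_iff_subset.1 h5))
  have h5 := three_le_card_cut G hG (X \ Z) hn (hu _ Finset.sdiff_subset)
  have h6 := Finset.card_sdiff_add_card_inter (G.cut Z) (G.cut X)
  have h7 := Finset.card_sdiff_add_card_inter (G.cut X) (G.cut Z)
  rw [Finset.inter_comm] at h7
  have h8 : G.cut (X \ Z) ⊆ (G.cut Z \ G.cut X) ∪ (G.cut X \ G.cut Z) := by
    intro e he
    have h9 : G.fst e ∈ Z → G.fst e ∈ X := fun h => hZ h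
    have h10 : G.snd e ∈ Z → G.snd e ∈ X := fun h => hZ h
    simp only [Finset.mem_union, Finset.mem_sdiff, Inner.mem_cut] at he ⊢
    tauto
  have h9 := (Finset.card_le_card h8).trans (Finset.card_union_le _ _)
  omega

theorem card_filter_xor {α : Type*} (T : Finset α) (p q : α → Prop) :
    (T.filter fun e => ¬ (p e ↔ q e)).card + 2 * (T.filter fun e => p e ∧ q e).card =
      (T.filter p).card + (T.filter q).card := by
  induction T using Finset.induction_on with
  | empty => simp
  | insert a T ha ih =>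
    simp only [Finset.filter_insert]
    by_cases hp : p a <;> by_cases hq : q a <;>
      simp only [hp, hq, if_true, if_false, iff_true, iff_false, not_true_eq_false,
        not_false_eq_true, and_true, and_false, and_self] <;>
      (try rw [Finset.card_insert_of_notMem (fun h => ha (Finset.mem_filter.1 h).1)]) <;>
      (try rw [Finset.card_insert_of_notMem (fun h => ha (Finset.mem_filter.1 h).1)]) <;>
      (try rw [Finset.card_insert_of_notMem (fun h => ha (Finset.mem_filter.1 h).1)]) <;>
      omega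

theorem countP_map_congr {α β : Type*} (F : Multiset α) (f : α → β) (p : β → Prop)
    (q : α → Prop) [DecidablePred p] [DecidablePred q] (h : ∀ a ∈ F, p (f a) ↔ q a) : (F.map f).countP p = F.countP q := by
  rw [Multiset.countP_map, Multiset.countP_eq_card_filter]
  congr 1
  exact Multiset.filter_congr h

section glue

variable [Fintype V] [Fintype E] {X Y : Finset V} {σ : E → E}

/-- the part of a member of the cover on the side `Yᶜ` -/
noncomputable def C2 (σ : E → E)
    (C : Finset ({e // G.Meets X e} ⊕ {e // G.fst e ∈ Yᶜ ∧ G.snd e ∈ Yᶜ})) : Finset E :=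
  (G.resK X C).map (Function.Embedding.subtype _) ∪ (G.res X C ∩ G.cut X).image σ

omit [Fintype V] in
theorem mem_res {K : Type} {C : Finset ({e // G.Meets X e} ⊕ K)} {e : E}
    (h : G.Meets X e) : e ∈ G.res X C ↔ Sum.inl ⟨e, h⟩ ∈ C := by
  unfold res
  rw [Finset.mem_filter]
  exact ⟨fun h' => h'.2.2, fun h' => ⟨Finset.mem_univ _, h, h'⟩⟩

omit [Fintype V] [Fintype E] in
theorem mem_resK {K : Type} [Fintype K] {C : Finset ({e // G.Meets X e} ⊕ K)} {k : K} :
    k ∈ G.resK X C ↔ Sum.inr k ∈ C := by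
  unfold resK
  rw [Finset.mem_filter]
  exact ⟨fun h => h.2, fun h => ⟨Finset.mem_univ _, h⟩⟩

omit [Fintype V] in
theorem meets_of_cut {X : Finset V} {e : E} (h : e ∈ G.cut X) : G.Meets X e := by
  rw [Inner.mem_cut] at h
  unfold Meets
  tauto

theorem exists_types (hm : ∀ e ∈ G.cut X, σ e ∈ G.cut Y)
    (hinj : ∀ e ∈ G.cut X, ∀ f ∈ G.cut X, σ e = σ f → e = f)
    (hsurj : ∀ e' ∈ G.cut Y, ∃ e ∈ G.cut X, σ e = e') (w0 : {v // v ∈ Yᶜ})
    (F : Multiset (Finset ({e // G.Meets X e} ⊕ {e // G.fst e ∈ Yᶜ ∧ G.snd e ∈ Yᶜ})))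
    (hF : (G.repl X (ind G Y) (att G Y σ w0)).EvenCover F) :
    ∃ t ∈ G.coverTypes X, t.map (Finset.image σ) ∈ G.coverTypes Yᶜ := by
  have hK : ∀ {e : E}, (G.fst e ∈ Yᶜ ∧ G.snd e ∈ Yᶜ) → e ∉ G.cut Y := by
    intro e h
    have h2 := Finset.mem_compl.1 h.1
    have h3 := Finset.mem_compl.1 h.2
    rw [Inner.mem_cut]
    tauto
  -- the trace of `C2`
  have htr : ∀ C : Finset ({e // G.Meets X e} ⊕ {e // G.fst e ∈ Yᶜ ∧ G.snd e ∈ Yᶜ}),
      C2 G σ C ∩ G.cut Yᶜ = (G.res X C ∩ G.cut X).image σ := by
    intro C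
    rw [cut_compl]
    ext e
    unfold C2
    rw [Finset.mem_inter, Finset.mem_union]
    constructor
    · rintro ⟨h1 | h1, h2⟩
      · exact absurd h2 (hK (mem_mapK G h1))
      · exact h1
    · intro h1
      refine ⟨Or.inr h1, ?_⟩
      obtain ⟨f, hf, rfl⟩ := Finset.mem_image.1 h1
      exact hm f (Finset.mem_inter.1 hf).2
  refine ⟨_, ⟨F.map (G.res X), sideCover_res G X _ _ F hF, rfl⟩, F.map (C2 G σ), ?_, ?_⟩
  · constructor
    · intro S hS
      obtain ⟨C, hC, rfl⟩ := Multiset.mem_map.1 hS
      constructor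
      · intro e he
        unfold C2 at he
        rcases Finset.mem_union.1 he with h1 | h1
        · exact Or.inl (mem_mapK G h1).1
        · obtain ⟨f, hf, rfl⟩ := Finset.mem_image.1 h1
          apply meets_of_cut
          rw [cut_compl]
          exact hm f (Finset.mem_inter.1 hf).2
      · intro v hv
        have hd : Disjoint ((G.resK X C).map (Function.Embedding.subtype _))
            ((G.res X C ∩ G.cut X).image σ) := by
          rw [Finset.disjoint_left]
          intro e h1 h2
          obtain ⟨f, hf, rfl⟩ := Finset.mem_image.1 h2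
          exact hK (mem_mapK G h1) (hm f (Finset.mem_inter.1 hf).2)
        unfold C2
        rw [deg_union G _ _ hd]
        have h1 := even_res G X (ind G Y) (att G Y σ w0) C (hF.1 C hC) ⟨v, hv⟩
        have h2 : G.deg ((G.res X C ∩ G.cut X).image σ) v =
            ((G.res X C ∩ G.cut X).filter fun e => att G Y σ w0 e = ⟨v, hv⟩).card := by
          rw [deg_oe G (Y := Y) ?_ (Finset.mem_compl.1 hv)]
          · rw [Finset.filter_image, Finset.card_image_of_injOn]
            · congr 1
              apply Finset.filter_congr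
              intro e he
              have h3 := att_val G (w0 := w0) (hm e (Finset.mem_inter.1 he).2)
              rw [← h3]
              exact ⟨fun h => Subtype.ext h, fun h => congrArg Subtype.val h⟩
            · intro e he f hf hef
              exact hinj e (Finset.mem_inter.1 (Finset.mem_filter.1 he).1).2 f
                (Finset.mem_inter.1 (Finset.mem_filter.1 hf).1).2 hef
          · intro e he
            obtain ⟨f, hf, rfl⟩ := Finset.mem_image.1 he
            exact hm f (Finset.mem_inter.1 hf).2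
        rw [h2, add_comm]
        rw [ind_deg] at h1
        convert h1
    · intro e he
      by_cases hp : G.fst e ∈ Yᶜ ∧ G.snd e ∈ Yᶜ
      · have hk : ∀ C ∈ F, e ∈ C2 G σ C ↔ Sum.inr ⟨e, hp⟩ ∈ C := by
          intro C _
          unfold C2
          rw [Finset.mem_union]
          constructor
          · rintro (h1 | h1)
            · have h2 := (mem_map_sub (p := fun e => G.fst e ∈ Yᶜ ∧ G.snd e ∈ Yᶜ)
                (x := e) hp).1 h1
              exact (mem_resK G).1 h2
            · obtain ⟨f, hf, rfl⟩ := Finset.mem_image.1 h1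
              exact absurd (hm f (Finset.mem_inter.1 hf).2) (hK hp)
          · intro h1
            left
            rw [mem_map_sub (p := fun e => G.fst e ∈ Yᶜ ∧ G.snd e ∈ Yᶜ) (x := e) hp]
            exact (mem_resK G).2 h1
        rw [countP_map_congr F (C2 G σ) (fun S => e ∈ S) (fun C => Sum.inr ⟨e, hp⟩ ∈ C) hk]
        convert hF.2 (Sum.inr ⟨e, hp⟩)
      · have hc : e ∈ G.cut Y := by
          unfold Meets at he
          rw [Finset.mem_compl, Finset.mem_compl] at he hp
          rw [Inner.mem_cut]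
          tauto
        obtain ⟨f, hf, rfl⟩ := hsurj e hc
        have hk : ∀ C ∈ F, σ f ∈ C2 G σ C ↔ Sum.inl ⟨f, meets_of_cut G hf⟩ ∈ C := by
          intro C _
          unfold C2
          rw [Finset.mem_union, ← mem_res]
          constructor
          · rintro (h1 | h1)
            · exact absurd (mem_mapK G h1) hp
            · obtain ⟨g, hg, hgf⟩ := Finset.mem_image.1 h1
              rw [Finset.mem_inter] at hg
              rw [← hinj g hg.2 f hf hgf]
              exact hg.1
          · intro h1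
            right
            exact Finset.mem_image_of_mem σ (Finset.mem_inter.2 ⟨h1, hf⟩)
        rw [countP_map_congr F (C2 G σ) (fun S => σ f ∈ S)
          (fun C => Sum.inl ⟨f, meets_of_cut G hf⟩ ∈ C) hk]
        convert hF.2 (Sum.inl ⟨f, meets_of_cut G hf⟩)
  · have e1 : (F.map (G.res X)).map (fun C => C ∩ G.cut X) =
        F.map (fun C => G.res X C ∩ G.cut X) := by
      rw [Multiset.map_map]
      rfl
    have e2 : (F.map (C2 G σ)).map (fun C => C ∩ G.cut Yᶜ) =
        (F.map (fun C => G.res X C ∩ G.cut X)).map (Finset.image σ) := by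
      rw [Multiset.map_map, Multiset.map_map]
      exact Multiset.map_congr rfl fun C _ => htr C
    rw [e1, e2]
    generalize F.map (fun C => G.res X C ∩ G.cut X) = M
    rw [Multiset.filter_map]
    congr 1
    apply Multiset.filter_congr
    intro D _
    simp

theorem bridgeless (hG : G.IsSmallestCounterexample) (hX2 : X ≠ Finset.univ)
    (hY1 : Y.Nonempty) (hX4 : (G.cut X).card = 4) (hY4 : (G.cut Y).card = 4)
    (hm : ∀ e ∈ G.cut X, σ e ∈ G.cut Y)
    (hinj : ∀ e ∈ G.cut X, ∀ f ∈ G.cut X, σ e = σ f → e = f)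
    (hsurj : ∀ e' ∈ G.cut Y, ∃ e ∈ G.cut X, σ e = e') (w0 : {v // v ∈ Yᶜ}) :
    (G.repl X (ind G Y) (att G Y σ w0)).Bridgeless := by
  rw [bridgeless_iff]
  intro Z
  rw [card_cut_repl, ind_cut]
  set Z1 : Finset V := tX X Z
  set A : Finset {v // v ∈ Yᶜ} := tW X Z
  have f1 := side_facts G hG (Z := Z1) hX2 hX4 (tX_subset X Z)
  have hYc : Yᶜ ≠ Finset.univ := by
    intro h
    rw [Finset.compl_eq_univ_iff] at h
    exact hY1.ne_empty h
  have hA : A.map (Function.Embedding.subtype _) ⊆ Yᶜ := fun v hv => of_mem_map_sub hv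
  have f2 := side_facts G hG hYc (by rw [cut_compl]; exact hY4) hA
  rw [cut_compl] at f2
  have h2 : ((G.cut X).filter (fun e => e ∈ G.cut Z1)).card = (G.cut Z1 ∩ G.cut X).card := by
    congr 1
    ext e
    rw [Finset.mem_filter, Finset.mem_inter, and_comm]
  have h3 : ((G.cut X).filter (fun e => att G Y σ w0 e ∈ A)).card =
      (G.cut (A.map (Function.Embedding.subtype _)) ∩ G.cut Y).card := by
    rw [← Finset.card_image_of_injOn (f := σ)]
    · congr 1
      ext e
      rw [Finset.mem_image, Finset.mem_inter]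
      constructor
      · rintro ⟨f, hf, rfl⟩
        rw [Finset.mem_filter] at hf
        have h4 := hm f hf.1
        refine ⟨?_, h4⟩
        have h5 : oe G Y (σ f) ∈ A.map (Function.Embedding.subtype _) := by
          rw [← att_val G (w0 := w0) h4]
          exact Finset.mem_map.2 ⟨_, hf.2, rfl⟩
        exact (oe_mem_iff G h4 hA).2 h5
      · rintro ⟨h4, h5⟩
        obtain ⟨f, hf, rfl⟩ := hsurj e h5
        refine ⟨f, Finset.mem_filter.2 ⟨hf, ?_⟩, rfl⟩
        have h6 : oe G Y (σ f) ∈ A.map (Function.Embedding.subtype _) :=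
          (oe_mem_iff G h5 hA).1 h4
        rw [← att_val G (w0 := w0) h5] at h6
        obtain ⟨w, hw, hw2⟩ := Finset.mem_map.1 h6
        have h7 : w = att G Y σ w0 f := Subtype.ext hw2
        rwa [h7] at hw
    · intro e he f hf hef
      exact hinj e (Finset.mem_filter.1 he).1 f (Finset.mem_filter.1 hf).1 hef
  have hfin : ∀ m k : ℕ, k ≤ (G.cut Z1 ∩ G.cut X).card →
      k ≤ (G.cut (A.map (Function.Embedding.subtype _)) ∩ G.cut Y).card →
      m + 2 * k = (G.cut Z1 ∩ G.cut X).card +
      (G.cut (A.map (Function.Embedding.subtype _)) ∩ G.cut Y).card →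
      (G.cut Z1 \ G.cut X).card + m +
        (G.cut (A.map (Function.Embedding.subtype _)) \ G.cut Y).card ≠ 1 := by
    intro m k hk1 hk2 hmk
    omega
  refine hfin _ ((G.cut X).filter fun e => e ∈ G.cut Z1 ∧ att G Y σ w0 e ∈ A).card ?_ ?_ ?_
  · rw [← h2]
    exact Finset.card_le_card (Finset.monotone_filter_right _ fun e _ h => h.1)
  · rw [← h3]
    exact Finset.card_le_card (Finset.monotone_filter_right _ fun e _ h => h.2)
  rw [← h2, ← h3]
  convert card_filter_xor (G.cut X) (fun e => e ∈ G.cut Z1) (fun e => att G Y σ w0 e ∈ A)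

omit [Fintype V] in
theorem card_meets (X : Finset V) (h4 : (G.cut X).card = 4) :
    (Finset.univ.filter fun e => G.Meets X e).card = (G.inside X).card + 4 := by
  rw [← h4, ← Finset.card_union_of_disjoint]
  · congr 1
    ext e
    rw [Finset.mem_union, Inner.mem_cut, Finset.mem_filter, mem_inside]
    unfold Meets
    have := Finset.mem_univ e
    tauto
  · rw [Finset.disjoint_left]
    intro e h1 h2
    rw [Inner.mem_cut] at h2
    rw [mem_inside] at h1
    tauto

theorem card_all (Y : Finset V) (h4 : (G.cut Y).card = 4) :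
    Fintype.card E = (G.inside Y).card + 4 + (G.inside Yᶜ).card := by
  rw [← card_meets G Y h4, ← Finset.card_union_of_disjoint]
  · rw [← Finset.card_univ]
    congr 1
    ext e
    rw [Finset.mem_union, Finset.mem_filter, mem_inside, Finset.mem_compl, Finset.mem_compl]
    unfold Meets
    have := Finset.mem_univ e
    tauto
  · rw [Finset.disjoint_left]
    intro e h1 h2
    rw [Finset.mem_filter] at h1
    rw [mem_inside, Finset.mem_compl, Finset.mem_compl] at h2
    unfold Meets at h1
    tauto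

end glue

end Exchange

theorem exchange [Fintype V] [Fintype E] (hG : G.IsSmallestCounterexample)
    (X Y : Finset V) (hX1 : X.Nonempty) (hX2 : X ≠ Finset.univ) (hY1 : Y.Nonempty)
    (hY2 : Y ≠ Finset.univ) (a b c d a' b' c' d' : E) (hnd : [a, b, c, d].Nodup)
    (hnd' : [a', b', c', d'].Nodup) (hX : G.cut X = {a, b, c, d})
    (hY : G.cut Y = {a', b', c', d'})
    (hdis : ∀ i j : Fin 4, ¬ (tr a b c d i + tr a b c d j ∈ G.coverTypes X ∧
      tr a' b' c' d' i + tr a' b' c' d' j ∈ G.coverTypes Yᶜ)) :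
    Y.card + (G.inside Y).card ≤ X.card + (G.inside X).card := by
  set σ : E → E := Exchange.ren a b c a' b' c' d' with hσ
  simp only [List.nodup_cons, List.mem_cons, List.not_mem_nil, or_false, not_or, not_false_eq_true,
    List.nodup_nil, and_true] at hnd hnd'
  obtain ⟨⟨hab, hac, had⟩, ⟨hbc, hbd⟩, hcd⟩ := hnd
  obtain ⟨⟨hab', hac', had'⟩, ⟨hbc', hbd'⟩, hcd'⟩ := hnd'
  have sa : σ a = a' := by
    rw [hσ]
    unfold Exchange.ren
    rw [if_pos rfl]
  have sb : σ b = b' := by
    rw [hσ]
    unfold Exchange.ren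
    rw [if_neg (Ne.symm hab), if_pos rfl]
  have sc : σ c = c' := by
    rw [hσ]
    unfold Exchange.ren
    rw [if_neg (Ne.symm hac), if_neg (Ne.symm hbc), if_pos rfl]
  have sd : σ d = d' := by
    rw [hσ]
    unfold Exchange.ren
    rw [if_neg (Ne.symm had), if_neg (Ne.symm hbd), if_neg (Ne.symm hcd)]
  have hX4 : (G.cut X).card = 4 := by
    rw [hX, Finset.card_insert_of_notMem, Finset.card_insert_of_notMem,
      Finset.card_insert_of_notMem, Finset.card_singleton] <;> simp [*]
  have hY4 : (G.cut Y).card = 4 := by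
    rw [hY, Finset.card_insert_of_notMem, Finset.card_insert_of_notMem,
      Finset.card_insert_of_notMem, Finset.card_singleton] <;> simp [*]
  have hm : ∀ e ∈ G.cut X, σ e ∈ G.cut Y := by
    intro e he
    rw [hX] at he
    rw [hY]
    simp only [Finset.mem_insert, Finset.mem_singleton] at he ⊢
    rcases he with rfl | rfl | rfl | rfl
    · exact Or.inl sa
    · exact Or.inr (Or.inl sb)
    · exact Or.inr (Or.inr (Or.inl sc))
    · exact Or.inr (Or.inr (Or.inr sd))
  have himg : (G.cut X).image σ = G.cut Y := by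
    rw [hX, hY, Finset.image_insert, Finset.image_insert, Finset.image_insert,
      Finset.image_singleton, sa, sb, sc, sd]
  have hsurj : ∀ e' ∈ G.cut Y, ∃ e ∈ G.cut X, σ e = e' := by
    intro e' he'
    rw [← himg] at he'
    exact Finset.mem_image.1 he'
  have hinj : ∀ e ∈ G.cut X, ∀ f ∈ G.cut X, σ e = σ f → e = f := by
    have h1 : Set.InjOn σ (G.cut X) := by
      apply Finset.injOn_of_card_image_eq
      rw [himg, hX4, hY4]
    intro e he f hf hef
    exact h1 he hf hef
  obtain ⟨v0, hv0⟩ : ∃ v, v ∉ Y := by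
    by_contra h
    push Not at h
    exact hY2 (Finset.eq_univ_iff_forall.2 h)
  set w0 : {v // v ∈ Yᶜ} := ⟨v0, Finset.mem_compl.2 hv0⟩
  have hmin := hG.2 _ _ (G.repl X (Exchange.ind G Y) (Exchange.att G Y σ w0))
    ⟨Exchange.bridgeless G hG hX2 hY1 hX4 hY4 hm hinj hsurj w0, by
      intro hcdc
      obtain ⟨F, hF⟩ := exists_evenCover_of_hasCDC _ hcdc
      obtain ⟨t, ht1, ht2⟩ := Exchange.exists_types G hm hinj hsurj w0 F hF
      have h1 := isTrace_of_coverTypes G X t ht1
      rw [hX] at h1
      obtain ⟨i, j, rfl⟩ := isTrace_four a b c d (by simp [*]) t h1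
      refine hdis i j ⟨ht1, ?_⟩
      have htr : ∀ i : Fin 4, (tr a b c d i).map (Finset.image σ) = tr a' b' c' d' i := by
        intro i
        fin_cases i <;> simp [tr, Finset.image_insert, sa, sb, sc, sd]
      rw [Multiset.map_add, htr, htr] at ht2
      exact ht2⟩
  rw [card_repl_vertices, card_repl_edges, Exchange.card_meets G X hX4,
    Exchange.card_all G Y hY4] at hmin
  have h1 : Fintype.card {v // v ∈ Yᶜ} = Yᶜ.card := Fintype.card_coe _
  have h2 : Fintype.card {e // G.fst e ∈ Yᶜ ∧ G.snd e ∈ Yᶜ} = (G.inside Yᶜ).card := by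
    rw [Fintype.card_subtype]
    rfl
  have h3 : Y.card + Yᶜ.card = Fintype.card V := Finset.card_add_card_compl Y
  rw [h1, h2] at hmin
  omega

end MGraph
end CDCut
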