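import Pool.Agent.CDCut.Cubic

/-!
# Module `Forest`: vertex sets without circuits, and submodularity of cuts

**`inner_or_two`.**  Let `Z` be a nonempty vertex set, `(cut Z).card = 4`, in a smallest
counterexample.  Then either `Z` contains a circuit (`InnerCircuit Z`) or `Z` consists of two
vertices joined by an edge.  Proof: by `three_mul_card` `3 |Z| = 2 |inside Z| + 4`.
If `|Z| ≤ 2` then `|Z| = 2` and `|inside Z| = 1`, and the edge inside `Z` is not a loop.
If `|Z| ≥ 3`, then `|inside Z| ≥ |Z|` (as `3|Z| - 4 ≥ 2|Z|` for `|Z| ≥ 4`, and `|Z| = 3` is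
impossible by parity).  A set of at least `|Z|` edges with both ends in the set `Z` (nonempty)
contains a nonempty even subset: map the subsets of `inside Z` to the sets of vertices of odd degree
in `Z \ {z0}`; `2^|inside Z| > 2^(|Z| - 1)`, so two different subsets have the same image, and their
symmetric difference is nonempty and has even degree at all vertices except possibly `z0`, hence
everywhere (handshake lemma `sum_deg`).  By `exists_circuit_mem` it contains a circuit.

**`not_inner_of_two`.**  A set of two vertices with an inner circuit would have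
`|inside Z| ≥ 2` (`inner_bounds`), so `(cut Z).card = 6 - 2 |inside Z| ≤ 2`, contradicting
`three_le_card_cut`.

**`submodular`.**  Every edge is counted on the left at most as often as on the right (check the
possible positions of its two ends in the four parts `X ∩ Y, X \ Y, Y \ X, (X ∪ Y)ᶜ`).
-/

open scoped Classical

namespace CDCut
namespace MGraph

variable {V E : Type} (G : MGraph V E)

namespace Forest

/-- A nonempty vertex set spanning at least as many edges as it has vertices contains a circuit. -/
theorem innerCircuit_of_card [Fintype V] [Fintype E] (Z : Finset V) (hne : Z.Nonempty)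
    (h : Z.card ≤ (G.inside Z).card) : G.InnerCircuit Z := by
  obtain ⟨z0, hz0⟩ := hne
  have hlt : ((Z.erase z0).powerset).card < ((G.inside Z).powerset).card := by
    rw [Finset.card_powerset, Finset.card_powerset, Finset.card_erase_of_mem hz0]
    have h1 : 0 < Z.card := Finset.card_pos.2 ⟨z0, hz0⟩
    exact Nat.pow_lt_pow_right (by norm_num) (by omega)
  obtain ⟨S, hS, S', hS', hne, heq⟩ := Finset.exists_ne_map_eq_of_card_lt_of_maps_to
    (s := (G.inside Z).powerset) (t := (Z.erase z0).powerset)
    (f := fun S => (Z.erase z0).filter fun v => Odd (G.deg S v)) hlt (by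
      intro S _
      exact Finset.mem_coe.2 (Finset.mem_powerset.2 (Finset.filter_subset _ _)))
  rw [Finset.mem_powerset] at hS hS'
  have hsub : symmDiff S S' ⊆ G.inside Z := by
    intro e he
    rcases Finset.mem_symmDiff.1 he with h1 | h1
    · exact hS h1.1
    · exact hS' h1.1
  have hoff : ∀ v, v ∉ Z → G.deg (symmDiff S S') v = 0 := by
    intro v hv
    by_contra h0
    obtain ⟨e, he, hev⟩ := (G.deg_pos_iff _ v).1 (Nat.pos_of_ne_zero h0)
    have h1 := hsub he
    unfold inside at h1
    rw [Finset.mem_filter] at h1
    rcases hev with rfl | rfl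
    · exact hv h1.2.1
    · exact hv h1.2.2
  have heven0 : ∀ v, v ≠ z0 → Even (G.deg (symmDiff S S') v) := by
    intro v hv
    by_cases hvZ : v ∈ Z
    · rw [G.even_deg_symmDiff]
      have h1 : (v ∈ (Z.erase z0).filter fun v => Odd (G.deg S v)) ↔
          (v ∈ (Z.erase z0).filter fun v => Odd (G.deg S' v)) := by
        rw [heq]
      rw [Finset.mem_filter, Finset.mem_filter, Finset.mem_erase] at h1
      rw [← Nat.not_odd_iff_even, ← Nat.not_odd_iff_even]
      tauto
    · rw [hoff v hvZ]
      exact ⟨0, rfl⟩
  have heven : ∀ v, Even (G.deg (symmDiff S S') v) := VeblenAux.even_of_even_off G heven0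
  have hnonempty : (symmDiff S S').Nonempty := by
    rw [Finset.nonempty_iff_ne_empty]
    intro h0
    exact hne (symmDiff_eq_bot.1 h0)
  obtain ⟨e, he⟩ := hnonempty
  obtain ⟨C, hCS, hC, -⟩ := G.exists_circuit_mem (symmDiff S S') heven he
  refine ⟨C, hC, ?_⟩
  intro f hf
  have h1 := hsub (hCS hf)
  unfold inside at h1
  rw [Finset.mem_filter] at h1
  exact h1.2

end Forest

theorem inner_or_two [Fintype V] [Fintype E] (hG : G.IsSmallestCounterexample)
    (Z : Finset V) (h : (G.cut Z).card = 4) :
    G.InnerCircuit Z ∨ ∃ x y : V, x ≠ y ∧ Z = {x, y} ∧ ∃ e, G.Inc e x ∧ G.Inc e y := by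
  have h3 := G.three_mul_card hG Z
  rw [h] at h3
  by_cases h2 : Z.card ≤ 2
  · right
    have hc : Z.card = 2 := by omega
    have hi : (G.inside Z).card = 1 := by omega
    obtain ⟨x, y, hxy, rfl⟩ := Finset.card_eq_two.1 hc
    obtain ⟨e, he⟩ := Finset.card_eq_one.1 hi
    refine ⟨x, y, hxy, rfl, e, ?_⟩
    have hmem : e ∈ G.inside {x, y} := by
      rw [he]
      exact Finset.mem_singleton_self e
    unfold inside at hmem
    rw [Finset.mem_filter, Finset.mem_insert, Finset.mem_singleton, Finset.mem_insert,
      Finset.mem_singleton] at hmem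
    have hl := G.no_loop hG e
    obtain ⟨-, hf, hs⟩ := hmem
    unfold Inc
    rcases hf with hf | hf <;> rcases hs with hs | hs
    · exact absurd (hf.trans hs.symm) hl
    · exact ⟨Or.inl hf, Or.inr hs⟩
    · exact ⟨Or.inr hs, Or.inl hf⟩
    · exact absurd (hf.trans hs.symm) hl
  · left
    apply Forest.innerCircuit_of_card G Z
    · rw [← Finset.card_pos]
      omega
    · omega

theorem three_le_of_inner [Fintype V] [Fintype E] (hG : G.IsSmallestCounterexample)
    (Z : Finset V) (hne : Z ≠ Finset.univ) (h : G.InnerCircuit Z) : 3 ≤ Z.card := by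
  have h1 := G.inner_bounds hG Z h
  have h2 := G.three_mul_card hG Z
  have h3 := G.three_le_card_cut hG Z (by rw [← Finset.card_pos]; omega) hne
  omega

theorem submodular [Fintype V] [Fintype E] (X Y : Finset V) :
    (G.cut (X ∩ Y)).card + (G.cut (X ∪ Y)).card ≤ (G.cut X).card + (G.cut Y).card := by
  rw [← Finset.card_union_add_card_inter (G.cut (X ∩ Y)), ← Finset.card_union_add_card_inter
    (G.cut X)]
  apply Nat.add_le_add
  · apply Finset.card_le_card
    intro e
    simp only [cut, Finset.mem_union, Finset.mem_inter, Finset.mem_filter, Finset.mem_univ,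
      true_and]
    tauto
  · apply Finset.card_le_card
    intro e
    simp only [cut, Finset.mem_union, Finset.mem_inter, Finset.mem_filter, Finset.mem_univ,
      true_and]
    tauto

theorem submodular' [Fintype V] [Fintype E] (X Y : Finset V) :
    (G.cut (X \ Y)).card + (G.cut (Y \ X)).card ≤ (G.cut X).card + (G.cut Y).card := by
  rw [← Finset.card_union_add_card_inter (G.cut (X \ Y)), ← Finset.card_union_add_card_inter
    (G.cut X)]
  apply Nat.add_le_add
  · apply Finset.card_le_card
    intro e
    simp only [cut, Finset.mem_union, Finset.mem_sdiff, Finset.mem_filter,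
      Finset.mem_univ, true_and]
    tauto
  · apply Finset.card_le_card
    intro e
    simp only [cut, Finset.mem_sdiff, Finset.mem_inter, Finset.mem_filter,
      Finset.mem_univ, true_and]
    tauto

end MGraph
end CDCut
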