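import Pool.Agent.CDCut.Cubic
import Pool.Agent.CDCut.Trace

/-!
# Module `FourCirc`: the cover types of a 4-circuit

Let `X = {x1, x2, x3, x4}` (four different vertices of a smallest counterexample) with
`(cut X).card = 4`, and suppose that `x1 x2` and `x3 x4` are joined by edges.

**Structure.**  The graph is cubic without loops (`card_cut_vertex`, `no_loop`,
`three_mul_card`), so `(inside X).card = 4`.  Two of the four vertices are never joined by two
parallel edges (otherwise the cut around these two vertices has size `6 - 4 = 2 < 3`,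
`three_le_card_cut`) and no three of them form a triangle (otherwise the cut around these three
vertices has size `9 - 6 = 3`, contradicting `card_cut_eq_three` since both sides have at least two
vertices; here `X ≠ univ` and `Xᶜ` nonempty).  So the four edges inside `X` are `x1x2`, `x3x4` and
two more edges between `{x1,x2}` and `{x3,x4}` which have no common end; after renaming `x3, x4`
they are `x2x3` and `x4x1`.  So there are four different edges `f1 = x1x2, f2 = x2x3, f3 = x3x4,
f4 = x4x1` inside `X` and exactly one edge `li` of `cut X` at each `xi`, and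
`cut X = {l1,l2,l3,l4}`.

**Two covers of the side `X`.**
* `{l1,l2,l3,l4,f1,f3}, {l1,l2,l3,l4,f2,f4}, {f1,f2,f3,f4}`: type `{cut X, cut X}`.
* `{l1,l2,f1}, {l1,l2,f2,f3,f4}, {l3,l4,f3}, {l3,l4,f4,f1,f2}`: type `{p,q,p,q}` with
  `p = {l1,l2}`, `q = {l3,l4}`.
In each of the sets all degrees at `x1..x4` are even, and every edge meeting `X` lies in exactly two
of the sets.
-/

open scoped Classical

namespace CDCut
namespace MGraph

variable {V E : Type} (G : MGraph V E)

/-! ### Counting edges in cuts -/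

theorem FC_deg_eq [Fintype E] (hl : ∀ e, G.fst e ≠ G.snd e) (C : Finset E) (v : V) :
    G.deg C v = (C ∩ G.cut {v}).card := by
  have h1 : C ∩ G.cut {v} = (C.filter fun e => G.fst e = v) ∪
      (C.filter fun e => G.snd e = v) := by
    ext e
    simp only [cut, Finset.mem_inter, Finset.mem_filter, Finset.mem_univ, true_and,
      Finset.mem_singleton, Finset.mem_union]
    constructor
    · tauto
    · rintro (⟨h0, h2⟩ | ⟨h0, h2⟩)
      · exact ⟨h0, Or.inl ⟨h2, fun h3 => hl e (h2.trans h3.symm)⟩⟩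
      · exact ⟨h0, Or.inr ⟨fun h3 => hl e (h3.trans h2.symm), h2⟩⟩
  rw [h1, Finset.card_union_of_disjoint, deg]
  rw [Finset.disjoint_filter]
  intro e _ h2 h3
  exact hl e (h2.trans h3.symm)

theorem FC_card_inter [Fintype E] {v : V} {Z : Finset V} (hv : v ∉ Z) :
    (G.cut {v} ∩ G.cut Z).card = ∑ z ∈ Z, (G.cut {v} ∩ G.cut {z}).card := by
  have h1 : G.cut {v} ∩ G.cut Z = Z.biUnion fun z => G.cut {v} ∩ G.cut {z} := by
    ext e
    simp only [Finset.mem_inter, Finset.mem_biUnion]
    constructor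
    · rintro ⟨h0, h2⟩
      have h0' := G.Cubic_mem_cut_singleton.1 h0
      have h2' : (G.fst e ∈ Z ∧ G.snd e ∉ Z) ∨ (G.fst e ∉ Z ∧ G.snd e ∈ Z) := by
        simpa [cut] using h2
      rcases h0' with ⟨a1, a2⟩ | ⟨a1, a2⟩
      · have hs : G.snd e ∈ Z := by
          rcases h2' with ⟨b1, -⟩ | ⟨-, b1⟩
          · rw [a1] at b1; exact absurd b1 hv
          · exact b1
        refine ⟨G.snd e, hs, h0, G.Cubic_mem_cut_singleton.2 (Or.inr ⟨?_, rfl⟩)⟩
        rw [a1]; exact fun h => a2 h.symm
      · have hs : G.fst e ∈ Z := by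
          rcases h2' with ⟨b1, -⟩ | ⟨-, b1⟩
          · exact b1
          · rw [a2] at b1; exact absurd b1 hv
        refine ⟨G.fst e, hs, h0, G.Cubic_mem_cut_singleton.2 (Or.inl ⟨rfl, ?_⟩)⟩
        rw [a2]; exact fun h => a1 h.symm
    · rintro ⟨z, hz, h0, h2⟩
      refine ⟨h0, ?_⟩
      have hzv : z ≠ v := fun h => hv (h ▸ hz)
      rw [Cubic_mem_cut_singleton] at h0 h2
      simp only [cut, Finset.mem_filter, Finset.mem_univ, true_and]
      rcases h0 with ⟨a1, a2⟩ | ⟨a1, a2⟩
      · rcases h2 with ⟨b1, -⟩ | ⟨-, b1⟩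
        · exact absurd (b1.symm.trans a1) hzv
        · exact Or.inr ⟨by rw [a1]; exact hv, by rw [b1]; exact hz⟩
      · rcases h2 with ⟨b1, -⟩ | ⟨-, b1⟩
        · exact Or.inl ⟨by rw [b1]; exact hz, by rw [a2]; exact hv⟩
        · exact absurd (b1.symm.trans a2) hzv
  rw [h1, Finset.card_biUnion]
  intro z hz w hw hzw
  refine Finset.disjoint_left.2 ?_
  intro e he he'
  rw [Finset.mem_inter] at he he'
  exact hzw (G.Cubic_unique he.1 he.2 he'.2 (fun h => hv (h ▸ hz)) (fun h => hv (h ▸ hw)))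

theorem FC_card_insert [Fintype V] [Fintype E] (hG : G.IsSmallestCounterexample) {v : V}
    {Z : Finset V} (hv : v ∉ Z) :
    (G.cut (insert v Z)).card + 2 * ∑ z ∈ Z, (G.cut {v} ∩ G.cut {z}).card =
      3 + (G.cut Z).card := by
  have h1 : G.cut (insert v Z) = symmDiff (G.cut {v}) (G.cut Z) := by
    ext e
    have a1 : G.fst e = v → G.fst e ∉ Z := fun h => by rw [h]; exact hv
    have a2 : G.snd e = v → G.snd e ∉ Z := fun h => by rw [h]; exact hv
    simp only [cut, Finset.mem_filter, Finset.mem_univ, true_and, Finset.mem_symmDiff,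
      Finset.mem_insert, Finset.mem_singleton]
    tauto
  rw [h1, ← G.FC_card_inter hv, card_symmDiff_add, G.card_cut_vertex hG]

theorem FC_pair [Fintype V] [Fintype E] (hG : G.IsSmallestCounterexample) {u v : V}
    (h : u ≠ v) : (G.cut {u, v}).card + 2 * (G.cut {u} ∩ G.cut {v}).card = 6 := by
  have h1 := G.FC_card_insert hG (v := u) (Z := {v}) (by simpa using h)
  rw [Finset.sum_singleton, G.card_cut_vertex hG] at h1
  exact h1

theorem FC_triple [Fintype V] [Fintype E] (hG : G.IsSmallestCounterexample) {u v w : V}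
    (h1 : u ≠ v) (h2 : u ≠ w) (h3 : v ≠ w) : (G.cut {u, v, w}).card +
      2 * ((G.cut {u} ∩ G.cut {v}).card + (G.cut {u} ∩ G.cut {w}).card +
        (G.cut {v} ∩ G.cut {w}).card) = 9 := by
  have h4 := G.FC_card_insert hG (v := u) (Z := {v, w}) (by simp [h1, h2])
  rw [Finset.sum_pair h3] at h4
  have h5 := G.FC_pair hG h3
  omega

theorem FC_quad [Fintype V] [Fintype E] (hG : G.IsSmallestCounterexample) {t u v w : V}
    (h01 : t ≠ u) (h02 : t ≠ v) (h03 : t ≠ w) (h1 : u ≠ v) (h2 : u ≠ w) (h3 : v ≠ w) :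
    (G.cut {t, u, v, w}).card +
      2 * ((G.cut {t} ∩ G.cut {u}).card + (G.cut {t} ∩ G.cut {v}).card +
        (G.cut {t} ∩ G.cut {w}).card + (G.cut {u} ∩ G.cut {v}).card +
        (G.cut {u} ∩ G.cut {w}).card + (G.cut {v} ∩ G.cut {w}).card) = 12 := by
  have h4 := G.FC_card_insert hG (v := t) (Z := {u, v, w}) (by simp [h01, h02, h03])
  rw [Finset.sum_insert (by simp [h1, h2]), Finset.sum_pair h3] at h4
  have h5 := G.FC_triple hG h1 h2 h3
  omega

/-! ### The abstract eight edges -/

/-- the edges at the vertex `i`; `(false, i)` joins `i` and `i + 1`, `(true, i)` leaves `X` at `i` -/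
def FC_S (i : Fin 4) : Finset (Bool × Fin 4) := {(false, i), (false, i + 3), (true, i)}

/-- the edges of the cut -/
def FC_L : Finset (Bool × Fin 4) := {(true, 0), (true, 1), (true, 2), (true, 3)}

theorem FC_sep : ∀ p q : Bool × Fin 4, (∀ i, p ∈ FC_S i ↔ q ∈ FC_S i) → p = q := by
  unfold FC_S
  decide

theorem FC_mem_S_false : ∀ i j : Fin 4, ((false, j) ∈ FC_S i ↔ (i = j ∨ i = j + 1)) := by
  unfold FC_S
  decide

theorem FC_mem_S_true : ∀ i j : Fin 4, ((true, j) ∈ FC_S i ↔ i = j) := by
  unfold FC_S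
  decide

theorem FC_exists_S : ∀ p : Bool × Fin 4, ∃ i, p ∈ FC_S i := by
  unfold FC_S
  decide

theorem FC_mem_L : ∀ p : Bool × Fin 4, p ∈ FC_L → ∃ i, p = (true, i) := by
  unfold FC_L
  decide

/-- covers of the abstract side give cover types -/
theorem FC_cover [Fintype E] (hl : ∀ e, G.fst e ≠ G.snd e) (x : Fin 4 → V) (X : Finset V)
    (hX : ∀ v, v ∈ X ↔ ∃ i, x i = v) (φ : Bool × Fin 4 ↪ E)
    (hφ : ∀ i, G.cut {x i} = (FC_S i).map φ) (hcut : G.cut X = FC_L.map φ)
    (F' t' : Multiset (Finset (Bool × Fin 4)))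
    (h1 : ∀ C ∈ F', ∀ i, Even (C ∩ FC_S i).card)
    (h2 : ∀ k, (F'.filter (fun C => k ∈ C)).card = 2)
    (ht : (F'.map fun C => C ∩ FC_L).filter (fun D => D ≠ ∅) = t') :
    t'.map (fun D => D.map φ) ∈ G.coverTypes X := by
  have hcutm : ∀ e v, (G.fst e = v ∨ G.snd e = v) → e ∈ G.cut {v} := by
    intro e v h
    rw [Cubic_mem_cut_singleton]
    rcases h with h | h
    · exact Or.inl ⟨h, fun h' => hl e (h.trans h'.symm)⟩
    · exact Or.inr ⟨fun h' => hl e (h'.trans h.symm), h⟩
  have hmeets : ∀ e, G.Meets X e ↔ ∃ k, φ k = e := by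
    intro e
    constructor
    · intro h
      have : ∃ i, e ∈ G.cut {x i} := by
        rcases h with h | h
        · obtain ⟨i, hi⟩ := (hX _).1 h
          exact ⟨i, hcutm e _ (Or.inl hi.symm)⟩
        · obtain ⟨i, hi⟩ := (hX _).1 h
          exact ⟨i, hcutm e _ (Or.inr hi.symm)⟩
      obtain ⟨i, hi⟩ := this
      rw [hφ i, Finset.mem_map] at hi
      obtain ⟨k, -, hk⟩ := hi
      exact ⟨k, hk⟩
    · rintro ⟨k, rfl⟩
      obtain ⟨i, hi⟩ := FC_exists_S k
      have h3 : φ k ∈ G.cut {x i} := by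
        rw [hφ i]; exact Finset.mem_map_of_mem φ hi
      rw [Cubic_mem_cut_singleton] at h3
      rcases h3 with ⟨h3, -⟩ | ⟨-, h3⟩
      · exact Or.inl ((hX _).2 ⟨i, h3.symm⟩)
      · exact Or.inr ((hX _).2 ⟨i, h3.symm⟩)
  refine ⟨F'.map (fun C => C.map φ), ⟨?_, ?_⟩, ?_⟩
  · intro C hC
    obtain ⟨C', hC', rfl⟩ := Multiset.mem_map.1 hC
    refine ⟨?_, ?_⟩
    · intro e he
      obtain ⟨k, -, hk⟩ := Finset.mem_map.1 he
      exact (hmeets e).2 ⟨k, hk⟩
    · intro v hv
      obtain ⟨i, rfl⟩ := (hX v).1 hv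
      rw [G.FC_deg_eq hl, hφ i, ← Finset.map_inter, Finset.card_map]
      exact h1 C' hC' i
  · intro e he
    obtain ⟨k, rfl⟩ := (hmeets e).1 he
    rw [Multiset.countP_map, ← h2 k]
    congr 1
    exact Multiset.filter_congr (p := fun C : Finset (Bool × Fin 4) => φ k ∈ C.map φ)
      (q := fun C => k ∈ C) fun C _ => Finset.mem_map' φ
  · rw [← ht, Multiset.map_map, hcut]
    have h3 : (F'.map ((fun C => C ∩ FC_L.map φ) ∘ fun C => C.map φ)) =
        (F'.map fun C => C ∩ FC_L).map (fun D => D.map φ) := by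
      rw [Multiset.map_map]
      refine Multiset.map_congr rfl fun C _ => ?_
      simp only [Function.comp_apply]
      rw [Finset.map_inter]
    rw [h3, Multiset.filter_map _ (fun D : Finset (Bool × Fin 4) => D.map φ)]
    congr 1
    refine Multiset.filter_congr fun D _ => ?_
    simp only [Function.comp_apply, ne_eq, Finset.map_eq_empty]

/-- the structure of a 4-circuit -/
theorem FC_struct [Fintype V] [Fintype E] (hG : G.IsSmallestCounterexample) (x : Fin 4 → V)
    (hx : Function.Injective x)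
    (h1 : ∀ i, (G.cut {x i} ∩ G.cut {x (i + 1)}).card = 1)
    (h2 : ∀ i, (G.cut {x i} ∩ G.cut {x (i + 2)}).card = 0) :
    ∃ φ : Bool × Fin 4 ↪ E, ∀ i, G.cut {x i} = (FC_S i).map φ := by
  have hex : ∀ i, ∃ f, G.cut {x i} ∩ G.cut {x (i + 1)} = {f} := fun i =>
    Finset.card_eq_one.1 (h1 i)
  choose f hf using hex
  have hf1 : ∀ i, f i ∈ G.cut {x i} := fun i => by
    have : f i ∈ G.cut {x i} ∩ G.cut {x (i + 1)} := by rw [hf i]; exact Finset.mem_singleton_self _
    exact (Finset.mem_inter.1 this).1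
  have hf2 : ∀ i, f i ∈ G.cut {x (i + 1)} := fun i => by
    have : f i ∈ G.cut {x i} ∩ G.cut {x (i + 1)} := by rw [hf i]; exact Finset.mem_singleton_self _
    exact (Finset.mem_inter.1 this).2
  have hf3 : ∀ i z, z ∈ G.cut {x i} → z ∈ G.cut {x (i + 1)} → z = f i := fun i z a b => by
    have : z ∈ G.cut {x i} ∩ G.cut {x (i + 1)} := Finset.mem_inter.2 ⟨a, b⟩
    rw [hf i] at this
    exact Finset.mem_singleton.1 this
  have n1 : ∀ i : Fin 4, i + 1 ≠ i := by decide
  have n2 : ∀ i : Fin 4, i + 3 + 1 = i := by decide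
  have n3 : ∀ i : Fin 4, i + 1 ≠ i + 3 := by decide
  have n4 : ∀ i : Fin 4, i + 3 ≠ i := by decide
  have n5 : ∀ i j : Fin 4, i = j ∨ i = j + 1 ∨ i = j + 2 ∨ i = j + 3 := by decide
  have hfm : ∀ i j, f j ∈ G.cut {x i} ↔ (i = j ∨ i = j + 1) := by
    intro i j
    constructor
    · intro h
      by_contra hcon
      rw [not_or] at hcon
      exact hcon.2 (hx (G.Cubic_unique (hf1 j) h (hf2 j) (fun h' => hcon.1 (hx h'))
        (fun h' => n1 j (hx h'))))
    · rintro (rfl | rfl)
      · exact hf1 _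
      · exact hf2 _
  have hne : ∀ i, f i ≠ f (i + 3) := by
    intro i h
    have h3 : f (i + 3) ∈ G.cut {x (i + 1)} := by rw [← h]; exact hf2 i
    rw [hfm] at h3
    rcases h3 with h3 | h3
    · exact n3 i h3
    · rw [n2] at h3; exact n1 i h3
  have hlex : ∀ i, ∃ l, G.cut {x i} \ {f i, f (i + 3)} = {l} := by
    intro i
    rw [← Finset.card_eq_one, Finset.card_sdiff_of_subset, G.card_cut_vertex hG,
      Finset.card_pair (hne i)]
    intro z hz
    rw [Finset.mem_insert, Finset.mem_singleton] at hz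
    rcases hz with rfl | rfl
    · exact hf1 i
    · have := hf2 (i + 3)
      rwa [n2] at this
  choose l hl using hlex
  have hl1 : ∀ i, l i ∈ G.cut {x i} ∧ l i ≠ f i ∧ l i ≠ f (i + 3) := by
    intro i
    have : l i ∈ G.cut {x i} \ {f i, f (i + 3)} := by rw [hl i]; exact Finset.mem_singleton_self _
    rw [Finset.mem_sdiff, Finset.mem_insert, Finset.mem_singleton, not_or] at this
    exact this
  have hl3 : ∀ i z, z ∈ G.cut {x i} → z ≠ f i → z ≠ f (i + 3) → z = l i := by
    intro i z a b c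
    have : z ∈ G.cut {x i} \ {f i, f (i + 3)} := by
      rw [Finset.mem_sdiff, Finset.mem_insert, Finset.mem_singleton, not_or]
      exact ⟨a, b, c⟩
    rw [hl i] at this
    exact Finset.mem_singleton.1 this
  have hlm : ∀ i j, l j ∈ G.cut {x i} ↔ i = j := by
    intro i j
    constructor
    · intro h
      obtain ⟨b1, b2, b3⟩ := hl1 j
      rcases n5 i j with h3 | h3 | h3 | h3
      · exact h3
      · rw [h3] at h
        exact absurd (hf3 j _ b1 h) b2
      · rw [h3] at h
        have h4 : l j ∈ G.cut {x j} ∩ G.cut {x (j + 2)} := Finset.mem_inter.2 ⟨b1, h⟩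
        rw [Finset.card_eq_zero.1 (h2 j)] at h4
        exact absurd h4 (Finset.notMem_empty _)
      · rw [h3] at h
        refine absurd (hf3 (j + 3) _ h ?_) b3
        rw [n2]; exact b1
    · rintro rfl
      exact (hl1 _).1
  set e : Bool × Fin 4 → E := fun p => if p.1 = true then l p.2 else f p.2 with he
  have hmem : ∀ p i, e p ∈ G.cut {x i} ↔ p ∈ FC_S i := by
    rintro ⟨b, j⟩ i
    cases b
    · rw [FC_mem_S_false]
      exact hfm i j
    · rw [FC_mem_S_true]
      exact hlm i j
  have hinj : Function.Injective e := by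
    intro p q hpq
    apply FC_sep
    intro i
    rw [← hmem, ← hmem, hpq]
  refine ⟨⟨e, hinj⟩, fun i => ?_⟩
  ext z
  rw [Finset.mem_map]
  constructor
  · intro hz
    by_cases c1 : z = f i
    · refine ⟨(false, i), ?_, c1.symm⟩
      rw [FC_mem_S_false]; exact Or.inl rfl
    · by_cases c2 : z = f (i + 3)
      · refine ⟨(false, i + 3), ?_, c2.symm⟩
        rw [FC_mem_S_false, n2]; exact Or.inr rfl
      · refine ⟨(true, i), ?_, (hl3 i z hz c1 c2).symm⟩
        rw [FC_mem_S_true]
  · rintro ⟨p, hp, rfl⟩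
    exact (hmem p i).2 hp

theorem FC_main [Fintype V] [Fintype E] (hG : G.IsSmallestCounterexample) (x : Fin 4 → V)
    (hx : Function.Injective x) (X : Finset V) (hX : ∀ v, v ∈ X ↔ ∃ i, x i = v)
    (hcut : (G.cut X).card = 4)
    (h1 : ∀ i, (G.cut {x i} ∩ G.cut {x (i + 1)}).card = 1)
    (h2 : ∀ i, (G.cut {x i} ∩ G.cut {x (i + 2)}).card = 0) :
    ({G.cut X, G.cut X} : Multiset (Finset E)) ∈ G.coverTypes X ∧
    ∃ p q : Finset E, p.card = 2 ∧ q.card = 2 ∧
      ({p, q, p, q} : Multiset (Finset E)) ∈ G.coverTypes X := by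
  obtain ⟨φ, hφ⟩ := G.FC_struct hG x hx h1 h2
  have hl := G.no_loop hG
  have hL : G.cut X = FC_L.map φ := by
    symm
    refine Finset.eq_of_subset_of_card_le ?_ ?_
    · intro z hz
      obtain ⟨p, hp, rfl⟩ := Finset.mem_map.1 hz
      obtain ⟨i, rfl⟩ := FC_mem_L p hp
      have h3 : φ (true, i) ∈ G.cut {x i} := by
        rw [hφ i]
        exact Finset.mem_map_of_mem φ ((FC_mem_S_true i i).2 rfl)
      have h4 : ∀ j, φ (true, i) ∈ G.cut {x j} → j = i := by
        intro j hj
        rw [hφ j, Finset.mem_map'] at hj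
        exact (FC_mem_S_true j i).1 hj
      rw [Cubic_mem_cut_singleton] at h3
      simp only [cut, Finset.mem_filter, Finset.mem_univ, true_and]
      rcases h3 with ⟨a1, a2⟩ | ⟨a1, a2⟩
      · refine Or.inl ⟨(hX _).2 ⟨i, a1.symm⟩, fun h5 => ?_⟩
        obtain ⟨j, hj⟩ := (hX _).1 h5
        have h6 : φ (true, i) ∈ G.cut {x j} := by
          rw [Cubic_mem_cut_singleton]
          refine Or.inr ⟨fun h7 => ?_, hj.symm⟩
          exact hl _ (h7.trans hj)
        rw [h4 j h6] at hj
        exact a2 hj.symm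
      · refine Or.inr ⟨fun h5 => ?_, (hX _).2 ⟨i, a2.symm⟩⟩
        obtain ⟨j, hj⟩ := (hX _).1 h5
        have h6 : φ (true, i) ∈ G.cut {x j} := by
          rw [Cubic_mem_cut_singleton]
          refine Or.inl ⟨hj.symm, fun h7 => ?_⟩
          exact hl _ (hj.symm.trans h7.symm)
        rw [h4 j h6] at hj
        exact a1 hj.symm
    · rw [hcut, Finset.card_map]
      exact le_of_eq (by decide)
  refine ⟨?_, ?_⟩
  · have h := G.FC_cover hl x X hX φ hφ hL
      {{(true, 0), (true, 1), (true, 2), (true, 3), (false, 0), (false, 2)},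
       {(true, 0), (true, 1), (true, 2), (true, 3), (false, 1), (false, 3)},
       {(false, 0), (false, 1), (false, 2), (false, 3)}}
      {FC_L, FC_L} (by unfold FC_S; decide +kernel) (by decide +kernel)
      (by unfold FC_L; decide +kernel)
    rw [hL]
    exact h
  · refine ⟨({(true, 0), (true, 1)} : Finset (Bool × Fin 4)).map φ,
      ({(true, 2), (true, 3)} : Finset (Bool × Fin 4)).map φ, ?_, ?_, ?_⟩
    · rw [Finset.card_map]; decide
    · rw [Finset.card_map]; decide
    · exact G.FC_cover hl x X hX φ hφ hL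
        {{(true, 0), (true, 1), (false, 0)},
         {(true, 0), (true, 1), (false, 1), (false, 2), (false, 3)},
         {(true, 2), (true, 3), (false, 2)},
         {(true, 2), (true, 3), (false, 3), (false, 0), (false, 1)}}
        {{(true, 0), (true, 1)}, {(true, 2), (true, 3)}, {(true, 0), (true, 1)},
         {(true, 2), (true, 3)}} (by unfold FC_S; decide +kernel) (by decide +kernel)
        (by unfold FC_L; decide +kernel)

theorem four_circuit_types [Fintype V] [Fintype E] (hG : G.IsSmallestCounterexample)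
    (x1 x2 x3 x4 : V) (hnd : [x1, x2, x3, x4].Nodup)
    (hne : ({x1, x2, x3, x4} : Finset V) ≠ Finset.univ)
    (hcut : (G.cut {x1, x2, x3, x4}).card = 4)
    (e12 : ∃ e, G.Inc e x1 ∧ G.Inc e x2) (e34 : ∃ e, G.Inc e x3 ∧ G.Inc e x4) :
    ({G.cut {x1, x2, x3, x4}, G.cut {x1, x2, x3, x4}} : Multiset (Finset E)) ∈
      G.coverTypes {x1, x2, x3, x4} ∧
    ∃ p q : Finset E, p.card = 2 ∧ q.card = 2 ∧
      ({p, q, p, q} : Multiset (Finset E)) ∈ G.coverTypes {x1, x2, x3, x4} := by
  have hl := G.no_loop hG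
  simp only [List.nodup_cons, List.mem_cons, List.not_mem_nil, or_false, not_or,
    List.nodup_nil, and_true, not_false_eq_true] at hnd
  obtain ⟨⟨h12, h13, h14⟩, ⟨h23, h24⟩, h34⟩ := hnd
  obtain ⟨y, hy⟩ : ∃ y, y ∉ ({x1, x2, x3, x4} : Finset V) := by
    by_contra hcon
    apply hne
    rw [Finset.eq_univ_iff_forall]
    intro y
    by_contra hy
    exact hcon ⟨y, hy⟩
  simp only [Finset.mem_insert, Finset.mem_singleton, not_or] at hy
  obtain ⟨hy1, hy2, hy3, hy4⟩ := hy
  -- pairs
  have hpair : ∀ u v : V, u ≠ v → y ≠ u → y ≠ v → (G.cut {u} ∩ G.cut {v}).card ≤ 1 := by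
    intro u v huv hu hv
    have h1 := G.FC_pair hG huv
    have h2 := G.three_le_card_cut hG {u, v} ⟨u, by simp⟩ (by
      intro h
      have : y ∈ ({u, v} : Finset V) := by rw [h]; exact Finset.mem_univ _
      simp [hu, hv] at this)
    omega
  -- triples
  have htriple : ∀ t u v w : V, u ≠ v → u ≠ w → v ≠ w → y ≠ u → y ≠ v → y ≠ w → t ≠ y →
      t ≠ u → t ≠ v → t ≠ w →
      (G.cut {u} ∩ G.cut {v}).card + (G.cut {u} ∩ G.cut {w}).card +
        (G.cut {v} ∩ G.cut {w}).card ≤ 2 := by
    intro t u v w huv huw hvw hu hv hw hty htu htv htw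
    have h1 := G.FC_triple hG huv huw hvw
    have h2 := G.three_le_card_cut hG {u, v, w} ⟨u, by simp⟩ (by
      intro h
      have : y ∈ ({u, v, w} : Finset V) := by rw [h]; exact Finset.mem_univ _
      simp [hu, hv, hw] at this)
    have h3 : (G.cut {u, v, w}).card ≠ 3 := by
      intro h
      rcases G.card_cut_eq_three hG {u, v, w} h with h4 | h4
      · rw [Finset.card_eq_one] at h4
        obtain ⟨z, hz⟩ := h4
        have a1 : u ∈ ({z} : Finset V) := by rw [← hz]; simp
        have a2 : v ∈ ({z} : Finset V) := by rw [← hz]; simp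
        rw [Finset.mem_singleton] at a1 a2
        exact huv (a1.trans a2.symm)
      · rw [Finset.card_eq_one] at h4
        obtain ⟨z, hz⟩ := h4
        have a1 : t ∈ ({z} : Finset V) := by rw [← hz]; simp [htu, htv, htw]
        have a2 : y ∈ ({z} : Finset V) := by rw [← hz]; simp [hu, hv, hw]
        rw [Finset.mem_singleton] at a1 a2
        exact hty (a1.trans a2.symm)
    omega
  have hpos : ∀ u v : V, u ≠ v → (∃ e, G.Inc e u ∧ G.Inc e v) →
      1 ≤ (G.cut {u} ∩ G.cut {v}).card := by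
    rintro u v huv ⟨e, he1, he2⟩
    refine Finset.card_pos.2 ⟨e, Finset.mem_inter.2 ⟨?_, ?_⟩⟩
    · rw [Cubic_mem_cut_singleton]
      rcases he1 with h | h
      · exact Or.inl ⟨h, fun h' => hl e (h.trans h'.symm)⟩
      · exact Or.inr ⟨fun h' => hl e (h'.trans h.symm), h⟩
    · rw [Cubic_mem_cut_singleton]
      rcases he2 with h | h
      · exact Or.inl ⟨h, fun h' => hl e (h.trans h'.symm)⟩
      · exact Or.inr ⟨fun h' => hl e (h'.trans h.symm), h⟩
  have q := G.FC_quad hG h12 h13 h14 h23 h24 h34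
  rw [hcut] at q
  have p12 := hpair x1 x2 h12 hy1 hy2
  have p13 := hpair x1 x3 h13 hy1 hy3
  have p14 := hpair x1 x4 h14 hy1 hy4
  have p23 := hpair x2 x3 h23 hy2 hy3
  have p24 := hpair x2 x4 h24 hy2 hy4
  have p34 := hpair x3 x4 h34 hy3 hy4
  have o12 := hpos x1 x2 h12 e12
  have o34 := hpos x3 x4 h34 e34
  have t4 := htriple x4 x1 x2 x3 h12 h13 h23 hy1 hy2 hy3 (Ne.symm hy4) (Ne.symm h14)
    (Ne.symm h24) (Ne.symm h34)
  have t3 := htriple x3 x1 x2 x4 h12 h14 h24 hy1 hy2 hy4 (Ne.symm hy3) (Ne.symm h13)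
    (Ne.symm h23) h34
  have t2 := htriple x2 x1 x3 x4 h13 h14 h34 hy1 hy3 hy4 (Ne.symm hy2) (Ne.symm h12) h23 h24
  have t1 := htriple x1 x2 x3 x4 h23 h24 h34 hy2 hy3 hy4 (Ne.symm hy1) h12 h13 h14
  have hcomm : ∀ u v : V, (G.cut {u} ∩ G.cut {v}).card = (G.cut {v} ∩ G.cut {u}).card :=
    fun u v => by rw [Finset.inter_comm]
  have c13 := hcomm x1 x3
  have c14 := hcomm x1 x4
  have c24 := hcomm x2 x4
  have c23 := hcomm x2 x3
  have c34 := hcomm x3 x4
  have hinj : ∀ a b c d : V, a ≠ b → a ≠ c → a ≠ d → b ≠ c → b ≠ d → c ≠ d →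
      Function.Injective ![a, b, c, d] := by
    intro a b c d n1 n2 n3 n4 n5 n6 i j hij
    fin_cases i <;> fin_cases j <;>
      first
        | rfl
        | exact absurd hij n1
        | exact absurd hij n2
        | exact absurd hij n3
        | exact absurd hij n4
        | exact absurd hij n5
        | exact absurd hij n6
        | exact absurd hij.symm n1
        | exact absurd hij.symm n2
        | exact absurd hij.symm n3
        | exact absurd hij.symm n4
        | exact absurd hij.symm n5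
        | exact absurd hij.symm n6
  by_cases hcase : (G.cut {x1} ∩ G.cut {x4}).card = 1
  · refine G.FC_main hG ![x1, x2, x3, x4] (hinj _ _ _ _ h12 h13 h14 h23 h24 h34)
      {x1, x2, x3, x4} ?_ hcut ?_ ?_
    · intro v
      simp only [Finset.mem_insert, Finset.mem_singleton, Fin.exists_fin_succ]
      simp [eq_comm]
    · intro i
      fin_cases i
      · show (G.cut {x1} ∩ G.cut {x2}).card = 1
        omega
      · show (G.cut {x2} ∩ G.cut {x3}).card = 1
        omega
      · show (G.cut {x3} ∩ G.cut {x4}).card = 1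
        omega
      · show (G.cut {x4} ∩ G.cut {x1}).card = 1
        omega
    · intro i
      fin_cases i
      · show (G.cut {x1} ∩ G.cut {x3}).card = 0
        omega
      · show (G.cut {x2} ∩ G.cut {x4}).card = 0
        omega
      · show (G.cut {x3} ∩ G.cut {x1}).card = 0
        omega
      · show (G.cut {x4} ∩ G.cut {x2}).card = 0
        omega
  · refine G.FC_main hG ![x1, x2, x4, x3]
      (hinj _ _ _ _ h12 h14 h13 h24 h23 (Ne.symm h34))
      {x1, x2, x3, x4} ?_ hcut ?_ ?_
    · intro v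
      simp only [Finset.mem_insert, Finset.mem_singleton, Fin.exists_fin_succ]
      simp [eq_comm, or_comm]
    · intro i
      fin_cases i
      · show (G.cut {x1} ∩ G.cut {x2}).card = 1
        omega
      · show (G.cut {x2} ∩ G.cut {x4}).card = 1
        omega
      · show (G.cut {x4} ∩ G.cut {x3}).card = 1
        omega
      · show (G.cut {x3} ∩ G.cut {x1}).card = 1
        omega
    · intro i
      fin_cases i
      · show (G.cut {x1} ∩ G.cut {x4}).card = 0
        omega
      · show (G.cut {x2} ∩ G.cut {x3}).card = 0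
        omega
      · show (G.cut {x4} ∩ G.cut {x1}).card = 0
        omega
      · show (G.cut {x3} ∩ G.cut {x2}).card = 0
        omega

end MGraph
end CDCut
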