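import Pool.Agent.CDCut.Cov

/-!
# Module `Glue`: a common type of the two sides gives a circuit double cover

**Proof.**  Let `F1`, `F2` be covers of the sides `X`, `Xᶜ` with the same multiset of nonempty
traces on `T = cut X = cut Xᶜ`.  Split `F1 = F1' + F1''` into the members with nonempty and with
empty trace, same for `F2`.  Since `F1'.map tr = F2'.map tr`, there is a multiset `P` of pairs
`(C, D)` with `C ∩ T = D ∩ T`, whose first components form `F1'` and whose second components form
`F2'` (`Multiset.rel_map`/`Multiset.Rel` with induction).  Put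
`F = P.map (fun (C, D) => C ∪ D) + F1'' + F2''`.

If `C` is a member of a cover of the side `X` (all its edges meet `X`, even at the vertices of `X`)
and `D` a member of a cover of `Xᶜ` with `C ∩ T = D ∩ T`, then for `v ∈ X` the edges of `D` at `v`
lie in `T` (they meet `Xᶜ` and have the end `v ∈ X`), hence in `C`; so the edges of `C ∪ D` at `v`
are the edges of `C` at `v` and `deg (C ∪ D) v = deg C v` is even.  Symmetrically for `v ∉ X`.
A member `C` of `F1''` has no edge of `T`, so all its edges have both ends in `X`, and it is even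
everywhere.  Every edge with both ends in `X` lies in exactly two members of `F1` and in none of
`F2`; every edge `e ∈ T` lies in exactly two members of `F1'`, hence in exactly two of the unions
(`e ∈ C ∪ D ↔ e ∈ C` for `e ∈ T`).  So `F` is an even cover; use `hasCDC_of_evenCover`.
-/

open scoped Classical

namespace CDCut
namespace MGraph

variable {V E : Type} (G : MGraph V E)

theorem exists_pairing {α β : Type*} {R : α → β → Prop} {A : Multiset α} {B : Multiset β}
    (h : Multiset.Rel R A B) :
    ∃ P : Multiset (α × β), P.map Prod.fst = A ∧ P.map Prod.snd = B ∧ ∀ p ∈ P, R p.1 p.2 := by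
  induction h with
  | zero => exact ⟨0, by simp, by simp, by simp⟩
  | @cons a b as bs hab _ ih =>
    obtain ⟨P, h1, h2, h3⟩ := ih
    refine ⟨(a, b) ::ₘ P, by simp [h1], by simp [h2], ?_⟩
    intro p hp
    rcases Multiset.mem_cons.1 hp with rfl | hp
    · exact hab
    · exact h3 p hp

theorem mem_cut_of_meets [Fintype V] [Fintype E] {X : Finset V} {e : E} (h1 : G.Meets X e)
    (h2 : G.Meets Xᶜ e) : e ∈ G.cut X := by
  unfold Meets at h1 h2
  rw [Finset.mem_compl, Finset.mem_compl] at h2
  simp only [cut, Finset.mem_filter, Finset.mem_univ, true_and]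
  tauto

theorem deg_union_eq [Fintype V] [Fintype E] {X : Finset V} {C D : Finset E} {v : V} (hv : v ∈ X)
    (hD : ∀ e ∈ D, G.Meets Xᶜ e) (h : C ∩ G.cut X = D ∩ G.cut X) :
    G.deg (C ∪ D) v = G.deg C v := by
  have key : ∀ e ∈ D, (G.fst e = v ∨ G.snd e = v) → e ∈ C := by
    intro e he hev
    have h1 : G.Meets X e := by
      rcases hev with h1 | h1
      · exact Or.inl (h1 ▸ hv)
      · exact Or.inr (h1 ▸ hv)
    have h2 : e ∈ D ∩ G.cut X := Finset.mem_inter.2 ⟨he, G.mem_cut_of_meets h1 (hD e he)⟩
    rw [← h] at h2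
    exact (Finset.mem_inter.1 h2).1
  unfold deg
  congr 2
  · ext e
    simp only [Finset.mem_filter, Finset.mem_union]
    constructor
    · rintro ⟨h1 | h1, h2⟩
      · exact ⟨h1, h2⟩
      · exact ⟨key e h1 (Or.inl h2), h2⟩
    · rintro ⟨h1, h2⟩
      exact ⟨Or.inl h1, h2⟩
  · ext e
    simp only [Finset.mem_filter, Finset.mem_union]
    constructor
    · rintro ⟨h1 | h1, h2⟩
      · exact ⟨h1, h2⟩
      · exact ⟨key e h1 (Or.inr h2), h2⟩
    · rintro ⟨h1, h2⟩
      exact ⟨Or.inl h1, h2⟩

theorem even_deg_of_trace_empty [Fintype V] [Fintype E] {X : Finset V} {C : Finset E}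
    (hC : ∀ e ∈ C, G.Meets X e) (hC2 : ∀ v ∈ X, Even (G.deg C v)) (h : C ∩ G.cut X = ∅) (v : V) :
    Even (G.deg C v) := by
  by_cases hv : v ∈ X
  · exact hC2 v hv
  · have h0 : G.deg C v = 0 := by
      by_contra h1
      obtain ⟨e, he, hev⟩ := (G.deg_pos_iff C v).1 (Nat.pos_of_ne_zero h1)
      have h2 : G.Meets Xᶜ e := by
        rcases hev with h2 | h2
        · exact Or.inl (h2 ▸ Finset.mem_compl.2 hv)
        · exact Or.inr (h2 ▸ Finset.mem_compl.2 hv)
      have h3 : e ∈ C ∩ G.cut X :=
        Finset.mem_inter.2 ⟨he, G.mem_cut_of_meets (hC e he) h2⟩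
      rw [h] at h3
      exact absurd h3 (Finset.notMem_empty e)
    rw [h0]
    exact Even.zero

theorem countP_filter_add {α : Type*} (F : Multiset α) (p q : α → Prop) [DecidablePred p]
    [DecidablePred q] [i : DecidablePred fun a => ¬ p a] :
    (F.filter p).countP q + (F.filter fun a => ¬ p a).countP q = F.countP q := by
  have hi : i = fun _ => instDecidableNot := Subsingleton.elim _ _
  subst hi
  rw [← Multiset.countP_add, Multiset.filter_add_not]

theorem hasCDC_of_common [Fintype V] [Fintype E] (X : Finset V) (t : Multiset (Finset E))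
    (h1 : t ∈ G.coverTypes X) (h2 : t ∈ G.coverTypes Xᶜ) : G.HasCDC := by
  obtain ⟨F1, hF1, ht1⟩ := h1
  obtain ⟨F2, hF2, ht2⟩ := h2
  rw [G.cut_compl X] at ht2
  set T := G.cut X with hT
  have h3 : (F1.filter fun C => C ∩ T ≠ ∅).map (fun C => C ∩ T) =
      (F2.filter fun C => C ∩ T ≠ ∅).map (fun C => C ∩ T) := by
    rw [Multiset.filter_map] at ht1 ht2
    exact ht1.symm.trans ht2
  have h4 : Multiset.Rel (fun C D : Finset E => C ∩ T = D ∩ T)
      (F1.filter fun C => C ∩ T ≠ ∅) (F2.filter fun C => C ∩ T ≠ ∅) := by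
    rw [← Multiset.rel_eq, Multiset.rel_map] at h3
    exact h3
  obtain ⟨P, hP1, hP2, hP⟩ := exists_pairing h4
  have hm1 : ∀ p ∈ P, p.1 ∈ F1 := by
    intro p hp
    have h5 : p.1 ∈ P.map Prod.fst := Multiset.mem_map_of_mem _ hp
    rw [hP1] at h5
    exact (Multiset.mem_filter.1 h5).1
  have hm2 : ∀ p ∈ P, p.2 ∈ F2 := by
    intro p hp
    have h5 : p.2 ∈ P.map Prod.snd := Multiset.mem_map_of_mem _ hp
    rw [hP2] at h5
    exact (Multiset.mem_filter.1 h5).1
  refine G.hasCDC_of_evenCover (P.map (fun p => p.1 ∪ p.2) + (F1.filter fun C => ¬ C ∩ T ≠ ∅) +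
    (F2.filter fun C => ¬ C ∩ T ≠ ∅)) ⟨?_, ?_⟩
  · intro C hC v
    rcases Multiset.mem_add.1 hC with hC | hC
    · rcases Multiset.mem_add.1 hC with hC | hC
      · obtain ⟨p, hp, rfl⟩ := Multiset.mem_map.1 hC
        by_cases hv : v ∈ X
        · rw [G.deg_union_eq hv (fun e he => (hF2.1 _ (hm2 p hp)).1 e he) (hP p hp)]
          exact (hF1.1 _ (hm1 p hp)).2 v hv
        · have hv' : v ∈ Xᶜ := Finset.mem_compl.2 hv
          have h6 : p.2 ∩ G.cut Xᶜ = p.1 ∩ G.cut Xᶜ := by
            rw [G.cut_compl X]
            exact (hP p hp).symm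
          rw [Finset.union_comm, G.deg_union_eq hv' (fun e he => by
            rw [compl_compl]
            exact (hF1.1 _ (hm1 p hp)).1 e he) h6]
          exact (hF2.1 _ (hm2 p hp)).2 v hv'
      · rw [Multiset.mem_filter, not_not] at hC
        exact G.even_deg_of_trace_empty (hF1.1 _ hC.1).1 (hF1.1 _ hC.1).2 hC.2 v
    · rw [Multiset.mem_filter, not_not] at hC
      refine G.even_deg_of_trace_empty (X := Xᶜ) (hF2.1 _ hC.1).1 (hF2.1 _ hC.1).2 ?_ v
      rw [G.cut_compl X]
      exact hC.2
  · intro e
    rw [Multiset.countP_add, Multiset.countP_add, Multiset.countP_map]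
    by_cases he : G.Meets X e
    · have h5 : (P.filter fun p => e ∈ p.1 ∪ p.2) = P.filter fun p => e ∈ p.1 := by
        refine Multiset.filter_congr fun p hp => ?_
        rw [Finset.mem_union]
        constructor
        · rintro (h6 | h6)
          · exact h6
          · have h7 : e ∈ p.2 ∩ T := Finset.mem_inter.2
              ⟨h6, G.mem_cut_of_meets he ((hF2.1 _ (hm2 p hp)).1 e h6)⟩
            rw [← hP p hp] at h7
            exact (Finset.mem_inter.1 h7).1
        · exact Or.inl
      have h6 : (F2.filter fun C => ¬ C ∩ T ≠ ∅).countP (fun C => e ∈ C) = 0 := by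
        rw [Multiset.countP_eq_zero]
        intro C hC hC2
        rw [Multiset.mem_filter, not_not] at hC
        have h7 : e ∈ C ∩ T := Finset.mem_inter.2
          ⟨hC2, G.mem_cut_of_meets he ((hF2.1 _ hC.1).1 e hC2)⟩
        rw [hC.2] at h7
        exact absurd h7 (Finset.notMem_empty e)
      have h7 : Multiset.card (P.filter fun p => e ∈ p.1) =
          (F1.filter fun C => C ∩ T ≠ ∅).countP (fun C => e ∈ C) := by
        rw [← hP1, Multiset.countP_map]
      rw [h5, h6, h7, add_zero, countP_filter_add F1 (fun C => C ∩ T ≠ ∅) (fun C => e ∈ C)]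
      exact hF1.2 e he
    · have he' : G.Meets Xᶜ e := by
        unfold Meets at he ⊢
        rw [Finset.mem_compl, Finset.mem_compl]
        tauto
      have h5 : (P.filter fun p => e ∈ p.1 ∪ p.2) = P.filter fun p => e ∈ p.2 := by
        refine Multiset.filter_congr fun p hp => ?_
        rw [Finset.mem_union]
        constructor
        · rintro (h6 | h6)
          · exact absurd ((hF1.1 _ (hm1 p hp)).1 e h6) he
          · exact h6
        · exact Or.inr
      have h6 : (F1.filter fun C => ¬ C ∩ T ≠ ∅).countP (fun C => e ∈ C) = 0 := by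
        rw [Multiset.countP_eq_zero]
        intro C hC hC2
        rw [Multiset.mem_filter] at hC
        exact he ((hF1.1 _ hC.1).1 e hC2)
      have h7 : Multiset.card (P.filter fun p => e ∈ p.2) =
          (F2.filter fun C => C ∩ T ≠ ∅).countP (fun C => e ∈ C) := by
        rw [← hP2, Multiset.countP_map]
      rw [h5, h6, h7, add_zero, countP_filter_add F2 (fun C => C ∩ T ≠ ∅) (fun C => e ∈ C)]
      exact hF2.2 e he'

end MGraph
end CDCut
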