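import Pool.Agent.CDCut.MainTwo

/-!
# Module `GlueTwo`: covers of the union of two disjoint vertex sets

Let `A`, `B` be disjoint vertex sets and `g` the set of the edges between them.  Suppose that `A`
has a cover in which two members contain all edges of `g` and the others none of them, and the same
for `B`.  Uniting the two special members of the two covers gives a cover of `A ∪ B`.
-/

open scoped Classical

namespace CDCut
namespace MGraph

variable {V E : Type} (G : MGraph V E)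

/-- the members of a cover with given traces -/
theorem split_two {T : Finset E} (F : Multiset (Finset E)) (s1 s2 : Finset E)
    (r : Multiset (Finset E))
    (h : s1 ::ₘ s2 ::ₘ r = (F.map fun C => C ∩ T).filter fun D => D ≠ ∅) :
    ∃ C1 C2 : Finset E, ∃ F' : Multiset (Finset E), F = C1 ::ₘ C2 ::ₘ F' ∧ C1 ∩ T = s1 ∧
      C2 ∩ T = s2 ∧ r = (F'.map fun C => C ∩ T).filter fun D => D ≠ ∅ := by
  have step : ∀ (F : Multiset (Finset E)) (s : Finset E) (r : Multiset (Finset E)),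
      s ::ₘ r = (F.map fun C => C ∩ T).filter (fun D => D ≠ ∅) →
      ∃ C : Finset E, ∃ F' : Multiset (Finset E), F = C ::ₘ F' ∧ C ∩ T = s ∧
        r = (F'.map fun C => C ∩ T).filter fun D => D ≠ ∅ := by
    intro F s r h
    have h1 : s ∈ (F.map fun C => C ∩ T).filter fun D => D ≠ ∅ := by
      rw [← h]
      exact Multiset.mem_cons_self _ _
    rw [Multiset.mem_filter, Multiset.mem_map] at h1
    obtain ⟨⟨C, hC, hCs⟩, hne⟩ := h1
    obtain ⟨F', rfl⟩ := Multiset.exists_cons_of_mem hC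
    refine ⟨C, F', rfl, hCs, ?_⟩
    rw [Multiset.map_cons, hCs, Multiset.filter_cons, if_pos hne, Multiset.singleton_add,
      Multiset.cons_inj_right] at h
    exact h
  obtain ⟨C1, F1, rfl, h1, h2⟩ := step F s1 _ h
  obtain ⟨C2, F2, rfl, h3, h4⟩ := step F1 s2 _ h2
  exact ⟨C1, C2, F2, rfl, h1, h3, h4⟩

theorem mem_both_iff [Fintype E] {A B : Finset V} (hAB : Disjoint A B) (e : E) :
    e ∈ G.cut A ∩ G.cut B ↔ G.Meets A e ∧ G.Meets B e := by
  rw [Finset.mem_inter, Inner.mem_cut G, Inner.mem_cut G]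
  unfold Meets
  have h1 : G.fst e ∈ A → G.fst e ∉ B := fun h => Finset.disjoint_left.1 hAB h
  have h2 : G.snd e ∈ A → G.snd e ∉ B := fun h => Finset.disjoint_left.1 hAB h
  tauto

theorem cut_union_disj [Fintype E] {A B : Finset V} (hAB : Disjoint A B) :
    G.cut (A ∪ B) = (G.cut A ∪ G.cut B) \ (G.cut A ∩ G.cut B) := by
  ext e
  rw [Finset.mem_sdiff, Finset.mem_union, Finset.mem_inter, Inner.mem_cut G, Inner.mem_cut G,
    Inner.mem_cut G, Finset.mem_union, Finset.mem_union]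
  have h1 : G.fst e ∈ A → G.fst e ∉ B := fun h => Finset.disjoint_left.1 hAB h
  have h2 : G.snd e ∈ A → G.snd e ∉ B := fun h => Finset.disjoint_left.1 hAB h
  tauto

theorem glue_two [Fintype V] [Fintype E] {A B : Finset V} (hAB : Disjoint A B)
    {g : Finset E} (hg : g = G.cut A ∩ G.cut B)
    {s1 s2 t1 t2 : Finset E} {r u : Multiset (Finset E)}
    (hA : s1 ::ₘ s2 ::ₘ r ∈ G.coverTypes A) (hB : t1 ::ₘ t2 ::ₘ u ∈ G.coverTypes B)
    (hs1 : g ⊆ s1) (hs2 : g ⊆ s2) (ht1 : g ⊆ t1) (ht2 : g ⊆ t2)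
    (hr : ∀ s ∈ r, Disjoint s g) (hu : ∀ s ∈ u, Disjoint s g) :
    (((s1 ∪ t1) \ g) ::ₘ ((s2 ∪ t2) \ g) ::ₘ (r + u)).filter (fun D => D ≠ ∅) ∈
      G.coverTypes (A ∪ B) := by
  obtain ⟨FA, hFA, htA⟩ := hA
  obtain ⟨FB, hFB, htB⟩ := hB
  obtain ⟨C1, C2, FA', rfl, hC1, hC2, hrA⟩ := split_two FA s1 s2 r htA
  obtain ⟨D1, D2, FB', rfl, hD1, hD2, huB⟩ := split_two FB t1 t2 u htB
  have hgm : ∀ e, e ∈ g ↔ G.Meets A e ∧ G.Meets B e := by
    intro e
    rw [hg]
    exact G.mem_both_iff hAB e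
  have hgA : ∀ e ∈ g, e ∈ G.cut A := fun e he => (Finset.mem_inter.1 (hg ▸ he)).1
  have hgB : ∀ e ∈ g, e ∈ G.cut B := fun e he => (Finset.mem_inter.1 (hg ▸ he)).2
  have gC1 : g ⊆ C1 := fun e he => (Finset.mem_inter.1 (hC1 ▸ hs1 he)).1
  have gC2 : g ⊆ C2 := fun e he => (Finset.mem_inter.1 (hC2 ▸ hs2 he)).1
  have gD1 : g ⊆ D1 := fun e he => (Finset.mem_inter.1 (hD1 ▸ ht1 he)).1
  have gD2 : g ⊆ D2 := fun e he => (Finset.mem_inter.1 (hD2 ▸ ht2 he)).1
  have hA' : ∀ C ∈ FA', ∀ e ∈ C, e ∉ g := by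
    intro C hC e heC heg
    have h1 : e ∈ C ∩ G.cut A := Finset.mem_inter.2 ⟨heC, hgA e heg⟩
    have h2 : C ∩ G.cut A ∈ r := by
      rw [hrA, Multiset.mem_filter, Multiset.mem_map]
      exact ⟨⟨C, hC, rfl⟩, Finset.nonempty_iff_ne_empty.1 ⟨e, h1⟩⟩
    exact Finset.disjoint_left.1 (hr _ h2) h1 heg
  have hB' : ∀ C ∈ FB', ∀ e ∈ C, e ∉ g := by
    intro C hC e heC heg
    have h1 : e ∈ C ∩ G.cut B := Finset.mem_inter.2 ⟨heC, hgB e heg⟩
    have h2 : C ∩ G.cut B ∈ u := by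
      rw [huB, Multiset.mem_filter, Multiset.mem_map]
      exact ⟨⟨C, hC, rfl⟩, Finset.nonempty_iff_ne_empty.1 ⟨e, h1⟩⟩
    exact Finset.disjoint_left.1 (hu _ h2) h1 heg
  have mA : ∀ C ∈ C1 ::ₘ C2 ::ₘ FA', ∀ e ∈ C, G.Meets A e := fun C hC => (hFA.1 C hC).1
  have mB : ∀ C ∈ D1 ::ₘ D2 ::ₘ FB', ∀ e ∈ C, G.Meets B e := fun C hC => (hFB.1 C hC).1
  have evA : ∀ C ∈ C1 ::ₘ C2 ::ₘ FA', ∀ v ∈ A, Even (G.deg C v) := fun C hC => (hFA.1 C hC).2
  have evB : ∀ C ∈ D1 ::ₘ D2 ::ₘ FB', ∀ v ∈ B, Even (G.deg C v) := fun C hC => (hFB.1 C hC).2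
  have hC1m : C1 ∈ C1 ::ₘ C2 ::ₘ FA' := Multiset.mem_cons_self _ _
  have hC2m : C2 ∈ C1 ::ₘ C2 ::ₘ FA' := Multiset.mem_cons_of_mem (Multiset.mem_cons_self _ _)
  have hFAm : ∀ C ∈ FA', C ∈ C1 ::ₘ C2 ::ₘ FA' := fun C hC =>
    Multiset.mem_cons_of_mem (Multiset.mem_cons_of_mem hC)
  have hD1m : D1 ∈ D1 ::ₘ D2 ::ₘ FB' := Multiset.mem_cons_self _ _
  have hD2m : D2 ∈ D1 ::ₘ D2 ::ₘ FB' := Multiset.mem_cons_of_mem (Multiset.mem_cons_self _ _)
  have hFBm : ∀ C ∈ FB', C ∈ D1 ::ₘ D2 ::ₘ FB' := fun C hC =>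
    Multiset.mem_cons_of_mem (Multiset.mem_cons_of_mem hC)
  -- degrees of a union
  have degA : ∀ C D : Finset E, g ⊆ C → (∀ e ∈ D, G.Meets B e) → ∀ v ∈ A,
      G.deg (C ∪ D) v = G.deg C v := by
    intro C D hgC hD v hv
    have key : ∀ e ∈ D, (G.fst e = v ∨ G.snd e = v) → e ∈ C := by
      intro e he hev
      refine hgC ((hgm e).2 ⟨?_, hD e he⟩)
      rcases hev with h1 | h1
      · exact Or.inl (h1 ▸ hv)
      · exact Or.inr (h1 ▸ hv)
    unfold deg
    congr 2
    · ext e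
      simp only [Finset.mem_filter, Finset.mem_union]
      constructor
      · rintro ⟨h1 | h1, h2⟩
        · exact ⟨h1, h2⟩
        · exact ⟨key e h1 (Or.inl h2), h2⟩
      · rintro ⟨h1, h2⟩
        exact ⟨Or.inl h1, h2⟩
    · ext e
      simp only [Finset.mem_filter, Finset.mem_union]
      constructor
      · rintro ⟨h1 | h1, h2⟩
        · exact ⟨h1, h2⟩
        · exact ⟨key e h1 (Or.inr h2), h2⟩
      · rintro ⟨h1, h2⟩
        exact ⟨Or.inl h1, h2⟩
  have degB : ∀ C D : Finset E, g ⊆ D → (∀ e ∈ C, G.Meets A e) → ∀ v ∈ B,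
      G.deg (C ∪ D) v = G.deg D v := by
    intro C D hgD hC v hv
    have key : ∀ e ∈ C, (G.fst e = v ∨ G.snd e = v) → e ∈ D := by
      intro e he hev
      refine hgD ((hgm e).2 ⟨hC e he, ?_⟩)
      rcases hev with h1 | h1
      · exact Or.inl (h1 ▸ hv)
      · exact Or.inr (h1 ▸ hv)
    unfold deg
    congr 2
    · ext e
      simp only [Finset.mem_filter, Finset.mem_union]
      constructor
      · rintro ⟨h1 | h1, h2⟩
        · exact ⟨key e h1 (Or.inl h2), h2⟩
        · exact ⟨h1, h2⟩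
      · rintro ⟨h1, h2⟩
        exact ⟨Or.inr h1, h2⟩
    · ext e
      simp only [Finset.mem_filter, Finset.mem_union]
      constructor
      · rintro ⟨h1 | h1, h2⟩
        · exact ⟨key e h1 (Or.inr h2), h2⟩
        · exact ⟨h1, h2⟩
      · rintro ⟨h1, h2⟩
        exact ⟨Or.inr h1, h2⟩
  have zeroB : ∀ C ∈ FA', ∀ v ∈ B, G.deg C v = 0 := by
    intro C hC v hv
    by_contra h1
    obtain ⟨e, he, hev⟩ := (G.deg_pos_iff C v).1 (Nat.pos_of_ne_zero h1)
    refine hA' C hC e he ((hgm e).2 ⟨mA C (hFAm C hC) e he, ?_⟩)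
    rcases hev with h2 | h2
    · exact Or.inl (h2 ▸ hv)
    · exact Or.inr (h2 ▸ hv)
  have zeroA : ∀ C ∈ FB', ∀ v ∈ A, G.deg C v = 0 := by
    intro C hC v hv
    by_contra h1
    obtain ⟨e, he, hev⟩ := (G.deg_pos_iff C v).1 (Nat.pos_of_ne_zero h1)
    refine hB' C hC e he ((hgm e).2 ⟨?_, mB C (hFBm C hC) e he⟩)
    rcases hev with h2 | h2
    · exact Or.inl (h2 ▸ hv)
    · exact Or.inr (h2 ▸ hv)
  have mU : ∀ e, G.Meets (A ∪ B) e ↔ G.Meets A e ∨ G.Meets B e := by
    intro e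
    unfold Meets
    rw [Finset.mem_union, Finset.mem_union]
    tauto
  refine ⟨(C1 ∪ D1) ::ₘ (C2 ∪ D2) ::ₘ (FA' + FB'), ⟨?_, ?_⟩, ?_⟩
  · intro C hC
    rw [Multiset.mem_cons, Multiset.mem_cons, Multiset.mem_add] at hC
    rcases hC with rfl | rfl | hC | hC
    · refine ⟨fun e he => (mU e).2 ?_, fun v hv => ?_⟩
      · rcases Finset.mem_union.1 he with h | h
        · exact Or.inl (mA _ hC1m e h)
        · exact Or.inr (mB _ hD1m e h)
      · rcases Finset.mem_union.1 hv with h | h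
        · rw [degA C1 D1 gC1 (mB _ hD1m) v h]
          exact evA _ hC1m v h
        · rw [degB C1 D1 gD1 (mA _ hC1m) v h]
          exact evB _ hD1m v h
    · refine ⟨fun e he => (mU e).2 ?_, fun v hv => ?_⟩
      · rcases Finset.mem_union.1 he with h | h
        · exact Or.inl (mA _ hC2m e h)
        · exact Or.inr (mB _ hD2m e h)
      · rcases Finset.mem_union.1 hv with h | h
        · rw [degA C2 D2 gC2 (mB _ hD2m) v h]
          exact evA _ hC2m v h
        · rw [degB C2 D2 gD2 (mA _ hC2m) v h]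
          exact evB _ hD2m v h
    · refine ⟨fun e he => (mU e).2 (Or.inl (mA _ (hFAm C hC) e he)), fun v hv => ?_⟩
      rcases Finset.mem_union.1 hv with h | h
      · exact evA _ (hFAm C hC) v h
      · rw [zeroB C hC v h]
        exact Even.zero
    · refine ⟨fun e he => (mU e).2 (Or.inr (mB _ (hFBm C hC) e he)), fun v hv => ?_⟩
      rcases Finset.mem_union.1 hv with h | h
      · rw [zeroA C hC v h]
        exact Even.zero
      · exact evB _ (hFBm C hC) v h
  · intro e he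
    rw [Multiset.countP_cons, Multiset.countP_cons, Multiset.countP_add]
    have cA := hFA.2 e
    have cB := hFB.2 e
    rw [Multiset.countP_cons, Multiset.countP_cons] at cA cB
    by_cases h1 : G.Meets A e
    · by_cases h2 : G.Meets B e
      · have heg : e ∈ g := (hgm e).2 ⟨h1, h2⟩
        have z1 : FA'.countP (fun C => e ∈ C) = 0 :=
          Multiset.countP_eq_zero.2 fun C hC h => hA' C hC e h heg
        have z2 : FB'.countP (fun C => e ∈ C) = 0 :=
          Multiset.countP_eq_zero.2 fun C hC h => hB' C hC e h heg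
        rw [z1, z2, if_pos (Finset.mem_union_left _ (gC1 heg)),
          if_pos (Finset.mem_union_left _ (gC2 heg))]
      · have n : ∀ D ∈ D1 ::ₘ D2 ::ₘ FB', e ∉ D := fun D hD h => h2 (mB D hD e h)
        have z2 : FB'.countP (fun C => e ∈ C) = 0 :=
          Multiset.countP_eq_zero.2 fun C hC => n C (hFBm C hC)
        have u1 : e ∈ C1 ∪ D1 ↔ e ∈ C1 := by
          rw [Finset.mem_union]
          have := n D1 hD1m
          tauto
        have u2 : e ∈ C2 ∪ D2 ↔ e ∈ C2 := by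
          rw [Finset.mem_union]
          have := n D2 hD2m
          tauto
        simp only [u1, u2, z2]
        exact cA h1
    · have h2 : G.Meets B e := ((mU e).1 he).resolve_left h1
      have n : ∀ D ∈ C1 ::ₘ C2 ::ₘ FA', e ∉ D := fun D hD h => h1 (mA D hD e h)
      have z1 : FA'.countP (fun C => e ∈ C) = 0 :=
        Multiset.countP_eq_zero.2 fun C hC => n C (hFAm C hC)
      have u1 : e ∈ C1 ∪ D1 ↔ e ∈ D1 := by
        rw [Finset.mem_union]
        have := n C1 hC1m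
        tauto
      have u2 : e ∈ C2 ∪ D2 ↔ e ∈ D2 := by
        rw [Finset.mem_union]
        have := n C2 hC2m
        tauto
      simp only [u1, u2, z1, zero_add]
      exact cB h2
  · have hcutZ : ∀ e, e ∈ G.cut (A ∪ B) ↔ (e ∈ G.cut A ∨ e ∈ G.cut B) ∧ e ∉ g := by
      intro e
      rw [G.cut_union_disj hAB, Finset.mem_sdiff, Finset.mem_union, hg]
    have cA : ∀ e, G.Meets A e → e ∉ g → (e ∈ G.cut (A ∪ B) ↔ e ∈ G.cut A) := by
      intro e h1 h2
      rw [hcutZ]
      constructor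
      · rintro ⟨h3 | h3, -⟩
        · exact h3
        · exfalso
          exact h2 ((hgm e).2 ⟨h1, by
            rw [Inner.mem_cut G] at h3
            unfold Meets
            tauto⟩)
      · intro h3
        exact ⟨Or.inl h3, h2⟩
    have cB : ∀ e, G.Meets B e → e ∉ g → (e ∈ G.cut (A ∪ B) ↔ e ∈ G.cut B) := by
      intro e h1 h2
      rw [hcutZ]
      constructor
      · rintro ⟨h3 | h3, -⟩
        · exfalso
          exact h2 ((hgm e).2 ⟨by
            rw [Inner.mem_cut G] at h3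
            unfold Meets
            tauto, h1⟩)
        · exact h3
      · intro h3
        exact ⟨Or.inr h3, h2⟩
    have tU : ∀ C D s t : Finset E, C ∩ G.cut A = s → D ∩ G.cut B = t →
        (∀ e ∈ C, G.Meets A e) → (∀ e ∈ D, G.Meets B e) →
        (C ∪ D) ∩ G.cut (A ∪ B) = (s ∪ t) \ g := by
      intro C D s t hs ht hC hD
      ext e
      rw [← hs, ← ht, Finset.mem_inter, Finset.mem_union, Finset.mem_sdiff, Finset.mem_union,
        Finset.mem_inter, Finset.mem_inter]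
      constructor
      · rintro ⟨h1 | h1, h2⟩
        · have h3 : e ∉ g := ((hcutZ e).1 h2).2
          exact ⟨Or.inl ⟨h1, (cA e (hC e h1) h3).1 h2⟩, h3⟩
        · have h3 : e ∉ g := ((hcutZ e).1 h2).2
          exact ⟨Or.inr ⟨h1, (cB e (hD e h1) h3).1 h2⟩, h3⟩
      · rintro ⟨⟨h1, h2⟩ | ⟨h1, h2⟩, h3⟩
        · exact ⟨Or.inl h1, (cA e (hC e h1) h3).2 h2⟩
        · exact ⟨Or.inr h1, (cB e (hD e h1) h3).2 h2⟩
    have tA : FA'.map (fun C => C ∩ G.cut (A ∪ B)) = FA'.map (fun C => C ∩ G.cut A) := by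
      refine Multiset.map_congr rfl fun C hC => ?_
      ext e
      rw [Finset.mem_inter, Finset.mem_inter]
      refine and_congr_right fun h => ?_
      exact cA e (mA C (hFAm C hC) e h) (hA' C hC e h)
    have tB : FB'.map (fun C => C ∩ G.cut (A ∪ B)) = FB'.map (fun C => C ∩ G.cut B) := by
      refine Multiset.map_congr rfl fun C hC => ?_
      ext e
      rw [Finset.mem_inter, Finset.mem_inter]
      refine and_congr_right fun h => ?_
      exact cB e (mB C (hFBm C hC) e h) (hB' C hC e h)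
    rw [Multiset.map_cons, Multiset.map_cons, Multiset.map_add, tA, tB,
      tU C1 D1 s1 t1 hC1 hD1 (mA _ hC1m) (mB _ hD1m),
      tU C2 D2 s2 t2 hC2 hD2 (mA _ hC2m) (mB _ hD2m)]
    have hff : ∀ M : Multiset (Finset E), (r + u : Multiset (Finset E)) =
        (FA'.map (fun C => C ∩ G.cut A) + FB'.map (fun C => C ∩ G.cut B)).filter
          (fun D => D ≠ ∅) := by
      intro _
      rw [Multiset.filter_add, ← hrA, ← huB]
    rw [Multiset.filter_cons, Multiset.filter_cons, Multiset.filter_cons, Multiset.filter_cons,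
      hff 0, Multiset.filter_filter]
    simp only [and_self]

end MGraph
end CDCut
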