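import Pool.Agent.CDCut.SmallCut

/-!
# Module `Inner`: both sides of a cyclic 4-edge-cut contain a circuit

**`exists_inner_circuit`.**  Let `C`, `D` be circuits disjoint from `T = cut X` lying in different
components of `G - T`.  All edges of `C` are disjoint from `T`, so each has both ends in `X` or both
ends outside; by connectedness (third clause of `IsCircuit`) all edges of `C` have both ends in `X`
or all have both ends in `Xᶜ`; same for `D`.  Suppose both are inside `X` (the case that both are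
inside `Xᶜ` is the same, as `cut Xᶜ = cut X`).  Let `X1 ⊆ X` be the set of all vertices in the same
component of `G - T` as some vertex of `C`.  It is contained in `X` (a walk avoiding `T` cannot
leave `X`), nonempty, and `X2 = X \ X1` is nonempty (it contains the vertices of `D`).  No edge
joins `X1` and `X2` (such an edge would have both ends in `X`, so it is not in `T`).  Hence
`cut X1` and `cut X2` are disjoint subsets of `cut X` and `4 = (cut X).card ≥ (cut X1).card +
(cut X2).card ≥ 3 + 3` by `three_le_card_cut`, a contradiction.  So one of `C`, `D` is inside `X`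
and the other one inside `Xᶜ`.

**`inner_bounds`.**  A circuit without loops has at least two edges and at least two vertices (an
edge of it has two different ends, each of degree 2 in the circuit, so there is a second edge).

**`isCyclicFourCut_of_inner`.**  Conversely: if there are circuits inside `X` and inside `Xᶜ` then
they are disjoint from `cut X`, and a walk avoiding `cut X` cannot go from `X` to `Xᶜ`.
-/

open scoped Classical

namespace CDCut
namespace MGraph

variable {V E : Type} (G : MGraph V E)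

/-- some circuit has all its edges inside `X` -/
def InnerCircuit (X : Finset V) : Prop :=
  ∃ C : Finset E, G.IsCircuit C ∧ ∀ e ∈ C, G.fst e ∈ X ∧ G.snd e ∈ X

/-- the set of edges with both ends in `X` -/
noncomputable def inside [Fintype E] (X : Finset V) : Finset E :=
  Finset.univ.filter fun e => G.fst e ∈ X ∧ G.snd e ∈ X

namespace Inner

theorem mem_cut [Fintype E] {X : Finset V} {e : E} :
    e ∈ G.cut X ↔ (G.fst e ∈ X ∧ G.snd e ∉ X) ∨ (G.fst e ∉ X ∧ G.snd e ∈ X) := by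
  unfold cut
  rw [Finset.mem_filter]
  exact ⟨fun h => h.2, fun h => ⟨Finset.mem_univ _, h⟩⟩

theorem notMem_cut [Fintype E] {X : Finset V} {e : E} (h : e ∉ G.cut X) :
    G.fst e ∈ X ↔ G.snd e ∈ X := by
  rw [mem_cut] at h
  tauto

theorem inc_mem {X : Finset V} {e : E} {v : V} (h : G.fst e ∈ X ↔ G.snd e ∈ X)
    (hv : G.Inc e v) : v ∈ X ↔ G.fst e ∈ X := by
  rcases hv with rfl | rfl
  · exact Iff.rfl
  · exact h.symm

/-- A circuit avoiding the cut is on one side. -/
theorem side [Fintype V] [Fintype E] {X : Finset V} {C : Finset E} (hC : G.IsCircuit C)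
    (hd : Disjoint C (G.cut X)) :
    (∀ e ∈ C, G.fst e ∈ X ∧ G.snd e ∈ X) ∨ (∀ e ∈ C, G.fst e ∈ Xᶜ ∧ G.snd e ∈ Xᶜ) := by
  have h1 : ∀ e ∈ C, (G.fst e ∈ X ↔ G.snd e ∈ X) := fun e he =>
    notMem_cut G (Finset.disjoint_left.1 hd he)
  obtain ⟨e₀, he₀⟩ := hC.1
  have h2 : ∀ e ∈ C, (G.fst e ∈ X ↔ G.fst e₀ ∈ X) := by
    intro e he
    have h3 := hC.2.2 e₀ he₀ e he
    induction h3 with
    | refl => exact Iff.rfl
    | tail _ hs ih =>
      obtain ⟨hx, hy, v, hxv, hyv⟩ := hs
      exact ((inc_mem G (h1 _ hy) hyv).symm.trans (inc_mem G (h1 _ hx) hxv)).trans (ih hx)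
  by_cases h : G.fst e₀ ∈ X
  · left
    intro e he
    have h4 := (h2 e he).2 h
    exact ⟨h4, (h1 e he).1 h4⟩
  · right
    intro e he
    rw [Finset.mem_compl, Finset.mem_compl]
    have h4 : G.fst e ∉ X := fun h5 => h ((h2 e he).1 h5)
    exact ⟨h4, fun h5 => h4 ((h1 e he).2 h5)⟩

/-- A walk avoiding the cut does not change the side. -/
theorem walk [Fintype E] {X : Finset V} {v w : V} (h : G.SameComponent (G.cut X) v w) :
    v ∈ X ↔ w ∈ X := by
  induction h with
  | refl => exact Iff.rfl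
  | tail _ hs ih =>
    obtain ⟨e, he, h1⟩ := hs
    have h2 := notMem_cut G he
    rcases h1 with ⟨rfl, rfl⟩ | ⟨rfl, rfl⟩
    · exact ih.trans h2
    · exact ih.trans h2.symm

theorem both_inside [Fintype V] [Fintype E] (hG : G.IsSmallestCounterexample)
    {X : Finset V} (hne : X ≠ Finset.univ) (h4 : (G.cut X).card = 4) {C D : Finset E}
    (hC : C.Nonempty) (hD : D.Nonempty) (hCX : ∀ e ∈ C, G.fst e ∈ X ∧ G.snd e ∈ X)
    (hDX : ∀ e ∈ D, G.fst e ∈ X ∧ G.snd e ∈ X)
    (hsep : ∀ v w, (∃ e ∈ C, G.Inc e v) → (∃ f ∈ D, G.Inc f w) →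
      ¬ G.SameComponent (G.cut X) v w) : False := by
  obtain ⟨e₁, he₁⟩ := hC
  obtain ⟨e₂, he₂⟩ := hD
  set X1 : Finset V := X.filter (fun w => ∃ v, (∃ e ∈ C, G.Inc e v) ∧
    G.SameComponent (G.cut X) v w) with hX1
  have hmem1 : ∀ w, w ∈ X1 ↔ w ∈ X ∧ ∃ v, (∃ e ∈ C, G.Inc e v) ∧
    G.SameComponent (G.cut X) v w := fun w => Finset.mem_filter
  have hmem2 : ∀ w, w ∈ X \ X1 ↔ w ∈ X ∧ w ∉ X1 := fun w => Finset.mem_sdiff
  have hstep : ∀ e, e ∉ G.cut X → ∀ x y, ((G.fst e = x ∧ G.snd e = y) ∨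
      (G.fst e = y ∧ G.snd e = x)) → x ∈ X1 → y ∈ X → y ∈ X1 := by
    intro e he x y hxy hx hy
    obtain ⟨-, v, hv, hvx⟩ := (hmem1 x).1 hx
    exact (hmem1 y).2 ⟨hy, v, hv, hvx.tail ⟨e, he, hxy⟩⟩
  have hn1 : X1.Nonempty :=
    ⟨G.fst e₁, (hmem1 _).2 ⟨(hCX e₁ he₁).1, G.fst e₁, ⟨e₁, he₁, Or.inl rfl⟩,
      Relation.ReflTransGen.refl⟩⟩
  have hn2 : (X \ X1).Nonempty := by
    refine ⟨G.fst e₂, (hmem2 _).2 ⟨(hDX e₂ he₂).1, fun h => ?_⟩⟩
    obtain ⟨-, v, hv, hvw⟩ := (hmem1 _).1 h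
    exact hsep v _ hv ⟨e₂, he₂, Or.inl rfl⟩ hvw
  have hu : ∀ Y : Finset V, Y ⊆ X → Y ≠ Finset.univ := by
    rintro Y hY rfl
    exact hne (Finset.univ_subset_iff.1 hY)
  have hc1 := three_le_card_cut G hG X1 hn1 (hu _ (Finset.filter_subset _ _))
  have hc2 := three_le_card_cut G hG (X \ X1) hn2 (hu _ Finset.sdiff_subset)
  -- an edge in the cut of `X1` goes from `X1` to the outside of `X`
  have key1 : ∀ e ∈ G.cut X1, (G.fst e ∈ X1 ∧ G.snd e ∉ X) ∨ (G.fst e ∉ X ∧ G.snd e ∈ X1) := by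
    intro e he
    rcases (mem_cut G).1 he with ⟨h1, h2⟩ | ⟨h1, h2⟩
    · refine Or.inl ⟨h1, fun h3 => h2 ?_⟩
      have h5 : G.fst e ∈ X := ((hmem1 _).1 h1).1
      refine hstep e ?_ _ _ (Or.inl ⟨rfl, rfl⟩) h1 h3
      rw [mem_cut]
      tauto
    · refine Or.inr ⟨fun h3 => h1 ?_, h2⟩
      have h5 : G.snd e ∈ X := ((hmem1 _).1 h2).1
      refine hstep e ?_ _ _ (Or.inr ⟨rfl, rfl⟩) h2 h3
      rw [mem_cut]
      tauto
  have key2 : ∀ e ∈ G.cut (X \ X1), (G.fst e ∈ X \ X1 ∧ G.snd e ∉ X) ∨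
      (G.fst e ∉ X ∧ G.snd e ∈ X \ X1) := by
    intro e he
    rcases (mem_cut G).1 he with ⟨h1, h2⟩ | ⟨h1, h2⟩
    · refine Or.inl ⟨h1, fun h3 => ?_⟩
      have h5 := (hmem2 _).1 h1
      have h6 : G.snd e ∈ X1 := by
        by_contra h7
        exact h2 ((hmem2 _).2 ⟨h3, h7⟩)
      refine h5.2 (hstep e ?_ _ _ (Or.inr ⟨rfl, rfl⟩) h6 h5.1)
      rw [mem_cut]
      tauto
    · refine Or.inr ⟨fun h3 => ?_, h2⟩
      have h5 := (hmem2 _).1 h2
      have h6 : G.fst e ∈ X1 := by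
        by_contra h7
        exact h1 ((hmem2 _).2 ⟨h3, h7⟩)
      refine h5.2 (hstep e ?_ _ _ (Or.inl ⟨rfl, rfl⟩) h6 h5.1)
      rw [mem_cut]
      tauto
  have hsub : G.cut X1 ∪ G.cut (X \ X1) ⊆ G.cut X := by
    intro e he
    rw [mem_cut]
    rcases Finset.mem_union.1 he with he | he
    · rcases key1 e he with ⟨h1, h2⟩ | ⟨h1, h2⟩
      · exact Or.inl ⟨((hmem1 _).1 h1).1, h2⟩
      · exact Or.inr ⟨h1, ((hmem1 _).1 h2).1⟩
    · rcases key2 e he with ⟨h1, h2⟩ | ⟨h1, h2⟩
      · exact Or.inl ⟨((hmem2 _).1 h1).1, h2⟩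
      · exact Or.inr ⟨h1, ((hmem2 _).1 h2).1⟩
  have hdis : Disjoint (G.cut X1) (G.cut (X \ X1)) := by
    rw [Finset.disjoint_left]
    intro e h1 h2
    rcases key1 e h1 with ⟨h3, h4⟩ | ⟨h3, h4⟩
    · rcases key2 e h2 with ⟨h5, h6⟩ | ⟨h5, h6⟩
      · exact ((hmem2 _).1 h5).2 h3
      · exact h5 ((hmem1 _).1 h3).1
    · rcases key2 e h2 with ⟨h5, h6⟩ | ⟨h5, h6⟩
      · exact h3 ((hmem2 _).1 h5).1
      · exact ((hmem2 _).1 h6).2 h4
  have h5 := Finset.card_le_card hsub
  rw [Finset.card_union_of_disjoint hdis] at h5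
  omega

end Inner

theorem exists_inner_circuit [Fintype V] [Fintype E] (hG : G.IsSmallestCounterexample)
    (X : Finset V) (hX : G.IsCyclicFourCut X) : G.InnerCircuit X ∧ G.InnerCircuit Xᶜ := by
  obtain ⟨h1, h2, h4, C, D, hC, hD, hCT, hDT, hsep⟩ := hX
  rcases Inner.side G hC hCT with hc | hc <;> rcases Inner.side G hD hDT with hd | hd
  · exact (Inner.both_inside G hG h2 h4 hC.1 hD.1 hc hd hsep).elim
  · exact ⟨⟨C, hC, hc⟩, ⟨D, hD, hd⟩⟩
  · exact ⟨⟨D, hD, hd⟩, ⟨C, hC, hc⟩⟩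
  · refine (Inner.both_inside G hG (X := Xᶜ) ?_ ?_ hC.1 hD.1 hc hd ?_).elim
    · intro h
      rw [Finset.compl_eq_univ_iff] at h
      exact h1.ne_empty h
    · rw [cut_compl, h4]
    · rw [cut_compl]
      exact hsep

theorem inner_bounds [Fintype V] [Fintype E] (hG : G.IsSmallestCounterexample)
    (X : Finset V) (hX : G.InnerCircuit X) : 2 ≤ X.card ∧ 2 ≤ (G.inside X).card := by
  obtain ⟨C, hC, hCX⟩ := hX
  obtain ⟨e, he⟩ := hC.1
  have hne := no_loop G hG e
  constructor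
  · have h1 : ({G.fst e, G.snd e} : Finset V) ⊆ X := by
      intro v hv
      rw [Finset.mem_insert, Finset.mem_singleton] at hv
      rcases hv with rfl | rfl
      · exact (hCX e he).1
      · exact (hCX e he).2
    have h2 := Finset.card_le_card h1
    rwa [Finset.card_pair hne] at h2
  · have h1 : C ⊆ G.inside X := by
      intro f hf
      unfold inside
      rw [Finset.mem_filter]
      exact ⟨Finset.mem_univ _, hCX f hf⟩
    refine le_trans ?_ (Finset.card_le_card h1)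
    by_contra hlt
    have h2 : C = {e} := by
      apply Finset.eq_singleton_iff_unique_mem.2
      refine ⟨he, fun f hf => ?_⟩
      by_contra hfe
      have h3 : ({f, e} : Finset E) ⊆ C := by
        intro g hg
        rw [Finset.mem_insert, Finset.mem_singleton] at hg
        rcases hg with rfl | rfl
        · exact hf
        · exact he
      have h4 := Finset.card_le_card h3
      rw [Finset.card_pair hfe] at h4
      exact hlt h4
    have h3 : G.deg C (G.fst e) = 1 := by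
      rw [h2]
      unfold deg
      rw [Finset.filter_singleton, Finset.filter_singleton, if_pos rfl, if_neg hne.symm]
      simp
    rcases hC.2.1 (G.fst e) with h4 | h4 <;> omega

theorem isCyclicCut_of_inner [Fintype V] [Fintype E] (X : Finset V) (h1 : G.InnerCircuit X)
    (h2 : G.InnerCircuit Xᶜ) : G.IsCyclicCut (G.cut X) := by
  obtain ⟨C, hC, hCX⟩ := h1
  obtain ⟨D, hD, hDX⟩ := h2
  have hDX' : ∀ e ∈ D, G.fst e ∉ X ∧ G.snd e ∉ X := fun e he =>
    ⟨Finset.mem_compl.1 (hDX e he).1, Finset.mem_compl.1 (hDX e he).2⟩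
  refine ⟨C, D, hC, hD, ?_, ?_, ?_⟩
  · rw [Finset.disjoint_left]
    intro e he h
    have h3 := hCX e he
    rw [Inner.mem_cut] at h
    tauto
  · rw [Finset.disjoint_left]
    intro e he h
    have h3 := hDX' e he
    rw [Inner.mem_cut] at h
    tauto
  · rintro v w ⟨e, he, hev⟩ ⟨f, hf, hfw⟩ hs
    have h3 := Inner.walk G hs
    have h4 : v ∈ X := by
      rcases hev with rfl | rfl
      · exact (hCX e he).1
      · exact (hCX e he).2
    have h5 : w ∉ X := by
      rcases hfw with rfl | rfl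
      · exact (hDX' f hf).1
      · exact (hDX' f hf).2
    exact h5 (h3.1 h4)

theorem isCyclicFourCut_compl [Fintype V] [Fintype E] (X : Finset V)
    (hX : G.IsCyclicFourCut X) : G.IsCyclicFourCut Xᶜ := by
  obtain ⟨h1, h2, h4, h5⟩ := hX
  refine ⟨?_, ?_, ?_, ?_⟩
  · rw [Finset.nonempty_iff_ne_empty]
    intro h
    exact h2 (Finset.compl_eq_empty_iff _ |>.1 h)
  · intro h
    rw [Finset.compl_eq_univ_iff] at h
    exact h1.ne_empty h
  · rw [cut_compl, h4]
  · rw [cut_compl]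
    exact h5

end MGraph
end CDCut
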