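import Pool.Agent.CDCut.MainOne

/-!
# Module `KSwitch`: neither side of a cyclic 4-edge-cut is 3-edge-colourable

**Proof.**  Let `δ(X) = {a, b, c, d}` be a cyclic 4-edge-cut of a smallest counterexample such that
`X` has exactly the types of `typeS a b c d`, and suppose that `X` has a 3-edge-colouring.  Let
`C j` be the set of edges meeting `X` whose colour is not `j`.  As there is no cut with at most two
edges, `X` is connected, so there is a set `K` of edges meeting `X`, even at the vertices of `X`,
with trace `{a, b}` (`exists_join`).  Then `C 0 ∆ K, C 1 ∆ K, C 2 ∆ K, K` is a cover of the side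
`X`, and one of its traces is `{a, b}`, which is not a trace in any of the four types of
`typeS a b c d`.  The other side was treated in `MainOne`.
-/

open scoped Classical

namespace CDCut
namespace MGraph

variable {V E : Type} (G : MGraph V E)

/-- parity of the degree in one edge more -/
theorem even_deg_symmDiff_singleton (P : Finset E) (f : E) (v : V) :
    Even (G.deg (symmDiff P {f}) v) ↔ (Even (G.deg P v) ↔ (G.fst f = v ↔ G.snd f = v)) := by
  rw [even_deg_symmDiff, Bridge_even_singleton]

/-- Two edges of the cut `δ(X)` are joined inside `X`. -/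
theorem exists_join [Fintype V] [Fintype E] (hG : G.IsSmallestCounterexample) (X : Finset V)
    (h4 : (G.cut X).card = 4) (p q : E) (hp : p ∈ G.cut X) (hq : q ∈ G.cut X) (hpq : p ≠ q) :
    ∃ K : Finset E, (∀ e ∈ K, G.Meets X e) ∧ (∀ v ∈ X, Even (G.deg K v)) ∧
      K ∩ G.cut X = {p, q} := by
  -- the end in `X` of an edge of the cut
  have hend : ∀ r ∈ G.cut X, ∃ w ∈ X, ∀ v ∈ X, ((G.fst r = v ↔ G.snd r = v) ↔ v ≠ w) := by
    intro r hr
    rw [Inner.mem_cut G] at hr
    rcases hr with ⟨h1, h2⟩ | ⟨h1, h2⟩
    · refine ⟨G.fst r, h1, fun v hv => ?_⟩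
      have h3 : G.snd r ≠ v := fun h => h2 (h ▸ hv)
      constructor
      · rintro h rfl
        exact h3 (h.1 rfl)
      · intro h
        exact ⟨fun h5 => absurd h5.symm h, fun h5 => absurd h5 h3⟩
    · refine ⟨G.snd r, h2, fun v hv => ?_⟩
      have h3 : G.fst r ≠ v := fun h => h1 (h ▸ hv)
      constructor
      · rintro h rfl
        exact h3 (h.2 rfl)
      · intro h
        exact ⟨fun h5 => absurd h5 h3, fun h5 => absurd h5.symm h⟩
  obtain ⟨wp, hwp, hwp'⟩ := hend p hp
  obtain ⟨wq, hwq, hwq'⟩ := hend q hq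
  set U : Finset V := X.filter fun z => ∃ P : Finset E, (∀ e ∈ P, G.Meets X e) ∧
    P ∩ G.cut X = {p} ∧ ∀ v ∈ X, (Even (G.deg P v) ↔ v ≠ z) with hU
  have hmem : ∀ z, z ∈ U ↔ z ∈ X ∧ ∃ P : Finset E, (∀ e ∈ P, G.Meets X e) ∧
      P ∩ G.cut X = {p} ∧ ∀ v ∈ X, (Even (G.deg P v) ↔ v ≠ z) := by
    intro z
    rw [hU, Finset.mem_filter]
  have hmp : G.Meets X p := by
    rw [Inner.mem_cut G] at hp
    unfold Meets
    tauto
  have hmq : G.Meets X q := by
    rw [Inner.mem_cut G] at hq
    unfold Meets
    tauto
  have hwpU : wp ∈ U := by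
    rw [hmem]
    refine ⟨hwp, {p}, ?_, ?_, ?_⟩
    · intro e he
      rw [Finset.mem_singleton.1 he]
      exact hmp
    · rw [Finset.inter_eq_left, Finset.singleton_subset_iff]
      exact hp
    · intro v hv
      rw [Bridge_even_singleton]
      exact hwp' v hv
  -- closure under inner edges
  have hstep : ∀ f x y, x ∈ U → y ∈ X → x ≠ y →
      ((G.fst f = x ∧ G.snd f = y) ∨ (G.fst f = y ∧ G.snd f = x)) → y ∈ U := by
    intro f x y hx hy hxy hf
    obtain ⟨hxX, P, hP1, hP2, hP3⟩ := (hmem x).1 hx
    have hfc : f ∉ G.cut X := by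
      rw [Inner.mem_cut G]
      rcases hf with ⟨h1, h2⟩ | ⟨h1, h2⟩ <;> rw [h1, h2] <;> tauto
    have hfm : G.Meets X f := by
      unfold Meets
      rcases hf with ⟨h1, h2⟩ | ⟨h1, h2⟩ <;> rw [h1, h2] <;> tauto
    rw [hmem]
    refine ⟨hy, symmDiff P {f}, ?_, ?_, ?_⟩
    · intro e he
      rw [Finset.mem_symmDiff, Finset.mem_singleton] at he
      rcases he with ⟨h1, -⟩ | ⟨rfl, -⟩
      · exact hP1 e h1
      · exact hfm
    · rw [← hP2]
      ext e
      rw [Finset.mem_inter, Finset.mem_inter, Finset.mem_symmDiff, Finset.mem_singleton]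
      constructor
      · rintro ⟨⟨h1, -⟩ | ⟨rfl, -⟩, h2⟩
        · exact ⟨h1, h2⟩
        · exact absurd h2 hfc
      · rintro ⟨h1, h2⟩
        exact ⟨Or.inl ⟨h1, fun h => hfc (h ▸ h2)⟩, h2⟩
    · intro v hv
      rw [G.even_deg_symmDiff_singleton, hP3 v hv]
      rcases hf with ⟨h1, h2⟩ | ⟨h1, h2⟩
      · rw [h1, h2]
        by_cases hvx : v = x
        · subst hvx
          have : v ≠ y := hxy
          simp only [ne_eq, not_true_eq_false, true_iff, false_iff]
          constructor
          · intro _; exact this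
          · intro _ h; exact this h.symm
        · by_cases hvy : v = y
          · subst hvy
            simp only [ne_eq, hvx, not_false_eq_true, true_iff, not_true_eq_false, iff_false,
              iff_true]
            exact fun h => hvx h.symm
          · have e1 : ¬ (x = v) := fun h => hvx h.symm
            have e2 : ¬ (y = v) := fun h => hvy h.symm
            simp [hvx, hvy, e1, e2]
      · rw [h1, h2]
        by_cases hvx : v = x
        · subst hvx
          have : v ≠ y := hxy
          simp only [ne_eq, not_true_eq_false, iff_true, false_iff]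
          constructor
          · intro _; exact this
          · intro _ h; exact this h.symm
        · by_cases hvy : v = y
          · subst hvy
            simp only [ne_eq, hvx, not_false_eq_true, true_iff, not_true_eq_false, iff_false,
              ]
            exact fun h => hvx h.symm
          · have e1 : ¬ (x = v) := fun h => hvx h.symm
            have e2 : ¬ (y = v) := fun h => hvy h.symm
            simp [hvx, hvy, e1, e2]
  by_cases hqU : wq ∈ U
  · obtain ⟨-, P, hP1, hP2, hP3⟩ := (hmem wq).1 hqU
    refine ⟨symmDiff P {q}, ?_, ?_, ?_⟩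
    · intro e he
      rw [Finset.mem_symmDiff, Finset.mem_singleton] at he
      rcases he with ⟨h1, -⟩ | ⟨rfl, -⟩
      · exact hP1 e h1
      · exact hmq
    · intro v hv
      rw [G.even_deg_symmDiff_singleton, hP3 v hv, hwq' v hv]
    · have hqP : q ∉ P := by
        intro h
        have : q ∈ P ∩ G.cut X := Finset.mem_inter.2 ⟨h, hq⟩
        rw [hP2, Finset.mem_singleton] at this
        exact hpq this.symm
      ext e
      rw [Finset.mem_inter, Finset.mem_symmDiff, Finset.mem_singleton, Finset.mem_insert,
        Finset.mem_singleton]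
      constructor
      · rintro ⟨⟨h1, -⟩ | ⟨rfl, -⟩, h2⟩
        · left
          have : e ∈ P ∩ G.cut X := Finset.mem_inter.2 ⟨h1, h2⟩
          rw [hP2, Finset.mem_singleton] at this
          exact this
        · exact Or.inr rfl
      · rintro (rfl | rfl)
        · have : e ∈ P ∩ G.cut X := by rw [hP2]; exact Finset.mem_singleton_self e
          rw [Finset.mem_inter] at this
          exact ⟨Or.inl ⟨this.1, hpq⟩, this.2⟩
        · exact ⟨Or.inr ⟨rfl, hqP⟩, hq⟩
  · exfalso
    have hUX : U ⊆ X := Finset.filter_subset _ _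
    have hcross : ∀ f, f ∉ G.cut X → (G.fst f ∈ U ↔ G.snd f ∈ U) := by
      intro f hf
      have h1 := Inner.notMem_cut G hf
      constructor
      · intro h2
        by_cases h3 : G.fst f = G.snd f
        · rw [← h3]; exact h2
        · exact hstep f _ _ h2 (h1.1 (hUX h2)) h3 (Or.inl ⟨rfl, rfl⟩)
      · intro h2
        by_cases h3 : G.fst f = G.snd f
        · rw [h3]; exact h2
        · exact hstep f _ _ h2 (h1.2 (hUX h2)) (fun h => h3 h.symm) (Or.inr ⟨rfl, rfl⟩)
    have hs1 : G.cut U ⊆ G.cut X := by
      intro f hf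
      by_contra h1
      have h2 := hcross f h1
      rw [Inner.mem_cut G] at hf
      tauto
    have hs2 : G.cut (X \ U) ⊆ G.cut X := by
      intro f hf
      by_contra h1
      have h2 := hcross f h1
      have h3 := Inner.notMem_cut G h1
      rw [Inner.mem_cut G, Finset.mem_sdiff, Finset.mem_sdiff] at hf
      tauto
    have hdis : Disjoint (G.cut U) (G.cut (X \ U)) := by
      rw [Finset.disjoint_left]
      intro f h1 h2
      have h3 := hs1 h1
      rw [Inner.mem_cut G] at h1 h2 h3
      rw [Finset.mem_sdiff, Finset.mem_sdiff] at h2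
      have h4 : G.fst f ∈ U → G.fst f ∈ X := fun h => hUX h
      have h5 : G.snd f ∈ U → G.snd f ∈ X := fun h => hUX h
      tauto
    have h1 : 3 ≤ (G.cut U).card := G.three_le_card_cut hG U ⟨wp, hwpU⟩ (by
      intro h
      apply hqU
      rw [h]
      exact Finset.mem_univ _)
    have h2 : 3 ≤ (G.cut (X \ U)).card := G.three_le_card_cut hG (X \ U)
      ⟨wq, Finset.mem_sdiff.2 ⟨hwq, hqU⟩⟩ (by
      intro h
      have h3 : wp ∈ X \ U := by
        rw [h]
        exact Finset.mem_univ _
      exact (Finset.mem_sdiff.1 h3).2 hwpU)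
    have h3 := Finset.card_le_card (Finset.union_subset hs1 hs2)
    rw [Finset.card_union_of_disjoint hdis] at h3
    omega

/-- The classes of a 3-edge-colouring of a side. -/
theorem colour_classes [Fintype V] [Fintype E] (hG : G.IsSmallestCounterexample)
    (X : Finset V) (hne : X ≠ Finset.univ) (hcol : G.SideColourable X) :
    ∃ C : Fin 3 → Finset E, (∀ j, ∀ e ∈ C j, G.Meets X e) ∧ (∀ j, ∀ v ∈ X, Even (G.deg (C j) v)) ∧
      ∀ e, G.Meets X e → ∃ j, ∀ i, (e ∈ C i ↔ i ≠ j) := by
  obtain ⟨col, hcol⟩ := hcol
  have hl := G.no_loop hG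
  refine ⟨fun j => Finset.univ.filter fun e => G.Meets X e ∧ col e ≠ j, ?_, ?_, ?_⟩
  · intro j e he
    rw [Finset.mem_filter] at he
    exact he.2.1
  · intro j v hv
    rw [G.deg_eq_card_inc hl]
    have h1 : ((Finset.univ.filter fun e => G.Meets X e ∧ col e ≠ j).filter fun e => G.Inc e v) =
        (Finset.univ.filter fun e => G.Inc e v).filter fun e => col e ≠ j := by
      ext e
      rw [Finset.mem_filter, Finset.mem_filter, Finset.mem_filter, Finset.mem_filter]
      constructor
      · rintro ⟨⟨_, _, h2⟩, h3⟩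
        exact ⟨⟨Finset.mem_univ _, h3⟩, h2⟩
      · rintro ⟨⟨_, h3⟩, h2⟩
        refine ⟨⟨Finset.mem_univ _, ?_, h2⟩, h3⟩
        rcases h3 with h3 | h3
        · exact Or.inl (h3 ▸ hv)
        · exact Or.inr (h3 ▸ hv)
    have h2 : 3 ≤ (Finset.univ.filter fun e => G.Inc e v).card := by
      refine (G.three_le_card_cut hG {v} (Finset.singleton_nonempty v) ?_).trans
        (Finset.card_le_card ?_)
      · intro h3
        apply hne
        rw [Finset.eq_univ_iff_forall]
        intro w
        have h4 : w ∈ ({v} : Finset V) := by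
          rw [h3]
          exact Finset.mem_univ w
        rw [Finset.mem_singleton] at h4
        rw [h4]
        exact hv
      · intro e he
        simp only [cut, Finset.mem_filter, Finset.mem_univ, true_and, Finset.mem_singleton] at he
        rw [Finset.mem_filter]
        refine ⟨Finset.mem_univ _, ?_⟩
        unfold Inc
        tauto
    rw [h1, card_star_filter col h2 (fun e he f hf hef =>
      hcol v hv e f hef (Finset.mem_filter.1 he).2 (Finset.mem_filter.1 hf).2) j]
    exact even_two
  · intro e he
    refine ⟨col e, fun i => ?_⟩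
    rw [Finset.mem_filter]
    constructor
    · rintro ⟨-, -, h⟩
      exact fun h2 => h h2.symm
    · intro h
      exact ⟨Finset.mem_univ _, he, fun h2 => h h2.symm⟩

/-- A 3-edge-colourable side has, for every two edges `p, q` of the cut, a cover with trace
`{p, q}`. -/
theorem colour_pair [Fintype V] [Fintype E] (hG : G.IsSmallestCounterexample)
    (X : Finset V) (hne : X ≠ Finset.univ) (h4 : (G.cut X).card = 4) (hcol : G.SideColourable X)
    (p q : E) (hp : p ∈ G.cut X) (hq : q ∈ G.cut X) (hpq : p ≠ q) :
    ∃ t ∈ G.coverTypes X, ({p, q} : Finset E) ∈ t := by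
  obtain ⟨C, hC1, hC2, hC3⟩ := G.colour_classes hG X hne hcol
  obtain ⟨K, hK1, hK2, hK3⟩ := G.exists_join hG X h4 p q hp hq hpq
  have hside : G.SideCover X
      (symmDiff (C 0) K ::ₘ symmDiff (C 1) K ::ₘ symmDiff (C 2) K ::ₘ K ::ₘ 0) := by
    constructor
    · intro D hD
      have h1 : (∃ j, D = symmDiff (C j) K) ∨ D = K := by
        simp only [Multiset.mem_cons, Multiset.notMem_zero, or_false] at hD
        rcases hD with h | h | h | h
        · exact Or.inl ⟨0, h⟩
        · exact Or.inl ⟨1, h⟩
        · exact Or.inl ⟨2, h⟩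
        · exact Or.inr h
      rcases h1 with ⟨j, rfl⟩ | rfl
      · constructor
        · intro e he
          rw [Finset.mem_symmDiff] at he
          rcases he with h | h
          · exact hC1 j e h.1
          · exact hK1 e h.1
        · intro v hv
          rw [even_deg_symmDiff]
          exact iff_of_true (hC2 j v hv) (hK2 v hv)
      · exact ⟨hK1, hK2⟩
    · intro e he
      obtain ⟨j, hj⟩ := hC3 e he
      rw [Multiset.countP_cons, Multiset.countP_cons, Multiset.countP_cons, Multiset.countP_cons,
        Multiset.countP_zero]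
      simp only [Finset.mem_symmDiff, hj]
      have h1 : j = 0 ∨ j = 1 ∨ j = 2 := by
        have : ∀ i : Fin 3, i = 0 ∨ i = 1 ∨ i = 2 := by decide
        exact this _
      by_cases hK : e ∈ K
      · rcases h1 with rfl | rfl | rfl <;> simp [hK]
      · rcases h1 with rfl | rfl | rfl <;> simp [hK]
  refine ⟨_, ⟨_, hside, rfl⟩, ?_⟩
  rw [Multiset.mem_filter]
  refine ⟨?_, by simp⟩
  rw [Multiset.mem_map]
  exact ⟨K, by simp, hK3⟩

theorem pair_not_mem_S (a b c d : E) (hnd : [a, b, c, d].Nodup) (t : Multiset (Finset E))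
    (ht : t ∈ typeS a b c d) : ({a, b} : Finset E) ∉ t := by
  simp only [List.nodup_cons, List.mem_cons, List.not_mem_nil, or_false, not_or,
    List.nodup_nil, and_true, not_false_eq_true] at hnd
  obtain ⟨⟨hab, hac, had⟩, ⟨hbc, hbd⟩, hcd⟩ := hnd
  have e1 : ({a, b} : Finset E) ≠ {a, b, c, d} := by
    intro h
    have : c ∈ ({a, b} : Finset E) := by rw [h]; simp
    simp [Ne.symm hac, Ne.symm hbc] at this
  have e2 : ({a, b} : Finset E) ≠ {a, c} := by
    intro h
    have : c ∈ ({a, b} : Finset E) := by rw [h]; simp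
    simp [Ne.symm hac, Ne.symm hbc] at this
  have e3 : ({a, b} : Finset E) ≠ {b, d} := by
    intro h
    have : d ∈ ({a, b} : Finset E) := by rw [h]; simp
    simp [Ne.symm had, Ne.symm hbd] at this
  have e4 : ({a, b} : Finset E) ≠ {a, d} := by
    intro h
    have : d ∈ ({a, b} : Finset E) := by rw [h]; simp
    simp [Ne.symm had, Ne.symm hbd] at this
  have e5 : ({a, b} : Finset E) ≠ {b, c} := by
    intro h
    have : c ∈ ({a, b} : Finset E) := by rw [h]; simp
    simp [Ne.symm hac, Ne.symm hbc] at this
  intro hm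
  unfold typeS at ht
  simp only [Set.mem_insert_iff, Set.mem_singleton_iff] at ht
  rcases ht with rfl | rfl | rfl | rfl <;>
    simp only [Multiset.insert_eq_cons, Multiset.mem_cons, Multiset.mem_singleton] at hm <;>
    tauto

/-- Neither side of a cyclic 4-edge-cut is 3-edge-colourable. -/
theorem not_sideColourable [Fintype V] [Fintype E] (hG : G.IsSmallestCounterexample)
    (X : Finset V) (hX : G.IsCyclicFourCut X) : ¬ G.SideColourable X := by
  obtain ⟨a, b, c, d, hnd, hcut, h⟩ := G.main_one hG X hX
  rcases h with ⟨h1, -, -⟩ | ⟨-, -, h1⟩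
  · intro hcol
    have hnd' := hnd
    simp only [List.nodup_cons, List.mem_cons, List.not_mem_nil, or_false, not_or,
      List.nodup_nil, and_true, not_false_eq_true] at hnd'
    obtain ⟨t, ht, hm⟩ := G.colour_pair hG X hX.2.1 hX.2.2.1 hcol a b
      (by rw [hcut]; simp) (by rw [hcut]; simp) hnd'.1.1
    rw [h1] at ht
    exact pair_not_mem_S a b c d hnd t ht hm
  · exact h1

end MGraph
end CDCut
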