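import Pool.Agent.CDCut.Repl
import Pool.Agent.CDCut.Trace

/-!
# Module `Kempe`: the switching rule for cover types

**`exists_pair`.**  Let `D` be a set of edges meeting `X`, even at the vertices of `X`, with
`cut X ⊆ D`, `cut X = {a,b,c,d}`.  In the graph obtained by contracting the complement of `X` to one
vertex `none` the set `D` has even degree everywhere.  By `exists_circuit_mem` there is a circuit
`D1 ⊆ D` through `a`; its degree at the contracted vertex is 0 or 2, and it is not 0.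

**`kempe`.**  Let `F` be a cover of the side `X` with type `tr i + tr j`.  Adding copies of `∅` to
`F` (still a cover of the side), we can write `F = C1 ::ₘ C2 ::ₘ C3 ::ₘ C4 ::ₘ F0`, where the traces
of `(C1, C2)` are `half i`, those of `(C3, C4)` are `half j`, and the members of `F0` have empty
trace.  Let `D = symmDiff C1 C2`; take `D1 ⊆ D` as in `exists_pair`
and replace `C1`, `C2` by `symmDiff C2 D1`, `symmDiff C1 D1`.
-/

open scoped Classical

namespace CDCut

/-- addition in the Klein four group `{0,1,2,3}` -/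
def kx (i j : Fin 4) : Fin 4 :=
  (![![0, 1, 2, 3], ![1, 0, 3, 2], ![2, 3, 0, 1], ![3, 2, 1, 0]] : Fin 4 → Fin 4 → Fin 4) i j

/-- the two traces of a half, the first one containing `a` -/
noncomputable def half {E : Type} (a b c d : E) : Fin 4 → Finset E × Finset E :=
  ![({a, b, c, d}, ∅), ({a, c}, {b, d}), ({a, d}, {b, c}), ({a, b}, {c, d})]

namespace MGraph

variable {V E : Type} (G : MGraph V E)

/-- contraction of the complement of `X` to the vertex `none` -/
noncomputable def contr (X : Finset V) : MGraph (Option V) E where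
  fst := fun e => if G.fst e ∈ X then some (G.fst e) else none
  snd := fun e => if G.snd e ∈ X then some (G.snd e) else none

theorem deg_contr_some (X : Finset V) (C : Finset E) (v : V) (hv : v ∈ X) :
    (G.contr X).deg C (some v) = G.deg C v := by
  unfold deg contr
  congr 2
  · ext e
    simp only [Finset.mem_filter, and_congr_right_iff]
    intro _
    by_cases h : G.fst e ∈ X
    · simp [h]
    · simp [h]; rintro rfl; exact h hv
  · ext e
    simp only [Finset.mem_filter, and_congr_right_iff]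
    intro _
    by_cases h : G.snd e ∈ X
    · simp [h]
    · simp [h]; rintro rfl; exact h hv

theorem deg_contr_some_not (X : Finset V) (C : Finset E) (v : V) (hv : v ∉ X) :
    (G.contr X).deg C (some v) = 0 := by
  unfold deg contr
  rw [Nat.add_eq_zero_iff]
  constructor
  · rw [Finset.card_eq_zero, Finset.eq_empty_iff_forall_notMem]
    intro e he
    simp only [Finset.mem_filter] at he
    by_cases h : G.fst e ∈ X
    · simp [h] at he
      exact hv (he.2 ▸ h)
    · simp [h] at he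
  · rw [Finset.card_eq_zero, Finset.eq_empty_iff_forall_notMem]
    intro e he
    simp only [Finset.mem_filter] at he
    by_cases h : G.snd e ∈ X
    · simp [h] at he
      exact hv (he.2 ▸ h)
    · simp [h] at he

theorem deg_contr_none [Fintype E] (X : Finset V) (C : Finset E) (hC : ∀ e ∈ C, G.Meets X e) :
    (G.contr X).deg C none = (C ∩ G.cut X).card := by
  unfold deg contr
  rw [← Finset.card_union_of_disjoint]
  · congr 1
    ext e
    simp only [Finset.mem_union, Finset.mem_filter, Finset.mem_inter, cut, Finset.mem_univ,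
      true_and]
    constructor
    · rintro (⟨h1, h2⟩ | ⟨h1, h2⟩)
      · have h3 : G.fst e ∉ X := by
          intro h; simp [h] at h2
        rcases hC e h1 with h | h
        · exact absurd h h3
        · exact ⟨h1, Or.inr ⟨h3, h⟩⟩
      · have h3 : G.snd e ∉ X := by
          intro h; simp [h] at h2
        rcases hC e h1 with h | h
        · exact ⟨h1, Or.inl ⟨h, h3⟩⟩
        · exact absurd h h3
    · rintro ⟨h1, ⟨h2, h3⟩ | ⟨h2, h3⟩⟩
      · right; exact ⟨h1, by simp [h3]⟩
      · left; exact ⟨h1, by simp [h2]⟩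
  · rw [Finset.disjoint_left]
    intro e h1 h2
    simp only [Finset.mem_filter] at h1 h2
    have h3 : G.fst e ∉ X := by
      intro h; simp [h] at h1
    have h4 : G.snd e ∉ X := by
      intro h; simp [h] at h2
    rcases hC e h1.1 with h | h
    · exact h3 h
    · exact h4 h

theorem exists_pair [Fintype V] [Fintype E] (X : Finset V) (a b c d : E)
    (hnd : [a, b, c, d].Nodup) (hcut : G.cut X = {a, b, c, d}) (D : Finset E)
    (hD : ∀ e ∈ D, G.Meets X e) (hDe : ∀ v ∈ X, Even (G.deg D v)) (hDc : G.cut X ⊆ D) :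
    ∃ D1 ⊆ D, (∀ v ∈ X, Even (G.deg D1 v)) ∧
      (D1 ∩ G.cut X = {a, b} ∨ D1 ∩ G.cut X = {a, c} ∨ D1 ∩ G.cut X = {a, d}) := by
  simp only [List.nodup_cons, List.mem_cons, List.not_mem_nil, or_false, not_or,
    List.nodup_nil, and_true, not_false_eq_true] at hnd
  obtain ⟨⟨hab, hac, had⟩, ⟨hbc, hbd⟩, hcd⟩ := hnd
  have h4 : ({a, b, c, d} : Finset E).card = 4 := by
    rw [Finset.card_insert_of_notMem, Finset.card_insert_of_notMem,
      Finset.card_pair hcd] <;> simp [*]
  have hev : ∀ v, Even ((G.contr X).deg D v) := by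
    intro v
    cases v with
    | none =>
      rw [deg_contr_none G X D hD, Finset.inter_eq_right.mpr hDc, hcut, h4]
      decide
    | some v =>
      by_cases hv : v ∈ X
      · rw [deg_contr_some G X D v hv]; exact hDe v hv
      · rw [deg_contr_some_not G X D v hv]; exact Even.zero
  have haD : a ∈ D := hDc (by rw [hcut]; simp)
  obtain ⟨D1, hD1, hcirc, ha1⟩ := (G.contr X).exists_circuit_mem D hev haD
  have hcard : (D1 ∩ G.cut X).card = 2 := by
    have h0 := hcirc.2.1 none
    rw [deg_contr_none G X D1 (fun e he => hD e (hD1 he))] at h0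
    rcases h0 with h0 | h0
    · exfalso
      rw [Finset.card_eq_zero] at h0
      have : a ∈ D1 ∩ G.cut X := Finset.mem_inter.mpr ⟨ha1, by rw [hcut]; simp⟩
      rw [h0] at this
      simp at this
    · exact h0
  refine ⟨D1, hD1, ?_, ?_⟩
  · intro v hv
    have h0 := hcirc.2.1 (some v)
    rw [deg_contr_some G X D1 v hv] at h0
    rcases h0 with h0 | h0 <;> rw [h0] <;> decide
  · have haI : a ∈ D1 ∩ G.cut X := Finset.mem_inter.mpr ⟨ha1, by rw [hcut]; simp⟩
    obtain ⟨x, hx⟩ : ∃ x, (D1 ∩ G.cut X).erase a = {x} := by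
      rw [← Finset.card_eq_one, Finset.card_erase_of_mem haI, hcard]
    have hxm : x ∈ (D1 ∩ G.cut X).erase a := by rw [hx]; simp
    have hxne : x ≠ a := Finset.ne_of_mem_erase hxm
    have hxc : x ∈ G.cut X := (Finset.mem_inter.mp (Finset.mem_of_mem_erase hxm)).2
    have heq : D1 ∩ G.cut X = {a, x} := by
      rw [← Finset.insert_erase haI, hx]
    rw [hcut] at hxc
    simp only [Finset.mem_insert, Finset.mem_singleton] at hxc
    rcases hxc with h | h | h | h
    · exact absurd h hxne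
    · left; rw [heq, h]
    · right; left; rw [heq, h]
    · right; right; rw [heq, h]

theorem symmDiff_inter' (C D T : Finset E) :
    symmDiff C D ∩ T = symmDiff (C ∩ T) (D ∩ T) := by
  ext x
  simp only [Finset.mem_inter, Finset.mem_symmDiff]
  tauto

theorem countP_two (R : Multiset (Finset E)) (A B : Finset E) (e : E) :
    (A ::ₘ B ::ₘ R).countP (fun C => e ∈ C) =
      (if e ∈ A then 1 else 0) + (if e ∈ B then 1 else 0) + R.countP (fun C => e ∈ C) := by
  rw [Multiset.countP_cons, Multiset.countP_cons]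
  ring

theorem cons_four {α : Type} (x y z w : α) (s : Multiset α) :
    x ::ₘ y ::ₘ z ::ₘ w ::ₘ s = ({x, y} : Multiset α) + {z, w} + s := by
  simp only [Multiset.insert_eq_cons, Multiset.cons_add, Multiset.singleton_add]

theorem half_switch (a b c d : E) (hnd : [a, b, c, d].Nodup) (i w : Fin 4) (hw : w ≠ 0) :
    symmDiff (half a b c d i).1 (half a b c d w).1 = (half a b c d (kx i w)).2 ∧
    symmDiff (half a b c d i).2 (half a b c d w).1 = (half a b c d (kx i w)).1 := by
  simp only [List.nodup_cons, List.mem_cons, List.not_mem_nil, or_false, not_or,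
    List.nodup_nil, and_true, not_false_eq_true] at hnd
  obtain ⟨⟨hab, hac, had⟩, ⟨hbc, hbd⟩, hcd⟩ := hnd
  have hba := Ne.symm hab
  have hca := Ne.symm hac
  have hda := Ne.symm had
  have hcb := Ne.symm hbc
  have hdb := Ne.symm hbd
  have hdc := Ne.symm hcd
  have key : ∀ x : E, (x = a ∧ x ≠ b ∧ x ≠ c ∧ x ≠ d) ∨ (x = b ∧ x ≠ a ∧ x ≠ c ∧ x ≠ d) ∨
      (x = c ∧ x ≠ a ∧ x ≠ b ∧ x ≠ d) ∨ (x = d ∧ x ≠ a ∧ x ≠ b ∧ x ≠ c) ∨
      (x ≠ a ∧ x ≠ b ∧ x ≠ c ∧ x ≠ d) := by
    intro x
    by_cases h1 : x = a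
    · left; subst h1; exact ⟨rfl, hab, hac, had⟩
    by_cases h2 : x = b
    · right; left; subst h2; exact ⟨rfl, h1, hbc, hbd⟩
    by_cases h3 : x = c
    · right; right; left; subst h3; exact ⟨rfl, h1, h2, hcd⟩
    by_cases h4 : x = d
    · right; right; right; left; subst h4; exact ⟨rfl, h1, h2, h3⟩
    · right; right; right; right; exact ⟨h1, h2, h3, h4⟩
  constructor
  · ext x
    have hx := key x
    fin_cases i <;> fin_cases w <;> simp [half, kx, Finset.mem_symmDiff] at hw ⊢ <;> tauto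
  · ext x
    have hx := key x
    fin_cases i <;> fin_cases w <;> simp [half, kx, Finset.mem_symmDiff] at hw ⊢ <;> tauto

theorem switch [Fintype V] [Fintype E] (X : Finset V) (a b c d : E)
    (hnd : [a, b, c, d].Nodup) (hcut : G.cut X = {a, b, c, d}) (i : Fin 4) (C1 C2 : Finset E)
    (h1 : ∀ e ∈ C1, G.Meets X e) (h1e : ∀ v ∈ X, Even (G.deg C1 v))
    (h2 : ∀ e ∈ C2, G.Meets X e) (h2e : ∀ v ∈ X, Even (G.deg C2 v))
    (t1 : C1 ∩ G.cut X = (half a b c d i).1) (t2 : C2 ∩ G.cut X = (half a b c d i).2) :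
    ∃ w : Fin 4, w ≠ 0 ∧ ∃ C1' C2' : Finset E,
      C1' ∩ G.cut X = (half a b c d (kx i w)).1 ∧ C2' ∩ G.cut X = (half a b c d (kx i w)).2 ∧
      ∀ R, G.SideCover X (C1 ::ₘ C2 ::ₘ R) → G.SideCover X (C1' ::ₘ C2' ::ₘ R) := by
  have hfull : symmDiff (half a b c d i).1 (half a b c d i).2 = {a, b, c, d} := by
    simp only [List.nodup_cons, List.mem_cons, List.not_mem_nil, or_false, not_or,
      List.nodup_nil, and_true, not_false_eq_true] at hnd
    obtain ⟨⟨hab, hac, had⟩, ⟨hbc, hbd⟩, hcd⟩ := hnd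
    ext x
    fin_cases i <;> simp [half, Finset.mem_symmDiff] <;> constructor <;> intro h
    all_goals
      by_cases k1 : x = a
      · subst k1; simp_all
      by_cases k2 : x = b
      · subst k2; simp_all
      by_cases k3 : x = c
      · subst k3; simp_all
      by_cases k4 : x = d
      · subst k4; simp_all
      simp_all
  have hDc : G.cut X ⊆ symmDiff C1 C2 := by
    have : symmDiff C1 C2 ∩ G.cut X = G.cut X := by
      rw [symmDiff_inter', t1, t2, hfull, hcut]
    exact Finset.inter_eq_right.mp this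
  obtain ⟨D1, hD1, hD1e, hD1c⟩ := G.exists_pair X a b c d hnd hcut (symmDiff C1 C2)
    (by
      intro e he
      rw [Finset.mem_symmDiff] at he
      rcases he with h | h
      · exact h1 e h.1
      · exact h2 e h.1)
    (by
      intro v hv
      rw [even_deg_symmDiff]
      exact iff_of_true (h1e v hv) (h2e v hv)) hDc
  obtain ⟨w, hw, hwc⟩ : ∃ w : Fin 4, w ≠ 0 ∧ D1 ∩ G.cut X = (half a b c d w).1 := by
    rcases hD1c with h | h | h
    · exact ⟨3, by decide, h⟩
    · exact ⟨1, by decide, h⟩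
    · exact ⟨2, by decide, h⟩
  refine ⟨w, hw, symmDiff C2 D1, symmDiff C1 D1, ?_, ?_, ?_⟩
  · rw [symmDiff_inter', t2, hwc]
    exact (half_switch a b c d hnd i w hw).2
  · rw [symmDiff_inter', t1, hwc]
    exact (half_switch a b c d hnd i w hw).1
  · intro R hR
    constructor
    · intro C hC
      rw [Multiset.mem_cons, Multiset.mem_cons] at hC
      rcases hC with rfl | rfl | hC
      · constructor
        · intro e he
          rw [Finset.mem_symmDiff] at he
          rcases he with h | h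
          · exact h2 e h.1
          · have := hD1 h.1
            rw [Finset.mem_symmDiff] at this
            rcases this with h' | h'
            · exact h1 e h'.1
            · exact h2 e h'.1
        · intro v hv
          rw [even_deg_symmDiff]
          exact iff_of_true (h2e v hv) (hD1e v hv)
      · constructor
        · intro e he
          rw [Finset.mem_symmDiff] at he
          rcases he with h | h
          · exact h1 e h.1
          · have := hD1 h.1
            rw [Finset.mem_symmDiff] at this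
            rcases this with h' | h'
            · exact h1 e h'.1
            · exact h2 e h'.1
        · intro v hv
          rw [even_deg_symmDiff]
          exact iff_of_true (h1e v hv) (hD1e v hv)
      · exact hR.1 C (by simp [hC])
    · intro e he
      rw [← hR.2 e he, countP_two, countP_two]
      congr 1
      by_cases hD : e ∈ D1
      · have h3 := hD1 hD
        rw [Finset.mem_symmDiff] at h3
        rcases h3 with ⟨h3, h4⟩ | ⟨h3, h4⟩ <;> simp [Finset.mem_symmDiff, hD, h3, h4]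
      · by_cases h3 : e ∈ C1 <;> by_cases h4 : e ∈ C2 <;>
          simp [Finset.mem_symmDiff, hD, h3, h4]

/-- the nonempty traces of a half -/
theorem tr_eq_half (a b c d : E) (hnd : [a, b, c, d].Nodup) (i : Fin 4) :
    (({(half a b c d i).1, (half a b c d i).2} : Multiset (Finset E)).filter fun D => D ≠ ∅)
      = tr a b c d i := by
  fin_cases i <;> simp [half, tr, Multiset.filter_singleton]

theorem coverTypes_of_normal [Fintype E] (X : Finset V) (a b c d : E)
    (hnd : [a, b, c, d].Nodup) (i j : Fin 4) (C1 C2 C3 C4 : Finset E)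
    (F0 : Multiset (Finset E)) (hF : G.SideCover X (C1 ::ₘ C2 ::ₘ C3 ::ₘ C4 ::ₘ F0))
    (t1 : C1 ∩ G.cut X = (half a b c d i).1) (t2 : C2 ∩ G.cut X = (half a b c d i).2)
    (t3 : C3 ∩ G.cut X = (half a b c d j).1) (t4 : C4 ∩ G.cut X = (half a b c d j).2)
    (h0 : ∀ C ∈ F0, C ∩ G.cut X = ∅) :
    tr a b c d i + tr a b c d j ∈ G.coverTypes X := by
  refine ⟨_, hF, ?_⟩
  rw [Multiset.map_cons, Multiset.map_cons, Multiset.map_cons, Multiset.map_cons, t1, t2, t3, t4,
    ← tr_eq_half a b c d hnd i, ← tr_eq_half a b c d hnd j, ← Multiset.filter_add]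
  have : ((half a b c d i).1 ::ₘ (half a b c d i).2 ::ₘ (half a b c d j).1 ::ₘ
      (half a b c d j).2 ::ₘ F0.map fun C => C ∩ G.cut X) =
      ({(half a b c d i).1, (half a b c d i).2} + {(half a b c d j).1, (half a b c d j).2}) +
        F0.map fun C => C ∩ G.cut X := cons_four _ _ _ _ _
  rw [this, Multiset.filter_add _ _ (F0.map _)]
  have h1 : (F0.map fun C => C ∩ G.cut X).filter (fun D => D ≠ ∅) = 0 := by
    rw [Multiset.filter_eq_nil]
    intro D hD
    rw [Multiset.mem_map] at hD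
    obtain ⟨C, hC, rfl⟩ := hD
    simp [h0 C hC]
  rw [h1, add_zero]

theorem exists_normal [Fintype E] (X : Finset V) (a b c d : E)
    (hnd : [a, b, c, d].Nodup) (i j : Fin 4)
    (h : tr a b c d i + tr a b c d j ∈ G.coverTypes X) :
    ∃ (C1 C2 C3 C4 : Finset E) (F0 : Multiset (Finset E)),
      G.SideCover X (C1 ::ₘ C2 ::ₘ C3 ::ₘ C4 ::ₘ F0) ∧
      C1 ∩ G.cut X = (half a b c d i).1 ∧ C2 ∩ G.cut X = (half a b c d i).2 ∧
      C3 ∩ G.cut X = (half a b c d j).1 ∧ C4 ∩ G.cut X = (half a b c d j).2 ∧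
      ∀ C ∈ F0, C ∩ G.cut X = ∅ := by
  obtain ⟨F, hF, ht⟩ := h
  -- add two empty sets
  have hF2 : G.SideCover X (∅ ::ₘ ∅ ::ₘ F) := by
    constructor
    · intro C hC
      rw [Multiset.mem_cons, Multiset.mem_cons] at hC
      rcases hC with rfl | rfl | hC
      · exact ⟨by simp, fun v _ => by rw [deg_empty]; exact Even.zero⟩
      · exact ⟨by simp, fun v _ => by rw [deg_empty]; exact Even.zero⟩
      · exact hF.1 C hC
    · intro e he
      rw [countP_two, hF.2 e he]; simp
  have hsplit : ∀ k : Fin 4, ∃ n, (({(half a b c d k).1, (half a b c d k).2} : Multiset (Finset E))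
      + Multiset.replicate n ∅ = tr a b c d k + {∅}) := by
    intro k
    fin_cases k
    · exact ⟨0, by simp [half, tr]⟩
    · exact ⟨1, by simp [half, tr]⟩
    · exact ⟨1, by simp [half, tr]⟩
    · exact ⟨1, by simp [half, tr]⟩
  obtain ⟨n1, hn1⟩ := hsplit i
  obtain ⟨n2, hn2⟩ := hsplit j
  have hrest : ∃ n3, (F.map fun C => C ∩ G.cut X) =
      (tr a b c d i + tr a b c d j) + Multiset.replicate n3 ∅ := by
    refine ⟨((F.map fun C => C ∩ G.cut X).filter fun D => ¬ D ≠ ∅).card, ?_⟩
    rw [ht]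
    conv_lhs => rw [← Multiset.filter_add_not (fun D => D ≠ ∅) (F.map fun C => C ∩ G.cut X)]
    congr 1
    rw [Multiset.eq_replicate]
    refine ⟨rfl, ?_⟩
    intro D hD
    rw [Multiset.mem_filter] at hD
    simpa using hD.2
  obtain ⟨n3, hn3⟩ := hrest
  have hall : ((∅ ::ₘ ∅ ::ₘ F).map fun C => C ∩ G.cut X) =
      (half a b c d i).1 ::ₘ (half a b c d i).2 ::ₘ (half a b c d j).1 ::ₘ (half a b c d j).2 ::ₘ
        Multiset.replicate (n1 + n2 + n3) ∅ := by
    rw [Multiset.map_cons, Multiset.map_cons, hn3]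
    have e1 : (∅ ∩ G.cut X : Finset E) = ∅ := by simp
    rw [e1]
    have e2 : (∅ ::ₘ ∅ ::ₘ (tr a b c d i + tr a b c d j + Multiset.replicate n3 ∅) :
        Multiset (Finset E)) = (tr a b c d i + {∅}) + (tr a b c d j + {∅}) +
          Multiset.replicate n3 ∅ := by
      rw [← Multiset.singleton_add, ← Multiset.singleton_add]
      abel
    rw [e2, ← hn1, ← hn2]
    have e3 : ∀ (x y z w : Finset E) (s : Multiset (Finset E)),
        x ::ₘ y ::ₘ z ::ₘ w ::ₘ s = ({x, y} : Multiset (Finset E)) + {z, w} + s := by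
      intro x y z w s
      exact cons_four x y z w s
    rw [e3, Multiset.replicate_add, Multiset.replicate_add]
    abel
  obtain ⟨C1, F1, hF1, hC1, hm1⟩ : ∃ C1 F1, (∅ ::ₘ ∅ ::ₘ F) = C1 ::ₘ F1 ∧
      C1 ∩ G.cut X = (half a b c d i).1 ∧ (F1.map fun C => C ∩ G.cut X) = (half a b c d i).2 ::ₘ
        (half a b c d j).1 ::ₘ (half a b c d j).2 ::ₘ Multiset.replicate (n1 + n2 + n3) ∅ := by
    obtain ⟨C1, hC1, hc, hr⟩ := Multiset.map_eq_cons _ _ _ _ |>.mpr hall
    exact ⟨C1, _, (Multiset.cons_erase hC1).symm, hc, hr⟩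
  obtain ⟨C2, F2, hF2', hC2, hm2⟩ : ∃ C2 F2, F1 = C2 ::ₘ F2 ∧
      C2 ∩ G.cut X = (half a b c d i).2 ∧ (F2.map fun C => C ∩ G.cut X) =
        (half a b c d j).1 ::ₘ (half a b c d j).2 ::ₘ Multiset.replicate (n1 + n2 + n3) ∅ := by
    obtain ⟨C1, hC1, hc, hr⟩ := Multiset.map_eq_cons _ _ _ _ |>.mpr hm1
    exact ⟨C1, _, (Multiset.cons_erase hC1).symm, hc, hr⟩
  obtain ⟨C3, F3, hF3, hC3, hm3⟩ : ∃ C3 F3, F2 = C3 ::ₘ F3 ∧
      C3 ∩ G.cut X = (half a b c d j).1 ∧ (F3.map fun C => C ∩ G.cut X) =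
        (half a b c d j).2 ::ₘ Multiset.replicate (n1 + n2 + n3) ∅ := by
    obtain ⟨C1, hC1, hc, hr⟩ := Multiset.map_eq_cons _ _ _ _ |>.mpr hm2
    exact ⟨C1, _, (Multiset.cons_erase hC1).symm, hc, hr⟩
  obtain ⟨C4, F4, hF4, hC4, hm4⟩ : ∃ C4 F4, F3 = C4 ::ₘ F4 ∧
      C4 ∩ G.cut X = (half a b c d j).2 ∧ (F4.map fun C => C ∩ G.cut X) =
        Multiset.replicate (n1 + n2 + n3) ∅ := by
    obtain ⟨C1, hC1, hc, hr⟩ := Multiset.map_eq_cons _ _ _ _ |>.mpr hm3
    exact ⟨C1, _, (Multiset.cons_erase hC1).symm, hc, hr⟩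
  refine ⟨C1, C2, C3, C4, F4, ?_, hC1, hC2, hC3, hC4, ?_⟩
  · rw [← hF4, ← hF3, ← hF2', ← hF1]; exact hF2
  · intro C hC
    have : C ∩ G.cut X ∈ (F4.map fun C => C ∩ G.cut X) := Multiset.mem_map_of_mem _ hC
    rw [hm4] at this
    exact Multiset.eq_of_mem_replicate this

theorem kempe [Fintype V] [Fintype E] (X : Finset V) (a b c d : E)
    (hnd : [a, b, c, d].Nodup) (hcut : G.cut X = {a, b, c, d}) (i j : Fin 4)
    (h : tr a b c d i + tr a b c d j ∈ G.coverTypes X) :
    ∃ w z : Fin 4, w ≠ 0 ∧ z ≠ 0 ∧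
      tr a b c d (kx i w) + tr a b c d j ∈ G.coverTypes X ∧
      tr a b c d i + tr a b c d (kx j z) ∈ G.coverTypes X ∧
      tr a b c d (kx i w) + tr a b c d (kx j z) ∈ G.coverTypes X := by
  obtain ⟨C1, C2, C3, C4, F0, hF, t1, t2, t3, t4, h0⟩ := G.exists_normal X a b c d hnd i j h
  have m1 := hF.1 C1 (by simp)
  have m2 := hF.1 C2 (by simp)
  have m3 := hF.1 C3 (by simp)
  have m4 := hF.1 C4 (by simp)
  obtain ⟨w, hw, C1', C2', s1, s2, hs⟩ := G.switch X a b c d hnd hcut i C1 C2 m1.1 m1.2 m2.1 m2.2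
    t1 t2
  obtain ⟨z, hz, C3', C4', s3, s4, hs'⟩ := G.switch X a b c d hnd hcut j C3 C4 m3.1 m3.2 m4.1 m4.2
    t3 t4
  have perm : ∀ (x y u v : Finset E) (s : Multiset (Finset E)),
      x ::ₘ y ::ₘ u ::ₘ v ::ₘ s = u ::ₘ v ::ₘ x ::ₘ y ::ₘ s := by
    intro x y u v s
    rw [Multiset.cons_swap y u, Multiset.cons_swap x u, Multiset.cons_swap y v,
      Multiset.cons_swap x v]
  have f1 : G.SideCover X (C1' ::ₘ C2' ::ₘ C3 ::ₘ C4 ::ₘ F0) := hs _ hF
  have f2 : G.SideCover X (C1 ::ₘ C2 ::ₘ C3' ::ₘ C4' ::ₘ F0) := by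
    rw [perm]; apply hs'; rw [perm]; exact hF
  have f3 : G.SideCover X (C1' ::ₘ C2' ::ₘ C3' ::ₘ C4' ::ₘ F0) := by
    rw [perm]; apply hs'; rw [perm]; exact f1
  exact ⟨w, z, hw, hz, G.coverTypes_of_normal X a b c d hnd _ _ _ _ _ _ _ f1 s1 s2 t3 t4 h0,
    G.coverTypes_of_normal X a b c d hnd _ _ _ _ _ _ _ f2 t1 t2 s3 s4 h0,
    G.coverTypes_of_normal X a b c d hnd _ _ _ _ _ _ _ f3 s1 s2 s3 s4 h0⟩

end MGraph
end CDCut
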