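import Pool.Agent.CDCut.Codes
import Pool.Agent.CDCut.Close
import Pool.Agent.CDCut.Colour

/-!
# The unique obstruction for a cyclic 4-edge-cut
-/

open scoped Classical

namespace CDCut
namespace MGraph

variable {V E : Type} (G : MGraph V E)

theorem exists_four (T : Finset E) (h : T.card = 4) :
    ∃ a b c d : E, [a, b, c, d].Nodup ∧ T = {a, b, c, d} := by
  obtain ⟨a, T1, ha, rfl, h1⟩ := Finset.card_eq_succ.mp h
  obtain ⟨b, T2, hb, rfl, h2⟩ := Finset.card_eq_succ.mp h1
  obtain ⟨c, T3, hc, rfl, h3⟩ := Finset.card_eq_succ.mp h2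
  obtain ⟨d, T4, hd, rfl, h4⟩ := Finset.card_eq_succ.mp h3
  have h5 : T4 = ∅ := by simpa using h4
  subst h5
  refine ⟨a, b, c, d, ?_, by simp⟩
  simp at ha hb hc
  simp [ha, hb, hc]

/-- the relation type `ij` occurs on the side `X` -/
def Occ (G : MGraph V E) [Fintype E] (X : Finset V) (a b c d : E) (i j : Fin 4) : Prop :=
  tr a b c d i + tr a b c d j ∈ G.coverTypes X

theorem occ_symm [Fintype E] (X : Finset V) (a b c d : E) (i j : Fin 4)
    (h : G.Occ X a b c d i j) : G.Occ X a b c d j i := by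
  unfold Occ at *; rwa [add_comm]

theorem occ_meet [Fintype V] [Fintype E] (hG : G.IsSmallestCounterexample)
    (X : Finset V) (hX : G.IsCyclicFourCut X) (a b c d : E) (hnd : [a, b, c, d].Nodup)
    (hcut : G.cut X = {a, b, c, d}) (i : Fin 4) (hi : i ≠ 0) :
    G.Occ X a b c d 0 0 ∨ G.Occ X a b c d 0 i ∨ G.Occ X a b c d i i := by
  simp only [List.nodup_cons, List.mem_cons, List.not_mem_nil, or_false, not_or,
    List.nodup_nil, and_true, not_false_eq_true] at hnd
  obtain ⟨⟨hab, hac, had⟩, ⟨hbc, hbd⟩, hcd⟩ := hnd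
  have key : ∀ p q : Finset E, tr a b c d i = {p, q} → p.card = 2 → q.card = 2 → Disjoint p q →
      p ∪ q = G.cut X →
      G.Occ X a b c d 0 0 ∨ G.Occ X a b c d 0 i ∨ G.Occ X a b c d i i := by
    intro p q h hp hq hd hu
    have := G.close_types hG X hX p q hp hq hd hu
    unfold Occ
    rw [hcut] at this
    rcases this with h1 | h1 | h1
    · left; exact h1
    · right; left; rw [h]; exact h1
    · right; right; rw [h]; exact h1
  have h0 : i = 1 ∨ i = 2 ∨ i = 3 := fin4_cases i hi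
  rcases h0 with rfl | rfl | rfl
  · refine key {a, c} {b, d} rfl (Finset.card_pair hac) (Finset.card_pair hbd) ?_ ?_
    · simp [Finset.disjoint_left]; tauto
    · rw [hcut]; ext x; simp; tauto
  · refine key {a, d} {b, c} rfl (Finset.card_pair had) (Finset.card_pair hbc) ?_ ?_
    · simp [Finset.disjoint_left]
      exact ⟨⟨hab, hac⟩, fun h => hbd h.symm, fun h => hcd h.symm⟩
    · rw [hcut]; ext x; simp; tauto
  · refine key {a, b} {c, d} rfl (Finset.card_pair hab) (Finset.card_pair hcd) ?_ ?_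
    · simp [Finset.disjoint_left]
      exact ⟨⟨hac, had⟩, hbc, hbd⟩
    · rw [hcut]; ext x; simp; tauto

theorem coverTypes_eq_S [Fintype V] [Fintype E] (X : Finset V) (a b c d : E)
    (hnd : [a, b, c, d].Nodup) (hcut : G.cut X = {a, b, c, d})
    (h : ∀ x y, G.Occ X a b c d x y ↔ SC 3 x y) : G.coverTypes X = typeS a b c d := by
  ext t
  constructor
  · intro ht
    have h1 := G.isTrace_of_coverTypes X t ht
    rw [hcut] at h1
    obtain ⟨i, j, rfl⟩ := isTrace_four a b c d hnd t h1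
    rw [mem_typeS_iff a b c d hnd]
    exact (h i j).1 ht
  · intro ht
    obtain ⟨i, j, rfl⟩ := exists_codes_S a b c d t ht
    rw [mem_typeS_iff a b c d hnd] at ht
    exact (h i j).2 ht

theorem coverTypes_eq_T [Fintype V] [Fintype E] (X : Finset V) (a b c d : E)
    (hnd : [a, b, c, d].Nodup) (hcut : G.cut X = {a, b, c, d})
    (h : ∀ x y, G.Occ X a b c d x y ↔ TC 3 x y) : G.coverTypes X = typeT a b c d := by
  ext t
  constructor
  · intro ht
    have h1 := G.isTrace_of_coverTypes X t ht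
    rw [hcut] at h1
    obtain ⟨i, j, rfl⟩ := isTrace_four a b c d hnd t h1
    rw [mem_typeT_iff a b c d hnd]
    exact (h i j).1 ht
  · intro ht
    obtain ⟨i, j, rfl⟩ := exists_codes_T a b c d t ht
    rw [mem_typeT_iff a b c d hnd] at ht
    exact (h i j).2 ht

theorem full_not_mem_T (a b c d : E) (hnd : [a, b, c, d].Nodup) (t : Multiset (Finset E))
    (ht : t ∈ typeT a b c d) : ({a, b, c, d} : Finset E) ∉ t := by
  simp only [List.nodup_cons, List.mem_cons, List.not_mem_nil, or_false, not_or,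
    List.nodup_nil, and_true, not_false_eq_true] at hnd
  obtain ⟨⟨hab, hac, had⟩, ⟨hbc, hbd⟩, hcd⟩ := hnd
  have h4 : ({a, b, c, d} : Finset E).card = 4 := by
    rw [Finset.card_insert_of_notMem, Finset.card_insert_of_notMem,
      Finset.card_pair hcd] <;> simp [*]
  have h2 : ∀ x y : E, ({a, b, c, d} : Finset E) ≠ {x, y} := by
    intro x y h
    have := Finset.card_le_two (a := x) (b := y)
    rw [← h, h4] at this
    omega
  rw [typeT_eq] at ht
  rcases ht with rfl | rfl | rfl | rfl | rfl <;> simp [tr, h2]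

/-- a labelling of the cut in which the special index is `3` -/
theorem relabel [Fintype V] [Fintype E] (X : Finset V) (a b c d : E)
    (hnd : [a, b, c, d].Nodup) (hcut : G.cut X = {a, b, c, d}) (i : Fin 4) (hi : i ≠ 0) :
    ∃ b' c' d' : E, [a, b', c', d'].Nodup ∧ ({a, b', c', d'} : Finset E) = {a, b, c, d} ∧
      ∀ P : Finset V,
        ((∀ x y, G.Occ P a b c d x y ↔ SC i x y) → (∀ x y, G.Occ P a b' c' d' x y ↔ SC 3 x y)) ∧
        ((∀ x y, G.Occ P a b c d x y ↔ TC i x y) → (∀ x y, G.Occ P a b' c' d' x y ↔ TC 3 x y)) := by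
  have h0 : i = 1 ∨ i = 2 ∨ i = 3 := fin4_cases i hi
  simp only [List.nodup_cons, List.mem_cons, List.not_mem_nil, or_false, not_or,
    List.nodup_nil, and_true, not_false_eq_true] at hnd
  obtain ⟨⟨hab, hac, had⟩, ⟨hbc, hbd⟩, hcd⟩ := hnd
  rcases h0 with rfl | rfl | rfl
  · refine ⟨c, b, d, ?_, ?_, ?_⟩
    · simp; exact ⟨⟨hac, hab, had⟩, ⟨Ne.symm hbc, hcd⟩, hbd⟩
    · ext x; simp; tauto
    · intro P
      constructor
      · intro h x y
        unfold Occ
        rw [tr_swap_bc a b c d x, tr_swap_bc a b c d y]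
        exact (h _ _).trans (sc_swap_bc x y)
      · intro h x y
        unfold Occ
        rw [tr_swap_bc a b c d x, tr_swap_bc a b c d y]
        exact (h _ _).trans (tc_swap_bc x y)
  · refine ⟨d, c, b, ?_, ?_, ?_⟩
    · simp; exact ⟨⟨had, hac, hab⟩, ⟨Ne.symm hcd, Ne.symm hbd⟩, Ne.symm hbc⟩
    · ext x; simp; tauto
    · intro P
      constructor
      · intro h x y
        unfold Occ
        rw [tr_swap_bd a b c d x, tr_swap_bd a b c d y]
        exact (h _ _).trans (sc_swap_bd x y)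
      · intro h x y
        unfold Occ
        rw [tr_swap_bd a b c d x, tr_swap_bd a b c d y]
        exact (h _ _).trans (tc_swap_bd x y)
  · refine ⟨b, c, d, ?_, rfl, fun P => ⟨fun h => h, fun h => h⟩⟩
    simp; exact ⟨⟨hab, hac, had⟩, ⟨hbc, hbd⟩, hcd⟩

theorem main_one [Fintype V] [Fintype E] (hG : G.IsSmallestCounterexample)
    (X : Finset V) (hX : G.IsCyclicFourCut X) :
    ∃ a b c d : E, [a, b, c, d].Nodup ∧ G.cut X = {a, b, c, d} ∧
      ((G.coverTypes X = typeS a b c d ∧ G.coverTypes Xᶜ = typeT a b c d ∧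
          ¬ G.SideColourable Xᶜ) ∨
       (G.coverTypes X = typeT a b c d ∧ G.coverTypes Xᶜ = typeS a b c d ∧
          ¬ G.SideColourable X)) := by
  obtain ⟨a, b, c, d, hnd, hcut⟩ := exists_four (G.cut X) hX.2.2.1
  have hXc := G.isCyclicFourCut_compl X hX
  have hcutc : G.cut Xᶜ = {a, b, c, d} := by rw [cut_compl, hcut]
  obtain ⟨i, hi, hcases⟩ := core (G.Occ X a b c d) (G.Occ Xᶜ a b c d)
    (G.occ_symm X a b c d) (G.occ_symm Xᶜ a b c d)
    (fun i j h => G.kempe X a b c d hnd hcut i j h)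
    (fun i j h => G.kempe Xᶜ a b c d hnd hcutc i j h)
    (G.occ_meet hG X hX a b c d hnd hcut)
    (G.occ_meet hG Xᶜ hXc a b c d hnd hcutc)
    (fun i j h => hG.1.2 (G.hasCDC_of_common X _ h.1 h.2))
  obtain ⟨b', c', d', hnd', hset, hrel⟩ := G.relabel X a b c d hnd hcut i hi
  have hcut' : G.cut X = {a, b', c', d'} := by rw [hset, hcut]
  have hcutc' : G.cut Xᶜ = {a, b', c', d'} := by rw [hset, hcutc]
  refine ⟨a, b', c', d', hnd', hcut', ?_⟩
  rcases hcases with ⟨hA, hB⟩ | ⟨hA, hB⟩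
  · left
    have h1 := G.coverTypes_eq_S X a b' c' d' hnd' hcut' ((hrel X).1 hA)
    have h2 := G.coverTypes_eq_T Xᶜ a b' c' d' hnd' hcutc' ((hrel Xᶜ).2 hB)
    refine ⟨h1, h2, fun hcol => ?_⟩
    obtain ⟨t, ht, hm⟩ := G.colour_type hG Xᶜ hXc.2.1 hXc.2.2.1 hcol
    rw [h2] at ht
    rw [hcutc'] at hm
    exact full_not_mem_T a b' c' d' hnd' t ht hm
  · right
    have h1 := G.coverTypes_eq_T X a b' c' d' hnd' hcut' ((hrel X).2 hA)
    have h2 := G.coverTypes_eq_S Xᶜ a b' c' d' hnd' hcutc' ((hrel Xᶜ).1 hB)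
    refine ⟨h1, h2, fun hcol => ?_⟩
    obtain ⟨t, ht, hm⟩ := G.colour_type hG X hX.2.1 hX.2.2.1 hcol
    rw [h1] at ht
    rw [hcut'] at hm
    exact full_not_mem_T a b' c' d' hnd' t ht hm

end MGraph
end CDCut
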