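import Pool.Agent.CDCut.MainOne
import Pool.Agent.CDCut.Exchange
import Pool.Agent.CDCut.FourCirc
import Pool.Agent.CDCut.Forest

/-!
# The structure of the set of all cyclic 4-edge-cuts
-/

open scoped Classical

namespace CDCut
namespace MGraph

variable {V E : Type} (G : MGraph V E)

/-- `X` is the side with types `00, 01, 02, 12` -/
def SSide [Fintype V] [Fintype E] (G : MGraph V E) (X : Finset V) : Prop :=
  ∃ a b c d : E, [a, b, c, d].Nodup ∧ G.cut X = {a, b, c, d} ∧
    G.coverTypes X = typeS a b c d ∧ G.coverTypes Xᶜ = typeT a b c d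

theorem sSide_or [Fintype V] [Fintype E] (hG : G.IsSmallestCounterexample)
    (X : Finset V) (hX : G.IsCyclicFourCut X) : SSide G X ∨ SSide G Xᶜ := by
  obtain ⟨a, b, c, d, hnd, hcut, h | h⟩ := G.main_one hG X hX
  · exact Or.inl ⟨a, b, c, d, hnd, hcut, h.1, h.2.1⟩
  · refine Or.inr ⟨a, b, c, d, hnd, by rw [cut_compl, hcut], h.2.1, ?_⟩
    rw [compl_compl]; exact h.1

theorem mu_le [Fintype V] [Fintype E] (hG : G.IsSmallestCounterexample)
    (X Y : Finset V) (hX : G.IsCyclicFourCut X) (hY : G.IsCyclicFourCut Y)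
    (hXS : SSide G X) (hYS : SSide G Y) :
    Y.card + (G.inside Y).card ≤ X.card + (G.inside X).card := by
  obtain ⟨a, b, c, d, hnd, hcut, h1, h2⟩ := hXS
  obtain ⟨a', b', c', d', hnd', hcut', h1', h2'⟩ := hYS
  refine G.exchange hG X Y hX.1 hX.2.1 hY.1 hY.2.1 a b c d a' b' c' d' hnd hnd' hcut hcut' ?_
  rintro i j ⟨hi, hj⟩
  rw [h1, mem_typeS_iff a b c d hnd] at hi
  rw [h2', mem_typeT_iff a' b' c' d' hnd'] at hj
  obtain ⟨s1, s2, s3⟩ := hi
  obtain ⟨t1, t2, t3⟩ := hj
  rcases t3 with t | t | t
  · exact t1 (s3 t)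
  · exact s1 t
  · exact s2 t

theorem card_eq_of_SSide [Fintype V] [Fintype E] (hG : G.IsSmallestCounterexample)
    (X Y : Finset V) (hX : G.IsCyclicFourCut X) (hY : G.IsCyclicFourCut Y)
    (hXS : SSide G X) (hYS : SSide G Y) : X.card = Y.card := by
  have h1 := G.mu_le hG X Y hX hY hXS hYS
  have h2 := G.mu_le hG Y X hY hX hYS hXS
  have h3 := G.three_mul_card hG X
  have h4 := G.three_mul_card hG Y
  have h5 := hX.2.2.1
  have h6 := hY.2.2.1
  omega

theorem card_eq_or [Fintype V] [Fintype E] (hG : G.IsSmallestCounterexample)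
    (X Y : Finset V) (hX : G.IsCyclicFourCut X) (hY : G.IsCyclicFourCut Y) :
    X.card = Y.card ∨ X.card = Yᶜ.card := by
  have hXc := G.isCyclicFourCut_compl X hX
  have hYc := G.isCyclicFourCut_compl Y hY
  have cX : X.card + Xᶜ.card = Fintype.card V := Finset.card_add_card_compl X
  have cY : Y.card + Yᶜ.card = Fintype.card V := Finset.card_add_card_compl Y
  rcases G.sSide_or hG X hX with h | h <;> rcases G.sSide_or hG Y hY with h' | h'
  · left; exact G.card_eq_of_SSide hG X Y hX hY h h'
  · right; exact G.card_eq_of_SSide hG X Yᶜ hX hYc h h'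
  · right
    have := G.card_eq_of_SSide hG Xᶜ Y hXc hY h h'
    omega
  · left
    have := G.card_eq_of_SSide hG Xᶜ Yᶜ hXc hYc h h'
    omega

theorem innerCircuit_mono {X Y : Finset V} (h : X ⊆ Y) (hX : G.InnerCircuit X) :
    G.InnerCircuit Y := by
  obtain ⟨C, hC, hC2⟩ := hX
  exact ⟨C, hC, fun e he => ⟨h (hC2 e he).1, h (hC2 e he).2⟩⟩

/-- a proper subset of the smaller side whose cut has size four is an edge -/
theorem two_of_small [Fintype V] [Fintype E] (hG : G.IsSmallestCounterexample)
    (X Z : Finset V) (hX : G.IsCyclicFourCut X) (hs : 2 * X.card ≤ Fintype.card V)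
    (hZ : Z ⊂ X) (hcut : (G.cut Z).card = 4) :
    ∃ x y : V, x ≠ y ∧ Z = {x, y} ∧ ∃ e, G.Inc e x ∧ G.Inc e y := by
  rcases G.inner_or_two hG Z hcut with h | h
  · exfalso
    have hne : Z.Nonempty := by
      rw [Finset.nonempty_iff_ne_empty]
      rintro rfl
      rw [cut_empty] at hcut
      simp at hcut
    have hlt : Z.card < X.card := Finset.card_lt_card hZ
    have cX : X.card + Xᶜ.card = Fintype.card V := Finset.card_add_card_compl X
    have hnu : Z ≠ Finset.univ := by
      rintro rfl
      exact (hZ.2 (Finset.subset_univ _))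
    have hc : G.InnerCircuit Zᶜ :=
      G.innerCircuit_mono (Finset.compl_subset_compl.mpr hZ.1)
        (G.exists_inner_circuit hG X hX).2
    have hZc : G.IsCyclicFourCut Z := ⟨hne, hnu, hcut, G.isCyclicCut_of_inner Z h hc⟩
    rcases G.card_eq_or hG Z X hZc hX with h1 | h1 <;> omega
  · exact h

theorem pqpq_not_mem_S (a b c d : E) (hnd : [a, b, c, d].Nodup) (p q : Finset E)
    (hp : p.card = 2) (hq : q.card = 2) :
    ({p, q, p, q} : Multiset (Finset E)) ∉ typeS a b c d := by
  intro h
  have hnd0 := hnd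
  simp only [List.nodup_cons, List.mem_cons, List.not_mem_nil, or_false, not_or,
    List.nodup_nil, and_true, not_false_eq_true] at hnd
  obtain ⟨⟨hab, hac, had⟩, ⟨hbc, hbd⟩, hcd⟩ := hnd
  have h4 : ({a, b, c, d} : Finset E).card = 4 := by
    rw [Finset.card_insert_of_notMem, Finset.card_insert_of_notMem,
      Finset.card_pair hcd] <;> simp [*]
  have hfull : ({a, b, c, d} : Finset E) ∉ ({p, q, p, q} : Multiset (Finset E)) := by
    intro hm
    simp only [Multiset.insert_eq_cons, Multiset.mem_cons, Multiset.mem_singleton] at hm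
    rcases hm with hm | hm | hm | hm <;> rw [hm] at h4 <;> omega
  rw [typeS_eq] at h
  rcases h with h | h | h | h
  · rw [h] at hfull; simp [tr] at hfull
  · rw [h] at hfull; simp [tr] at hfull
  · rw [h] at hfull; simp [tr] at hfull
  · have hc : (1 : ℕ) < Multiset.count p ({p, q, p, q} : Multiset (Finset E)) := by
      simp only [Multiset.insert_eq_cons]
      rw [Multiset.count_cons_self]
      have : 0 < Multiset.count p (q ::ₘ p ::ₘ {q}) := by
        rw [Multiset.count_pos]; simp
      omega
    have hn : Multiset.Nodup (tr a b c d 1 + tr a b c d 2) := by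
      refine Multiset.Nodup.of_map (pat a b c d) ?_
      rw [map_add_tr a b c d hnd0]
      exact ptr_nodup
    rw [h] at hc
    have := Multiset.nodup_iff_count_le_one.mp hn p
    omega

theorem main_two [Fintype V] [Fintype E] (hG : G.IsSmallestCounterexample)
    (X Y : Finset V) (hX : G.IsCyclicFourCut X) (hY : G.IsCyclicFourCut Y)
    (hX2 : 2 * X.card ≤ Fintype.card V) (hY2 : 2 * Y.card ≤ Fintype.card V) :
    X.card = Y.card ∧ (X = Y ∨ Disjoint X Y) := by
  have cX : X.card + Xᶜ.card = Fintype.card V := Finset.card_add_card_compl X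
  have cY : Y.card + Yᶜ.card = Fintype.card V := Finset.card_add_card_compl Y
  have hc : X.card = Y.card := by
    rcases G.card_eq_or hG X Y hX hY with h | h <;> omega
  refine ⟨hc, ?_⟩
  by_contra hcon
  push Not at hcon
  obtain ⟨hne, hdis⟩ := hcon
  -- the four corners are nonempty
  have hP : (X ∩ Y).Nonempty := by
    rw [Finset.nonempty_iff_ne_empty]
    intro h
    exact hdis (Finset.disjoint_iff_inter_eq_empty.mpr h)
  have e1 : (X \ Y).card + (X ∩ Y).card = X.card := Finset.card_sdiff_add_card_inter X Y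
  have e2 : (Y \ X).card + (Y ∩ X).card = Y.card := Finset.card_sdiff_add_card_inter Y X
  have e3 : (X ∪ Y).card + (X ∩ Y).card = X.card + Y.card := Finset.card_union_add_card_inter X Y
  have e4 : (X ∪ Y).card + (X ∪ Y)ᶜ.card = Fintype.card V := Finset.card_add_card_compl _
  rw [Finset.inter_comm Y X] at e2
  have hPc : 0 < (X ∩ Y).card := Finset.card_pos.mpr hP
  have hQne : (X \ Y).card ≠ 0 := by
    intro h
    have h0 : X \ Y = ∅ := Finset.card_eq_zero.mp h
    have h1 : X ⊆ Y := Finset.sdiff_eq_empty_iff_subset.mp h0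
    exact hne (Finset.eq_of_subset_of_card_le h1 (le_of_eq hc.symm))
  have hQ : (X \ Y).Nonempty := Finset.card_pos.mp (Nat.pos_of_ne_zero hQne)
  have hRne : (Y \ X).card ≠ 0 := by omega
  have hR : (Y \ X).Nonempty := Finset.card_pos.mp (Nat.pos_of_ne_zero hRne)
  have hU : 0 < (X ∪ Y)ᶜ.card := by omega
  have nu : ∀ Z : Finset V, Z.card < Fintype.card V → Z ≠ Finset.univ := by
    rintro Z h rfl
    simp at h
  have hUn : (X ∪ Y).Nonempty := hP.mono (Finset.inter_subset_left.trans Finset.subset_union_left)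
  have dP : 3 ≤ (G.cut (X ∩ Y)).card := G.three_le_card_cut hG _ hP (nu _ (by omega))
  have dU : 3 ≤ (G.cut (X ∪ Y)).card := G.three_le_card_cut hG _ hUn (nu _ (by omega))
  have dQ : 3 ≤ (G.cut (X \ Y)).card := G.three_le_card_cut hG _ hQ (nu _ (by omega))
  have dR : 3 ≤ (G.cut (Y \ X)).card := G.three_le_card_cut hG _ hR (nu _ (by omega))
  have s1 := G.submodular X Y
  have s2 := G.submodular' X Y
  rw [hX.2.2.1, hY.2.2.1] at s1 s2
  have pX := G.parity_cut hG X
  have pP := G.parity_cut hG (X ∩ Y)
  have pU := G.parity_cut hG (X ∪ Y)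
  have pQ := G.parity_cut hG (X \ Y)
  have pR := G.parity_cut hG (Y \ X)
  rw [hX.2.2.1] at pX
  have hXe : Even X.card := pX.1 (by decide)
  have inX := G.exists_inner_circuit hG X hX
  have inY := G.exists_inner_circuit hG Y hY
  rcases Nat.even_or_odd (X ∩ Y).card with hev | hodd
  · -- even case
    have hQe : Even (X \ Y).card := by
      have : Even ((X \ Y).card + (X ∩ Y).card) := by rw [e1]; exact hXe
      exact (Nat.even_add.mp this).2 hev
    have hRe : Even (Y \ X).card := by
      have : (Y \ X).card = (X \ Y).card := by omega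
      rw [this]; exact hQe
    have hUe : Even (X ∪ Y).card := by
      have h1 : (X ∪ Y).card = (X \ Y).card + X.card := by omega
      rw [h1]; exact hQe.add hXe
    have f1 := pP.2 hev
    have f2 := pU.2 hUe
    have f3 := pQ.2 hQe
    have f4 := pR.2 hRe
    rw [Nat.even_iff] at f1 f2 f3 f4
    have g1 : (G.cut (X ∩ Y)).card = 4 := by omega
    have g3 : (G.cut (X \ Y)).card = 4 := by omega
    have sub1 : X ∩ Y ⊂ X := by
      refine ⟨Finset.inter_subset_left, fun h => ?_⟩
      have := Finset.card_le_card h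
      omega
    have sub2 : X \ Y ⊂ X := by
      refine ⟨Finset.sdiff_subset, fun h => ?_⟩
      have := Finset.card_le_card h
      omega
    obtain ⟨x1, x2, h12, hPeq, he12⟩ := G.two_of_small hG X _ hX hX2 sub1 g1
    obtain ⟨x3, x4, h34, hQeq, he34⟩ := G.two_of_small hG X _ hX hX2 sub2 g3
    have hXeq : X = {x1, x2, x3, x4} := by
      have : X = (X ∩ Y) ∪ (X \ Y) := by
        ext v; simp only [Finset.mem_union, Finset.mem_inter, Finset.mem_sdiff]; tauto
      rw [this, hPeq, hQeq]
      ext v; simp; tauto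
    have hd : Disjoint (X ∩ Y) (X \ Y) := by
      rw [Finset.disjoint_left]; intro v hv hv'
      exact (Finset.mem_sdiff.mp hv').2 (Finset.mem_inter.mp hv).2
    rw [hPeq, hQeq] at hd
    have hnd : [x1, x2, x3, x4].Nodup := by
      simp only [Finset.disjoint_left, Finset.mem_insert, Finset.mem_singleton] at hd
      have d1 := hd (a := x1) (Or.inl rfl)
      have d2 := hd (a := x2) (Or.inr rfl)
      push Not at d1 d2
      simp only [List.nodup_cons, List.mem_cons, List.not_mem_nil, or_false, not_or,
        List.nodup_nil, and_true, not_false_eq_true]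
      exact ⟨⟨h12, d1.1, d1.2⟩, ⟨d2.1, d2.2⟩, h34⟩
    have hcutX := hX.2.2.1
    have hXu := hX.2.1
    rw [hXeq] at hcutX hXu
    obtain ⟨t1, p, q, hp, hq, t2⟩ := G.four_circuit_types hG x1 x2 x3 x4 hnd hXu hcutX he12 he34
    rw [← hXeq] at t1 t2
    obtain ⟨a, b, c, d, hnd', hcut, h | h⟩ := G.main_one hG X hX
    · rw [h.1] at t2
      exact pqpq_not_mem_S a b c d hnd' p q hp hq t2
    · rw [h.1] at t1
      refine full_not_mem_T a b c d hnd' _ t1 ?_
      rw [hcut]; simp
  · -- odd case
    have hQo : Odd (X \ Y).card := by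
      have : Even ((X \ Y).card + (X ∩ Y).card) := by rw [e1]; exact hXe
      rw [Nat.even_add] at this
      rw [← Nat.not_even_iff_odd] at hodd ⊢
      tauto
    have hRo : Odd (Y \ X).card := by
      have : (Y \ X).card = (X \ Y).card := by omega
      rw [this]; exact hQo
    have hUo : Odd (X ∪ Y).card := by
      have h1 : (X ∪ Y).card = (X \ Y).card + X.card := by omega
      rw [h1]; exact hQo.add_even hXe
    rw [← Nat.not_even_iff_odd] at hodd hQo hRo hUo
    have f1 := (not_congr pP).2 hodd
    have f2 := (not_congr pU).2 hUo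
    have f3 := (not_congr pQ).2 hQo
    have f4 := (not_congr pR).2 hRo
    rw [Nat.even_iff] at f1 f2 f3 f4
    have k1 : (X \ Y).card = 1 := by
      have : (G.cut (X \ Y)).card = 3 ∨ (G.cut (Y \ X)).card = 3 := by omega
      rcases this with h | h
      · rcases G.card_cut_eq_three hG _ h with h' | h'
        · exact h'
        · have := Finset.card_add_card_compl (X \ Y)
          omega
      · rcases G.card_cut_eq_three hG _ h with h' | h'
        · omega
        · have := Finset.card_add_card_compl (Y \ X)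
          omega
    have k2 : (X ∩ Y).card = 1 ∨ (X ∪ Y)ᶜ.card = 1 := by
      have : (G.cut (X ∩ Y)).card = 3 ∨ (G.cut (X ∪ Y)).card = 3 := by omega
      rcases this with h | h
      · rcases G.card_cut_eq_three hG _ h with h' | h'
        · left; exact h'
        · have := Finset.card_add_card_compl (X ∩ Y)
          omega
      · rcases G.card_cut_eq_three hG _ h with h' | h'
        · omega
        · right; exact h'
    have b1 := G.three_le_of_inner hG X hX.2.1 inX.1
    have hYcu : Yᶜ ≠ Finset.univ := by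
      intro h
      have := congrArg Finset.card h
      simp only [Finset.card_univ] at this
      omega
    have b2 := G.three_le_of_inner hG Yᶜ hYcu inY.2
    omega

end MGraph
end CDCut
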