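import Pool.Agent.CDCut.Bridge
import Pool.Agent.CDCut.Cov

/-!
# Module `NoLoop`: a smallest counterexample has no loops and no isolated vertices

**`no_loop`.**  Let `e` be a loop.  Let `G'` have vertex type `V` and edge type `{f // f ≠ e}`.
A loop is in no cut, so `(G'.cut Z).card = (G.cut Z).card` for all `Z` and `G'` is bridgeless by
`bridgeless_iff`.  It is smaller, so by minimality it has a circuit double cover, hence an even
cover `F'` (`exists_evenCover_of_hasCDC`); mapping it to `E` (`C ↦ C.map (Function.Embedding.subtype _)`
or `Finset.image Subtype.val`) and adding the set `{e}` twice gives an even cover of `G` (the degree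
of a loop `{e}` at its vertex is 2), so `G` has a CDC by `hasCDC_of_evenCover`.  Contradiction.

**`no_isolated`.**  Suppose that no edge is incident with `v`.  Let `G'` have vertex type
`{w // w ≠ v}` and edge type `E` (the ends of each edge are `≠ v`).  For `Z : Finset {w // w ≠ v}`
the cut `G'.cut Z` is `G.cut (Z.map ..)`, so `G'` is bridgeless; it is smaller, so it has an even
cover, which is an even cover of `G` (all degrees at `v` are 0).  Contradiction.
-/

open scoped Classical

namespace CDCut
namespace MGraph

variable {V E : Type} (G : MGraph V E)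

/-- A bridgeless graph smaller than a smallest counterexample has an even double cover. -/
theorem NoLoop.exists_evenCover [Fintype V] [Fintype E] (hG : G.IsSmallestCounterexample)
    {V' E' : Type} [Fintype V'] [Fintype E'] (G' : MGraph V' E') (hb : G'.Bridgeless)
    (hc : Fintype.card V' + Fintype.card E' < Fintype.card V + Fintype.card E) :
    ∃ F, G'.EvenCover F := by
  apply exists_evenCover_of_hasCDC
  by_contra h
  exact absurd (hG.2 V' E' G' ⟨hb, h⟩) (not_le.2 hc)

theorem no_loop [Fintype V] [Fintype E] (hG : G.IsSmallestCounterexample) (e : E) :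
    G.fst e ≠ G.snd e := by
  intro he
  let G' : MGraph V {f // f ≠ e} := ⟨fun f => G.fst f, fun f => G.snd f⟩
  have hb : G'.Bridgeless := by
    rw [bridgeless_iff]
    intro Z
    have h1 := (bridgeless_iff G).1 hG.1.1 Z
    have h2 : G.cut Z = (G'.cut Z).map (Function.Embedding.subtype _) := by
      ext f
      simp only [cut, Finset.mem_filter, Finset.mem_univ, true_and, Finset.mem_map,
        Function.Embedding.subtype_apply, Subtype.exists, exists_and_right, exists_eq_right]
      constructor
      · intro h
        refine ⟨?_, h⟩
        intro hfe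
        rw [hfe, he] at h
        rcases h with h | h
        · exact h.2 h.1
        · exact h.1 h.2
      · rintro ⟨_, h⟩
        exact h
    rw [h2, Finset.card_map] at h1
    exact h1
  obtain ⟨F', hF1, hF2⟩ := NoLoop.exists_evenCover G hG G' hb (by
    have := Fintype.card_subtype_lt (p := fun f => f ≠ e) (x := e) (by simp)
    omega)
  apply hG.1.2
  apply hasCDC_of_evenCover G (F'.map (fun C => C.map (Function.Embedding.subtype _)) +
    {{e}, {e}})
  constructor
  · intro C hC v
    rcases Multiset.mem_add.1 hC with hC | hC
    · obtain ⟨D, hD, rfl⟩ := Multiset.mem_map.1 hC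
      have h3 : G.deg (D.map (Function.Embedding.subtype _)) v = G'.deg D v := by
        unfold deg
        rw [Finset.filter_map, Finset.filter_map, Finset.card_map, Finset.card_map]
        rfl
      rw [h3]
      exact hF1 D hD v
    · have h3 : C = {e} := by simpa using hC
      rw [h3, Bridge_even_singleton, he]
  · intro f
    rw [Multiset.countP_add, Multiset.countP_map]
    by_cases hf : f = e
    · subst hf
      have h4 : Multiset.filter (fun C : Finset {g // g ≠ f} =>
          f ∈ C.map (Function.Embedding.subtype _)) F' = 0 := by
        rw [Multiset.filter_eq_nil]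
        intro C _ h
        obtain ⟨g, -, hg⟩ := Finset.mem_map.1 h
        exact g.2 hg
      have h5 : Multiset.countP (fun C => f ∈ C) ({{f}, {f}} : Multiset (Finset E)) = 2 := by
        rw [show ({{f}, {f}} : Multiset (Finset E)) = {f} ::ₘ {f} ::ₘ 0 from rfl,
          Multiset.countP_cons, Multiset.countP_cons, Multiset.countP_zero]
        simp
      rw [h4, h5]
      simp
    · have h4 : Multiset.filter (fun C : Finset {g // g ≠ e} =>
          f ∈ C.map (Function.Embedding.subtype _)) F' =
          Multiset.filter (fun C : Finset {g // g ≠ e} => (⟨f, hf⟩ : {g // g ≠ e}) ∈ C) F' := by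
        apply Multiset.filter_congr
        intro C _
        constructor
        · intro h
          obtain ⟨g, hg, hgf⟩ := Finset.mem_map.1 h
          have : g = ⟨f, hf⟩ := Subtype.ext hgf
          rwa [this] at hg
        · intro h
          exact Finset.mem_map.2 ⟨_, h, rfl⟩
      have h5 : Multiset.countP (fun C => f ∈ C) ({{e}, {e}} : Multiset (Finset E)) = 0 := by
        rw [show ({{e}, {e}} : Multiset (Finset E)) = {e} ::ₘ {e} ::ₘ 0 from rfl,
          Multiset.countP_cons, Multiset.countP_cons, Multiset.countP_zero]
        simp [hf]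
      rw [h4, ← Multiset.countP_eq_card_filter, h5, add_zero]
      convert hF2 ⟨f, hf⟩

theorem no_isolated [Fintype V] [Fintype E] (hG : G.IsSmallestCounterexample) (v : V) :
    ∃ e, G.Inc e v := by
  by_contra hno
  have h0 : ∀ e, G.fst e ≠ v ∧ G.snd e ≠ v := fun e =>
    ⟨fun h => hno ⟨e, Or.inl h⟩, fun h => hno ⟨e, Or.inr h⟩⟩
  let G' : MGraph {w // w ≠ v} E := ⟨fun f => ⟨G.fst f, (h0 f).1⟩, fun f => ⟨G.snd f, (h0 f).2⟩⟩
  have hb : G'.Bridgeless := by
    rw [bridgeless_iff]
    intro Z
    have h1 := (bridgeless_iff G).1 hG.1.1 (Z.map (Function.Embedding.subtype _))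
    have h2 : G.cut (Z.map (Function.Embedding.subtype _)) = G'.cut Z := by
      have hm : ∀ w (hw : w ≠ v), w ∈ Z.map (Function.Embedding.subtype _) ↔
          (⟨w, hw⟩ : {w // w ≠ v}) ∈ Z := by
        intro w hw
        constructor
        · intro h
          obtain ⟨g, hg, hgf⟩ := Finset.mem_map.1 h
          have : g = ⟨w, hw⟩ := Subtype.ext hgf
          rwa [this] at hg
        · intro h
          exact Finset.mem_map.2 ⟨_, h, rfl⟩
      ext f
      simp only [cut, Finset.mem_filter, Finset.mem_univ, true_and]
      rw [hm _ (h0 f).1, hm _ (h0 f).2]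
    rw [h2] at h1
    exact h1
  obtain ⟨F, hF1, hF2⟩ := NoLoop.exists_evenCover G hG G' hb (by
    have := Fintype.card_subtype_lt (p := fun f => f ≠ v) (x := v) (by simp)
    omega)
  apply hG.1.2
  apply hasCDC_of_evenCover G F
  refine ⟨?_, hF2⟩
  intro C hC w
  by_cases hw : w = v
  · subst hw
    have h3 : G.deg C w = 0 := by
      unfold deg
      rw [Finset.filter_eq_empty_iff.2 fun e _ => (h0 e).1,
        Finset.filter_eq_empty_iff.2 fun e _ => (h0 e).2]
      simp
    rw [h3]
    exact ⟨0, rfl⟩
  · have h3 : G.deg C w = G'.deg C ⟨w, hw⟩ := by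
      unfold deg
      congr 2
      · ext e
        simp only [Finset.mem_filter]
        exact and_congr_right fun _ =>
          ⟨fun h => Subtype.ext h, fun h => congrArg Subtype.val h⟩
      · ext e
        simp only [Finset.mem_filter]
        exact and_congr_right fun _ =>
          ⟨fun h => Subtype.ext h, fun h => congrArg Subtype.val h⟩
    rw [h3]
    exact hF1 C hC ⟨w, hw⟩

end MGraph
end CDCut
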