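import Pool.Agent.CDCut.KSwitch
import Pool.Agent.CDCut.Cubic

/-!
# Module `OddCircuit`: every 2-factor has an odd circuit inside each side

**Proof.**  Let `F` be a 2-factor of a smallest counterexample `G` and let `δ(X)` be a cyclic
4-edge-cut.  Consider the system of linear equations over `ZMod 2` with one unknown `x e` for every
edge `e` and one equation for every `v ∈ X`, saying that the two edges of `F` at `v` get different
values.  If it has a solution, then the values on `F` and a third colour for the other edges give
a 3-edge-colouring of the side `X`, which does not exist (`not_sideColourable`).  Otherwise there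
is a set `S ⊆ X` with an odd number of vertices such that no edge of `F` leaves `S`.  The edges of
`F` in `S` are a union of circuits, and their number is `|S|`, so one of the circuits is odd.
-/

open scoped Classical

namespace CDCut
namespace MGraph

variable {V E : Type} (G : MGraph V E)

theorem even_sum_countP [Fintype E] (F : Multiset (Finset E)) :
    (∀ D ∈ F, Even D.card) → Even (∑ e : E, F.countP (fun D => e ∈ D)) := by
  induction F using Multiset.induction_on with
  | empty => intro _; simp
  | cons D F ih =>
    intro h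
    have h1 := ih fun D' hD' => h D' (Multiset.mem_cons_of_mem hD')
    have h2 : (∑ e : E, (D ::ₘ F).countP (fun D => e ∈ D)) =
        (∑ e : E, F.countP (fun D => e ∈ D)) + D.card := by
      rw [Finset.sum_congr rfl fun e _ => Multiset.countP_cons _ _ _, Finset.sum_add_distrib]
      congr 1
      rw [Finset.sum_ite, Finset.sum_const_zero, add_zero, Finset.sum_const, smul_eq_mul, mul_one]
      congr 1
      ext e
      simp
    rw [h2]
    exact h1.add (h D (Multiset.mem_cons_self _ _))

/-- An edge set with even degrees and an odd number of edges contains an odd circuit. -/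
theorem exists_odd_circuit [Fintype V] [Fintype E] (C : Finset E)
    (hC : ∀ v, Even (G.deg C v)) (hodd : Odd C.card) :
    ∃ D ⊆ C, G.IsCircuit D ∧ Odd D.card := by
  obtain ⟨F, h1, h2⟩ := G.exists_decomposition C hC
  by_contra hno
  have h3 : ∀ D ∈ F, D ⊆ C := by
    intro D hD e he
    by_contra h4
    have h5 := h2 e
    rw [if_neg h4, Multiset.countP_eq_zero] at h5
    exact h5 D hD he
  have h4 : ∀ D ∈ F, Even D.card := by
    intro D hD
    by_contra h5
    exact hno ⟨D, h3 D hD, h1 D hD, Nat.not_even_iff_odd.1 h5⟩
  have h5 := even_sum_countP F h4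
  have h6 : (∑ e : E, F.countP (fun D => e ∈ D)) = C.card := by
    rw [Finset.sum_congr rfl fun e _ => h2 e, Finset.sum_ite, Finset.sum_const_zero, add_zero,
      Finset.sum_const, smul_eq_mul, mul_one]
    congr 1
    ext e
    simp
  rw [h6] at h5
  exact Nat.not_even_iff_odd.2 hodd h5

/-- the linear system -/
noncomputable def twoSys [Fintype E] (F : Finset E) (X : Finset V) :
    (E → ZMod 2) →ₗ[ZMod 2] ({v // v ∈ X} → ZMod 2) where
  toFun x v := ∑ e ∈ F, ((if G.fst e = v.1 then (1 : ZMod 2) else 0) +
    (if G.snd e = v.1 then (1 : ZMod 2) else 0)) * x e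
  map_add' x y := by
    funext v
    simp only [Pi.add_apply, mul_add, Finset.sum_add_distrib]
  map_smul' c x := by
    funext v
    simp only [Pi.smul_apply, smul_eq_mul, RingHom.id_apply, Finset.mul_sum]
    refine Finset.sum_congr rfl fun e _ => ?_
    ring

/-- If the system has no solution, there is an odd set `S ⊆ X` which no edge of `F` leaves. -/
theorem exists_closed_set [Fintype V] [Fintype E] (F : Finset E) (X : Finset V)
    (h : ¬ ∃ x : E → ZMod 2, G.twoSys F X x = fun _ => 1) :
    ∃ S ⊆ X, Odd S.card ∧ ∀ e ∈ F, (G.fst e ∈ S ↔ G.snd e ∈ S) := by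
  have h1 : (fun _ => 1 : {v // v ∈ X} → ZMod 2) ∉ LinearMap.range (G.twoSys F X) := by
    rintro ⟨x, hx⟩
    exact h ⟨x, hx⟩
  obtain ⟨φ, hφ1, hφ2⟩ := Submodule.exists_dual_map_eq_bot_of_notMem h1 inferInstance
  set y : {v // v ∈ X} → ZMod 2 := fun v => φ (Pi.single v 1) with hy
  have hφ : ∀ z : {v // v ∈ X} → ZMod 2, φ z = ∑ v, z v * y v := by
    intro z
    conv_lhs => rw [← Finset.univ_sum_single z]
    rw [map_sum]
    refine Finset.sum_congr rfl fun v _ => ?_
    have : (Pi.single v (z v) : {v // v ∈ X} → ZMod 2) = z v • Pi.single v 1 := by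
      rw [← Pi.single_smul, smul_eq_mul, mul_one]
    rw [this, map_smul, smul_eq_mul]
  have hz : ∀ x, φ (G.twoSys F X x) = 0 := by
    intro x
    have : φ (G.twoSys F X x) ∈ Submodule.map φ (LinearMap.range (G.twoSys F X)) :=
      Submodule.mem_map_of_mem (LinearMap.mem_range_self _ x)
    rw [hφ2, Submodule.mem_bot] at this
    exact this
  have h01 : ∀ c : ZMod 2, c = 0 ∨ c = 1 := by decide
  set Y : V → ZMod 2 := fun v => if hv : v ∈ X then y ⟨v, hv⟩ else 0 with hY
  set S : Finset V := X.filter fun v => Y v = 1 with hS
  have hSY : ∀ v, Y v = if v ∈ S then 1 else 0 := by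
    intro v
    by_cases hv : v ∈ S
    · rw [if_pos hv]
      exact (Finset.mem_filter.1 hv).2
    · rw [if_neg hv]
      rcases h01 (Y v) with h2 | h2
      · exact h2
      · exfalso
        apply hv
        rw [hS, Finset.mem_filter]
        refine ⟨?_, h2⟩
        by_contra hvX
        rw [hY] at h2
        simp only [dif_neg hvX] at h2
        exact absurd h2 (by decide)
  refine ⟨S, Finset.filter_subset _ _, ?_, ?_⟩
  · have h2 : (∑ v : {v // v ∈ X}, (1 : ZMod 2) * y v) ≠ 0 := by
      rw [← hφ]
      exact hφ1
    have h3 : (∑ v : {v // v ∈ X}, (1 : ZMod 2) * y v) = (S.card : ZMod 2) := by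
      have h4 : (∑ v : {v // v ∈ X}, (1 : ZMod 2) * y v) = ∑ v ∈ X, Y v := by
        rw [← Finset.sum_coe_sort X]
        refine Finset.sum_congr rfl fun v _ => ?_
        rw [hY, one_mul]
        simp only [v.2, dif_pos]
      rw [h4, Finset.sum_congr rfl fun v _ => hSY v, Finset.sum_ite_mem, Finset.sum_const,
        nsmul_eq_mul, mul_one, Finset.inter_eq_right.2 (Finset.filter_subset _ _)]
    rw [h3] at h2
    rw [← Nat.not_even_iff_odd]
    intro h4
    apply h2
    rw [ZMod.natCast_eq_zero_iff]
    exact h4.two_dvd
  · intro e he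
    have h2 := hz (Pi.single e 1)
    rw [hφ] at h2
    have h3 : ∀ v : {v // v ∈ X}, G.twoSys F X (Pi.single e 1) v =
        (if G.fst e = v.1 then (1 : ZMod 2) else 0) + (if G.snd e = v.1 then (1 : ZMod 2) else 0) := by
      intro v
      unfold twoSys
      simp only [LinearMap.coe_mk, AddHom.coe_mk]
      rw [Finset.sum_eq_single e]
      · simp
      · intro f _ hf
        rw [Pi.single_eq_of_ne hf, mul_zero]
      · intro h4
        exact absurd he h4
    rw [Finset.sum_congr rfl fun v _ => by rw [h3 v]] at h2
    have h4 : ∀ w : V, (∑ v : {v // v ∈ X}, (if w = v.1 then (1 : ZMod 2) else 0) * y v) = Y w := by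
      intro w
      by_cases hw : w ∈ X
      · rw [Finset.sum_eq_single ⟨w, hw⟩]
        · rw [hY]
          simp only [if_pos, one_mul, dif_pos hw]
        · intro v _ hv
          rw [if_neg, zero_mul]
          intro h5
          exact hv (Subtype.ext h5.symm)
        · intro h5
          exact absurd (Finset.mem_univ _) h5
      · rw [hY]
        simp only [dif_neg hw]
        refine Finset.sum_eq_zero fun v _ => ?_
        rw [if_neg, zero_mul]
        intro h5
        exact hw (h5 ▸ v.2)
    have h5 : Y (G.fst e) + Y (G.snd e) = 0 := by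
      rw [← h4, ← h4, ← Finset.sum_add_distrib]
      refine (Finset.sum_congr rfl fun v _ => ?_).trans h2
      rw [add_mul]
    rw [hSY, hSY] at h5
    by_cases h6 : G.fst e ∈ S <;> by_cases h7 : G.snd e ∈ S <;> simp [h6, h7] at h5 ⊢

/-- A solution of the system gives a 3-edge-colouring. -/
theorem colourable_of_sol [Fintype V] [Fintype E] (hG : G.IsSmallestCounterexample)
    (F : Finset E) (hF : ∀ v, G.deg F v = 2) (X : Finset V) (x : E → ZMod 2)
    (hx : G.twoSys F X x = fun _ => 1) : G.SideColourable X := by
  have hl := G.no_loop hG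
  refine ⟨fun e => if e ∈ F then (if x e = 0 then 0 else 1) else 2, ?_⟩
  intro v hv e f hef he hf
  have hdeg : (F.filter fun e => G.Inc e v).card = 2 := by
    rw [← G.deg_eq_card_inc hl, hF v]
  have hall : (Finset.univ.filter fun e => G.Inc e v).card = 3 := by
    rw [← G.deg_eq_card_inc hl, G.deg_univ_eq_card_cut v hl, G.card_cut_vertex hG v]
  by_cases heF : e ∈ F
  · by_cases hfF : f ∈ F
    · simp only [if_pos heF, if_pos hfF]
      have h1 : (F.filter fun e => G.Inc e v) = {e, f} := by
        symm
        apply Finset.eq_of_subset_of_card_le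
        · intro g hg
          rw [Finset.mem_insert, Finset.mem_singleton] at hg
          rw [Finset.mem_filter]
          rcases hg with rfl | rfl
          · exact ⟨heF, he⟩
          · exact ⟨hfF, hf⟩
        · rw [hdeg, Finset.card_pair hef]
      have h2 := congrFun hx ⟨v, hv⟩
      have h3 : G.twoSys F X x ⟨v, hv⟩ = ∑ g ∈ F.filter (fun e => G.Inc e v), x g := by
        unfold twoSys
        simp only [LinearMap.coe_mk, AddHom.coe_mk]
        rw [Finset.sum_filter]
        refine Finset.sum_congr rfl fun g _ => ?_
        by_cases h4 : G.fst g = v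
        · have h5 : G.snd g ≠ v := fun h => hl g (h4.trans h.symm)
          have h6 : G.Inc g v := Or.inl h4
          simp [h4, h5, h6]
        · by_cases h5 : G.snd g = v
          · have h6 : G.Inc g v := Or.inr h5
            simp [h4, h5, h6]
          · have h6 : ¬ G.Inc g v := by
              rintro (h | h)
              · exact h4 h
              · exact h5 h
            simp [h4, h5, h6]
      rw [h3, h1, Finset.sum_pair hef] at h2
      have h4 : ∀ s t : ZMod 2, s + t = 1 →
          (if s = 0 then (0 : Fin 3) else 1) ≠ (if t = 0 then (0 : Fin 3) else 1) := by decide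
      exact h4 _ _ h2
    · simp only [if_pos heF, if_neg hfF]
      split_ifs <;> decide
  · by_cases hfF : f ∈ F
    · simp only [if_neg heF, if_pos hfF]
      split_ifs <;> decide
    · exfalso
      have h1 : insert e (insert f (F.filter fun e => G.Inc e v)) ⊆
          Finset.univ.filter fun e => G.Inc e v := by
        intro g hg
        rw [Finset.mem_insert, Finset.mem_insert, Finset.mem_filter] at hg
        rw [Finset.mem_filter]
        rcases hg with rfl | rfl | hg
        · exact ⟨Finset.mem_univ _, he⟩
        · exact ⟨Finset.mem_univ _, hf⟩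
        · exact ⟨Finset.mem_univ _, hg.2⟩
      have h2 := Finset.card_le_card h1
      rw [Finset.card_insert_of_notMem, Finset.card_insert_of_notMem, hdeg, hall] at h2
      · omega
      · rw [Finset.mem_filter]
        exact fun h => hfF h.1
      · rw [Finset.mem_insert, Finset.mem_filter]
        rintro (h | h)
        · exact hef h
        · exact heF h.1

/-- Every 2-factor has an odd circuit inside each side of a cyclic 4-edge-cut. -/
theorem odd_circuit_inside [Fintype V] [Fintype E] (hG : G.IsSmallestCounterexample)
    (X : Finset V) (hX : G.IsCyclicFourCut X) (F : Finset E) (hF : ∀ v, G.deg F v = 2) :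
    ∃ C ⊆ F, G.IsCircuit C ∧ Odd C.card ∧ ∀ e ∈ C, G.fst e ∈ X ∧ G.snd e ∈ X := by
  have h1 : ¬ ∃ x : E → ZMod 2, G.twoSys F X x = fun _ => 1 := by
    rintro ⟨x, hx⟩
    exact G.not_sideColourable hG X hX (G.colourable_of_sol hG F hF X x hx)
  obtain ⟨S, hSX, hS1, hS2⟩ := G.exists_closed_set F X h1
  set C0 : Finset E := F.filter fun e => G.fst e ∈ S with hC0
  have hdeg : ∀ v, G.deg C0 v = if v ∈ S then 2 else 0 := by
    intro v
    by_cases hv : v ∈ S
    · rw [if_pos hv, ← hF v]
      unfold deg
      congr 2
      · ext e
        rw [Finset.mem_filter, Finset.mem_filter, Finset.mem_filter]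
        constructor
        · rintro ⟨⟨h2, -⟩, h3⟩
          exact ⟨h2, h3⟩
        · rintro ⟨h2, h3⟩
          exact ⟨⟨h2, h3 ▸ hv⟩, h3⟩
      · ext e
        rw [Finset.mem_filter, Finset.mem_filter, Finset.mem_filter]
        constructor
        · rintro ⟨⟨h2, -⟩, h3⟩
          exact ⟨h2, h3⟩
        · rintro ⟨h2, h3⟩
          exact ⟨⟨h2, (hS2 e h2).2 (h3 ▸ hv)⟩, h3⟩
    · rw [if_neg hv]
      unfold deg
      rw [Finset.filter_eq_empty_iff.2, Finset.filter_eq_empty_iff.2]
      · simp
      · intro e he h2
        rw [Finset.mem_filter] at he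
        exact hv (h2 ▸ (hS2 e he.1).1 he.2)
      · intro e he h2
        rw [Finset.mem_filter] at he
        exact hv (h2 ▸ he.2)
  have hcard : C0.card = S.card := by
    have h2 := G.sum_deg C0
    rw [Finset.sum_congr rfl fun v _ => hdeg v, Finset.sum_ite_mem, Finset.univ_inter,
      Finset.sum_const, smul_eq_mul] at h2
    omega
  obtain ⟨D, hD1, hD2, hD3⟩ := G.exists_odd_circuit C0 (by
    intro v
    rw [hdeg v]
    split_ifs
    · exact even_two
    · exact ⟨0, rfl⟩) (by rw [hcard]; exact hS1)
  refine ⟨D, fun e he => (Finset.mem_filter.1 (hD1 he)).1, hD2, hD3, fun e he => ?_⟩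
  have h2 := Finset.mem_filter.1 (hD1 he)
  exact ⟨hSX h2.2, hSX ((hS2 e h2.1).1 h2.2)⟩

end MGraph
end CDCut
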