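import Pool.Agent.CDCut.Defs

/-!
# Module `Parity`: degrees, parity of cuts

Everything here is elementary.  For `even_inter_cut`: the sum over `v ∈ X` of `deg C v` is
`#{e ∈ C | fst e ∈ X} + #{e ∈ C | snd e ∈ X}`, which is twice the number of edges of `C` with both
ends in `X` plus the number of edges of `C` with exactly one end in `X`.
-/

open scoped Classical

namespace CDCut
namespace MGraph

variable {V E : Type} (G : MGraph V E)

/-- `F` is a double cover of `G` by even edge sets. -/
def EvenCover (F : Multiset (Finset E)) : Prop :=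
  (∀ C ∈ F, ∀ v, Even (G.deg C v)) ∧ ∀ e, F.countP (fun C => e ∈ C) = 2

theorem deg_empty (v : V) : G.deg ∅ v = 0 := by
  simp [deg]

theorem deg_union (C D : Finset E) (h : Disjoint C D) (v : V) :
    G.deg (C ∪ D) v = G.deg C v + G.deg D v := by
  unfold deg
  rw [Finset.filter_union, Finset.filter_union,
    Finset.card_union_of_disjoint (Finset.disjoint_filter_filter h),
    Finset.card_union_of_disjoint (Finset.disjoint_filter_filter h)]
  ring

theorem deg_mono {C D : Finset E} (h : C ⊆ D) (v : V) : G.deg C v ≤ G.deg D v :=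
  Nat.add_le_add (Finset.card_le_card (Finset.filter_subset_filter _ h))
    (Finset.card_le_card (Finset.filter_subset_filter _ h))

theorem deg_pos_iff (C : Finset E) (v : V) : 0 < G.deg C v ↔ ∃ e ∈ C, G.Inc e v := by
  unfold deg Inc
  constructor
  · intro h
    rcases Nat.add_pos_iff_pos_or_pos.1 h with h | h
    · obtain ⟨e, he⟩ := Finset.card_pos.1 h
      rw [Finset.mem_filter] at he
      exact ⟨e, he.1, Or.inl he.2⟩
    · obtain ⟨e, he⟩ := Finset.card_pos.1 h
      rw [Finset.mem_filter] at he
      exact ⟨e, he.1, Or.inr he.2⟩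
  · rintro ⟨e, he, h | h⟩
    · exact Nat.add_pos_left (Finset.card_pos.2 ⟨e, Finset.mem_filter.2 ⟨he, h⟩⟩) _
    · exact Nat.add_pos_right _ (Finset.card_pos.2 ⟨e, Finset.mem_filter.2 ⟨he, h⟩⟩)

/-- parity of the cardinality of a symmetric difference -/
theorem card_symmDiff_add {α : Type*} (A B : Finset α) :
    (symmDiff A B).card + 2 * (A ∩ B).card = A.card + B.card := by
  have h1 : (symmDiff A B).card = (A \ B).card + (B \ A).card := by
    rw [symmDiff_def, Finset.sup_eq_union]
    exact Finset.card_union_of_disjoint disjoint_sdiff_sdiff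
  have h2 := Finset.card_sdiff_add_card_inter A B
  have h3 := Finset.card_sdiff_add_card_inter B A
  rw [Finset.inter_comm B A] at h3
  omega

theorem filter_symmDiff' {α : Type*} (A B : Finset α) (p : α → Prop) :
    (symmDiff A B).filter p = symmDiff (A.filter p) (B.filter p) := by
  ext x
  simp only [Finset.mem_filter, Finset.mem_symmDiff]
  tauto

theorem even_deg_symmDiff (C D : Finset E) (v : V) :
    Even (G.deg (symmDiff C D) v) ↔ (Even (G.deg C v) ↔ Even (G.deg D v)) := by
  rw [← Nat.even_add]
  unfold deg
  rw [filter_symmDiff', filter_symmDiff']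
  have h1 := card_symmDiff_add (C.filter fun e => G.fst e = v) (D.filter fun e => G.fst e = v)
  have h2 := card_symmDiff_add (C.filter fun e => G.snd e = v) (D.filter fun e => G.snd e = v)
  simp only [Nat.even_iff]
  omega

/-- handshake -/
theorem sum_deg [Fintype V] (C : Finset E) : ∑ v, G.deg C v = 2 * C.card := by
  unfold deg
  rw [Finset.sum_add_distrib,
    ← Finset.card_eq_sum_card_fiberwise (f := G.fst) (fun e _ => Finset.mem_coe.2 (Finset.mem_univ _)),
    ← Finset.card_eq_sum_card_fiberwise (f := G.snd) (fun e _ => Finset.mem_coe.2 (Finset.mem_univ _)),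
    two_mul]

/-- the degree sum over a set of vertices -/
theorem sum_deg_on (X : Finset V) (C : Finset E) :
    ∑ v ∈ X, G.deg C v =
      (C.filter fun e => G.fst e ∈ X).card + (C.filter fun e => G.snd e ∈ X).card := by
  unfold deg
  rw [Finset.sum_add_distrib]
  congr 1
  · rw [Finset.card_eq_sum_card_fiberwise (f := G.fst) (s := C.filter fun e => G.fst e ∈ X)
      (t := X) (fun e he => (Finset.mem_filter.1 he).2)]
    refine Finset.sum_congr rfl fun v hv => ?_
    rw [Finset.filter_filter]
    congr 1
    ext e
    simp only [Finset.mem_filter]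
    constructor
    · rintro ⟨h1, h2⟩
      exact ⟨h1, h2 ▸ hv, h2⟩
    · rintro ⟨h1, _, h2⟩
      exact ⟨h1, h2⟩
  · rw [Finset.card_eq_sum_card_fiberwise (f := G.snd) (s := C.filter fun e => G.snd e ∈ X)
      (t := X) (fun e he => (Finset.mem_filter.1 he).2)]
    refine Finset.sum_congr rfl fun v hv => ?_
    rw [Finset.filter_filter]
    congr 1
    ext e
    simp only [Finset.mem_filter]
    constructor
    · rintro ⟨h1, h2⟩
      exact ⟨h1, h2 ▸ hv, h2⟩
    · rintro ⟨h1, _, h2⟩
      exact ⟨h1, h2⟩

/-- an edge set that is even on `X` meets the cut `δ(X)` in an even number of edges -/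
theorem even_inter_cut [Fintype E] (X : Finset V) (C : Finset E)
    (h : ∀ v ∈ X, Even (G.deg C v)) : Even (C ∩ G.cut X).card := by
  have h1 : C ∩ G.cut X =
      symmDiff (C.filter fun e => G.fst e ∈ X) (C.filter fun e => G.snd e ∈ X) := by
    ext e
    simp only [cut, Finset.mem_inter, Finset.mem_filter, Finset.mem_univ, true_and,
      Finset.mem_symmDiff]
    tauto
  have h2 := card_symmDiff_add (C.filter fun e => G.fst e ∈ X) (C.filter fun e => G.snd e ∈ X)
  have h3 : Even (∑ v ∈ X, G.deg C v) := Finset.even_sum _ h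
  rw [sum_deg_on] at h3
  rw [h1]
  rw [Nat.even_iff] at h3 ⊢
  omega

theorem cut_compl [Fintype V] [Fintype E] (X : Finset V) : G.cut Xᶜ = G.cut X := by
  ext e
  simp only [cut, Finset.mem_filter, Finset.mem_univ, true_and, Finset.mem_compl]
  tauto

theorem cut_empty [Fintype E] : G.cut (∅ : Finset V) = ∅ := by
  ext e
  simp [cut]

theorem cut_univ [Fintype V] [Fintype E] : G.cut (Finset.univ : Finset V) = ∅ := by
  ext e
  simp [cut]

/-- for a vertex without loops, the degree is the size of the cut around it -/
theorem deg_univ_eq_card_cut [Fintype E] (v : V) (h : ∀ e, G.fst e ≠ G.snd e) :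
    G.deg Finset.univ v = (G.cut {v}).card := by
  have h1 : G.cut {v} = (Finset.univ.filter fun e => G.fst e = v) ∪
      (Finset.univ.filter fun e => G.snd e = v) := by
    ext e
    simp only [cut, Finset.mem_filter, Finset.mem_univ, true_and, Finset.mem_singleton,
      Finset.mem_union]
    constructor
    · tauto
    · rintro (h2 | h2)
      · exact Or.inl ⟨h2, fun h3 => h e (h2.trans h3.symm)⟩
      · exact Or.inr ⟨fun h3 => h e (h3.trans h2.symm), h2⟩
  rw [h1, Finset.card_union_of_disjoint, deg]
  rw [Finset.disjoint_filter]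
  intro e _ h2 h3
  exact h e (h2.trans h3.symm)

end MGraph
end CDCut
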