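import Pool.Agent.CDCut.Bridge
import Pool.Agent.CDCut.Cov

/-!
# Module `Repl`: replacing the outside of a vertex set by a small graph

`G.repl X H att`: delete all vertices outside `X`, add the graph `H` (vertex type `W`, edge type
`K`) and attach every edge `e` with exactly one end in `X` to the vertex `att e` of `H`.

**`card_cut_repl`.**  Let `Z` be a set of vertices of the new graph, `Z1 = tX Z` its part in `X`
(as a set of vertices of `G`) and `A = tW Z` its part in `W`.  An edge of `G` with both ends in `X`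
is in the new cut iff it is in `cut Z1`; the edges of `cut Z1` with both ends in `X` are the
elements of `cut Z1 \ cut X` (as `Z1 ⊆ X`).  For an edge `e` of `cut X` with end `x ∈ X` we have
`e ∈ cut Z1 ↔ x ∈ Z1`, so it is in the new cut iff not (`e ∈ cut Z1 ↔ att e ∈ A`).

**`sideCover_res`, `even_res`.**  The degree of `C` at a vertex of `X` is the degree of `res C` at
this vertex.  The degree of `C` at a vertex `w` of `H` is the number of edges `e ∈ res C ∩ cut X`
with `att e = w` plus the degree in `H` of the part of `C` inside `H`.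
-/

open scoped Classical

namespace CDCut
namespace MGraph

variable {V E W K : Type} (G : MGraph V E)

/-- the end of the edge `e` in the new graph that replaces the end `v` -/
noncomputable def side (X : Finset V) (att : E → W) (e : E) (v : V) : {v // v ∈ X} ⊕ W :=
  if h : v ∈ X then Sum.inl ⟨v, h⟩ else Sum.inr (att e)

/-- delete the vertices outside `X`, add `H`, attach the edges of the cut `δ(X)` to `H` -/
noncomputable def repl (X : Finset V) (H : MGraph W K) (att : E → W) :
    MGraph ({v // v ∈ X} ⊕ W) ({e // G.Meets X e} ⊕ K) where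
  fst := Sum.elim (fun e => side X att e.1 (G.fst e.1)) (fun k => Sum.inr (H.fst k))
  snd := Sum.elim (fun e => side X att e.1 (G.snd e.1)) (fun k => Sum.inr (H.snd k))

/-- the part in `X` of a set of vertices of the new graph -/
noncomputable def tX (X : Finset V) (Z : Finset ({v // v ∈ X} ⊕ W)) : Finset V :=
  X.filter fun v => ∃ h : v ∈ X, Sum.inl ⟨v, h⟩ ∈ Z

/-- the part in `W` of a set of vertices of the new graph -/
noncomputable def tW (X : Finset V) [Fintype W] (Z : Finset ({v // v ∈ X} ⊕ W)) : Finset W :=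
  Finset.univ.filter fun w => Sum.inr w ∈ Z

/-- the part in `E` of a set of edges of the new graph -/
noncomputable def res [Fintype E] (X : Finset V) (C : Finset ({e // G.Meets X e} ⊕ K)) :
    Finset E :=
  Finset.univ.filter fun e => ∃ h : G.Meets X e, Sum.inl ⟨e, h⟩ ∈ C

/-- the part in `K` of a set of edges of the new graph -/
noncomputable def resK [Fintype K] (X : Finset V) (C : Finset ({e // G.Meets X e} ⊕ K)) :
    Finset K :=
  Finset.univ.filter fun k => Sum.inr k ∈ C

theorem card_repl_vertices [Fintype W] (X : Finset V) :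
    Fintype.card ({v // v ∈ X} ⊕ W) = X.card + Fintype.card W := by
  rw [Fintype.card_sum, Fintype.card_coe]

theorem card_repl_edges [Fintype E] [Fintype K] (X : Finset V) :
    Fintype.card ({e // G.Meets X e} ⊕ K)
      = (Finset.univ.filter fun e => G.Meets X e).card + Fintype.card K := by
  rw [Fintype.card_sum, Fintype.card_subtype]

theorem Repl_mem_filter {α : Type*} {p : α → Prop} {_ : DecidablePred p} {s : Finset α} {a : α} :
    a ∈ Finset.filter p s ↔ a ∈ s ∧ p a := Finset.mem_filter

theorem Repl_filter_congr {α : Type*} {p q : α → Prop} {i : DecidablePred p}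
    {j : DecidablePred q} {s : Finset α} (h : ∀ x ∈ s, p x ↔ q x) :
    @Finset.filter α p i s = @Finset.filter α q j s := by
  ext x
  rw [Finset.mem_filter, Finset.mem_filter]
  exact and_congr_right fun hx => h x hx

theorem Repl_mem_res [Fintype E] (X : Finset V) (C : Finset ({e // G.Meets X e} ⊕ K)) (e : E) :
    e ∈ G.res X C ↔ ∃ h : G.Meets X e, Sum.inl ⟨e, h⟩ ∈ C := by
  simp [res]

theorem Repl_mem_resK [Fintype K] (X : Finset V) (C : Finset ({e // G.Meets X e} ⊕ K)) (k : K) :
    k ∈ G.resK X C ↔ Sum.inr k ∈ C := by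
  simp [resK]

theorem Repl_mem_tX (X : Finset V) (Z : Finset ({v // v ∈ X} ⊕ W)) (v : V) :
    v ∈ tX X Z ↔ ∃ h : v ∈ X, Sum.inl ⟨v, h⟩ ∈ Z := by
  unfold tX
  rw [Finset.mem_filter]
  constructor
  · exact fun h => h.2
  · rintro ⟨h1, h2⟩
    exact ⟨h1, h1, h2⟩

theorem Repl_mem_tW [Fintype W] (X : Finset V) (Z : Finset ({v // v ∈ X} ⊕ W)) (w : W) :
    w ∈ tW X Z ↔ Sum.inr w ∈ Z := by
  simp [tW]

theorem Repl_side_mem [Fintype W] (X : Finset V) (Z : Finset ({v // v ∈ X} ⊕ W)) (att : E → W)
    (e : E) (v : V) :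
    side X att e v ∈ Z ↔ v ∈ tX X Z ∨ (v ∉ X ∧ att e ∈ tW X Z) := by
  rw [Repl_mem_tX, Repl_mem_tW]
  unfold side
  by_cases h : v ∈ X
  · rw [dif_pos h]
    constructor
    · exact fun h1 => Or.inl ⟨h, h1⟩
    · rintro (⟨_, h2⟩ | ⟨h2, _⟩)
      · exact h2
      · exact absurd h h2
  · rw [dif_neg h]
    constructor
    · exact fun h1 => Or.inr ⟨h, h1⟩
    · rintro (⟨h2, _⟩ | ⟨_, h2⟩)
      · exact absurd h2 h
      · exact h2

/-- the number of edges of a set of edges of the new graph -/
theorem Repl_card_split [Fintype E] [Fintype K] (X : Finset V)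
    (C : Finset ({e // G.Meets X e} ⊕ K)) :
    C.card = (G.res X C).card + (G.resK X C).card := by
  rw [← Finset.card_disjSum]
  refine Finset.card_bij (fun x _ => Sum.map (fun e => e.1) id x) ?_ ?_ ?_
  · rintro (e | k) hx
    · rw [Sum.map_inl, Finset.inl_mem_disjSum, Repl_mem_res]
      exact ⟨e.2, hx⟩
    · rw [Sum.map_inr, Finset.inr_mem_disjSum, Repl_mem_resK]
      exact hx
  · intro x _ y _ hxy
    exact (Sum.map_injective.2 ⟨Subtype.val_injective, Function.injective_id⟩) hxy
  · rintro (e | k) hx
    · rw [Finset.inl_mem_disjSum, Repl_mem_res] at hx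
      obtain ⟨h, hx⟩ := hx
      exact ⟨_, hx, rfl⟩
    · rw [Finset.inr_mem_disjSum, Repl_mem_resK] at hx
      exact ⟨_, hx, rfl⟩

theorem Repl_card_filter [Fintype E] [Fintype K] (X : Finset V)
    (C : Finset ({e // G.Meets X e} ⊕ K)) (P : {e // G.Meets X e} ⊕ K → Prop)
    {i : DecidablePred P} :
    (@Finset.filter _ P i C).card =
      ((G.res X C).filter fun e => ∃ h : G.Meets X e, P (Sum.inl ⟨e, h⟩)).card
        + ((G.resK X C).filter fun k => P (Sum.inr k)).card := by
  rw [G.Repl_card_split X (C.filter P)]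
  congr 2
  · ext e
    rw [Repl_mem_res, Finset.mem_filter, Repl_mem_res]
    constructor
    · rintro ⟨h, h1⟩
      rw [Finset.mem_filter] at h1
      exact ⟨⟨h, h1.1⟩, h, h1.2⟩
    · rintro ⟨⟨h, h1⟩, _, h2⟩
      exact ⟨h, Finset.mem_filter.2 ⟨h1, h2⟩⟩
  · ext k
    rw [Repl_mem_resK, Finset.mem_filter, Finset.mem_filter, Repl_mem_resK]

theorem Repl_card_filter_univ [Fintype E] [Fintype K] (X : Finset V)
    (P : {e // G.Meets X e} ⊕ K → Prop) {i : DecidablePred P} :
    (@Finset.filter _ P i Finset.univ).card =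
      (Finset.univ.filter fun e => ∃ h : G.Meets X e, P (Sum.inl ⟨e, h⟩)).card
        + (Finset.univ.filter fun k => P (Sum.inr k)).card := by
  rw [G.Repl_card_filter X Finset.univ P]
  congr 2
  · ext e
    rw [Finset.mem_filter, Finset.mem_filter, Repl_mem_res]
    constructor
    · exact fun h => ⟨Finset.mem_univ _, h.2⟩
    · rintro ⟨_, h, h1⟩
      exact ⟨⟨h, Finset.mem_univ _⟩, h, h1⟩
  · ext k
    rw [Finset.mem_filter, Finset.mem_filter, Repl_mem_resK]
    simp

theorem card_cut_repl [Fintype V] [Fintype E] [Fintype W] [Fintype K] (X : Finset V)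
    (H : MGraph W K) (att : E → W) (Z : Finset ({v // v ∈ X} ⊕ W)) :
    ((G.repl X H att).cut Z).card
      = (G.cut (tX X Z) \ G.cut X).card
        + ((G.cut X).filter fun e => ¬ (e ∈ G.cut (tX X Z) ↔ att e ∈ tW X Z)).card
        + (H.cut (tW X Z)).card := by
  have h0 : ((G.repl X H att).cut Z).card =
      (Finset.univ.filter fun e => G.Meets X e ∧
        ((side X att e (G.fst e) ∈ Z ∧ side X att e (G.snd e) ∉ Z) ∨
          (side X att e (G.fst e) ∉ Z ∧ side X att e (G.snd e) ∈ Z))).card
      + (H.cut (tW X Z)).card := by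
    unfold cut
    refine (G.Repl_card_filter_univ X _).trans ?_
    congr 2
    · refine Repl_filter_congr fun e _ => ?_
      simp only [repl, Sum.elim_inl, exists_prop]
    · refine Repl_filter_congr fun k _ => ?_
      simp only [repl, Sum.elim_inr, Repl_mem_tW]
  rw [h0]
  congr 1
  rw [← Finset.card_union_of_disjoint]
  · congr 1
    ext e
    have h1 : G.fst e ∈ tX X Z → G.fst e ∈ X := fun h => (Finset.mem_filter.1 h).1
    have h2 : G.snd e ∈ tX X Z → G.snd e ∈ X := fun h => (Finset.mem_filter.1 h).1
    simp only [Finset.mem_union, Finset.mem_filter, Finset.mem_sdiff, Finset.mem_univ, true_and,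
      Repl_side_mem, cut, Meets]
    by_cases a1 : G.fst e ∈ X <;> by_cases a2 : G.snd e ∈ X <;>
      by_cases b1 : G.fst e ∈ tX X Z <;> by_cases b2 : G.snd e ∈ tX X Z <;>
      by_cases c : att e ∈ tW X Z <;>
      simp only [a1, a2, b1, b2, c] <;> simp_all
  · rw [Finset.disjoint_left]
    intro e he h1
    exact (Finset.mem_sdiff.1 he).2 (Finset.mem_filter.1 h1).1

theorem tX_subset (X : Finset V) (Z : Finset ({v // v ∈ X} ⊕ W)) : tX X Z ⊆ X :=
  Finset.filter_subset _ _

/-- the degree at a vertex of `X` -/
theorem Repl_deg_res [Fintype E] (X : Finset V) (H : MGraph W K) (att : E → W)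
    (C : Finset ({e // G.Meets X e} ⊕ K)) (v : V) (hv : v ∈ X) :
    G.deg (G.res X C) v = (G.repl X H att).deg C (Sum.inl ⟨v, hv⟩) := by
  have key : ∀ (e : E) (u : V), side X att e u = Sum.inl ⟨v, hv⟩ ↔ u = v := by
    intro e u
    unfold side
    constructor
    · intro h
      by_cases hu : u ∈ X
      · rw [dif_pos hu] at h
        exact congrArg Subtype.val (Sum.inl_injective h)
      · rw [dif_neg hu] at h
        exact absurd h (by simp)
    · rintro rfl
      rw [dif_pos hv]
  unfold deg
  congr 1
  · refine Finset.card_bij (fun e he => Sum.inl ⟨e,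
      ((G.Repl_mem_res X C e).1 (Repl_mem_filter.1 he).1).choose⟩) ?_ ?_ ?_
    · intro e he
      rw [Repl_mem_filter]
      obtain ⟨h1, h2⟩ := Repl_mem_filter.1 he
      exact ⟨((G.Repl_mem_res X C e).1 h1).choose_spec, (key e _).2 h2⟩
    · intro a _ b _ hab
      exact congrArg Subtype.val (Sum.inl_injective hab)
    · rintro (e | k) hx
      · obtain ⟨h1, h2⟩ := Repl_mem_filter.1 hx
        exact ⟨e.1, Repl_mem_filter.2 ⟨(G.Repl_mem_res X C e.1).2 ⟨e.2, h1⟩, (key e.1 _).1 h2⟩,
          rfl⟩
      · obtain ⟨h1, h2⟩ := Repl_mem_filter.1 hx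
        exact absurd h2 (by simp [repl])
  · refine Finset.card_bij (fun e he => Sum.inl ⟨e,
      ((G.Repl_mem_res X C e).1 (Repl_mem_filter.1 he).1).choose⟩) ?_ ?_ ?_
    · intro e he
      rw [Repl_mem_filter]
      obtain ⟨h1, h2⟩ := Repl_mem_filter.1 he
      exact ⟨((G.Repl_mem_res X C e).1 h1).choose_spec, (key e _).2 h2⟩
    · intro a _ b _ hab
      exact congrArg Subtype.val (Sum.inl_injective hab)
    · rintro (e | k) hx
      · obtain ⟨h1, h2⟩ := Repl_mem_filter.1 hx
        exact ⟨e.1, Repl_mem_filter.2 ⟨(G.Repl_mem_res X C e.1).2 ⟨e.2, h1⟩, (key e.1 _).1 h2⟩,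
          rfl⟩
      · obtain ⟨h1, h2⟩ := Repl_mem_filter.1 hx
        exact absurd h2 (by simp [repl])

/-- an even cover of the new graph gives a cover of the side `X` -/
theorem sideCover_res [Fintype V] [Fintype E] (X : Finset V) (H : MGraph W K) (att : E → W)
    (F : Multiset (Finset ({e // G.Meets X e} ⊕ K))) (hF : (G.repl X H att).EvenCover F) :
    G.SideCover X (F.map (G.res X)) := by
  constructor
  · intro C hC
    obtain ⟨D, hD, rfl⟩ := Multiset.mem_map.1 hC
    refine ⟨fun e he => ((G.Repl_mem_res X D e).1 he).choose, fun v hv => ?_⟩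
    rw [G.Repl_deg_res X H att D v hv]
    exact hF.1 D hD _
  · intro e he
    rw [Multiset.countP_map, ← Multiset.countP_eq_card_filter]
    have h0 : ∀ (i : DecidablePred fun D : Finset ({e // G.Meets X e} ⊕ K) => e ∈ G.res X D)
        (j : DecidablePred fun D : Finset ({e // G.Meets X e} ⊕ K) => Sum.inl ⟨e, he⟩ ∈ D),
        @Multiset.countP _ (fun D => e ∈ G.res X D) i F =
          @Multiset.countP _ (fun D => Sum.inl ⟨e, he⟩ ∈ D) j F := by
      intro i j
      refine Multiset.countP_congr rfl fun D _ => ?_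
      rw [eq_iff_iff, Repl_mem_res]
      exact ⟨fun h => h.choose_spec, fun h => ⟨he, h⟩⟩
    rw [h0]
    exact hF.2 _

/-- parity at the vertices of `H` -/
theorem even_res [Fintype V] [Fintype E] [Fintype K] (X : Finset V) (H : MGraph W K)
    (att : E → W) (C : Finset ({e // G.Meets X e} ⊕ K))
    (hC : ∀ v, Even ((G.repl X H att).deg C v)) (w : W) :
    Even (((G.res X C ∩ G.cut X).filter fun e => att e = w).card + H.deg (G.resK X C) w) := by
  have h1 := hC (Sum.inr w)
  have key : ∀ (e : E) (u : V), side X att e u = Sum.inr w ↔ (u ∉ X ∧ att e = w) := by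
    intro e u
    unfold side
    by_cases hu : u ∈ X
    · rw [dif_pos hu]
      simp [hu]
    · rw [dif_neg hu]
      simp [hu]
  have h2 : (G.repl X H att).deg C (Sum.inr w) =
      ((G.res X C).filter fun e => G.fst e ∉ X ∧ att e = w).card
        + ((G.res X C).filter fun e => G.snd e ∉ X ∧ att e = w).card
        + H.deg (G.resK X C) w := by
    have e5 : ∀ (i : DecidablePred fun x => (G.repl X H att).fst x = Sum.inr w),
        (@Finset.filter _ (fun x => (G.repl X H att).fst x = Sum.inr w) i C).card =
          ((G.res X C).filter fun e => G.fst e ∉ X ∧ att e = w).card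
            + ((G.resK X C).filter fun k => H.fst k = w).card := by
      intro i
      rw [G.Repl_card_filter X C]
      congr 2
      · refine Repl_filter_congr fun e he => ?_
        rw [← key e (G.fst e)]
        exact ⟨fun h => h.choose_spec, fun h => ⟨((G.Repl_mem_res X C e).1 he).choose, h⟩⟩
      · refine Repl_filter_congr fun k _ => ?_
        exact Sum.inr.inj_iff
    have e6 : ∀ (i : DecidablePred fun x => (G.repl X H att).snd x = Sum.inr w),
        (@Finset.filter _ (fun x => (G.repl X H att).snd x = Sum.inr w) i C).card =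
          ((G.res X C).filter fun e => G.snd e ∉ X ∧ att e = w).card
            + ((G.resK X C).filter fun k => H.snd k = w).card := by
      intro i
      rw [G.Repl_card_filter X C]
      congr 2
      · refine Repl_filter_congr fun e he => ?_
        rw [← key e (G.snd e)]
        exact ⟨fun h => h.choose_spec, fun h => ⟨((G.Repl_mem_res X C e).1 he).choose, h⟩⟩
      · refine Repl_filter_congr fun k _ => ?_
        exact Sum.inr.inj_iff
    unfold deg
    rw [e5, e6]
    ring
  have h3 : ((G.res X C ∩ G.cut X).filter fun e => att e = w).card =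
      ((G.res X C).filter fun e => G.fst e ∉ X ∧ att e = w).card
        + ((G.res X C).filter fun e => G.snd e ∉ X ∧ att e = w).card := by
    rw [← Finset.card_union_of_disjoint]
    · congr 1
      ext e
      by_cases he : e ∈ G.res X C
      · obtain ⟨h4, -⟩ := (G.Repl_mem_res X C e).1 he
        simp only [Finset.mem_filter, Finset.mem_inter, Finset.mem_union, he, true_and, cut,
          Finset.mem_univ]
        unfold Meets at h4
        tauto
      · simp [he]
    · rw [Finset.disjoint_left]
      intro e he h5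
      obtain ⟨h4, -⟩ := (G.Repl_mem_res X C e).1 (Finset.mem_filter.1 he).1
      rcases h4 with h4 | h4
      · exact (Finset.mem_filter.1 he).2.1 h4
      · exact (Finset.mem_filter.1 h5).2.1 h4
  rw [h3, ← h2]
  exact h1

end MGraph
end CDCut
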