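import Pool.Agent.CDCut.GlueTwo
import Pool.Agent.CDFlow.Cover
import Pool.Agent.CDFlow.Inc

/-!
# Module `ShareOne`: two cyclic 4-edge-cuts have at most one common edge
-/

open scoped Classical

namespace CDCut
namespace MGraph

variable {V E : Type} (G : MGraph V E)

/-- a nonempty member stays -/
theorem fne_pos {D : Finset E} (s : Multiset (Finset E)) (h : D ≠ ∅) :
    (D ::ₘ s).filter (fun D => D ≠ ∅) = D ::ₘ s.filter (fun D => D ≠ ∅) :=
  Multiset.filter_cons_of_pos s h

/-- an empty member disappears -/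
theorem fne_neg (s : Multiset (Finset E)) :
    ((∅ : Finset E) ::ₘ s).filter (fun D => D ≠ ∅) = s.filter (fun D => D ≠ ∅) :=
  Multiset.filter_cons_of_neg s (by simp)

/-- the type `00` on the S-side -/
theorem full_full_mem [Fintype V] [Fintype E] {X : Finset V} (h : SSide G X) :
    (G.cut X ::ₘ G.cut X ::ₘ 0 : Multiset (Finset E)) ∈ G.coverTypes X := by
  obtain ⟨a, b, c, d, hnd, hcut, h1, -⟩ := h
  rw [h1, hcut]
  exact Or.inl rfl

/-- four different elements as an embedding of `Fin 4` -/
theorem exists_emb4 (a b c d : E) (hnd : [a, b, c, d].Nodup) :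
    ∃ φ : Fin 4 ↪ E, φ 0 = a ∧ φ 1 = b ∧ φ 2 = c ∧ φ 3 = d := by
  simp only [List.nodup_cons, List.mem_cons, List.not_mem_nil, or_false, not_or,
    List.nodup_nil, and_true, not_false_eq_true] at hnd
  obtain ⟨⟨hab, hac, had⟩, ⟨hbc, hbd⟩, hcd⟩ := hnd
  refine ⟨⟨![a, b, c, d], ?_⟩, rfl, rfl, rfl, rfl⟩
  intro i j hij
  fin_cases i <;> fin_cases j <;> simp_all [eq_comm]

theorem fin4_pair : ∀ s : Finset (Fin 4), s.card = 2 →
    (s ::ₘ s ::ₘ sᶜ ::ₘ sᶜ ::ₘ 0 : Multiset (Finset (Fin 4))) ∈ T0 := by
  decide +kernel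

/-- the types `11, 22, 33` on the T-side -/
theorem pair_pair_mem [Fintype V] [Fintype E] {X : Finset V} (h : SSide G Xᶜ) {g : Finset E}
    (hg : g ⊆ G.cut X) (h2 : g.card = 2) :
    (g ::ₘ g ::ₘ (G.cut X \ g) ::ₘ (G.cut X \ g) ::ₘ 0 : Multiset (Finset E)) ∈
      G.coverTypes X := by
  obtain ⟨a, b, c, d, hnd, hcut, -, h1⟩ := h
  rw [compl_compl] at h1
  rw [cut_compl] at hcut
  obtain ⟨φ, rfl, rfl, rfl, rfl⟩ := exists_emb4 a b c d hnd
  have hu : G.cut X = Finset.univ.map φ := by
    rw [hcut]
    ext e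
    simp only [Finset.mem_insert, Finset.mem_singleton, Finset.mem_map, Finset.mem_univ, true_and]
    constructor
    · rintro (rfl | rfl | rfl | rfl)
      · exact ⟨_, rfl⟩
      · exact ⟨_, rfl⟩
      · exact ⟨_, rfl⟩
      · exact ⟨_, rfl⟩
    · rintro ⟨i, rfl⟩
      fin_cases i <;> simp
  obtain ⟨s, rfl⟩ : ∃ s : Finset (Fin 4), g = s.map φ := by
    refine ⟨Finset.univ.filter fun i => φ i ∈ g, ?_⟩
    ext e
    simp only [Finset.mem_map, Finset.mem_filter, Finset.mem_univ, true_and]
    constructor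
    · intro he
      have h3 := hg he
      rw [hu, Finset.mem_map] at h3
      obtain ⟨i, -, rfl⟩ := h3
      exact ⟨i, he, rfl⟩
    · rintro ⟨i, hi, rfl⟩
      exact hi
  rw [Finset.card_map] at h2
  have hsd : G.cut X \ s.map φ = sᶜ.map φ := by
    rw [hu]
    ext e
    simp only [Finset.mem_map, Finset.mem_sdiff, Finset.mem_univ, true_and, Finset.mem_compl]
    constructor
    · rintro ⟨⟨i, rfl⟩, h3⟩
      exact ⟨i, fun h4 => h3 ⟨i, h4, rfl⟩, rfl⟩
    · rintro ⟨i, hi, rfl⟩
      refine ⟨⟨i, rfl⟩, ?_⟩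
      rintro ⟨j, hj, hji⟩
      exact hi (φ.injective hji ▸ hj)
  rw [h1, hsd]
  have h3 : (s.map φ ::ₘ s.map φ ::ₘ sᶜ.map φ ::ₘ sᶜ.map φ ::ₘ 0 : Multiset (Finset E)) =
      (s ::ₘ s ::ₘ sᶜ ::ₘ sᶜ ::ₘ 0 : Multiset (Finset (Fin 4))).map (Finset.map φ) := by
    simp only [Multiset.map_cons, Multiset.map_zero]
  rw [h3, mem_T0_iff]
  exact fin4_pair s h2

/-- no full trace on the T-side -/
theorem full_notMem_T [Fintype V] [Fintype E] {X : Finset V} (h : SSide G Xᶜ)
    {t : Multiset (Finset E)} (ht : t ∈ G.coverTypes X) : G.cut X ∉ t := by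
  obtain ⟨a, b, c, d, hnd, hcut, -, h1⟩ := h
  rw [compl_compl] at h1
  rw [cut_compl] at hcut
  rw [h1] at ht
  rw [hcut]
  exact full_not_mem_T a b c d hnd t ht

/-- no type `pqpq` on the S-side -/
theorem pqpq_notMem_S [Fintype V] [Fintype E] {X : Finset V} (h : SSide G X) {p q : Finset E}
    (hp : p.card = 2) (hq : q.card = 2) :
    (p ::ₘ p ::ₘ q ::ₘ q ::ₘ 0 : Multiset (Finset E)) ∉ G.coverTypes X := by
  obtain ⟨a, b, c, d, hnd, hcut, h1, -⟩ := h
  rw [h1]
  have h2 : (p ::ₘ p ::ₘ q ::ₘ q ::ₘ 0 : Multiset (Finset E)) = {p, q, p, q} := by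
    simp only [Multiset.insert_eq_cons]
    rw [Multiset.cons_swap p q]
    rfl
  rw [h2]
  exact pqpq_not_mem_S a b c d hnd p q hp hq

/-- the type of an edge `f = xy` given by the cover `p ∪ q`, `p + f`, `q + f` -/
theorem edge_type [Fintype V] [Fintype E] (hG : G.IsSmallestCounterexample) {x y : V}
    (hxy : x ≠ y) {f : E} (hfx : G.Inc f x) (hfy : G.Inc f y) {p q : Finset E}
    (h4 : (G.cut {x, y}).card = 4) (hcut : G.cut {x, y} = p ∪ q) (hpq : Disjoint p q)
    (p1 : ∀ v, v = x ∨ v = y → (p.filter fun e => G.Inc e v).card = 1)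
    (q1 : ∀ v, v = x ∨ v = y → (q.filter fun e => G.Inc e v).card = 1) :
    (G.cut {x, y} ::ₘ p ::ₘ q ::ₘ 0 : Multiset (Finset E)) ∈ G.coverTypes {x, y} := by
  have hl : ∀ e, G.fst e ≠ G.snd e := G.no_loop hG
  have hboth : ∀ e, G.Inc e x → G.Inc e y → e ∉ G.cut {x, y} ∧ e ∈ G.cut {x} ∩ G.cut {y} := by
    intro e hx hy
    have h1 := hl e
    rw [Inner.mem_cut G, Finset.mem_inter, Inner.mem_cut G, Inner.mem_cut G]
    simp only [Finset.mem_insert, Finset.mem_singleton]
    rcases hx with hx | hx <;> rcases hy with hy | hy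
    · exact absurd (hx.symm.trans hy) hxy
    · rw [hx, hy]
      tauto
    · rw [hx, hy]
      tauto
    · exact absurd (hx.symm.trans hy) hxy
  have hf := hboth f hfx hfy
  have hfp : f ∉ p := fun h => hf.1 (hcut ▸ Finset.mem_union_left _ h)
  have hfq : f ∉ q := fun h => hf.1 (hcut ▸ Finset.mem_union_right _ h)
  have honly : ∀ e, G.Meets {x, y} e → e ∉ p → e ∉ q → e = f := by
    intro e he hep heq
    have h1 : e ∉ G.cut {x, y} := by
      rw [hcut, Finset.mem_union]
      tauto
    have h2 : G.Inc e x ∧ G.Inc e y := by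
      have h3 := hl e
      unfold Meets at he
      rw [Inner.mem_cut G] at h1
      simp only [Finset.mem_insert, Finset.mem_singleton] at h1 he
      unfold Inc
      by_cases a1 : G.fst e = x
      · have a2 : G.snd e ≠ x := fun h => h3 (a1.trans h.symm)
        tauto
      · by_cases a2 : G.fst e = y
        · have a3 : G.snd e ≠ y := fun h => h3 (a2.trans h.symm)
          tauto
        · tauto
    have h3 := G.FC_pair hG hxy
    rw [h4] at h3
    have h5 : (G.cut {x} ∩ G.cut {y}).card ≤ 1 := by omega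
    exact Finset.card_le_one.1 h5 e (hboth e h2.1 h2.2).2 f hf.2
  have hdisj : ∀ e, e ∈ p → e ∉ q := fun e h => Finset.disjoint_left.1 hpq h
  have hmc : ∀ e, e ∈ p ∪ q → G.Meets {x, y} e := by
    intro e he
    rw [← hcut, Inner.mem_cut G] at he
    unfold Meets
    tauto
  have hmf : G.Meets {x, y} f := by
    unfold Meets
    rcases hfx with h | h
    · exact Or.inl (by rw [h]; simp)
    · exact Or.inr (by rw [h]; simp)
  have hvf : ∀ v, v = x ∨ v = y → G.Inc f v := by
    rintro v (rfl | rfl)
    · exact hfx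
    · exact hfy
  have hins : ∀ r : Finset E, f ∉ r → ∀ v, v = x ∨ v = y →
      (r.filter fun e => G.Inc e v).card = 1 → Even (G.deg (insert f r) v) := by
    intro r hfr v hv h1
    rw [G.deg_eq_card_inc hl, Finset.filter_insert, if_pos (hvf v hv),
      Finset.card_insert_of_notMem (fun h => hfr (Finset.mem_filter.1 h).1), h1]
    exact even_two
  refine ⟨(p ∪ q) ::ₘ insert f p ::ₘ insert f q ::ₘ 0, ⟨?_, ?_⟩, ?_⟩
  · intro C hC
    simp only [Multiset.mem_cons, Multiset.notMem_zero, or_false] at hC
    rcases hC with rfl | rfl | rfl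
    · refine ⟨hmc, fun v hv => ?_⟩
      rw [Finset.mem_insert, Finset.mem_singleton] at hv
      rw [G.deg_eq_card_inc hl, Finset.filter_union, Finset.card_union_of_disjoint
        (Finset.disjoint_filter_filter hpq), p1 v hv, q1 v hv]
      exact even_two
    · refine ⟨fun e he => ?_, fun v hv => ?_⟩
      · rcases Finset.mem_insert.1 he with rfl | h
        · exact hmf
        · exact hmc e (Finset.mem_union_left _ h)
      · rw [Finset.mem_insert, Finset.mem_singleton] at hv
        exact hins p hfp v hv (p1 v hv)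
    · refine ⟨fun e he => ?_, fun v hv => ?_⟩
      · rcases Finset.mem_insert.1 he with rfl | h
        · exact hmf
        · exact hmc e (Finset.mem_union_right _ h)
      · rw [Finset.mem_insert, Finset.mem_singleton] at hv
        exact hins q hfq v hv (q1 v hv)
  · intro e he
    rw [Multiset.countP_cons, Multiset.countP_cons, Multiset.countP_cons, Multiset.countP_zero]
    simp only [Finset.mem_union, Finset.mem_insert]
    by_cases h1 : e ∈ p
    · have h2 := hdisj e h1
      have h3 : e ≠ f := fun h => hfp (h ▸ h1)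
      simp [h1, h2, h3]
    · by_cases h2 : e ∈ q
      · have h3 : e ≠ f := fun h => hfq (h ▸ h2)
        simp [h1, h2, h3]
      · have h3 := honly e he h1 h2
        subst h3
        simp [h1, h2]
  · have t1 : (p ∪ q) ∩ G.cut {x, y} = G.cut {x, y} := by
      rw [hcut, Finset.inter_self]
    have t2 : insert f p ∩ G.cut {x, y} = p := by
      rw [Finset.insert_inter_of_notMem hf.1, hcut]
      exact Finset.inter_eq_left.2 Finset.subset_union_left
    have t3 : insert f q ∩ G.cut {x, y} = q := by
      rw [Finset.insert_inter_of_notMem hf.1, hcut]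
      exact Finset.inter_eq_left.2 Finset.subset_union_right
    have n1 : G.cut {x, y} ≠ ∅ := by
      intro h
      rw [h] at h4
      simp at h4
    have n2 : p ≠ ∅ := by
      intro h
      have := p1 x (Or.inl rfl)
      rw [h] at this
      simp at this
    have n3 : q ≠ ∅ := by
      intro h
      have := q1 x (Or.inl rfl)
      rw [h] at this
      simp at this
    rw [Multiset.map_cons, Multiset.map_cons, Multiset.map_cons, Multiset.map_zero, t1, t2, t3,
      fne_pos _ n1, fne_pos _ n2,
      fne_pos _ n3, Multiset.filter_zero]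

/-- a part of a cyclic 4-cut of size two, both of its edges having an end in `{x, y}` -/
theorem filter_one [Fintype V] [Fintype E] (hG : G.IsSmallestCounterexample) {X : Finset V}
    (hX : G.IsCyclicFourCut X) {x y : V} (hx : x ∉ X) (hy : y ∉ X) {p : Finset E}
    (hp : p ⊆ G.cut X) (h2 : p.card = 2) (hm : ∀ e ∈ p, G.Inc e x ∨ G.Inc e y) :
    ∀ v, v = x ∨ v = y → (p.filter fun e => G.Inc e v).card = 1 := by
  have hXc := G.isCyclicFourCut_compl X hX
  have hle : ∀ v, v ∉ X → (p.filter fun e => G.Inc e v).card ≤ 1 := by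
    intro v hv
    rw [Finset.card_le_one]
    intro a ha b hb
    rw [Finset.mem_filter] at ha hb
    by_contra hab
    refine G.finc_one hG hXc (Finset.mem_compl.2 hv) ?_ ?_ hab ha.2 hb.2
    · rw [cut_compl]
      exact hp ha.1
    · rw [cut_compl]
      exact hp hb.1
  have h3 : p.card ≤ (p.filter fun e => G.Inc e x).card + (p.filter fun e => G.Inc e y).card := by
    refine le_trans (Finset.card_le_card ?_) (Finset.card_union_le _ _)
    intro e he
    rw [Finset.mem_union, Finset.mem_filter, Finset.mem_filter]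
    rcases hm e he with h | h
    · exact Or.inl ⟨he, h⟩
    · exact Or.inr ⟨he, h⟩
  have h4 := hle x hx
  have h5 := hle y hy
  rintro v (rfl | rfl) <;> omega

/-- two disjoint cyclic 4-cuts of equal size with union different from `V` -/
theorem share_one_small [Fintype V] [Fintype E] (hG : G.IsSmallestCounterexample)
    (X Y : Finset V) (hX : G.IsCyclicFourCut X) (hY : G.IsCyclicFourCut Y)
    (hd : Disjoint X Y) (hc : X.card = Y.card) (hne : X ∪ Y ≠ Finset.univ) :
    (G.cut X ∩ G.cut Y).card ≤ 1 := by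
  by_contra hcon
  set g := G.cut X ∩ G.cut Y with hg
  have hXc := G.isCyclicFourCut_compl X hX
  have hYc := G.isCyclicFourCut_compl Y hY
  have cX : X.card + Xᶜ.card = Fintype.card V := Finset.card_add_card_compl X
  have cY : Y.card + Yᶜ.card = Fintype.card V := Finset.card_add_card_compl Y
  have cZ : (X ∪ Y).card = X.card + Y.card := Finset.card_union_of_disjoint hd
  have cZc : (X ∪ Y).card + (X ∪ Y)ᶜ.card = Fintype.card V := Finset.card_add_card_compl _
  have hlt : (X ∪ Y).card < Fintype.card V := by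
    rcases lt_or_eq_of_le (Finset.card_le_univ (X ∪ Y)) with h | h
    · exact h
    · exact absurd (Finset.eq_univ_of_card _ h) hne
  have pX : 0 < X.card := Finset.card_pos.2 hX.1
  have hcutZ : G.cut (X ∪ Y) = (G.cut X ∪ G.cut Y) \ g := G.cut_union_disj hd
  have hgX : g ⊆ G.cut X := Finset.inter_subset_left
  have hgY : g ⊆ G.cut Y := Finset.inter_subset_right
  have hgU : g ⊆ G.cut X ∪ G.cut Y := hgX.trans Finset.subset_union_left
  have k1 : (G.cut X ∪ G.cut Y).card + g.card = 8 := by
    rw [hg, Finset.card_union_add_card_inter, hX.2.2.1, hY.2.2.1]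
  have k2 : (G.cut (X ∪ Y)).card + g.card = (G.cut X ∪ G.cut Y).card := by
    rw [hcutZ]
    exact Finset.card_sdiff_add_card_eq_card hgU
  have k3 := G.three_le_card_cut hG (X ∪ Y) (hX.1.mono Finset.subset_union_left) hne
  have hg2 : g.card = 2 := by omega
  have h4 : (G.cut (X ∪ Y)).card = 4 := by omega
  set p := G.cut X \ g with hp
  set q := G.cut Y \ g with hq
  have hp2 : p.card = 2 := by
    have := Finset.card_sdiff_add_card_eq_card hgX
    rw [hX.2.2.1, ← hp] at this
    omega
  have hq2 : q.card = 2 := by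
    have := Finset.card_sdiff_add_card_eq_card hgY
    rw [hY.2.2.1, ← hq] at this
    omega
  have hpne : p ≠ ∅ := by
    intro h
    rw [h] at hp2
    simp at hp2
  have hqne : q ≠ ∅ := by
    intro h
    rw [h] at hq2
    simp at hq2
  have hgne : g ≠ ∅ := by
    intro h
    rw [h] at hg2
    simp at hg2
  have hpg : Disjoint p g := Finset.sdiff_disjoint
  have hqg : Disjoint q g := Finset.sdiff_disjoint
  have hpX : p ⊆ G.cut X := Finset.sdiff_subset
  have hqY : q ⊆ G.cut Y := Finset.sdiff_subset
  have hqgY : q ∪ g = G.cut Y := Finset.sdiff_union_of_subset hgY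
  have hZpq : G.cut (X ∪ Y) = p ∪ q := by
    rw [hcutZ, hp, hq, Finset.union_sdiff_distrib]
  have hcn : G.cut (X ∪ Y) ≠ ∅ := by
    intro h
    rw [h] at h4
    simp at h4
  have hpq : Disjoint p q := by
    rw [Finset.disjoint_left]
    intro e h1 h2
    refine (Finset.mem_sdiff.1 h1).2 (Finset.mem_inter.2 ⟨hpX h1, hqY h2⟩)
  -- the two sides have the same type
  have hty : (SSide G X ∧ SSide G Y) ∨ (SSide G Xᶜ ∧ SSide G Yᶜ) := by
    rcases G.sSide_or hG X hX with h | h <;> rcases G.sSide_or hG Y hY with h' | h'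
    · exact Or.inl ⟨h, h'⟩
    · have := G.card_eq_of_SSide hG X Yᶜ hX hYc h h'
      omega
    · have := G.card_eq_of_SSide hG Xᶜ Y hXc hY h h'
      omega
    · exact Or.inr ⟨h, h'⟩
  rcases G.inner_or_two hG (X ∪ Y)ᶜ (by rw [cut_compl, h4]) with hin | ⟨x, y, hxy, hW, f, hfx, hfy⟩
  · -- `X ∪ Y` is a side of a cyclic 4-cut
    have hZ : G.IsCyclicFourCut (X ∪ Y) := by
      refine ⟨hX.1.mono Finset.subset_union_left, hne, h4, G.isCyclicCut_of_inner _ ?_ hin⟩
      exact G.innerCircuit_mono Finset.subset_union_left (G.exists_inner_circuit hG X hX).1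
    have hZc := G.isCyclicFourCut_compl _ hZ
    rcases hty with ⟨hs, hs'⟩ | ⟨hs, hs'⟩
    · have hm := G.glue_two hd hg (G.full_full_mem hs) (G.full_full_mem hs') hgX hgX hgY hgY
        (by simp) (by simp)
      rw [← hcutZ, fne_pos _ hcn, fne_pos _ hcn] at hm
      rcases G.sSide_or hG _ hZ with h | h
      · have := G.card_eq_of_SSide hG X _ hX hZ hs h
        omega
      · exact G.full_notMem_T h hm (Multiset.mem_cons_self _ _)
    · have hm := G.glue_two hd hg (G.pair_pair_mem hs hgX hg2) (G.pair_pair_mem hs' hgY hg2)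
        subset_rfl subset_rfl subset_rfl subset_rfl
        (by
          intro s hs
          simp only [Multiset.mem_cons, Multiset.notMem_zero, or_false] at hs
          rcases hs with rfl | rfl <;> exact hpg)
        (by
          intro s hs
          simp only [Multiset.mem_cons, Multiset.notMem_zero, or_false] at hs
          rcases hs with rfl | rfl <;> exact hqg)
      have e1 : (g ∪ g) \ g = ∅ := by
        rw [Finset.union_self, Finset.sdiff_self]
      rw [e1] at hm
      have e2 : ((∅ : Finset E) ::ₘ ∅ ::ₘ ((p ::ₘ p ::ₘ 0) + (q ::ₘ q ::ₘ 0)) :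
          Multiset (Finset E)).filter (fun D => D ≠ ∅) = p ::ₘ p ::ₘ q ::ₘ q ::ₘ 0 := by
        rw [fne_neg, fne_neg,
          Multiset.cons_add, Multiset.cons_add, Multiset.zero_add,
          fne_pos _ hpne, fne_pos _ hpne,
          fne_pos _ hqne, fne_pos _ hqne,
          Multiset.filter_zero]
      rw [e2] at hm
      rcases G.sSide_or hG _ hZ with h | h
      · exact G.pqpq_notMem_S h hp2 hq2 hm
      · have := G.card_eq_of_SSide hG Xᶜ _ hXc hZc hs h
        omega
  · -- the rest is an edge
    have hWm : ∀ v, v ∈ ({x, y} : Finset V) ↔ v ∉ X ∧ v ∉ Y := by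
      intro v
      rw [← hW, Finset.mem_compl, Finset.mem_union, not_or]
    have hx := (hWm x).1 (by simp)
    have hy := (hWm y).1 (by simp)
    have hcutW : G.cut {x, y} = p ∪ q := by
      rw [← hW, cut_compl, hZpq]
    have hW4 : (G.cut {x, y}).card = 4 := by
      rw [← hW, cut_compl, h4]
    have hmeet : ∀ e ∈ p ∪ q, G.Inc e x ∨ G.Inc e y := by
      intro e he
      rw [← hcutW, Inner.mem_cut G] at he
      simp only [Finset.mem_insert, Finset.mem_singleton] at he
      unfold Inc
      tauto
    have p1 := G.filter_one hG hX hx.1 hy.1 hpX hp2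
      (fun e he => hmeet e (Finset.mem_union_left _ he))
    have q1 := G.filter_one hG hY hx.2 hy.2 hqY hq2
      (fun e he => hmeet e (Finset.mem_union_right _ he))
    have hWt := G.edge_type hG hxy hfx hfy hW4 hcutW hpq p1 q1
    have hdW : Disjoint X {x, y} := by
      rw [Finset.disjoint_left]
      intro v h1 h2
      exact ((hWm v).1 h2).1 h1
    have hU : X ∪ {x, y} = Yᶜ := by
      ext v
      rw [Finset.mem_union, hWm, Finset.mem_compl]
      have : v ∈ X → v ∉ Y := fun h => Finset.disjoint_left.1 hd h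
      tauto
    have hgW : p = G.cut X ∩ G.cut {x, y} := by
      rw [hcutW]
      ext e
      rw [Finset.mem_inter, Finset.mem_union]
      constructor
      · intro h
        exact ⟨hpX h, Or.inl h⟩
      · rintro ⟨h1, h2 | h2⟩
        · exact h2
        · exfalso
          exact (Finset.mem_sdiff.1 h2).2 (Finset.mem_inter.2 ⟨h1, hqY h2⟩)
    have hpW : p ⊆ G.cut {x, y} := by
      rw [hcutW]
      exact Finset.subset_union_left
    have hqp : ∀ s ∈ (q ::ₘ 0 : Multiset (Finset E)), Disjoint s p := by
      intro s hs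
      simp only [Multiset.mem_cons, Multiset.notMem_zero, or_false] at hs
      subst hs
      exact hpq.symm
    rcases hty with ⟨hs, hs'⟩ | ⟨hs, hs'⟩
    · have hm := G.glue_two hdW hgW (G.full_full_mem hs) hWt hpX hpX hpW subset_rfl
        (by simp) hqp
      have e1 : (G.cut X ∪ G.cut {x, y}) \ p = G.cut Y := by
        rw [hcutW, ← hqgY]
        ext e
        simp only [Finset.mem_sdiff, Finset.mem_union]
        have a1 : e ∈ p → e ∉ q := fun h => Finset.disjoint_left.1 hpq h
        have a2 : e ∈ p → e ∉ g := fun h => Finset.disjoint_left.1 hpg h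
        have a3 : e ∈ G.cut X ↔ e ∈ p ∨ e ∈ g := by
          rw [← Finset.mem_union, hp, Finset.sdiff_union_of_subset hgX]
        rw [a3]
        tauto
      rw [e1, hU] at hm
      have hYn : G.cut Y ≠ ∅ := by
        intro h
        have := hY.2.2.1
        rw [h] at this
        simp at this
      rw [fne_pos _ hYn] at hm
      refine G.full_notMem_T (X := Yᶜ) (by rw [compl_compl]; exact hs') hm ?_
      rw [cut_compl]
      exact Multiset.mem_cons_self _ _
    · have hpp := G.pair_pair_mem hs hpX hp2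
      have hgp : G.cut X \ p = g := by
        rw [hp, Finset.sdiff_sdiff_eq_self hgX]
      rw [hgp] at hpp
      have hm := G.glue_two hdW hgW hpp hWt subset_rfl subset_rfl hpW subset_rfl
        (by
          intro s hs
          simp only [Multiset.mem_cons, Multiset.notMem_zero, or_false] at hs
          rcases hs with rfl | rfl <;> exact hpg.symm) hqp
      have e1 : (p ∪ G.cut {x, y}) \ p = q := by
        rw [hcutW]
        ext e
        simp only [Finset.mem_sdiff, Finset.mem_union]
        have a1 : e ∈ p → e ∉ q := fun h => Finset.disjoint_left.1 hpq h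
        tauto
      have e2 : (p ∪ p) \ p = ∅ := by
        rw [Finset.union_self, Finset.sdiff_self]
      rw [e1, e2, hU] at hm
      have e3 : (q ::ₘ (∅ : Finset E) ::ₘ ((g ::ₘ g ::ₘ 0) + (q ::ₘ 0)) :
          Multiset (Finset E)).filter (fun D => D ≠ ∅) = q ::ₘ q ::ₘ g ::ₘ g ::ₘ 0 := by
        rw [fne_pos _ hqne, fne_neg,
          Multiset.cons_add, Multiset.cons_add, Multiset.zero_add,
          fne_pos _ hgne, fne_pos _ hgne,
          fne_pos _ hqne, Multiset.filter_zero]
        rw [Multiset.cons_swap g q 0, Multiset.cons_swap g q (g ::ₘ 0)]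
      rw [e3] at hm
      exact G.pqpq_notMem_S hs' hq2 hg2 hm

/-- the smaller side -/
theorem small_side [Fintype V] [Fintype E] (X : Finset V) (hX : G.IsCyclicFourCut X) :
    ∃ X' : Finset V, G.IsCyclicFourCut X' ∧ G.cut X' = G.cut X ∧
      2 * X'.card ≤ Fintype.card V := by
  have cX : X.card + Xᶜ.card = Fintype.card V := Finset.card_add_card_compl X
  by_cases h : 2 * X.card ≤ Fintype.card V
  · exact ⟨X, hX, rfl, h⟩
  · exact ⟨Xᶜ, G.isCyclicFourCut_compl X hX, G.cut_compl X, by omega⟩

/-- **Two different cyclic 4-edge-cuts of a smallest counterexample to the circuit double cover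
conjecture have at most one edge in common.** -/
theorem cuts_share_one [Fintype V] [Fintype E] (hG : G.IsSmallestCounterexample)
    (X Y : Finset V) (hX : G.IsCyclicFourCut X) (hY : G.IsCyclicFourCut Y)
    (hne : G.cut X ≠ G.cut Y) : (G.cut X ∩ G.cut Y).card ≤ 1 := by
  obtain ⟨X', hX', hXX, hXs⟩ := G.small_side X hX
  obtain ⟨Y', hY', hYY, hYs⟩ := G.small_side Y hY
  rw [← hXX, ← hYY] at hne ⊢
  obtain ⟨hc, h | hd⟩ := G.main_two hG X' Y' hX' hY' hXs hYs
  · exact absurd (by rw [h]) hne
  · refine G.share_one_small hG X' Y' hX' hY' hd hc ?_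
    intro h
    apply hne
    have : Y' = X'ᶜ := by
      ext v
      have h1 : v ∈ X' ∪ Y' := by
        rw [h]
        exact Finset.mem_univ _
      rw [Finset.mem_union] at h1
      rw [Finset.mem_compl]
      have : v ∈ X' → v ∉ Y' := fun h => Finset.disjoint_left.1 hd h
      tauto
    rw [this, cut_compl]

end MGraph
end CDCut
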