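import Pool.Agent.CDCut.Bridge
import Pool.Agent.CDCut.Cov

/-!
# Module `Split`: splitting off two edges at a vertex

Let `a ≠ b` be two non-loop edges at the vertex `v`, with other ends `oa = G.other a v` and
`ob = G.other b v`.  The graph `G.split a b v` has the same vertices, the edge `b` is deleted and
the edge `a` now joins `oa` and `ob`.

**`card_cut_split`.**  If `v ∈ Z` iff not `oa ∈ Z`, etc.: write `x = [v ∈ Z]`, `y = [oa ∈ Z]`,
`z = [ob ∈ Z]`.  In `G` the edges `a, b` contribute `[x ≠ y] + [x ≠ z]`, in the new graph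
`[y ≠ z]`.  The difference is `2` if `y = z ≠ x` and `0` otherwise.

**`evenCover_split`.**  From an even cover `F'` of the split graph: replace every member `C` by its
image in `E`, together with `b` if `a ∈ C`.  At a vertex `u` the contribution of the new edge `a`
to the degree is `[oa = u] + [ob = u]`, and that of `{a, b}` in `G` is
`[v = u] + [oa = u] + [v = u] + [ob = u]`, which has the same parity.  The edge `b` is in exactly as
many members as `a`.

**`exists_cut_of_pair`.**  Otherwise `G.split a b v` has no cut of size one (its cuts have size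
`(G.cut Z).card` or `(G.cut Z).card - 2`, the latter only if `a, b ∈ G.cut Z`), so it is bridgeless
(`bridgeless_iff`), it has fewer edges than `G`, so it has a CDC and `G` has an even cover, hence
a CDC, a contradiction.
-/

open scoped Classical

namespace CDCut
namespace MGraph

variable {V E : Type} (G : MGraph V E)

/-- the end of `e` different from `v` -/
noncomputable def other (e : E) (v : V) : V := if G.fst e = v then G.snd e else G.fst e

/-- split off the edges `a`, `b` at the vertex `v` -/
noncomputable def split (a b : E) (v : V) : MGraph V {e // e ≠ b} where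
  fst := fun e => if e.1 = a then G.other a v else G.fst e.1
  snd := fun e => if e.1 = a then G.other b v else G.snd e.1

namespace SplitAux

theorem card_erase_add {α : Type} [DecidableEq α] (s : Finset α) (a : α) [Decidable (a ∈ s)] :
    (s.erase a).card + (if a ∈ s then 1 else 0) = s.card := by
  by_cases h : a ∈ s
  · rw [if_pos h, Finset.card_erase_add_one h]
  · rw [if_neg h, Finset.erase_eq_of_notMem h, add_zero]

theorem mem_cut_iff [Fintype E] {e : E} {v : V} (h : G.Inc e v) (Z : Finset V) :
    e ∈ G.cut Z ↔ (v ∈ Z ↔ G.other e v ∉ Z) := by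
  unfold cut other
  rw [Finset.mem_filter]
  by_cases h1 : G.fst e = v
  · rw [if_pos h1, h1]
    by_cases h2 : v ∈ Z <;> by_cases h3 : G.snd e ∈ Z <;> simp [h2, h3]
  · have h2 : G.snd e = v := h.resolve_left h1
    rw [if_neg h1, h2]
    by_cases h3 : v ∈ Z <;> by_cases h4 : G.fst e ∈ Z <;> simp [h3, h4]

theorem mem_cut_split_a [Fintype E] {a b : E} (v : V) (hab : a ≠ b) (Z : Finset V) :
    (⟨a, hab⟩ : {e // e ≠ b}) ∈ (G.split a b v).cut Z ↔
      (G.other a v ∈ Z ↔ G.other b v ∉ Z) := by
  unfold cut split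
  rw [Finset.mem_filter]
  simp only [if_true, Finset.mem_univ, true_and]
  by_cases h3 : G.other a v ∈ Z <;> by_cases h4 : G.other b v ∈ Z <;> simp [h3, h4]

theorem mem_cut_split_of_ne [Fintype E] {a b : E} (v : V) (Z : Finset V) {e : {e // e ≠ b}}
    (he : e.1 ≠ a) : e ∈ (G.split a b v).cut Z ↔ e.1 ∈ G.cut Z := by
  unfold cut split
  rw [Finset.mem_filter, Finset.mem_filter]
  simp only [if_neg he, Finset.mem_univ, true_and]

theorem deg_singleton (f : E) (v : V) :
    G.deg {f} v = (if G.fst f = v then 1 else 0) + (if G.snd f = v then 1 else 0) := by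
  unfold deg
  rw [Finset.filter_singleton, Finset.filter_singleton]
  by_cases h1 : G.fst f = v <;> by_cases h2 : G.snd f = v <;> simp [h1, h2]

theorem deg_singleton_other {f : E} {v : V} (h : G.Inc f v) (u : V) :
    G.deg {f} u = (if v = u then 1 else 0) + (if G.other f v = u then 1 else 0) := by
  rw [deg_singleton]
  unfold other
  by_cases h1 : G.fst f = v
  · rw [if_pos h1, h1]
  · have h2 : G.snd f = v := h.resolve_left h1
    rw [if_neg h1, h2, add_comm]

/-- the image of a set of edges of the split graph -/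
def img {b : E} (C : Finset {e // e ≠ b}) : Finset E := C.map ⟨Subtype.val, Subtype.val_injective⟩

theorem mem_img {b : E} {C : Finset {e // e ≠ b}} {e : E} :
    e ∈ img C ↔ ∃ h : e ≠ b, (⟨e, h⟩ : {e // e ≠ b}) ∈ C := by
  unfold img
  rw [Finset.mem_map]
  constructor
  · rintro ⟨f, hf, rfl⟩
    exact ⟨f.2, hf⟩
  · rintro ⟨h, hC⟩
    exact ⟨_, hC, rfl⟩

theorem deg_eq_sum (C : Finset E) (u : V) : G.deg C u =
    ∑ e ∈ C, ((if G.fst e = u then 1 else 0) + (if G.snd e = u then 1 else 0)) := by
  unfold deg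
  rw [Finset.sum_add_distrib, Finset.card_filter, Finset.card_filter]

theorem deg_img {b : E} (C : Finset {e // e ≠ b}) (u : V) : G.deg (img C) u =
    ∑ e ∈ C, ((if G.fst e.1 = u then 1 else 0) + (if G.snd e.1 = u then 1 else 0)) := by
  rw [deg_eq_sum, img, Finset.sum_map]
  rfl

theorem deg_img_of_notMem {a b : E} (v : V) (hab : a ≠ b) {C : Finset {e // e ≠ b}}
    (hC : (⟨a, hab⟩ : {e // e ≠ b}) ∉ C) (u : V) :
    G.deg (img C) u = (G.split a b v).deg C u := by
  rw [deg_img, deg_eq_sum]
  refine Finset.sum_congr rfl fun e he => ?_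
  have hne : e.1 ≠ a := by
    intro h
    apply hC
    have : e = ⟨a, hab⟩ := Subtype.ext h
    rw [← this]
    exact he
  simp only [split, if_neg hne]

/-- the set of edges of `G` corresponding to a set of edges of the split graph -/
noncomputable def lift {a b : E} (hab : a ≠ b) (C : Finset {e // e ≠ b}) : Finset E :=
  img C ∪ (if (⟨a, hab⟩ : {e // e ≠ b}) ∈ C then {b} else ∅)

theorem even_lift {a b : E} {v : V} (hab : a ≠ b) (ha : G.Inc a v) (hb : G.Inc b v)
    {C : Finset {e // e ≠ b}} {u : V} (h : Even ((G.split a b v).deg C u)) :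
    Even (G.deg (lift hab C) u) := by
  unfold lift
  by_cases haC : (⟨a, hab⟩ : {e // e ≠ b}) ∈ C
  · rw [if_pos haC]
    have hdisj : Disjoint (img C) {b} := by
      rw [Finset.disjoint_singleton_right, mem_img]
      rintro ⟨h1, -⟩
      exact h1 rfl
    rw [G.deg_union _ _ hdisj]
    have e1 : G.deg (img C) u = G.deg {a} u + G.deg (img (C.erase ⟨a, hab⟩)) u := by
      rw [deg_img, deg_img, deg_singleton, ← Finset.add_sum_erase _ _ haC]
    have e2 : (G.split a b v).deg C u = (G.split a b v).deg {⟨a, hab⟩} u +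
        (G.split a b v).deg (C.erase ⟨a, hab⟩) u := by
      rw [deg_singleton, deg_eq_sum, deg_eq_sum, ← Finset.add_sum_erase _ _ haC]
    have e3 : (G.split a b v).deg {⟨a, hab⟩} u =
        (if G.other a v = u then 1 else 0) + (if G.other b v = u then 1 else 0) := by
      rw [deg_singleton]
      simp only [split, if_true]
    rw [e2, e3, ← deg_img_of_notMem G v hab (Finset.notMem_erase _ _)] at h
    rw [e1, deg_singleton_other G ha, deg_singleton_other G hb]
    have e4 : (if v = u then 1 else 0) + (if G.other a v = u then 1 else 0) +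
        G.deg (img (C.erase ⟨a, hab⟩)) u +
        ((if v = u then 1 else 0) + (if G.other b v = u then 1 else 0)) =
        2 * (if v = u then 1 else 0) + ((if G.other a v = u then 1 else 0) +
          (if G.other b v = u then 1 else 0) + G.deg (img (C.erase ⟨a, hab⟩)) u) := by ring
    rw [e4]
    exact (even_two_mul _).add h
  · rw [if_neg haC, Finset.union_empty, deg_img_of_notMem G v hab haC]
    exact h

theorem mem_lift_of_ne {a b : E} (hab : a ≠ b) {e : E} (he : e ≠ b) (C : Finset {e // e ≠ b}) :
    e ∈ lift hab C ↔ (⟨e, he⟩ : {e // e ≠ b}) ∈ C := by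
  unfold lift
  rw [Finset.mem_union, mem_img]
  constructor
  · rintro (⟨h1, h2⟩ | h2)
    · exact h2
    · exfalso
      split_ifs at h2 with h3
      · exact he (Finset.mem_singleton.1 h2)
      · simp at h2
  · intro h
    exact Or.inl ⟨he, h⟩

theorem mem_lift_b {a b : E} (hab : a ≠ b) (C : Finset {e // e ≠ b}) :
    b ∈ lift hab C ↔ (⟨a, hab⟩ : {e // e ≠ b}) ∈ C := by
  unfold lift
  rw [Finset.mem_union, mem_img]
  constructor
  · rintro (⟨h1, -⟩ | h2)
    · exact absurd rfl h1
    · split_ifs at h2 with h3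
      · exact h3
      · simp at h2
  · intro h
    right
    rw [if_pos h]
    exact Finset.mem_singleton_self b

end SplitAux

open SplitAux

theorem card_cut_split [Fintype V] [Fintype E] (a b : E) (v : V) (hab : a ≠ b)
    (ha : G.Inc a v) (hb : G.Inc b v) (hla : G.fst a ≠ G.snd a) (hlb : G.fst b ≠ G.snd b)
    (Z : Finset V) :
    ((G.split a b v).cut Z).card + (if a ∈ G.cut Z ∧ b ∈ G.cut Z then 2 else 0)
      = (G.cut Z).card := by
  have h1 := card_erase_add (G.cut Z) b
  have h2 := card_erase_add ((G.cut Z).erase b) a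
  have h3 := card_erase_add ((G.split a b v).cut Z) ⟨a, hab⟩
  have h4 : (((G.split a b v).cut Z).erase ⟨a, hab⟩).card = (((G.cut Z).erase b).erase a).card := by
    rw [← Finset.card_map ⟨Subtype.val, Subtype.val_injective⟩]
    congr 1
    ext e
    simp only [Finset.mem_map, Finset.mem_erase, Function.Embedding.coeFn_mk]
    constructor
    · rintro ⟨f, ⟨hf1, hf2⟩, rfl⟩
      have hfa : f.1 ≠ a := fun h => hf1 (Subtype.ext h)
      exact ⟨hfa, f.2, (mem_cut_split_of_ne G v Z hfa).1 hf2⟩
    · rintro ⟨hea, heb, hcut⟩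
      exact ⟨⟨e, heb⟩, ⟨fun h => hea (congrArg Subtype.val h),
        (mem_cut_split_of_ne G v Z (e := ⟨e, heb⟩) hea).2 hcut⟩, rfl⟩
  have h5 : (a ∈ (G.cut Z).erase b) ↔ a ∈ G.cut Z := by
    rw [Finset.mem_erase]
    exact ⟨fun h => h.2, fun h => ⟨hab, h⟩⟩
  have h6 := mem_cut_iff G ha Z
  have h7 := mem_cut_iff G hb Z
  have h8 := mem_cut_split_a G v hab Z
  simp only [h5] at h2
  have h9 : (if (⟨a, hab⟩ : {e // e ≠ b}) ∈ (G.split a b v).cut Z then 1 else 0) +
      (if a ∈ G.cut Z ∧ b ∈ G.cut Z then 2 else 0) =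
      (if a ∈ G.cut Z then 1 else 0) + (if b ∈ G.cut Z then 1 else 0) := by
    simp only [h6, h7, h8]
    by_cases x : v ∈ Z <;> by_cases y : G.other a v ∈ Z <;> by_cases z : G.other b v ∈ Z <;>
      simp [x, y, z]
  omega

theorem evenCover_split [Fintype V] [Fintype E] (a b : E) (v : V) (hab : a ≠ b)
    (ha : G.Inc a v) (hb : G.Inc b v) (hla : G.fst a ≠ G.snd a) (hlb : G.fst b ≠ G.snd b)
    (F' : Multiset (Finset {e // e ≠ b})) (hF : (G.split a b v).EvenCover F') :
    ∃ F, G.EvenCover F := by
  refine ⟨F'.map (lift hab), ?_, ?_⟩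
  · intro C hC u
    obtain ⟨C', hC', rfl⟩ := Multiset.mem_map.1 hC
    exact even_lift G hab ha hb (hF.1 C' hC' u)
  · intro e
    rw [Multiset.countP_map]
    by_cases he : e = b
    · subst he
      rw [← hF.2 ⟨a, hab⟩, Multiset.countP_eq_card_filter]
      exact congrArg Multiset.card
        (@Multiset.filter_congr _ _ _ (_) (_) F' fun C _ => mem_lift_b hab C)
    · rw [← hF.2 ⟨e, he⟩, Multiset.countP_eq_card_filter]
      exact congrArg Multiset.card
        (@Multiset.filter_congr _ _ _ (_) (_) F' fun C _ => mem_lift_of_ne hab he C)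

theorem exists_cut_of_pair [Fintype V] [Fintype E] (hG : G.IsSmallestCounterexample) (a b : E)
    (v : V) (hab : a ≠ b) (ha : G.Inc a v) (hb : G.Inc b v) (hla : G.fst a ≠ G.snd a)
    (hlb : G.fst b ≠ G.snd b) :
    ∃ Z : Finset V, (G.cut Z).card = 3 ∧ a ∈ G.cut Z ∧ b ∈ G.cut Z := by
  by_contra hno
  have hbl : (G.split a b v).Bridgeless := by
    rw [bridgeless_iff]
    intro Z hZ
    have h1 := G.card_cut_split a b v hab ha hb hla hlb Z
    rw [hZ] at h1
    by_cases h2 : a ∈ G.cut Z ∧ b ∈ G.cut Z
    · rw [if_pos h2] at h1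
      exact hno ⟨Z, h1.symm, h2.1, h2.2⟩
    · rw [if_neg h2] at h1
      exact (G.bridgeless_iff.1 hG.1.1) Z h1.symm
  have hcdc : (G.split a b v).HasCDC := by
    by_contra h
    have h1 := hG.2 V {e // e ≠ b} (G.split a b v) ⟨hbl, h⟩
    have h2 : Fintype.card {e // e ≠ b} < Fintype.card E :=
      Fintype.card_subtype_lt (x := b) (by simp)
    omega
  obtain ⟨F', hF'⟩ := (G.split a b v).exists_evenCover_of_hasCDC hcdc
  obtain ⟨F, hF⟩ := G.evenCover_split a b v hab ha hb hla hlb F' hF'
  exact hG.1.2 (G.hasCDC_of_evenCover F hF)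

end MGraph
end CDCut
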