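import Pool.Agent.CDCut.NoLoop
import Pool.Agent.CDCut.Split
import Pool.Agent.CDCut.Contract
import Pool.Agent.CDCut.Glue
import Pool.Agent.CDCut.Trace

/-!
# Module `SmallCut`: small edge-cuts in a smallest counterexample

**(i)** If `2 ≤ Z.card`, `2 ≤ Zᶜ.card` and `(cut Z).card ≤ 3`, then `coverTypes Z` and
`coverTypes Zᶜ` are nonempty (`coverTypes_nonempty`), their elements are `IsTrace (cut Z)`
(`isTrace_of_coverTypes`, `cut_compl`), so by `small_type_unique` they have a common element and
`G` has a CDC by `hasCDC_of_common`: contradiction.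

**(ii)** `3 ≤ (cut {v}).card` for every vertex `v`.  There are no loops (`no_loop`), so all edges
at `v` are in `cut {v}`; there is at least one (`no_isolated`), and not exactly one (cuts of a
bridgeless graph do not have size 1, `bridgeless_iff`).  Suppose that `cut {v} = {a, b}`, `a ≠ b`.
By `exists_cut_of_pair` there is `Z` with `(cut Z).card = 3`, `a, b ∈ cut Z`; replacing `Z` by `Zᶜ`
we may assume `v ∉ Z`, so the other ends of `a` and `b` are in `Z`.  Then
`cut (insert v Z) = cut Z \ {a, b}` has size 1, a contradiction.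

**`three_le_card_cut`.**  Let `Z` be nonempty and `≠ univ`.  If `Z` or `Zᶜ` is a single vertex use
(ii) (and `cut_compl`), otherwise use (i).

**`card_cut_eq_three`.**  From (i).
-/

open scoped Classical

namespace CDCut
namespace MGraph

variable {V E : Type} (G : MGraph V E)

theorem four_le_card_cut [Fintype V] [Fintype E] (hG : G.IsSmallestCounterexample)
    (Z : Finset V) (h1 : 2 ≤ Z.card) (h2 : 2 ≤ Zᶜ.card) : 4 ≤ (G.cut Z).card := by
  by_contra h
  have h3 : (G.cut Z).card ≤ 3 := by omega
  obtain ⟨t, ht⟩ := G.coverTypes_nonempty hG Z h2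
  obtain ⟨t', ht'⟩ := G.coverTypes_nonempty hG Zᶜ (by rw [compl_compl]; exact h1)
  have h4 := G.isTrace_of_coverTypes Z t ht
  have h5 := G.isTrace_of_coverTypes Zᶜ t' ht'
  rw [G.cut_compl Z] at h5
  have h6 := small_type_unique (G.cut Z) h3 t t' h4 h5
  subst h6
  exact hG.1.2 (G.hasCDC_of_common Z t ht ht')

theorem card_cut_insert [Fintype V] [Fintype E] {v : V} {a b : E} {Z : Finset V}
    (hl : ∀ e, G.fst e ≠ G.snd e) (hv : G.cut {v} = {a, b}) (ha : a ∈ G.cut Z)
    (hb : b ∈ G.cut Z) (hvZ : v ∉ Z) : G.cut (insert v Z) = G.cut Z \ {a, b} := by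
  rw [← hv]
  have hsub : ∀ e, e ∈ G.cut {v} → e ∈ G.cut Z := by
    intro e he
    rw [hv] at he
    rcases Finset.mem_insert.1 he with rfl | he
    · exact ha
    · rw [Finset.mem_singleton] at he
      subst he
      exact hb
  ext e
  have h1 := hsub e
  have h2 := hl e
  rw [Finset.mem_sdiff]
  simp only [cut, Finset.mem_filter, Finset.mem_univ, true_and, Finset.mem_singleton,
    Finset.mem_insert] at h1 ⊢
  by_cases h3 : G.fst e = v <;> by_cases h4 : G.snd e = v
  · exact absurd (h3.trans h4.symm) h2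
  · rw [h3] at h1 ⊢
    tauto
  · rw [h4] at h1 ⊢
    tauto
  · tauto

theorem three_le_card_star [Fintype V] [Fintype E] (hG : G.IsSmallestCounterexample) (v : V) :
    3 ≤ (G.cut {v}).card := by
  have hl := G.no_loop hG
  have hbr := G.bridgeless_iff.1 hG.1.1
  obtain ⟨e, he⟩ := G.no_isolated hG v
  have he1 : e ∈ G.cut {v} := by
    have h2 := hl e
    simp only [cut, Finset.mem_filter, Finset.mem_univ, true_and, Finset.mem_singleton]
    rcases he with h | h
    · exact Or.inl ⟨h, fun h3 => h2 (h.trans h3.symm)⟩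
    · exact Or.inr ⟨fun h3 => h2 (h3.trans h.symm), h⟩
  have h1 : 0 < (G.cut {v}).card := Finset.card_pos.2 ⟨e, he1⟩
  have h2 := hbr {v}
  by_contra h3
  have h4 : (G.cut {v}).card = 2 := by omega
  obtain ⟨a, b, hab, hv⟩ := Finset.card_eq_two.1 h4
  have hinc : ∀ f ∈ G.cut {v}, G.Inc f v := by
    intro f hf
    simp only [cut, Finset.mem_filter, Finset.mem_univ, true_and, Finset.mem_singleton] at hf
    rcases hf with h | h
    · exact Or.inl h.1
    · exact Or.inr h.2
  have hav : G.Inc a v := hinc a (by rw [hv]; simp)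
  have hbv : G.Inc b v := hinc b (by rw [hv]; simp)
  have key : ∀ Z : Finset V, (G.cut Z).card = 3 → a ∈ G.cut Z → b ∈ G.cut Z → v ∉ Z → False := by
    intro Z hZ ha hb hvZ
    have h5 := G.card_cut_insert hl hv ha hb hvZ
    apply hbr (insert v Z)
    rw [h5, Finset.card_sdiff_of_subset, hZ, Finset.card_pair hab]
    intro x hx
    rcases Finset.mem_insert.1 hx with rfl | hx
    · exact ha
    · rw [Finset.mem_singleton] at hx
      subst hx
      exact hb
  obtain ⟨Z, hZ, ha, hb⟩ := G.exists_cut_of_pair hG a b v hab hav hbv (hl a) (hl b)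
  by_cases hvZ : v ∈ Z
  · refine key Zᶜ ?_ ?_ ?_ ?_
    · rw [G.cut_compl Z]; exact hZ
    · rw [G.cut_compl Z]; exact ha
    · rw [G.cut_compl Z]; exact hb
    · rw [Finset.mem_compl, not_not]; exact hvZ
  · exact key Z hZ ha hb hvZ

theorem three_le_card_cut [Fintype V] [Fintype E] (hG : G.IsSmallestCounterexample)
    (Z : Finset V) (h1 : Z.Nonempty) (h2 : Z ≠ Finset.univ) : 3 ≤ (G.cut Z).card := by
  have h3 : 0 < Z.card := Finset.card_pos.2 h1
  have h4 : 0 < Zᶜ.card := by
    rw [Finset.card_pos, Finset.nonempty_iff_ne_empty]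
    intro h5
    exact h2 (Finset.compl_eq_empty_iff Z |>.1 h5)
  by_cases h5 : Z.card = 1
  · obtain ⟨v, rfl⟩ := Finset.card_eq_one.1 h5
    exact G.three_le_card_star hG v
  · by_cases h6 : Zᶜ.card = 1
    · obtain ⟨v, hv⟩ := Finset.card_eq_one.1 h6
      rw [← G.cut_compl Z, hv]
      exact G.three_le_card_star hG v
    · have := G.four_le_card_cut hG Z (by omega) (by omega)
      omega

theorem card_cut_eq_three [Fintype V] [Fintype E] (hG : G.IsSmallestCounterexample)
    (Z : Finset V) (h : (G.cut Z).card = 3) : Z.card = 1 ∨ Zᶜ.card = 1 := by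
  by_contra h1
  rw [not_or] at h1
  have h2 : Z.card ≠ 0 := by
    intro h2
    rw [Finset.card_eq_zero] at h2
    rw [h2, G.cut_empty, Finset.card_empty] at h
    omega
  have h3 : Zᶜ.card ≠ 0 := by
    intro h3
    rw [Finset.card_eq_zero] at h3
    rw [← G.cut_compl Z, h3, G.cut_empty, Finset.card_empty] at h
    omega
  have := G.four_le_card_cut hG Z (by omega) (by omega)
  omega

end MGraph
end CDCut
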