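import Pool.Agent.CDCut.Parity

/-!
# Module `Veblen`: even edge sets decompose into circuits

**Proof of `exists_circuit_mem`.**  Let `D ⊆ C` be an even set (all degrees even) containing `e`
with the least number of edges.

(1) `D` has no proper nonempty even subset `D'`: otherwise `D'` or `D \ D'` (which is even as well)
contains `e` and is smaller.

(2) `D` is connected: the set `K` of all edges of `D` that can be reached from `e` by steps between
edges of `D` sharing a vertex is even (at each vertex `v` it contains all edges of `D` at `v` or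
none), nonempty, hence `K = D`; the relation is symmetric, so any two edges are related.

(3) `D` is 2-regular.  Let `U = {v | 0 < deg D v}`; each `v ∈ U` has `deg D v ≥ 2`.  Suppose that
`D.card ≥ U.card + 1`.  Choose `v0 ∈ U` (`U` is nonempty as `e ∈ D`).  Map each subset `A ⊆ D` to
the set of those `v ∈ U \ {v0}` for which `deg A v` is odd.  There are `2^D.card > 2 * 2^(U.card-1)`
subsets, so three different subsets `A1, A2, A3` have the same image (pigeonhole,
`Finset.exists_lt_card_fiber_of_mul_lt_card_of_maps_to`).  Then `A1 ∆ A2` and `A1 ∆ A3` are two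
different nonempty subsets of `D` that have even degree at all `v ≠ v0`, hence also at `v0` by the
handshake lemma.  One of them is different from `D`: contradiction to (1).  So
`D.card ≤ U.card`, and `2 * U.card ≤ ∑_{v ∈ U} deg D v = 2 * D.card ≤ 2 * U.card`, so all degrees
in `U` are equal to 2.

**Proof of `exists_decomposition`.**  Strong induction on `C.card`: if `C` is empty take `F = 0`;
otherwise take a circuit `D ⊆ C` and apply the induction hypothesis to `C \ D`.
-/

open scoped Classical

namespace CDCut
namespace MGraph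

variable {V E : Type} (G : MGraph V E)

namespace VeblenAux

theorem deg_sdiff {C D : Finset E} (h : D ⊆ C) (v : V) :
    G.deg C v = G.deg D v + G.deg (C \ D) v := by
  rw [← G.deg_union D (C \ D) Finset.disjoint_sdiff, Finset.union_sdiff_of_subset h]

theorem even_sdiff {C D : Finset E} (h : D ⊆ C) (hC : ∀ v, Even (G.deg C v))
    (hD : ∀ v, Even (G.deg D v)) (v : V) : Even (G.deg (C \ D) v) := by
  have h1 := hC v
  rw [deg_sdiff G h v] at h1
  exact (Nat.even_add.1 h1).1 (hD v)

theorem exists_minimal (C : Finset E) (hC : ∀ v, Even (G.deg C v)) {e : E} (he : e ∈ C) :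
    ∃ D ⊆ C, e ∈ D ∧ (∀ v, Even (G.deg D v)) ∧
      ∀ D' ⊆ D, D'.Nonempty → (∀ v, Even (G.deg D' v)) → D' = D := by
  obtain ⟨D, hD, hmin⟩ := Finset.exists_min_image
    (C.powerset.filter fun D => e ∈ D ∧ ∀ v, Even (G.deg D v)) Finset.card
    ⟨C, Finset.mem_filter.2 ⟨Finset.mem_powerset_self C, he, hC⟩⟩
  rw [Finset.mem_filter, Finset.mem_powerset] at hD
  obtain ⟨hDC, heD, hDe⟩ := hD
  refine ⟨D, hDC, heD, hDe, ?_⟩
  intro D' hD' hne hev
  by_cases h : e ∈ D'
  · have h1 := hmin D' (Finset.mem_filter.2
      ⟨Finset.mem_powerset.2 (hD'.trans hDC), h, hev⟩)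
    exact Finset.eq_of_subset_of_card_le hD' h1
  · exfalso
    have h1 := hmin (D \ D') (Finset.mem_filter.2
      ⟨Finset.mem_powerset.2 (Finset.sdiff_subset.trans hDC), Finset.mem_sdiff.2 ⟨heD, h⟩,
        even_sdiff G hD' hDe hev⟩)
    have h2 := Finset.card_sdiff_add_card_eq_card hD'
    have h3 := hne.card_pos
    omega

theorem connected {D : Finset E} (hDe : ∀ v, Even (G.deg D v))
    (hmin : ∀ D' ⊆ D, D'.Nonempty → (∀ v, Even (G.deg D' v)) → D' = D) {e : E} (he : e ∈ D) :
    ∀ f ∈ D, ∀ g ∈ D,
      Relation.ReflTransGen (fun x y => x ∈ D ∧ y ∈ D ∧ ∃ v, G.Inc x v ∧ G.Inc y v) f g := by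
  set r : E → E → Prop := fun x y => x ∈ D ∧ y ∈ D ∧ ∃ v, G.Inc x v ∧ G.Inc y v with hr
  have hsymm : ∀ x y, r x y → r y x := fun x y ⟨h1, h2, v, h3, h4⟩ => ⟨h2, h1, v, h4, h3⟩
  have hrev : ∀ x y, Relation.ReflTransGen r x y → Relation.ReflTransGen r y x := by
    intro x y h
    induction h with
    | refl => exact Relation.ReflTransGen.refl
    | tail _ hbc ih => exact Relation.ReflTransGen.head (hsymm _ _ hbc) ih
  set K : Finset E := D.filter fun f => Relation.ReflTransGen r e f with hK
  have hKD : K ⊆ D := Finset.filter_subset _ _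
  have hKe : ∀ v, Even (G.deg K v) := by
    intro v
    by_cases h : ∃ f ∈ K, G.Inc f v
    · obtain ⟨f, hfK, hfv⟩ := h
      have hall : ∀ g ∈ D, G.Inc g v → g ∈ K := by
        intro g hg hgv
        rw [hK, Finset.mem_filter] at hfK ⊢
        exact ⟨hg, hfK.2.tail ⟨hfK.1, hg, v, hfv, hgv⟩⟩
      have h1 : G.deg K v = G.deg D v := by
        unfold deg
        congr 2
        · ext g
          simp only [Finset.mem_filter]
          constructor
          · rintro ⟨h1, h2⟩
            exact ⟨hKD h1, h2⟩
          · rintro ⟨h1, h2⟩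
            exact ⟨hall g h1 (Or.inl h2), h2⟩
        · ext g
          simp only [Finset.mem_filter]
          constructor
          · rintro ⟨h1, h2⟩
            exact ⟨hKD h1, h2⟩
          · rintro ⟨h1, h2⟩
            exact ⟨hall g h1 (Or.inr h2), h2⟩
      rw [h1]
      exact hDe v
    · have h1 : G.deg K v = 0 := by
        by_contra h2
        exact h ((G.deg_pos_iff K v).1 (Nat.pos_of_ne_zero h2))
      rw [h1]
      exact Even.zero
  have heK : e ∈ K := Finset.mem_filter.2 ⟨he, Relation.ReflTransGen.refl⟩
  have hKeq : K = D := hmin K hKD ⟨e, heK⟩ hKe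
  have hreach : ∀ f ∈ D, Relation.ReflTransGen r e f := by
    intro f hf
    rw [← hKeq] at hf
    exact (Finset.mem_filter.1 hf).2
  intro f hf g hg
  exact (hrev _ _ (hreach f hf)).trans (hreach g hg)

/-- an edge set that is even off one vertex is even -/
theorem even_of_even_off [Fintype V] {B : Finset E} {v0 : V}
    (h : ∀ v, v ≠ v0 → Even (G.deg B v)) (v : V) : Even (G.deg B v) := by
  by_cases hv : v = v0
  · subst hv
    have h1 := G.sum_deg B
    rw [← Finset.add_sum_erase _ _ (Finset.mem_univ v)] at h1
    have h2 : Even (∑ x ∈ Finset.univ.erase v, G.deg B x) :=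
      Finset.even_sum _ fun x hx => h x (Finset.ne_of_mem_erase hx)
    have h3 : Even (G.deg B v + ∑ x ∈ Finset.univ.erase v, G.deg B x) := by
      rw [h1]
      exact even_two_mul _
    exact (Nat.even_add.1 h3).2 h2
  · exact h v hv

theorem regular [Fintype V] {D : Finset E} (hDe : ∀ v, Even (G.deg D v))
    (hmin : ∀ D' ⊆ D, D'.Nonempty → (∀ v, Even (G.deg D' v)) → D' = D) {e : E} (he : e ∈ D) :
    ∀ v, G.deg D v = 0 ∨ G.deg D v = 2 := by
  set U : Finset V := Finset.univ.filter fun v => 0 < G.deg D v with hU
  have hU2 : ∀ v ∈ U, 2 ≤ G.deg D v := by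
    intro v hv
    have h1 := (Finset.mem_filter.1 hv).2
    obtain ⟨m, hm⟩ := hDe v
    omega
  have hv0 : G.fst e ∈ U :=
    Finset.mem_filter.2 ⟨Finset.mem_univ _, (G.deg_pos_iff D _).2 ⟨e, he, Or.inl rfl⟩⟩
  have hUpos : 0 < U.card := Finset.card_pos.2 ⟨_, hv0⟩
  have hcard : D.card ≤ U.card := by
    by_contra hlt
    rw [not_le] at hlt
    have hmaps : ∀ A ∈ D.powerset, ((U.erase (G.fst e)).filter fun v => Odd (G.deg A v)) ∈
        (U.erase (G.fst e)).powerset := fun A _ =>
      Finset.mem_powerset.2 (Finset.filter_subset _ _)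
    have hlt2 : (U.erase (G.fst e)).powerset.card * 2 < D.powerset.card := by
      rw [Finset.card_powerset, Finset.card_powerset, Finset.card_erase_of_mem hv0]
      calc 2 ^ (U.card - 1) * 2 = 2 ^ U.card := by
            rw [← pow_succ]
            congr 1
            omega
        _ < 2 ^ D.card := Nat.pow_lt_pow_right (by norm_num) hlt
    obtain ⟨Y, -, hY⟩ := Finset.exists_lt_card_fiber_of_mul_lt_card_of_maps_to hmaps hlt2
    obtain ⟨A1, h1, A2, h2, A3, h3, h12, h13, h23⟩ := Finset.two_lt_card.1 hY
    rw [Finset.mem_filter, Finset.mem_powerset] at h1 h2 h3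
    have key : ∀ A B : Finset E, A ⊆ D → B ⊆ D → A ≠ B →
        ((U.erase (G.fst e)).filter fun v => Odd (G.deg A v)) =
          ((U.erase (G.fst e)).filter fun v => Odd (G.deg B v)) → symmDiff A B = D := by
      intro A B hA hB hAB heq
      have hsub : symmDiff A B ⊆ D := by
        intro x hx
        rw [Finset.mem_symmDiff] at hx
        rcases hx with hx | hx
        · exact hA hx.1
        · exact hB hx.1
      refine hmin _ hsub ?_ (even_of_even_off G (v0 := G.fst e) ?_)
      · rw [Finset.nonempty_iff_ne_empty]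
        intro h0
        apply hAB
        exact symmDiff_eq_bot.1 h0
      · intro v hv
        by_cases hvU : v ∈ U
        · rw [G.even_deg_symmDiff]
          have hvE : v ∈ U.erase (G.fst e) := Finset.mem_erase.2 ⟨hv, hvU⟩
          have h4 : Odd (G.deg A v) ↔ Odd (G.deg B v) := by
            constructor
            · intro h5
              have h6 : v ∈ (U.erase (G.fst e)).filter fun v => Odd (G.deg A v) :=
                Finset.mem_filter.2 ⟨hvE, h5⟩
              rw [heq] at h6
              exact (Finset.mem_filter.1 h6).2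
            · intro h5
              have h6 : v ∈ (U.erase (G.fst e)).filter fun v => Odd (G.deg B v) :=
                Finset.mem_filter.2 ⟨hvE, h5⟩
              rw [← heq] at h6
              exact (Finset.mem_filter.1 h6).2
          rw [← Nat.not_odd_iff_even, ← Nat.not_odd_iff_even, not_iff_not]
          exact h4
        · have h4 : G.deg D v = 0 := by
            by_contra h5
            exact hvU (Finset.mem_filter.2 ⟨Finset.mem_univ _, Nat.pos_of_ne_zero h5⟩)
          have h5 := G.deg_mono hsub v
          have h6 : G.deg (symmDiff A B) v = 0 := by omega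
          rw [h6]
          exact Even.zero
    have k12 := key A1 A2 h1.1 h2.1 h12 (h1.2.trans h2.2.symm)
    have k13 := key A1 A3 h1.1 h3.1 h13 (h1.2.trans h3.2.symm)
    exact h23 (symmDiff_right_injective A1 (k12.trans k13.symm))
  have hsum : ∑ v ∈ U, G.deg D v = 2 * D.card := by
    rw [← G.sum_deg D, hU, Finset.sum_filter_of_ne]
    intro v _ hv
    exact Nat.pos_of_ne_zero hv
  intro v
  by_cases hv : v ∈ U
  · right
    by_contra hne
    have h1 : ∑ w ∈ U, 2 < ∑ w ∈ U, G.deg D w := by
      refine Finset.sum_lt_sum hU2 ⟨v, hv, ?_⟩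
      have := hU2 v hv
      omega
    rw [Finset.sum_const, smul_eq_mul, hsum] at h1
    omega
  · left
    by_contra h5
    exact hv (Finset.mem_filter.2 ⟨Finset.mem_univ _, Nat.pos_of_ne_zero h5⟩)

end VeblenAux

theorem exists_circuit_mem [Fintype V] (C : Finset E) (hC : ∀ v, Even (G.deg C v)) {e : E}
    (he : e ∈ C) : ∃ D ⊆ C, G.IsCircuit D ∧ e ∈ D := by
  obtain ⟨D, hDC, heD, hDe, hmin⟩ := VeblenAux.exists_minimal G C hC he
  exact ⟨D, hDC, ⟨⟨e, heD⟩, VeblenAux.regular G hDe hmin heD,
    VeblenAux.connected G hDe hmin heD⟩, heD⟩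

theorem exists_decomposition [Fintype V] (C : Finset E) (hC : ∀ v, Even (G.deg C v)) :
    ∃ F : Multiset (Finset E), (∀ D ∈ F, G.IsCircuit D) ∧
      ∀ e, F.countP (fun D => e ∈ D) = if e ∈ C then 1 else 0 := by
  induction hn : C.card using Nat.strong_induction_on generalizing C with
  | _ n ih =>
    rcases C.eq_empty_or_nonempty with rfl | ⟨e, he⟩
    · refine ⟨0, by simp, ?_⟩
      intro e
      simp
    · obtain ⟨D, hDC, hcirc, heD⟩ := G.exists_circuit_mem C hC he
      have hDe : ∀ v, Even (G.deg D v) := by
        intro v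
        rcases hcirc.2.1 v with h | h <;> rw [h]
        · exact Even.zero
        · exact even_two
      have hlt : (C \ D).card < n := by
        have h2 := Finset.card_sdiff_add_card_eq_card hDC
        have h3 := hcirc.1.card_pos
        omega
      obtain ⟨F, hF1, hF2⟩ := ih _ hlt (C \ D) (VeblenAux.even_sdiff G hDC hC hDe) rfl
      refine ⟨D ::ₘ F, ?_, ?_⟩
      · intro D' hD'
        rcases Multiset.mem_cons.1 hD' with rfl | h
        · exact hcirc
        · exact hF1 D' h
      · intro f
        by_cases hf : f ∈ D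
        · rw [Multiset.countP_cons_of_pos (p := fun D => f ∈ D) F hf, hF2 f, if_neg, if_pos (hDC hf)]
          intro h
          exact (Finset.mem_sdiff.1 h).2 hf
        · rw [Multiset.countP_cons_of_neg (p := fun D => f ∈ D) F hf, hF2 f]
          by_cases hfC : f ∈ C
          · rw [if_pos hfC, if_pos (Finset.mem_sdiff.2 ⟨hfC, hf⟩)]
          · rw [if_neg hfC, if_neg]
            intro h
            exact hfC (Finset.mem_sdiff.1 h).1

end MGraph
end CDCut
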